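import Pool.Agent.H36.LI.MfE
import Pool.Agent.H36.LH.CorT

/-!
# THEOREM L, version 5 (MP_187c26_nt): the main inequality for polynomials, two forms

MODEL: `corT1`, `corT2` in `Pool/Agent/H36/LH/CorT.lean` (copy and change: `mi_corE` in the place of `mi_corT`, `T := E₀ T₁`, so `1 ≤ T`). Imports may be sorried.
-/

set_option autoImplicit false

open Polynomial NumberField IntermediateField
open scoped Polynomial.Bivariate

namespace Pool.Agent.H36.LI

open Pool.Agent.H36.LE Pool.Agent.H36.LF Pool.Agent.H36.LH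

/-- the polynomial with the coefficients `c` -/
private noncomputable def pl (A : Type) [Field A] (n L : ℕ) : (Fin n × Fin L → A) →ₗ[A] A[X][Y] where
  toFun c := ∑ p : Fin n × Fin L, monomial (p.2 : ℕ) (monomial (p.1 : ℕ) (c p))
  map_add' c c' := by
    rw [← Finset.sum_add_distrib]
    refine Finset.sum_congr rfl fun p _ => ?_
    rw [Pi.add_apply, map_add, map_add]
  map_smul' r c := by
    rw [RingHom.id_apply, Finset.smul_sum]
    refine Finset.sum_congr rfl fun p _ => ?_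
    rw [Pi.smul_apply, smul_monomial, smul_monomial]

private theorem pl_coeff {A : Type} [Field A] (n L : ℕ) (c : Fin n × Fin L → A) (p : Fin n × Fin L) :
    ((pl A n L c).coeff (p.2 : ℕ)).coeff (p.1 : ℕ) = c p := by
  show ((∑ q : Fin n × Fin L, monomial (q.2 : ℕ) (monomial (q.1 : ℕ) (c q)) : A[X][Y]).coeff
    (p.2 : ℕ)).coeff (p.1 : ℕ) = c p
  rw [finsetSum_coeff, finsetSum_coeff, Finset.sum_eq_single p]
  · rw [coeff_monomial, if_pos rfl, coeff_monomial, if_pos rfl]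
  · intro q _ hqp
    rw [coeff_monomial]
    split_ifs with h1
    · rw [coeff_monomial]
      split_ifs with h2
      · exact absurd (Prod.ext (Fin.ext h2) (Fin.ext h1)) hqp
      · rfl
    · rw [coeff_zero]
  · intro h
    exact absurd (Finset.mem_univ p) h

private theorem pl_mem {A : Type} [Field A] (n L : ℕ) (c : Fin n × Fin L → A) : pl A n L c ∈ BS A n L := by
  refine Submodule.sum_mem _ fun p _ => ⟨(degree_monomial_le _ _).trans_lt (by exact_mod_cast p.2.2),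
    fun j => ?_⟩
  rw [coeff_monomial]
  split_ifs
  · exact (degree_monomial_le _ _).trans_lt (by exact_mod_cast p.1.2)
  · rw [degree_zero]
    exact WithBot.bot_lt_coe _

private theorem pl_inj (A : Type) [Field A] (n L : ℕ) : Function.Injective (pl A n L) := by
  intro c c' h
  funext p
  rw [← pl_coeff n L c p, h, pl_coeff]

private theorem pl_surj {A : Type} [Field A] (n L : ℕ) {P : A[X][Y]} (hP : P ∈ BS A n L) :
    ∃ c, pl A n L c = P := by
  refine ⟨fun p => (P.coeff (p.2 : ℕ)).coeff (p.1 : ℕ), ?_⟩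
  have hm := pl_mem n L fun p => (P.coeff (p.2 : ℕ)).coeff (p.1 : ℕ)
  refine Polynomial.ext fun j => Polynomial.ext fun i => ?_
  by_cases hj : j < L
  · by_cases hi : i < n
    · exact pl_coeff n L _ (⟨i, hi⟩, ⟨j, hj⟩)
    · rw [(degree_lt_iff_coeff_zero _ _).1 (hP.2 j) i (not_lt.1 hi),
        (degree_lt_iff_coeff_zero _ _).1 (hm.2 j) i (not_lt.1 hi)]
  · rw [(degree_lt_iff_coeff_zero _ _).1 hP.1 j (not_lt.1 hj),
      (degree_lt_iff_coeff_zero _ _).1 hm.1 j (not_lt.1 hj)]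

private theorem tw_mono {A : Type} [Field A] (σ : A →+* A) (n m : ℕ) (r : A) :
    tw σ (monomial n (monomial m r) : A[X][Y]) = monomial n (monomial m (σ r)) := by
  unfold tw
  rw [coe_mapRingHom, map_monomial, coe_mapRingHom, map_monomial]

private theorem tw_id {A : Type} [Field A] (P : A[X][Y]) : tw (RingHom.id A) P = P := by
  unfold tw
  rw [mapRingHom_id, mapRingHom_id, RingHom.id_apply]

private theorem pl_eval {A E : Type} [Field A] [NumberField A] [Field E] [NumberField E] [Algebra A E]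
    (σ : A →+* A) (x a : E) (n L γ : ℕ) (c : Fin n × Fin L → A) :
    aevalAeval (R := A) (x ^ γ) (a ^ γ) (tw σ (pl A n L c)) = bzA σ x a n L γ c := by
  show aevalAeval (R := A) (x ^ γ) (a ^ γ)
    (tw σ (∑ q : Fin n × Fin L, monomial (q.2 : ℕ) (monomial (q.1 : ℕ) (c q)) : A[X][Y])) = _
  have h1 : ∀ (n m : ℕ) (r : A), (monomial n (monomial m r) : A[X][Y]) =
      algebraMap A A[X][Y] r * (C X) ^ m * X ^ n := by
    intro n m r
    rw [← C_mul_X_pow_eq_monomial, ← C_mul_X_pow_eq_monomial, C_mul, C_pow]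
    rfl
  rw [map_sum, map_sum, bzA_apply]
  refine Finset.sum_congr rfl fun p _ => ?_
  rw [tw_mono, h1, map_mul, map_mul, map_pow, map_pow, AlgHom.commutes, aevalAeval_X, aevalAeval_Y, ← pow_mul,
    ← pow_mul, mul_assoc]

private theorem pl_eval0 {A E : Type} [Field A] [NumberField A] [Field E] [NumberField E] [Algebra A E]
    (x a : E) (n L γ : ℕ) (c : Fin n × Fin L → A) :
    aevalAeval (R := A) (x ^ γ) (a ^ γ) (pl A n L c) = bzA (RingHom.id A) x a n L γ c := by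
  rw [← pl_eval, tw_id]

private theorem pg_pl {A : Type} [Field A] (n L : ℕ) (c : Fin n × Fin L → A) :
    pg n L 1 c = pl A n L c := by
  unfold pg
  simp only [one_mul]
  rfl

private theorem jt_kA {A E : Type} [Field A] [NumberField A] [Field E] [NumberField E] [Algebra A E]
    (x a : E) (m n L g T : ℕ) (hT : 1 ≤ T) : JT A x a m n L g T ≤ kA (RingHom.id A) x a n L g := by
  intro c hc
  have h1 := hc 0 0 (by omega)
  have h2 : (wj m g 0 0 : Fin n × Fin L → ℚ) = fun _ => 1 := by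
    funext p
    rw [wj, pow_zero, one_mul, Nat.choose_zero_right, Nat.cast_one]
  rwa [h2, kU_one] at h1

private theorem com {A E : Type} [Field A] [NumberField A] [Field E] [NumberField E] [Algebra A E]
    {b m d : ℕ} {ι : ℝ} {x : E} (hx : RdA A b m d ι x) (hι : 0 ≤ ι) (δ : ℕ) (hδ : 1 ≤ δ)
    (hM : Mx A x δ) (σ : ℕ → (A →+* A)) (a : E) (ha : a ≠ 0) (n L g E₀ T₁ C : ℕ) (hn1 : 1 ≤ n)
    (hL : 1 ≤ L) (hg1 : 1 ≤ g) (hE : 1 ≤ E₀) (hT : 1 ≤ T₁) (hng : (n - 1) * g < m)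
    (𝒬 : Finset ℕ)
    (h𝒬 : ∀ q ∈ 𝒬, q.Prime ∧ ¬ q ∣ δ ∧ FrobE A q E₀ (σ q) ∧ (n - 1) * (g * q) < m ∧
      (2 * Real.log b + ι + Real.log (L * d) / 2 + (E₀ * T₁ : ℕ) * Real.log (g * L) +
        (E₀ * T₁ * (E₀ * T₁ + 1) : ℕ) * Real.log δ + 1) +
        C * (2 * Real.log b + ι + Real.log (L * d) / 2 + 1) ≤ (C * T₁ : ℕ) * Real.log q ∧
      (g * q * L : ℝ) * absLogHeight₁ a ≤ 1) :
    ∃ V : Submodule A A[X][Y], V ≤ VsA A σ x a n L g 𝒬 ∧
      n * L - Module.finrank A V ≤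
        (C + 1) * (n * L - Module.finrank A (JT A x a m n L g (E₀ * T₁))) := by
  have h1 := mi_corE hx hι δ hδ hM σ a ha n L g E₀ T₁ C hn1 hL hg1 hng 𝒬 h𝒬
  have hET : 1 ≤ E₀ * T₁ := Nat.mul_pos hE hT
  refine ⟨(JT A x a m n L g (E₀ * T₁) ⊓
        ⨅ q ∈ 𝒬, kA (σ q) x a n L (g * q) : Submodule A (Fin n × Fin L → A)).map (pl A n L), ?_, ?_⟩
  · rintro P ⟨c, hc, rfl⟩
    obtain ⟨h2, h3⟩ := Submodule.mem_inf.1 hc
    simp only [Submodule.mem_iInf] at h3
    have h4 : bzA (RingHom.id A) x a n L g c = 0 := jt_kA x a m n L g (E₀ * T₁) hET h2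
    refine ⟨pl_mem n L c, by rw [pl_eval0]; exact h4, fun q hq => ?_⟩
    rw [pl_eval]
    exact h3 q hq
  · rw [← (LinearEquiv.finrank_eq (Submodule.equivMapOfInjective (pl A n L) (pl_inj A n L) _))]
    exact h1

/-- all the jets of order `i, k < T` -/
private noncomputable def jm (A : Type) {E : Type} [Field A] [NumberField A] [Field E]
    [NumberField E] [Algebra A E] (x a : E) (m n L g T : ℕ) :
    (Fin n × Fin L → A) →ₗ[A] (Fin T × Fin T → E) where
  toFun c q := bu (RingHom.id A) x a n L g (wj m g q.1 q.2) c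
  map_add' c c' := by
    funext q
    rw [map_add]
    rfl
  map_smul' w c := by
    funext q
    rw [Pi.smul_apply, bu_apply, bu_apply, Finset.smul_sum]
    refine Finset.sum_congr rfl fun p _ => ?_
    simp only [RingHom.id_apply]
    rw [Pi.smul_apply, smul_eq_mul, map_mul, Algebra.smul_def, mul_assoc]

private theorem jt_codim {A E : Type} [Field A] [NumberField A] [Field E] [NumberField E]
    [Algebra A E] (x a : E) (m n L g T : ℕ) :
    n * L - Module.finrank A (JT A x a m n L g T) ≤ T * T * Module.finrank A E := by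
  have hfin : Module.Finite A E := Module.Finite.of_restrictScalars_finite ℚ A E
  have h1 := LinearMap.finrank_range_add_finrank_ker (jm A x a m n L g T)
  rw [Module.finrank_fintype_fun_eq_card, Fintype.card_prod, Fintype.card_fin,
    Fintype.card_fin] at h1
  have h2 : LinearMap.ker (jm A x a m n L g T) ≤ JT A x a m n L g T := by
    intro c hc i k hik
    exact congrFun (LinearMap.mem_ker.1 hc) (⟨i, by omega⟩, ⟨k, by omega⟩)
  have h3 := Submodule.finrank_mono h2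
  have h4 := Submodule.finrank_le (LinearMap.range (jm A x a m n L g T))
  rw [Module.finrank_pi_fintype, Finset.sum_const, Finset.card_univ, Fintype.card_prod,
    Fintype.card_fin, smul_eq_mul] at h4
  omega

private theorem dX_pow' {A : Type} [Field A] (G : A[X][Y]) (T : ℕ) : dX (G ^ T) = T * dX G := by
  unfold dX
  rw [map_pow, natDegree_pow]

private theorem jt_ML {A E : Type} [Field A] [NumberField A] [Field E] [NumberField E]
    [Algebra A E] {b m : ℕ} {x a : E} (hb : 1 ≤ b) (hm : 1 ≤ m) (hx : x ^ m = (b : E)) (ha : a ≠ 0)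
    (n L g T : ℕ) (G : A[X][Y]) (hG0 : G ≠ 0) (hG : aevalAeval (R := A) (x ^ g) (a ^ g) G = 0) :
    (n - T * dX G) * (L - T * G.natDegree) ≤ Module.finrank A (JT A x a m n L g T) := by
  have h1 := finrank_ML (G ^ T) (pow_ne_zero T hG0) n L
  rw [dX_pow', natDegree_pow] at h1
  rw [← h1, LinearEquiv.finrank_eq
    (Submodule.equivMapOfInjective (pl A n L) (pl_inj A n L) (JT A x a m n L g T))]
  apply Submodule.finrank_mono
  rintro P ⟨hP, U, hU⟩
  obtain ⟨c, rfl⟩ := pl_surj n L hP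
  exact ⟨c, jet_pow hb hm hx ha n L g T c G U hG (by rw [pg_pl]; exact hU), rfl⟩

theorem corE1 {A E : Type} [Field A] [NumberField A] [Field E] [NumberField E] [Algebra A E]
    {b m d : ℕ} {ι : ℝ} {x : E} (hx : RdA A b m d ι x) (hι : 0 ≤ ι) (δ : ℕ) (hδ : 1 ≤ δ)
    (hM : Mx A x δ) (σ : ℕ → (A →+* A)) (a : E) (ha : a ≠ 0) (n L g E₀ T₁ C : ℕ) (hn1 : 1 ≤ n)
    (hL : 1 ≤ L) (hg1 : 1 ≤ g) (hE : 1 ≤ E₀) (hT : 1 ≤ T₁) (hng : (n - 1) * g < m)
    (𝒬 : Finset ℕ)
    (h𝒬 : ∀ q ∈ 𝒬, q.Prime ∧ ¬ q ∣ δ ∧ FrobE A q E₀ (σ q) ∧ (n - 1) * (g * q) < m ∧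
      (2 * Real.log b + ι + Real.log (L * d) / 2 + (E₀ * T₁ : ℕ) * Real.log (g * L) +
        (E₀ * T₁ * (E₀ * T₁ + 1) : ℕ) * Real.log δ + 1) +
        C * (2 * Real.log b + ι + Real.log (L * d) / 2 + 1) ≤ (C * T₁ : ℕ) * Real.log q ∧
      (g * q * L : ℝ) * absLogHeight₁ a ≤ 1) :
    ∃ V : Submodule A A[X][Y], V ≤ VsA A σ x a n L g 𝒬 ∧
      n * L - Module.finrank A V ≤ (C + 1) * (E₀ * T₁ * (E₀ * T₁ + 1) * (m * d)) := by
  obtain ⟨V, hV, h1⟩ := com hx hι δ hδ hM σ a ha n L g E₀ T₁ C hn1 hL hg1 hE hT hng 𝒬 h𝒬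
  refine ⟨V, hV, h1.trans (Nat.mul_le_mul_left _ ?_)⟩
  have h2 := jt_codim (A := A) x a m n L g (E₀ * T₁)
  rw [hx.fin] at h2
  refine h2.trans (Nat.mul_le_mul_right _ (Nat.mul_le_mul_left _ (Nat.le_succ (E₀ * T₁))))

theorem corE2 {A E : Type} [Field A] [NumberField A] [Field E] [NumberField E] [Algebra A E]
    {b m d : ℕ} {ι : ℝ} {x : E} (hx : RdA A b m d ι x) (hι : 0 ≤ ι) (δ : ℕ) (hδ : 1 ≤ δ)
    (hM : Mx A x δ) (σ : ℕ → (A →+* A)) (a : E) (ha : a ≠ 0) (n L g E₀ T₁ C : ℕ) (hn1 : 1 ≤ n)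
    (hL : 1 ≤ L) (hg1 : 1 ≤ g) (hE : 1 ≤ E₀) (hT : 1 ≤ T₁) (hng : (n - 1) * g < m)
    (𝒬 : Finset ℕ)
    (h𝒬 : ∀ q ∈ 𝒬, q.Prime ∧ ¬ q ∣ δ ∧ FrobE A q E₀ (σ q) ∧ (n - 1) * (g * q) < m ∧
      (2 * Real.log b + ι + Real.log (L * d) / 2 + (E₀ * T₁ : ℕ) * Real.log (g * L) +
        (E₀ * T₁ * (E₀ * T₁ + 1) : ℕ) * Real.log δ + 1) +
        C * (2 * Real.log b + ι + Real.log (L * d) / 2 + 1) ≤ (C * T₁ : ℕ) * Real.log q ∧
      (g * q * L : ℝ) * absLogHeight₁ a ≤ 1)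
    (G : A[X][Y]) (hG : G ≠ 0) (h0 : aevalAeval (R := A) (x ^ g) (a ^ g) G = 0) :
    ∃ V : Submodule A A[X][Y], V ≤ VsA A σ x a n L g 𝒬 ∧
      n * L - Module.finrank A V ≤
        (C + 1) * (n * L - (n - E₀ * T₁ * dX G) * (L - E₀ * T₁ * G.natDegree)) := by
  obtain ⟨V, hV, h3⟩ := com hx hι δ hδ hM σ a ha n L g E₀ T₁ C hn1 hL hg1 hE hT hng 𝒬 h𝒬
  refine ⟨V, hV, h3.trans (Nat.mul_le_mul_left _ ?_)⟩
  exact Nat.sub_le_sub_left (jt_ML hx.b1 hx.m1 hx.pow ha n L g (E₀ * T₁) G hG h0) _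

end Pool.Agent.H36.LI
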