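import Pool.Agent.H36.LI.CorE
import Pool.Agent.H36.LH.FaC

/-!
# THEOREM L, version 5 (MP_187c26_nt), parameters, part 1

MODEL: `finAC` in `Pool/Agent/H36/LH/FaC.lean` (copy and change). Imports may be sorried (`corE1`). All constants are explicit polynomials in `e`: `E₀ = 2 e + 5`, `T₁ = e + 30`, `T = E₀ T₁` (`≤ 150 (e + 1)^2`), `C = T^2`, `(C + 1) T (T + 1) ≤ 4 T^4`, and `K` is chosen in terms of `b`, `δ₀` and the constant of `many_primes` only, `Z ≥ K (e + 1)^9`: in particular `Z ≥ 16 T^4`, `Z ≥ e + 3`, and `log Z ≥ 8 (2 log b + log δ₀ + 2) + 8 log 4`.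
PROOF. `Q = Z^12`, `L = Z^20 d`, `n = m / Z^12 + 1`, `𝒬 = {q ∈ [1, Z^12] prime, Z^12 < 4 q, q ∉ ℬ}`. By `many_primes` for `Z^12`: `#𝒬 ≥ Z^9 - (e + 3) ≥ 4 Z^8`. `corE1` with `g = 1`: `log (L d) ≤ (20 + 2 e) log Z`, `log (g L) ≤ (20 + e) log Z`, `log q ≥ 12 log Z - log 4`; with `c := 2 log b + log δ + 1`: the left side is at most
`(10 + e) log Z + T (20 + e) log Z + T (T + 1) log δ + C (10 + e) log Z + (C + 1) c ≤ C (e + 12) log Z + 2 C log δ + 2 C c ≤ C (e + 13) log Z` (`10 + e ≤ C`, `T (20 + e) ≤ C`, `T (T + 1) ≤ 2 C`), the right side `C T₁ log q ≥ C (e + 30) (12 log Z - log 4) ≥ C (e + 30) log Z`. `q L h ≤ Z^32 d h ≤ 1`.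
`stepAC` (`Pool/Agent/H36/LH/SaC.lean`) with `M₀ = m d`, `D := (C + 1) T (T + 1) m d`: `n L > m d Z^8 > D`, `2 n L ≤ 4 m d Z^8 ≤ m d #𝒬`. `dX G Z^20 d ≤ D ≤ Z m d`, `natDegree G ≤ 2 (C + 1) T (T + 1) Z^12 d ≤ Z^13 d`.
-/

set_option autoImplicit false

open Polynomial NumberField IntermediateField
open scoped Polynomial.Bivariate

namespace Pool.Agent.H36.LI

open Pool.Agent.H36.LE Pool.Agent.H36.LF Pool.Agent.H36.LH

private theorem finac_h {E : Type} [Field E] [CharZero E] (a : E) : 0 ≤ absLogHeight₁ a := by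
  unfold absLogHeight₁ absMulHeight₁
  split_ifs with hx
  · have : FiniteDimensional ℚ ℚ⟮a⟯ := adjoin.finiteDimensional hx
    have : NumberField ℚ⟮a⟯ := {}
    refine Real.log_nonneg ?_
    exact Real.one_le_rpow (Height.one_le_mulHeight₁ _) (by positivity)
  · rw [Real.log_one]

theorem finAE (b : ℕ) (hb : 2 ≤ b) (δ₀ : ℕ) : ∃ K : ℕ, ∀ e Z : ℕ, K * (e + 1) ^ 9 ≤ Z →
    ∀ (A E : Type) [Field A] [NumberField A] [Field E] [NumberField E] [Algebra A E]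
      (m d δ : ℕ) (x a : E) (σ : ℕ → (A →+* A)) (ℬ : Finset ℕ), 1 ≤ δ → δ ≤ δ₀ →
      RdA A b m d (Real.log δ) x → Mx A x δ →
      (∀ q : ℕ, q.Prime → Z ≤ q → q ≤ Z ^ 12 → FrobE A q (2 * e + 5) (σ q)) →
      ℬ.card ≤ e + 3 →
      (∀ q : ℕ, q.Prime → Z ^ 11 < q → q ≤ Z ^ 12 → q ∉ ℬ →
        m * d ≤ Module.finrank A (IntermediateField.adjoin A ({x ^ q, a ^ q} : Set E))) →
      d ≤ Z ^ e → Z ^ 18 ≤ m → a ≠ 0 → (Z : ℝ) ^ 32 * (d * absLogHeight₁ a) ≤ 1 →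
      ∃ (q : ℕ) (G : A[X][Y]), q.Prime ∧ Z ^ 11 < q ∧ q ≤ Z ^ 12 ∧ q ∉ ℬ ∧ Irreducible G ∧
        aevalAeval (R := A) (x ^ q) (a ^ q) G = 0 ∧ 1 ≤ G.natDegree ∧
        G.natDegree ≤ d * Z ^ 13 ∧ dX G * Z ^ 19 ≤ m := by
  obtain ⟨T₀, hT₀⟩ := many_primes
  obtain ⟨lam, hlam⟩ : ∃ lam : ℝ, lam = Real.log (max δ₀ 1 : ℕ) := ⟨_, rfl⟩
  have hlam0 : 0 ≤ lam := by
    rw [hlam]
    exact Real.log_nonneg (by exact_mod_cast le_max_right δ₀ 1)
  obtain ⟨cc, hcc⟩ : ∃ cc : ℝ, cc = 2 * Real.log b + lam + 1 := ⟨_, rfl⟩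
  obtain ⟨E1, hE1⟩ : ∃ E1 : ℕ, E1 = ⌈Real.exp (2 * cc + 2 * lam + Real.log 4)⌉₊ := ⟨_, rfl⟩
  obtain ⟨N0, hN0⟩ : ∃ N0 : ℕ, N0 = 8 * 150 ^ 4 := ⟨_, rfl⟩
  refine ⟨T₀ + N0 + (δ₀ + 1) + E1 + 7, ?_⟩
  intro e Z hZ A E _ _ _ _ _ m d δ x a σ ℬ hδ1 hδ0 hx hMx hσ hℬ hdg hde hm ha hh
  have hfinAE : Module.Finite A E := Module.Finite.of_restrictScalars_finite ℚ A E
  obtain ⟨t, ht⟩ : ∃ t : ℕ, t = (2 * e + 5) * (e + 30) := ⟨_, rfl⟩
  obtain ⟨K, hK⟩ : ∃ K : ℕ, K = (t ^ 2 + 1) * (t * (t + 1)) := ⟨_, rfl⟩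
  have hte : e + 30 ≤ t := by
    rw [ht]
    exact Nat.le_mul_of_pos_left _ (by omega)
  have ht150 : t ≤ 150 * (e + 1) ^ 2 := by
    rw [ht]
    calc (2 * e + 5) * (e + 30) ≤ (5 * (e + 1)) * (30 * (e + 1)) :=
          Nat.mul_le_mul (by omega) (by omega)
      _ = 150 * (e + 1) ^ 2 := by ring
  have he9 : 1 ≤ (e + 1) ^ 9 := Nat.one_le_pow _ _ (by omega)
  have hKZ0 : T₀ + N0 + (δ₀ + 1) + E1 + 7 ≤ Z := by
    refine le_trans ?_ hZ
    exact Nat.le_mul_of_pos_right _ he9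
  have hZT : T₀ ≤ Z := by omega
  have hZK : 2 * K ≤ Z := by
    have h1 : K ≤ 4 * t ^ 4 := by
      rw [hK]
      have h2 : t ^ 2 + 1 ≤ 2 * t ^ 2 := by nlinarith
      have h3 : t * (t + 1) ≤ 2 * t ^ 2 := by nlinarith
      calc (t ^ 2 + 1) * (t * (t + 1)) ≤ (2 * t ^ 2) * (2 * t ^ 2) := Nat.mul_le_mul h2 h3
        _ = 4 * t ^ 4 := by ring
    have h2 : t ^ 4 ≤ 150 ^ 4 * (e + 1) ^ 8 := by
      calc t ^ 4 ≤ (150 * (e + 1) ^ 2) ^ 4 := Nat.pow_le_pow_left ht150 4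
        _ = 150 ^ 4 * (e + 1) ^ 8 := by ring
    have h3 : (e + 1) ^ 8 ≤ (e + 1) ^ 9 := Nat.pow_le_pow_right (by omega) (by norm_num)
    calc 2 * K ≤ 8 * t ^ 4 := by omega
      _ ≤ 8 * (150 ^ 4 * (e + 1) ^ 9) :=
        Nat.mul_le_mul_left _ (h2.trans (Nat.mul_le_mul_left _ h3))
      _ = N0 * (e + 1) ^ 9 := by rw [hN0, mul_assoc]
      _ ≤ (T₀ + N0 + (δ₀ + 1) + E1 + 7) * (e + 1) ^ 9 :=
        Nat.mul_le_mul_right _ (by omega)
      _ ≤ Z := hZ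
  have hZe : e + 7 ≤ Z := by
    have h1 : e + 1 ≤ (e + 1) ^ 9 := Nat.le_self_pow (by norm_num) _
    calc e + 7 ≤ 7 * (e + 1) := by omega
      _ ≤ 7 * (e + 1) ^ 9 := Nat.mul_le_mul_left _ h1
      _ ≤ (T₀ + N0 + (δ₀ + 1) + E1 + 7) * (e + 1) ^ 9 :=
        Nat.mul_le_mul_right _ (by omega)
      _ ≤ Z := hZ
  have hZδ : δ₀ + 1 ≤ Z := by omega
  have hZexp : Real.exp (2 * cc + 2 * lam + Real.log 4) ≤ Z := by
    refine (Nat.le_ceil _).trans ?_
    rw [← hE1]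
    exact_mod_cast (by omega : E1 ≤ Z)
  have hZpos : 1 ≤ Z := by omega
  have hZ0 : (0 : ℝ) < Z := by exact_mod_cast hZpos
  have hlogZ : 2 * cc + 2 * lam + Real.log 4 ≤ Real.log Z := by
    rw [Real.le_log_iff_exp_le hZ0]
    exact hZexp
  have hlogZ0 : 0 ≤ Real.log Z := Real.log_nonneg (by exact_mod_cast hZpos)
  have hlogb : 0 ≤ Real.log b := Real.log_nonneg (by exact_mod_cast (by omega : 1 ≤ b))
  have hδlam : Real.log δ ≤ lam := by
    rw [hlam]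
    refine Real.log_le_log (by exact_mod_cast hδ1) ?_
    exact_mod_cast hδ0.trans (le_max_left _ _)
  have hδ00 : 0 ≤ Real.log δ := Real.log_nonneg (by exact_mod_cast hδ1)
  have hd1 : 1 ≤ d := by
    by_contra h0
    have h1 : d = 0 := by omega
    have h2 := hx.fin
    rw [h1, mul_zero] at h2
    have h3 : 0 < Module.finrank A E := Module.finrank_pos
    omega
  have ht1 : 1 ≤ t := by omega
  obtain ⟨Q, hQ⟩ : ∃ Q : ℕ, Q = Z ^ 12 := ⟨_, rfl⟩
  obtain ⟨L, hL⟩ : ∃ L : ℕ, L = Z ^ 20 * d := ⟨_, rfl⟩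
  obtain ⟨n, hn⟩ : ∃ n : ℕ, n = m / Q + 1 := ⟨_, rfl⟩
  obtain ⟨S, hS⟩ : ∃ S : Finset ℕ, S = (Finset.Icc 1 Q).filter
    fun p => p.Prime ∧ Q < 4 * p := ⟨_, rfl⟩
  have hQZ : Z ≤ Q := by
    rw [hQ]
    exact Nat.le_self_pow (by norm_num) Z
  have hQ1 : 1 ≤ Q := hZpos.trans hQZ
  have hQm : Q ≤ m := by
    refine le_trans ?_ hm
    rw [hQ]
    exact Nat.pow_le_pow_right hZpos (by norm_num)
  have hm1 : 1 ≤ m := hQ1.trans hQm
  have hL1 : 1 ≤ L := by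
    rw [hL]
    exact Nat.mul_pos (Nat.pow_pos hZpos) hd1
  -- the number of primes
  have hScard0 : Z ^ 9 ≤ S.card := by
    have h1 := hT₀ Q (hZT.trans hQZ)
    rw [← hS] at h1
    have h2 : (Z ^ 9) ^ 4 ≤ S.card ^ 4 := by
      refine le_trans (le_of_eq ?_) h1
      rw [hQ, ← pow_mul, ← pow_mul]
    exact (Nat.pow_le_pow_iff_left (by norm_num)).1 h2
  have hScard : 4 * Z ^ 8 ≤ (S \ ℬ).card := by
    have h1 : S.card ≤ (S \ ℬ).card + ℬ.card := by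
      have h2 := Finset.card_le_card_sdiff_add_card (s := S) (t := ℬ)
      omega
    have h2 : (e + 7) * Z ^ 8 ≤ Z ^ 9 := by
      calc (e + 7) * Z ^ 8 ≤ Z * Z ^ 8 := Nat.mul_le_mul_right _ hZe
        _ = Z ^ 9 := by ring
    have h3 : 1 ≤ Z ^ 8 := Nat.pow_pos hZpos
    have h4 : (e + 7) * Z ^ 8 = 4 * Z ^ 8 + (e + 3) * Z ^ 8 := by ring
    have h5 : (e + 3) * 1 ≤ (e + 3) * Z ^ 8 := Nat.mul_le_mul_left _ h3
    omega
  -- sizes
  have hdivQ : m / Q * Q ≤ m := Nat.div_mul_le_self m Q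
  have hnQ : m < n * Q := by
    rw [hn]
    rw [mul_comm]
    exact Nat.lt_mul_div_succ m hQ1
  have hnQ2 : n * Q ≤ 2 * m := by
    rw [hn, add_mul, one_mul]
    omega
  have hnm : n ≤ m := by
    have hQ2 : 2 ≤ Q := le_trans (by omega) hQZ
    have h2 : n * 2 ≤ n * Q := Nat.mul_le_mul_left _ hQ2
    omega
  have hn1 : 1 ≤ n := by
    rw [hn]
    exact Nat.le_add_left _ _
  have hlow : ∀ q : ℕ, Q < 4 * q → Z ^ 11 < q := by
    intro q hq4
    have h1 : Z ^ 12 < 4 * q := by rw [← hQ]; exact hq4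
    have h2 : Z ^ 12 = Z * Z ^ 11 := by ring
    have h4 : 4 * Z ^ 11 ≤ Z * Z ^ 11 := Nat.mul_le_mul_right _ (by omega)
    omega
  have hZ11 : Z ≤ Z ^ 11 := Nat.le_self_pow (by norm_num) Z
  have hdivpos : 0 < m / Q := Nat.div_pos hQm hQ1
  have hstr : ∀ q : ℕ, q.Prime → q ≤ Q → (n - 1) * q < m := by
    intro q hqp hq2
    have h1 : q < Q := by
      refine lt_of_le_of_ne hq2 fun h0 => ?_
      rw [h0, hQ] at hqp
      exact Nat.Prime.not_prime_pow (by norm_num) hqp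
    rw [hn, Nat.add_sub_cancel]
    exact lt_of_lt_of_le (Nat.mul_lt_mul_of_pos_left h1 hdivpos) hdivQ
  obtain ⟨V, hV, hVdim⟩ := corE1 hx hδ00 δ hδ1 hMx σ a ha n L 1 (2 * e + 5) (e + 30) (t ^ 2) hn1
    hL1 le_rfl (by omega) (by omega) (by rw [mul_one]; omega) (S \ ℬ) (by
    intro q hq
    obtain ⟨hqS, hqℬ⟩ := Finset.mem_sdiff.1 hq
    rw [hS, Finset.mem_filter, Finset.mem_Icc] at hqS
    obtain ⟨⟨hq1, hq2⟩, hqp, hq4⟩ := hqS
    have hqlow := hlow q hq4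
    refine ⟨hqp, ?_, hσ q hqp (by omega) (by rw [← hQ]; exact hq2), ?_, ?_, ?_⟩
    · intro hdvd
      have := Nat.le_of_dvd hδ1 hdvd
      omega
    · rw [one_mul]
      exact hstr q hqp hq2
    · have hLR : (0 : ℝ) < L := by exact_mod_cast hL1
      have hdR : (0 : ℝ) < d := by exact_mod_cast hd1
      have h1 : Real.log ((L : ℝ) * d) ≤ (20 + 2 * e) * Real.log Z := by
        have h2 : (L : ℝ) * d ≤ (Z : ℝ) ^ (20 + 2 * e) := by
          have h3 : L * d ≤ Z ^ (20 + 2 * e) := by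
            rw [hL]
            calc Z ^ 20 * d * d = Z ^ 20 * (d * d) := by ring
              _ ≤ Z ^ 20 * (Z ^ e * Z ^ e) :=
                Nat.mul_le_mul_left _ (Nat.mul_le_mul hde hde)
              _ = Z ^ (20 + 2 * e) := by ring
          exact_mod_cast h3
        have h5 := Real.log_le_log (by positivity) h2
        rw [Real.log_pow] at h5
        push_cast at h5
        exact h5
      have h1' : Real.log (((1 : ℕ) : ℝ) * L) ≤ (20 + e) * Real.log Z := by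
        have h2 : ((1 : ℕ) : ℝ) * L ≤ (Z : ℝ) ^ (20 + e) := by
          have h3 : 1 * L ≤ Z ^ (20 + e) := by
            rw [hL, one_mul]
            calc Z ^ 20 * d ≤ Z ^ 20 * Z ^ e := Nat.mul_le_mul_left _ hde
              _ = Z ^ (20 + e) := by ring
          exact_mod_cast h3
        have h5 := Real.log_le_log (by positivity) h2
        rw [Real.log_pow] at h5
        push_cast at h5 ⊢
        exact h5
      have h2 : 12 * Real.log Z ≤ Real.log q + Real.log 4 := by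
        have h3 : (Z : ℝ) ^ 12 ≤ q * 4 := by
          have h4 : Z ^ 12 ≤ q * 4 := by
            rw [← hQ]
            omega
          exact_mod_cast h4
        have h5 := Real.log_le_log (by positivity) h3
        have h6 : (q : ℝ) ≠ 0 := by
          have : q ≠ 0 := by omega
          exact_mod_cast this
        rw [Real.log_pow, Real.log_mul h6 (by norm_num)] at h5
        exact_mod_cast h5
      have he0 : (0 : ℝ) ≤ e := Nat.cast_nonneg _
      have h4 : 0 ≤ Real.log 4 := Real.log_nonneg (by norm_num)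
      have hteR : (e : ℝ) + 30 ≤ t := by exact_mod_cast hte
      have ht0 : (0 : ℝ) ≤ t := Nat.cast_nonneg _
      have hcc0 : 0 ≤ cc := by rw [hcc]; linarith
      obtain ⟨l, hl⟩ : ∃ l, l = Real.log Z := ⟨_, rfl⟩
      obtain ⟨D1, hD1⟩ : ∃ D1, D1 = Real.log ((L : ℝ) * d) := ⟨_, rfl⟩
      obtain ⟨D2, hD2⟩ : ∃ D2, D2 = Real.log (((1 : ℕ) : ℝ) * L) := ⟨_, rfl⟩
      obtain ⟨ld, hld⟩ : ∃ ld, ld = Real.log (δ : ℝ) := ⟨_, rfl⟩
      obtain ⟨lq, hlq⟩ : ∃ lq, lq = Real.log (q : ℝ) := ⟨_, rfl⟩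
      rw [← ht, ← hD1, ← hD2, ← hld, ← hlq]
      rw [← hD1, ← hl] at h1
      rw [← hD2, ← hl] at h1'
      rw [← hl, ← hlq] at h2
      have hl0 : 0 ≤ l := by rw [hl]; exact hlogZ0
      have hlZ : 2 * cc + 2 * lam + Real.log 4 ≤ l := by rw [hl]; exact hlogZ
      have hldlam : ld ≤ lam := by rw [hld]; exact hδlam
      have hld0 : 0 ≤ ld := by rw [hld]; exact hδ00
      have b1 : (10 : ℝ) + e ≤ (t : ℝ) ^ 2 := by nlinarith
      have b2 : (t : ℝ) * (20 + e) ≤ (t : ℝ) ^ 2 := by nlinarith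
      have b3 : (t : ℝ) * (t + 1) ≤ 2 * (t : ℝ) ^ 2 := by nlinarith
      have b4 : (1 : ℝ) ≤ (t : ℝ) ^ 2 := by nlinarith
      have a0 : 2 * Real.log b + ld + D1 / 2 + 1 ≤ cc + (10 + e) * l := by
        rw [hcc]
        linarith
      have a1 : (t : ℝ) * D2 ≤ (t : ℝ) ^ 2 * l := by
        calc (t : ℝ) * D2 ≤ t * ((20 + e) * l) := mul_le_mul_of_nonneg_left h1' ht0
          _ = (t * (20 + e)) * l := by ring
          _ ≤ (t : ℝ) ^ 2 * l := mul_le_mul_of_nonneg_right b2 hl0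
      have a2 : (t : ℝ) * (t + 1) * ld ≤ 2 * (t : ℝ) ^ 2 * lam :=
        mul_le_mul b3 hldlam hld0 (by positivity)
      have a3 : cc + (10 + e) * l ≤ (t : ℝ) ^ 2 * (cc + l) := by
        have c1 : 1 * cc ≤ (t : ℝ) ^ 2 * cc := mul_le_mul_of_nonneg_right b4 hcc0
        have c2 : (10 + e) * l ≤ (t : ℝ) ^ 2 * l := mul_le_mul_of_nonneg_right b1 hl0
        linarith
      have a4 : (t : ℝ) ^ 2 * (2 * Real.log b + ld + D1 / 2 + 1) ≤
          (t : ℝ) ^ 2 * (cc + (10 + e) * l) := mul_le_mul_of_nonneg_left a0 (by positivity)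
      have a5 : (t : ℝ) ^ 2 * (2 * cc + 2 * lam + (12 + e) * l) ≤
          (t : ℝ) ^ 2 * ((e + 30) * lq) := by
        refine mul_le_mul_of_nonneg_left ?_ (by positivity)
        have c1 : (e + 30) * (12 * l - Real.log 4) ≤ (e + 30) * lq :=
          mul_le_mul_of_nonneg_left (by linarith) (by positivity)
        have c2 : (e + 30) * Real.log 4 ≤ (e + 30) * l :=
          mul_le_mul_of_nonneg_left (by linarith) (by positivity)
        have c3 : 0 ≤ (10 * (e : ℝ)) * l := by positivity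
        linarith
      have e1 : ((t ^ 2 * (e + 30) : ℕ) : ℝ) * lq = (t : ℝ) ^ 2 * ((e + 30) * lq) := by
        push_cast
        ring
      rw [e1]
      push_cast
      linarith
    · have h1 : (((1 : ℕ) : ℝ) * q * L) ≤ (Z : ℝ) ^ 32 * d := by
        have h2 : 1 * q * L ≤ Z ^ 32 * d := by
          rw [one_mul, hL]
          calc q * (Z ^ 20 * d) ≤ Z ^ 12 * (Z ^ 20 * d) :=
                Nat.mul_le_mul_right _ (by rw [← hQ]; exact hq2)
            _ = Z ^ 32 * d := by ring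
        exact_mod_cast h2
      refine (mul_le_mul_of_nonneg_right h1 (finac_h a)).trans ?_
      rw [mul_assoc]
      exact hh)
  have hKZ : (t ^ 2 + 1) * (t * (t + 1) * (m * d)) = K * (m * d) := by
    rw [hK]
    ring
  rw [← ht, hKZ] at hVdim
  obtain ⟨q, hq, G, hG, hG0, hGn, hGL, hG1, hGD⟩ := stepAC hb hm1 hx.pow hx.deg σ a
    (IsIntegral.of_finite A a) n L (K * (m * d)) (m * d) (S \ ℬ) V hV
    (by
      intro q hq
      obtain ⟨hqS, hqℬ⟩ := Finset.mem_sdiff.1 hq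
      rw [hS, Finset.mem_filter, Finset.mem_Icc] at hqS
      obtain ⟨⟨hq1, hq2⟩, hqp, hq4⟩ := hqS
      exact ⟨hq1, hstr q hqp hq2, hdg q hqp (hlow q hq4) (by rw [← hQ]; exact hq2) hqℬ⟩) hVdim
    (by
      rw [hL]
      calc K * (m * d) ≤ Z ^ 8 * (m * d) := by
            refine Nat.mul_le_mul_right _ ?_
            have := Nat.le_self_pow (n := 8) (by norm_num) Z
            omega
        _ = m * (d * Z ^ 8) := by ring
        _ < n * Q * (d * Z ^ 8) :=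
            Nat.mul_lt_mul_of_pos_right hnQ (Nat.mul_pos hd1 (Nat.pow_pos hZpos))
        _ = n * (Z ^ 20 * d) := by
            rw [hQ]
            ring)
    (by
      calc 2 * n * L = 2 * (n * Q) * (d * Z ^ 8) := by
            rw [hL, hQ]
            ring
        _ ≤ 2 * (2 * m) * (d * Z ^ 8) := Nat.mul_le_mul_right _ (Nat.mul_le_mul_left _ hnQ2)
        _ = m * d * (4 * Z ^ 8) := by ring
        _ ≤ m * d * (S \ ℬ).card := Nat.mul_le_mul_left _ hScard)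
  obtain ⟨hqS, hqℬ⟩ := Finset.mem_sdiff.1 hq
  rw [hS, Finset.mem_filter, Finset.mem_Icc] at hqS
  obtain ⟨⟨hq1, hq2⟩, hqp, hq4⟩ := hqS
  have hdX : dX G * Z ^ 19 ≤ m := by
    have h1 : dX G * L ≤ K * (m * d) := le_trans (Nat.le_add_right _ _) hGD
    have h2 : Z * d * (dX G * Z ^ 19) ≤ Z * d * m := by
      rw [hL] at h1
      calc Z * d * (dX G * Z ^ 19) = dX G * (Z ^ 20 * d) := by ring
        _ ≤ K * (m * d) := h1
        _ ≤ Z * (m * d) := Nat.mul_le_mul_right _ (by omega)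
        _ = Z * d * m := by ring
    exact Nat.le_of_mul_le_mul_left h2 (Nat.mul_pos hZpos hd1)
  refine ⟨q, G, hqp, hlow q hq4, by rw [← hQ]; exact hq2, hqℬ, hG, hG0, hG1, ?_, hdX⟩
  have h1 : (n - dX G) * G.natDegree ≤ K * (m * d) := le_trans (Nat.le_add_left _ _) hGD
  have h2 : 2 * (dX G * Q) ≤ m := by
    refine le_trans ?_ hdX
    calc 2 * (dX G * Q) = dX G * (Z ^ 12 * 2) := by
          rw [hQ]
          ring
      _ ≤ dX G * (Z ^ 12 * Z ^ 7) := by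
          refine Nat.mul_le_mul_left _ (Nat.mul_le_mul_left _ ?_)
          have := Nat.le_self_pow (n := 7) (by norm_num) Z
          omega
      _ = dX G * Z ^ 19 := by ring
  have h3 : m ≤ 2 * Q * (n - dX G) := by
    have h4 : 2 * Q * (n - dX G) = 2 * (n * Q) - 2 * (dX G * Q) := by
      rw [Nat.mul_sub]
      congr 1 <;> ring
    rw [h4]
    omega
  have h4 : m * G.natDegree ≤ m * (2 * K * d * Q) := by
    calc m * G.natDegree ≤ 2 * Q * (n - dX G) * G.natDegree := Nat.mul_le_mul_right _ h3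
      _ = 2 * Q * ((n - dX G) * G.natDegree) := by ring
      _ ≤ 2 * Q * (K * (m * d)) := Nat.mul_le_mul_left _ h1
      _ = m * (2 * K * d * Q) := by ring
  have h5 : G.natDegree ≤ 2 * K * d * Q := Nat.le_of_mul_le_mul_left h4 hm1
  refine h5.trans ?_
  rw [hQ]
  calc 2 * K * d * Z ^ 12 ≤ Z * d * Z ^ 12 :=
        Nat.mul_le_mul_right _ (Nat.mul_le_mul_right _ hZK)
    _ = d * Z ^ 13 := by ring

end Pool.Agent.H36.LI
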