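import Pool.Agent.H36.LI.FaE
import Pool.Agent.H36.LH.FbC

/-!
# THEOREM L, version 5 (MP_187c26_nt), parameters, part 2

MODEL: `finBC` in `Pool/Agent/H36/LH/FbC.lean` (copy and change). Imports may be sorried (`finAE`, `corE2`). `E₀ = 2 e + 5`, `T₁ = e + 30`, `T = E₀ T₁ ≤ 150 (e + 1)^2`, `C = T^2`, `S := 2 (C + 1) T + 1 ≤ 5 T^3`; `K` depends on `b`, `δ₀` only: `Z ≥ 100 T^4`, `log Z ≥ 8 (2 log b + log δ₀ + 2) + 8 log 4`.
PROOF. `finAE` gives `q`, `G`; `i := dX G` (`i Z^19 ≤ m`), `j := natDegree G` (`1 ≤ j ≤ d Z^13`). `n' := S (i + 1)`, `L' := S (j + 1)`, `ℛ = {l ∈ [1, Z^4] prime, Z^4 < 4 l}` (`l ≥ Z`, `l > δ₀`, `l ≤ Z^12`). `corE2` with `g = q`: `(n' - 1) q l ≤ S (m/Z^19 + 1) Z^16 ≤ S m/Z^3 + S Z^16 < m`.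
`L' ≤ 2 S d Z^13 ≤ d Z^14`: `log (L' d) ≤ (2 e + 14) log Z`, `log (q L') ≤ (e + 26) log Z`, `log l ≥ 4 log Z - log 4`; the left side of the inequality is at most `(e + 7) log Z + T (e + 26) log Z + T (T + 1) log δ + C (e + 7) log Z + (C + 1) c ≤ C (e + 9) log Z + 2 C log δ + 2 C c ≤ C (e + 10) log Z`
(`e + 7 ≤ C`, `T (e + 26) ≤ C`), the right side `≥ C (e + 30) (4 log Z - log 4) ≥ C (e + 30) log Z`. `q l L' h ≤ Z^30 d h ≤ 1`.
`V ≤ VsA A σ x a n' L' q ℛ`, `n' L' - dim V ≤ (C + 1) (n' L' - (n' - T i)(L' - T j)) ≤ (C + 1)(n' T j + L' T i) < n' L'`: `P ∈ V`, `P ≠ 0`. `stepBC` with `M₀ = m d`: `l (i (L' - 1) + (n' - 1) j) ≤ m d (1/Z + S/Z^2 + S/Z) < m d`. `stepCC` for `x^q`, `a^q`: `2 S + 1 + log₂ j ≤ Z^3 ≤ #ℛ` (`log₂ j ≤ (e + 13) log₂ Z ≤ (e + 13) Z`, `2 S + 1 ≤ Z`).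
-/

set_option autoImplicit false

open Polynomial NumberField IntermediateField
open scoped Polynomial.Bivariate

namespace Pool.Agent.H36.LI

open Pool.Agent.H36.LE Pool.Agent.H36.LF Pool.Agent.H36.LH

private theorem ht_nn {Ω : Type} [Field Ω] [CharZero Ω] (x : Ω) : 0 ≤ absLogHeight₁ x := by
  unfold absLogHeight₁
  refine Real.log_nonneg ?_
  unfold absMulHeight₁
  split_ifs with hx
  · have : FiniteDimensional ℚ ℚ⟮x⟯ := adjoin.finiteDimensional hx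
    have : NumberField ℚ⟮x⟯ := {}
    exact Real.one_le_rpow (Height.one_le_mulHeight₁ _) (by positivity)
  · exact le_rfl

/-- sizes, in natural numbers -/
private theorem szn {Z m i S : ℕ} (hZ : 4 * S + 1 ≤ Z) (hm : Z ^ 18 ≤ m) (hi : i * Z ^ 19 ≤ m) :
    S * (i + 1) * Z ^ 16 < m := by
  have h0 : 0 < Z := by omega
  have hm0 : 0 < m := lt_of_lt_of_le (pow_pos h0 18) hm
  refine Nat.lt_of_mul_lt_mul_left (a := Z ^ 3) ?_
  have h1 : Z ^ 19 ≤ Z * m := by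
    calc Z ^ 19 = Z * Z ^ 18 := by ring
      _ ≤ Z * m := Nat.mul_le_mul_left _ hm
  calc Z ^ 3 * (S * (i + 1) * Z ^ 16) = S * (i * Z ^ 19) + S * Z ^ 19 := by ring
    _ ≤ S * m + S * (Z * m) := Nat.add_le_add (Nat.mul_le_mul_left _ hi) (Nat.mul_le_mul_left _ h1)
    _ = (S * (1 + Z)) * m := by ring
    _ < Z ^ 3 * m := by
      refine Nat.mul_lt_mul_of_pos_right ?_ hm0
      have h2 : S * (1 + Z) < Z ^ 2 := by nlinarith
      calc S * (1 + Z) < Z ^ 2 := h2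
        _ ≤ Z ^ 3 := Nat.pow_le_pow_right h0 (by norm_num)

private theorem szb {Z m d i j l S : ℕ} (hZ : 4 * S + 1 ≤ Z) (hm : Z ^ 18 ≤ m) (hi : i * Z ^ 19 ≤ m)
    (hd : 1 ≤ d) (hj1 : 1 ≤ j) (hj : j ≤ d * Z ^ 13) (hl : l ≤ Z ^ 4) :
    l * (i * (S * (j + 1) - 1) + (S * (i + 1) - 1) * j) < m * d := by
  have h0 : 0 < Z := by omega
  have hm0 : 0 < m := lt_of_lt_of_le (pow_pos h0 18) hm
  have h1 : i * (S * (j + 1) - 1) + (S * (i + 1) - 1) * j ≤ S * (j * (3 * i + 1)) := by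
    have a1 : i * (S * (j + 1) - 1) ≤ i * (S * (j + 1)) := Nat.mul_le_mul_left _ (Nat.sub_le _ _)
    have a2 : (S * (i + 1) - 1) * j ≤ (S * (i + 1)) * j := Nat.mul_le_mul_right _ (Nat.sub_le _ _)
    have a3 : S * i ≤ S * i * j := Nat.le_mul_of_pos_right _ hj1
    nlinarith
  refine Nat.lt_of_mul_lt_mul_left (a := Z ^ 2) ?_
  have h2 : Z ^ 19 ≤ Z * m := by
    calc Z ^ 19 = Z * Z ^ 18 := by ring
      _ ≤ Z * m := Nat.mul_le_mul_left _ hm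
  calc Z ^ 2 * (l * (i * (S * (j + 1) - 1) + (S * (i + 1) - 1) * j))
      ≤ Z ^ 2 * (Z ^ 4 * (S * ((d * Z ^ 13) * (3 * i + 1)))) := by
        refine Nat.mul_le_mul_left _ (Nat.mul_le_mul hl (h1.trans ?_))
        exact Nat.mul_le_mul_left _ (Nat.mul_le_mul_right _ hj)
    _ = S * d * (3 * (i * Z ^ 19) + Z ^ 19) := by ring
    _ ≤ S * d * (3 * m + Z * m) := Nat.mul_le_mul_left _ (by omega)
    _ = (S * (3 + Z)) * (m * d) := by ring
    _ < Z ^ 2 * (m * d) := Nat.mul_lt_mul_of_pos_right (by nlinarith) (Nat.mul_pos hm0 hd)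

private theorem szd {S T C i j : ℕ} (hS : 2 * (C + 1) * T < S) :
    (C + 1) * (S * (i + 1) * (S * (j + 1)) - (S * (i + 1) - T * i) * (S * (j + 1) - T * j)) <
      S * (i + 1) * (S * (j + 1)) := by
  have hTS : T ≤ S := by nlinarith
  have h1 : T * i ≤ S * (i + 1) := Nat.mul_le_mul hTS (Nat.le_succ i)
  have h2 : T * j ≤ S * (j + 1) := Nat.mul_le_mul hTS (Nat.le_succ j)
  obtain ⟨u, hu⟩ := Nat.exists_eq_add_of_le h1
  obtain ⟨v, hv⟩ := Nat.exists_eq_add_of_le h2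
  have h3 : S * (i + 1) * (S * (j + 1)) - (S * (i + 1) - T * i) * (S * (j + 1) - T * j) ≤
      T * i * (S * (j + 1)) + S * (i + 1) * (T * j) := by
    rw [hu, hv, Nat.add_sub_cancel_left, Nat.add_sub_cancel_left, Nat.sub_le_iff_le_add]
    nlinarith [Nat.zero_le (T * i * (T * j))]
  have h4 : T * i * (S * (j + 1)) + S * (i + 1) * (T * j) ≤ 2 * T * S * ((i + 1) * (j + 1)) := by
    have b1 : T * i * (S * (j + 1)) ≤ T * (i + 1) * (S * (j + 1)) :=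
      Nat.mul_le_mul_right _ (Nat.mul_le_mul_left _ (Nat.le_succ i))
    have b2 : S * (i + 1) * (T * j) ≤ S * (i + 1) * (T * (j + 1)) :=
      Nat.mul_le_mul_left _ (Nat.mul_le_mul_left _ (Nat.le_succ j))
    calc _ ≤ T * (i + 1) * (S * (j + 1)) + S * (i + 1) * (T * (j + 1)) := Nat.add_le_add b1 b2
      _ = 2 * T * S * ((i + 1) * (j + 1)) := by ring
  calc (C + 1) * (S * (i + 1) * (S * (j + 1)) - (S * (i + 1) - T * i) * (S * (j + 1) - T * j))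
      ≤ (C + 1) * (2 * T * S * ((i + 1) * (j + 1))) := Nat.mul_le_mul_left _ (h3.trans h4)
    _ = (2 * (C + 1) * T) * (S * ((i + 1) * (j + 1))) := by ring
    _ < S * (S * ((i + 1) * (j + 1))) :=
        Nat.mul_lt_mul_of_pos_right hS (Nat.mul_pos (by omega) (Nat.mul_pos (Nat.succ_pos _) (Nat.succ_pos _)))
    _ = S * (i + 1) * (S * (j + 1)) := by ring

private theorem tsz (e : ℕ) : 150 ≤ (2 * e + 5) * (e + 30) ∧ (2 * e + 5) * (e + 30) ≤ 150 * (e + 1) ^ 2 ∧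
    e + 14 ≤ (2 * e + 5) * (e + 30) := by
  refine ⟨?_, ?_, ?_⟩ <;> nlinarith

/-- the logarithmic condition -/
private theorem lgc {b Z L d l q δ δ₀ e T : ℕ} (hZ : 1 ≤ Z) (hδ1 : 1 ≤ δ) (hδ : δ ≤ δ₀)
    (hbig : 8 * (2 * Real.log b + Real.log δ₀ + 2) + 8 * Real.log 4 ≤ Real.log Z)
    (hT : T = (2 * e + 5) * (e + 30))
    (hLd : L * d ≤ Z ^ (2 * e + 14)) (hqL : q * L ≤ Z ^ (e + 26)) (hl : Z ^ 4 < 4 * l) :
    (2 * Real.log b + Real.log δ + Real.log (L * d) / 2 +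
        ((2 * e + 5) * (e + 30) : ℕ) * Real.log (q * L) +
        ((2 * e + 5) * (e + 30) * ((2 * e + 5) * (e + 30) + 1) : ℕ) * Real.log δ + 1) +
        (T * T : ℕ) * (2 * Real.log b + Real.log δ + Real.log (L * d) / 2 + 1) ≤
      (T * T * (e + 30) : ℕ) * Real.log l := by
  rw [← hT]
  have hZ1 : (1 : ℝ) ≤ Z := by exact_mod_cast hZ
  have hZ0 : (0 : ℝ) < Z := by linarith
  have hlZ : 0 ≤ Real.log Z := Real.log_nonneg hZ1
  have hlb : 0 ≤ Real.log b := Real.log_natCast_nonneg b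
  have hlδ₀ : 0 ≤ Real.log δ₀ := Real.log_natCast_nonneg δ₀
  have hδl : Real.log δ ≤ Real.log δ₀ := by
    refine Real.log_le_log ?_ (by exact_mod_cast hδ)
    exact_mod_cast hδ1
  have hup : ∀ (u k : ℕ), u ≤ Z ^ k → Real.log (u : ℝ) ≤ k * Real.log Z := by
    intro u k h
    rcases Nat.eq_zero_or_pos u with h0 | h0
    · subst h0
      simp only [Nat.cast_zero, Real.log_zero]
      positivity
    · have h1 : (u : ℝ) ≤ (Z : ℝ) ^ k := by exact_mod_cast h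
      have h2 := Real.log_le_log (by exact_mod_cast h0) h1
      rwa [Real.log_pow] at h2
  have h1 := hup _ _ hLd
  have h2 := hup _ _ hqL
  push_cast at h1 h2
  have hl4 : (0 : ℝ) ≤ Real.log 4 := Real.log_nonneg (by norm_num)
  have h7 : 3 * Real.log Z ≤ Real.log l := by
    have h8 : ((Z : ℝ) ^ 4) ≤ 4 * l := by exact_mod_cast hl.le
    have h9 := Real.log_le_log (by positivity) h8
    have hl0 : (0 : ℝ) < l := by
      have : 0 < l := by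
        have := pow_pos (show 0 < Z by omega) 4
        omega
      exact_mod_cast this
    rw [Real.log_pow, Real.log_mul (by norm_num) hl0.ne'] at h9
    push_cast at h9
    linarith
  obtain ⟨E, hE⟩ : ∃ E : ℝ, E = (e : ℝ) := ⟨_, rfl⟩
  have hE0 : 0 ≤ E := by rw [hE]; positivity
  obtain ⟨t, ht⟩ : ∃ t : ℝ, t = (T : ℝ) := ⟨_, rfl⟩
  have ht1 : 5 * (E + 30) ≤ t := by
    rw [ht, hT, hE]
    push_cast
    nlinarith
  push_cast
  rw [← hE] at h1 h2 ⊢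
  rw [← ht]
  obtain ⟨z, hz⟩ : ∃ z : ℝ, z = Real.log Z := ⟨_, rfl⟩
  obtain ⟨c, hc⟩ : ∃ c : ℝ, c = 2 * Real.log b + Real.log δ₀ + 1 := ⟨_, rfl⟩
  rw [← hz] at h1 h2 h7 hlZ hbig
  have hc0 : 0 ≤ c := by rw [hc]; linarith
  have hcz : 8 * c ≤ z := by rw [hc]; linarith
  have ht150 : 150 ≤ t := by linarith
  have htt : 0 ≤ t * t := by positivity
  -- the pieces
  have k1 : t * Real.log ((q : ℝ) * L) ≤ t * t * z := by
    calc t * Real.log ((q : ℝ) * L) ≤ t * ((E + 26) * z) := mul_le_mul_of_nonneg_left h2 (by linarith)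
      _ = t * (E + 26) * z := by ring
      _ ≤ t * t * z := by
        refine mul_le_mul_of_nonneg_right (mul_le_mul_of_nonneg_left ?_ (by linarith)) hlZ
        linarith
  have k2 : t * (t + 1) * Real.log δ ≤ 2 * (t * t) * c := by
    have a1 : Real.log δ ≤ c := by rw [hc]; linarith
    have a2 : t * (t + 1) ≤ 2 * (t * t) := by nlinarith
    have a3 : 0 ≤ t * (t + 1) := by positivity
    calc t * (t + 1) * Real.log δ ≤ t * (t + 1) * c := mul_le_mul_of_nonneg_left a1 a3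
      _ ≤ 2 * (t * t) * c := mul_le_mul_of_nonneg_right a2 hc0
  have k3 : 2 * Real.log b + Real.log δ + Real.log ((L : ℝ) * d) / 2 + 1 ≤ c + (E + 7) * z := by
    rw [hc]
    linarith
  have k4 : t * t * (2 * Real.log b + Real.log δ + Real.log ((L : ℝ) * d) / 2 + 1) ≤
      t * t * (c + (E + 7) * z) := mul_le_mul_of_nonneg_left k3 htt
  have k5 : c + (E + 7) * z ≤ t * t * c + t * t * z := by
    have a1 : 1 ≤ t * t := by nlinarith
    have a2 : E + 7 ≤ t * t := by nlinarith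
    have a3 : c ≤ t * t * c := le_mul_of_one_le_left hc0 a1
    have a4 : (E + 7) * z ≤ t * t * z := mul_le_mul_of_nonneg_right a2 hlZ
    linarith
  have k6 : t * t * (E + 30) * (3 * z) ≤ t * t * (E + 30) * Real.log l :=
    mul_le_mul_of_nonneg_left h7 (by positivity)
  have k7 : 4 * c + (E + 9) * z ≤ (E + 30) * (3 * z) := by nlinarith
  have k8 : t * t * (4 * c + (E + 9) * z) ≤ t * t * ((E + 30) * (3 * z)) := mul_le_mul_of_nonneg_left k7 htt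
  calc _ = (2 * Real.log b + Real.log δ + Real.log ((L : ℝ) * d) / 2 + 1) + t * Real.log ((q : ℝ) * L) +
        t * (t + 1) * Real.log δ +
        t * t * (2 * Real.log b + Real.log δ + Real.log ((L : ℝ) * d) / 2 + 1) := by ring
    _ ≤ (t * t * c + t * t * z) + t * t * z + 2 * (t * t) * c + t * t * (c + (E + 7) * z) := by
        linarith
    _ = t * t * (4 * c + (E + 9) * z) := by ring
    _ ≤ t * t * ((E + 30) * (3 * z)) := k8
    _ = t * t * (E + 30) * (3 * z) := by ring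
    _ ≤ _ := k6

theorem finBE (b : ℕ) (hb : 2 ≤ b) (δ₀ : ℕ) : ∃ K : ℕ, ∀ e Z : ℕ, K * (e + 1) ^ 9 ≤ Z →
    ∀ (A E : Type) [Field A] [NumberField A] [Field E] [NumberField E] [Algebra A E]
      (m d δ : ℕ) (x a : E) (σ : ℕ → (A →+* A)) (ℬ : Finset ℕ), 1 ≤ δ → δ ≤ δ₀ →
      RdA A b m d (Real.log δ) x → Mx A x δ →
      (∀ q : ℕ, q.Prime → Z ≤ q → q ≤ Z ^ 12 → FrobE A q (2 * e + 5) (σ q)) →
      ℬ.card ≤ e + 3 →
      (∀ q : ℕ, q.Prime → Z ^ 11 < q → q ≤ Z ^ 12 → q ∉ ℬ →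
        m * d ≤ Module.finrank A (IntermediateField.adjoin A ({x ^ q, a ^ q} : Set E))) →
      d ≤ Z ^ e → Z ^ 18 ≤ m → a ≠ 0 → (Z : ℝ) ^ 32 * (d * absLogHeight₁ a) ≤ 1 →
      ∃ (q β : ℕ) (w : ℤ), 1 ≤ q ∧ q ≤ Z ^ 12 ∧ 1 ≤ β ∧
        IsIntegral A ((a ^ q) ^ β * (x ^ q) ^ w) ∧
        β * Module.finrank A A⟮(a ^ q) ^ β * (x ^ q) ^ w⟯ ≤ d * Z ^ 13 ∧
        w.natAbs * Module.finrank A A⟮(a ^ q) ^ β * (x ^ q) ^ w⟯ * Z ^ 19 ≤ m := by
  classical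
  obtain ⟨KA, hA⟩ := finAE b hb δ₀
  obtain ⟨T₀, hT₀⟩ := many_primes
  obtain ⟨K', hK'⟩ : ∃ K' : ℝ, K' = 8 * (2 * Real.log b + Real.log δ₀ + 2) + 8 * Real.log 4 := ⟨_, rfl⟩
  obtain ⟨w, hw⟩ : ∃ w : ℕ, w = 100 * 150 ^ 4 := ⟨_, rfl⟩
  refine ⟨KA + T₀ + w + (δ₀ + 4) + ⌈Real.exp K'⌉₊,
    fun e Z hZ' A E _ _ _ _ _ m d δ x a σ ℬ hδ1 hδ hx hM hσ hℬ hdg hd hm ha hh => ?_⟩
  obtain ⟨T, hT⟩ : ∃ T : ℕ, T = (2 * e + 5) * (e + 30) := ⟨_, rfl⟩
  obtain ⟨C, hC⟩ : ∃ C : ℕ, C = T * T := ⟨_, rfl⟩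
  obtain ⟨S, hS⟩ : ∃ S : ℕ, S = 2 * (C + 1) * T + 1 := ⟨_, rfl⟩
  have he9 : 1 ≤ (e + 1) ^ 9 := Nat.one_le_pow _ _ (by omega)
  obtain ⟨hZ1, hZ2, hZ3, hZ4, hZ5⟩ : KA * (e + 1) ^ 9 ≤ Z ∧ T₀ ≤ Z ∧ w * (e + 1) ^ 9 ≤ Z ∧
      δ₀ + 4 ≤ Z ∧ ⌈Real.exp K'⌉₊ ≤ Z := by
    obtain ⟨u, hu⟩ : ∃ u : ℕ, u = (e + 1) ^ 9 := ⟨_, rfl⟩
    rw [← hu] at hZ' ⊢
    rw [← hu] at he9
    have h1 : KA * u + T₀ * u + w * u + (δ₀ + 4) * u + ⌈Real.exp K'⌉₊ * u ≤ Z := by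
      calc _ = (KA + T₀ + w + (δ₀ + 4) + ⌈Real.exp K'⌉₊) * u := by ring
        _ ≤ Z := hZ'
    have h2 : T₀ ≤ T₀ * u := Nat.le_mul_of_pos_right _ he9
    have h3 : δ₀ + 4 ≤ (δ₀ + 4) * u := Nat.le_mul_of_pos_right _ he9
    have h4 : ⌈Real.exp K'⌉₊ ≤ ⌈Real.exp K'⌉₊ * u := Nat.le_mul_of_pos_right _ he9
    refine ⟨?_, ?_, ?_, ?_, ?_⟩ <;> omega
  have hT5 : 150 ≤ T := by
    rw [hT]
    exact (tsz e).1
  have hTT : T ≤ 150 * (e + 1) ^ 2 := by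
    rw [hT]
    exact (tsz e).2.1
  have hT4 : 100 * T ^ 4 ≤ Z := by
    have h0 : T ^ 4 ≤ (150 * (e + 1) ^ 2) ^ 4 := Nat.pow_le_pow_left hTT 4
    have h1 : (150 * (e + 1) ^ 2) ^ 4 = 150 ^ 4 * (e + 1) ^ 8 := by
      rw [mul_pow, ← pow_mul]
    calc 100 * T ^ 4 ≤ 100 * (150 ^ 4 * (e + 1) ^ 8) := by
          rw [← h1]
          exact Nat.mul_le_mul_left 100 h0
      _ = w * (e + 1) ^ 8 := by rw [hw, mul_assoc]
      _ ≤ w * (e + 1) ^ 9 := Nat.mul_le_mul_left w (Nat.pow_le_pow_right (by omega) (by norm_num))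
      _ ≤ Z := hZ3
  have hS5 : S ≤ 5 * T ^ 3 := by
    rw [hS, hC]
    have h1 : T ≤ T ^ 3 := Nat.le_self_pow (by norm_num) T
    calc 2 * (T * T + 1) * T + 1 = 2 * T ^ 3 + 2 * T + 1 := by ring
      _ ≤ 5 * T ^ 3 := by omega
  have hZS : 4 * S + 1 ≤ Z := by
    have h1 : T ^ 3 * 150 ≤ T ^ 4 := by
      calc T ^ 3 * 150 ≤ T ^ 3 * T := Nat.mul_le_mul_left _ hT5
        _ = T ^ 4 := by ring
    have h2 : 1 ≤ T ^ 3 := Nat.one_le_pow _ _ (by omega)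
    omega
  have hTZ : e + 14 ≤ Z := by
    have h1 : e + 14 ≤ T := by rw [hT]; exact (tsz e).2.2
    have h2 : T ≤ T ^ 4 := Nat.le_self_pow (by norm_num) T
    omega
  have hZ0 : 0 < Z := by omega
  have hbig : K' ≤ Real.log Z := by
    have h1 : Real.exp K' ≤ Z := by
      refine (Nat.le_ceil _).trans ?_
      exact_mod_cast hZ5
    have h3 := Real.log_le_log (Real.exp_pos _) h1
    rwa [Real.log_exp] at h3
  have hfin : Module.Finite A E := Module.Finite.of_restrictScalars_finite ℚ A E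
  obtain ⟨q, G, hqp, hqlo, hqN, hqℬ, hG, h0, hG1, hGN, hdX⟩ :=
    hA e Z hZ1 A E m d δ x a σ ℬ hδ1 hδ hx hM hσ hℬ hdg hd hm ha hh
  have hq1 : 1 ≤ q := hqp.one_lt.le
  have hm1 : 1 ≤ m := hx.m1
  have hd1 : 1 ≤ d := by
    rcases Nat.eq_zero_or_pos d with h | h
    · exfalso
      have h1 := hx.fin
      rw [h, mul_zero] at h1
      exact (Module.finrank_pos (R := A) (M := E)).ne' h1
    · exact h
  have hx0 : x ≠ 0 := by
    rintro rfl
    have h1 := hx.pow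
    rw [zero_pow (by omega)] at h1
    have h2 : (b : E) ≠ 0 := Nat.cast_ne_zero.2 (by omega)
    exact h2 h1.symm
  obtain ⟨ℛ, hℛ⟩ : ∃ ℛ : Finset ℕ, ℛ = (Finset.Icc 1 (Z ^ 4)).filter
    fun p => p.Prime ∧ Z ^ 4 < 4 * p := ⟨_, rfl⟩
  have hmem : ∀ l ∈ ℛ, 1 ≤ l ∧ l ≤ Z ^ 4 ∧ l.Prime ∧ Z ^ 4 < 4 * l := by
    intro l hl
    rw [hℛ, Finset.mem_filter, Finset.mem_Icc] at hl
    exact ⟨hl.1.1, hl.1.2, hl.2.1, hl.2.2⟩
  have hcard : 2 * S + 1 + Nat.log 2 G.natDegree ≤ ℛ.card := by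
    have h1 := hT₀ (Z ^ 4) (by
      have : Z ≤ Z ^ 4 := Nat.le_self_pow (by norm_num) Z
      omega)
    rw [← hℛ] at h1
    have h2 : Z ^ 3 ≤ ℛ.card := by
      by_contra hcon
      push Not at hcon
      have h3 : ℛ.card ^ 4 < (Z ^ 3) ^ 4 := Nat.pow_lt_pow_left hcon (by norm_num)
      have h4 : (Z ^ 3) ^ 4 = (Z ^ 4) ^ 3 := by ring
      omega
    have h5 : Nat.log 2 G.natDegree < (e + 13) * Z := by
      refine Nat.log_lt_of_lt_pow (by omega) ?_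
      calc G.natDegree ≤ d * Z ^ 13 := hGN
        _ ≤ Z ^ e * Z ^ 13 := Nat.mul_le_mul_right _ hd
        _ = Z ^ (e + 13) := by ring
        _ < (2 ^ Z) ^ (e + 13) := Nat.pow_lt_pow_left Nat.lt_two_pow_self (by omega)
        _ = 2 ^ ((e + 13) * Z) := by rw [← pow_mul, mul_comm]
    have h6 : 2 * S + 1 + (e + 13) * Z ≤ Z ^ 3 := by
      have h7 : 2 * S + 1 ≤ 1 * Z := by omega
      calc 2 * S + 1 + (e + 13) * Z ≤ 1 * Z + (e + 13) * Z := Nat.add_le_add_right h7 _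
        _ = (e + 14) * Z := by ring
        _ ≤ Z * Z := Nat.mul_le_mul_right _ (by omega)
        _ = Z ^ 2 := by ring
        _ ≤ Z ^ 3 := Nat.pow_le_pow_right hZ0 (by norm_num)
    omega
  have hs1 := szn hZS hm hdX
  have hL1 : S * (G.natDegree + 1) ≤ d * Z ^ 14 := by
    have h1 : G.natDegree + 1 ≤ 2 * (d * Z ^ 13) := by
      have : 1 ≤ d * Z ^ 13 := Nat.mul_pos hd1 (pow_pos hZ0 13)
      omega
    calc S * (G.natDegree + 1) ≤ S * (2 * (d * Z ^ 13)) := Nat.mul_le_mul_left _ h1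
      _ = (2 * S) * (d * Z ^ 13) := by ring
      _ ≤ Z * (d * Z ^ 13) := Nat.mul_le_mul_right _ (by omega)
      _ = d * Z ^ 14 := by ring
  have hstr : ∀ k : ℕ, k ≤ Z ^ 16 → (S * (dX G + 1) - 1) * k < m := by
    intro k hk
    calc (S * (dX G + 1) - 1) * k ≤ S * (dX G + 1) * Z ^ 16 := Nat.mul_le_mul (Nat.sub_le _ _) hk
      _ < m := hs1
  have hSpos : 1 ≤ S := by omega
  obtain ⟨V, hV, hdim⟩ := corE2 hx (Real.log_natCast_nonneg δ) δ hδ1 hM σ a ha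
    (S * (dX G + 1)) (S * (G.natDegree + 1)) q (2 * e + 5) (e + 30) C
    (Nat.mul_pos hSpos (Nat.succ_pos _)) (Nat.mul_pos hSpos (Nat.succ_pos _)) hq1 (by omega) (by omega)
    (hstr q (hqN.trans (Nat.pow_le_pow_right hZ0 (by norm_num)))) ℛ (by
      intro l hl
      obtain ⟨h1, h2, h3, h4⟩ := hmem l hl
      have hZl : Z < l := by
        have h6 : 4 * Z ≤ Z ^ 4 := by
          calc 4 * Z ≤ Z * Z := Nat.mul_le_mul_right _ (by omega)
            _ = Z ^ 2 := by ring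
            _ ≤ Z ^ 4 := Nat.pow_le_pow_right hZ0 (by norm_num)
        omega
      refine ⟨h3, ?_, ?_, ?_, ?_, ?_⟩
      · intro hdv
        have := Nat.le_of_dvd (by omega) hdv
        omega
      · exact hσ l h3 hZl.le (h2.trans (Nat.pow_le_pow_right hZ0 (by norm_num)))
      · refine hstr _ ?_
        calc q * l ≤ Z ^ 12 * Z ^ 4 := Nat.mul_le_mul hqN h2
          _ = Z ^ 16 := by ring
      · rw [hC]
        refine lgc hZ0 hδ1 hδ (hK' ▸ hbig) hT ?_ ?_ h4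
        · calc S * (G.natDegree + 1) * d ≤ (d * Z ^ 14) * d := Nat.mul_le_mul_right _ hL1
            _ ≤ (Z ^ e * Z ^ 14) * Z ^ e := Nat.mul_le_mul (Nat.mul_le_mul_right _ hd) hd
            _ = Z ^ (2 * e + 14) := by ring
        · calc q * (S * (G.natDegree + 1)) ≤ Z ^ 12 * (Z ^ e * Z ^ 14) :=
                Nat.mul_le_mul hqN (hL1.trans (Nat.mul_le_mul_right _ hd))
            _ = Z ^ (e + 26) := by ring
      · have h6 : q * l * (S * (G.natDegree + 1)) ≤ Z ^ 32 * d := by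
          calc q * l * (S * (G.natDegree + 1)) ≤ Z ^ 12 * Z ^ 4 * (d * Z ^ 14) :=
                Nat.mul_le_mul (Nat.mul_le_mul hqN h2) hL1
            _ = Z ^ 30 * d := by ring
            _ ≤ Z ^ 32 * d := Nat.mul_le_mul_right _ (Nat.pow_le_pow_right hZ0 (by norm_num))
        have h7 : ((q : ℝ) * l * ((S * (G.natDegree + 1) : ℕ) : ℝ)) ≤ (Z : ℝ) ^ 32 * d := by
          exact_mod_cast h6
        refine (mul_le_mul_of_nonneg_right h7 (ht_nn a)).trans ?_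
        rw [mul_assoc]
        exact hh)
    G hG.ne_zero h0
  rw [← hT] at hdim
  have hlt := szd (C := C) (i := dX G) (j := G.natDegree) (show 2 * (C + 1) * T < S by omega)
  have hpos : 0 < Module.finrank A V := by
    rcases Nat.eq_zero_or_pos (Module.finrank A V) with h | h
    · exfalso
      rw [h, Nat.sub_zero] at hdim
      exact absurd (hdim.trans_lt hlt) (lt_irrefl _)
    · exact h
  have hVne : V ≠ ⊥ := by
    rintro rfl
    rw [finrank_bot] at hpos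
    exact lt_irrefl _ hpos
  obtain ⟨P, hPV, hP0⟩ := Submodule.exists_mem_ne_zero_of_ne_bot hVne
  have hPs := hV hPV
  have hPd : P.natDegree < S * (G.natDegree + 1) :=
    (((mem_BS _ _ _).1 hPs.1).resolve_left hP0).1
  have hGP := stepBC (b := b) hm1 hx.pow σ a (IsIntegral.of_finite A a) q (m * d)
    (hdg q hqp hqlo hqN hqℬ) G hG h0 _ _ ℛ P hPs (fun l hl =>
      ⟨(hmem l hl).1, szb hZS hm hdX hd1 hG1 hGN (hmem l hl).2.1⟩)
  obtain ⟨β, w, hβ1, hint, hβ, hw⟩ := stepCC σ G P hG hG1 hP0 S hPd ℛ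
    (fun l hl => ⟨(hmem l hl).2.2.1, hGP l hl⟩) hcard (x ^ q) (a ^ q) (pow_ne_zero _ hx0)
    (pow_ne_zero _ ha) h0
  exact ⟨q, β, w, hq1, hqN, hβ1, hint, hβ.trans hGN, (Nat.mul_le_mul_right _ hw).trans hdX⟩

end Pool.Agent.H36.LI
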