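import Pool.Agent.H36.LH.Df

/-!
# THEOREM L, version 5 (MP_187c26_nt): relative Dobrowolski bound `d (1 + log d)^κ`, all roots of unity of order prime to `m b`

`FrobE A q E σ`: `σ` is a lift of the Frobenius at `q`, the ramification index of `q` is at most `E`: `(σ y - y^q)^e ∈ q 𝓞 A` for all integers `y`, some
`1 ≤ e ≤ E`.
-/

set_option autoImplicit false

namespace Pool.Agent.H36.LI

/-- `(σ y - y^q)^e` is divisible by `q`, `e ≤ E`. -/
def FrobE (A : Type) [Field A] (q E : ℕ) (σ : A →+* A) : Prop :=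
  ∃ e : ℕ, 1 ≤ e ∧ e ≤ E ∧ ∀ y : A, IsIntegral ℤ y →
    ∃ w : A, IsIntegral ℤ w ∧ (σ y - y ^ q) ^ e = (q : A) * w

theorem FrobE.mono {A : Type} [Field A] {q E E' : ℕ} {σ : A →+* A} (h : FrobE A q E σ)
    (hE : E ≤ E') : FrobE A q E' σ := by
  obtain ⟨e, h1, h2, h3⟩ := h
  exact ⟨e, h1, h2.trans hE, h3⟩

end Pool.Agent.H36.LI
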