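import Pool.Agent.H36.LI.BfA
import Pool.Agent.H36.LI.Df
import Pool.Agent.H72.BE.Fro

/-!
# THEOREM L, version 5 (MP_187c26_nt): Frobenius lifts on `B`

`A := AA ξ`, `𝓞 A = ℤ[ξ]` (`IsCyclotomicExtension.Rat.isIntegralClosure_adjoin_singleton`, see `Pool/Agent/H72/BE/Fro.lean`), for every `c` prime to `n` there is `σ_c : A →+* A` with `σ_c ξ = ξ^c` (the cyclotomic polynomial is irreducible; see `frob_cyc` there). `t q` maps `A` into itself (`IsGen.mapA`) and `t q ξ = ξ^(c')`, so `t q` and `σ_c` commute on `A` (both are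
determined by the image of `ξ`), and `σ_c` maps `B := BB ξ x 𝒲 t` into itself. Elements of `B` which are integral and divisible by `q` in the integers of `A` are divisible by `q` in the integers of `B` (`w := y / q ∈ B`).
`frob_B1` (`q ∤ n`): the Frobenius lift `σ` of `frob_cyc` (`Frob (AA ξ) q σ`, `σ ξ = ξ^q`), restricted to `B`: exponent `e = 1`.
`frob_B2` (`q ∈ 𝒲`, `q ∣ n`, `q^2 ∤ n`): `σ := σ_c` with `c ≡ q` mod `n/q`, `c ≡ 1` mod `q` (`c` is prime to `n`). (i) `(σ y - y^q)^q ∈ q 𝓞 A` for `y ∈ 𝓞 A`: `ξ = ξ₁ ξ₂`, `ξ₁` of order `n/q`, `ξ₂` of order `q`; `y = ∑ c_k ξ^k`, `y^q ≡ ∑ c_k ξ₁^(kq)`, `σ y = ∑ c_k ξ₁^(kq) ξ₂^k`, so `(σ y)^q ≡ ∑ c_k ξ₁^(k q^2) ≡ (y^q)^q` mod `q`, and `(u - v)^q ≡ u^q - v^q`.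
(ii) Let `w ∈ B` be integral with `w^q ∈ q 𝓞 A`. `s := s q`, `j := j q`, `s^j w = w`. `Π := ∏_(k < j) (X - s^k w) = X^j + c_1 X^(j-1) + … + c_j`; `s` permutes the factors cyclically, so `s c_k = c_k`, `c_k ∈ AA (ξ^q)` (`IsGen.fixA`). Every `c_k` is a sum of products of elements `s^k w` whose `q`-th powers are in `q 𝓞`: `c_k^(q N) ∈ q 𝓞 A` for some `N`
(nilpotent in the ring `𝓞 A / q`: sums and products of nilpotent elements; `IsNilpotent`). (iii) `c ∈ AA (ξ^q)` integral and nilpotent modulo `q` implies `c ∈ q 𝓞`: the Frobenius lift `φ` on `AA (ξ^q)` (`frob_cyc`, `q ∤ n/q`): `c^(q^k) ≡ φ^k(c)` mod `q` in the integers of `AA (ξ^q)`, for large `k` the left side is `0` modulo `q`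
(in `𝓞 A`, hence in the integers of `AA (ξ^q)`), `φ` is bijective on the integers, so `c ∈ q 𝓞`. (iv) `w^j = - ∑ c_k w^(j-k) ∈ q 𝓞 A`. With `w := σ y - y^q ∈ B`: exponent `e = j`.
-/

set_option autoImplicit false

open NumberField IntermediateField

namespace Pool.Agent.H36.LI

open Pool.Agent.H36.LF Pool.Agent.H72.BE

section Abs

/-- the homomorphism with `ξ ↦ ξ^c` -/
private theorem bc_hom {A : Type} [Field A] [NumberField A] (n : ℕ) (hn : 1 ≤ n) (ξ : A)
    (hξ : IsPrimitiveRoot ξ n) (hgen : IntermediateField.adjoin ℚ {ξ} = ⊤) (c : ℕ)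
    (hc : c.Coprime n) : ∃ σ : A →+* A, σ ξ = ξ ^ c := by
  have hn0 : NeZero n := ⟨by omega⟩
  have hcyc : IsCyclotomicExtension {n} ℚ A := by
    have h := hξ.intermediateField_adjoin_isCyclotomicExtension ℚ
    rw [hgen] at h
    exact IsCyclotomicExtension.equiv (h := h) {n} ℚ _ IntermediateField.topEquiv
  have hirr := Polynomial.cyclotomic.irreducible_rat (n := n) hn
  have hprim : IsPrimitiveRoot (ξ ^ c) n := hξ.pow_of_coprime c hc
  obtain ⟨τ, hτ⟩ : ∃ τ : A →ₐ[ℚ] A, τ ξ = ξ ^ c := by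
    refine ⟨(hξ.embeddingsEquivPrimitiveRoots A hirr).symm
      ⟨ξ ^ c, (mem_primitiveRoots (Nat.pos_of_ne_zero hn0.out)).2 hprim⟩, ?_⟩
    rw [← hξ.embeddingsEquivPrimitiveRoots_apply_coe A hirr, Equiv.apply_symm_apply]
  exact ⟨(τ : A →+* A), hτ⟩

/-- ring homomorphisms of `ℚ(ξ)` are determined by the image of `ξ` -/
private theorem bc_ext {A L : Type} [Field A] [CharZero A] [Field L] [CharZero L] (ξ : A)
    (hgen : IntermediateField.adjoin ℚ {ξ} = ⊤) (f g : A →+* L) (h : f ξ = g ξ) (y : A) :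
    f y = g y := by
  have hy : y ∈ IntermediateField.adjoin ℚ {ξ} := by
    rw [hgen]
    exact IntermediateField.mem_top
  induction hy using IntermediateField.adjoin_induction with
  | mem x hx =>
    rw [Set.mem_singleton_iff] at hx
    rw [hx, h]
  | algebraMap r => simp
  | add x y _ _ hx hy => rw [map_add, map_add, hx, hy]
  | inv x _ hx => rw [map_inv₀, map_inv₀, hx]
  | mul x y _ _ hx hy => rw [map_mul, map_mul, hx, hy]

/-- two ring homomorphisms of `ℚ(ξ)` commute -/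
private theorem bc_comm {A : Type} [Field A] [CharZero A] (n : ℕ) (hn : 1 ≤ n) (ξ : A)
    (hξ : IsPrimitiveRoot ξ n) (hgen : IntermediateField.adjoin ℚ {ξ} = ⊤) (f g : A →+* A)
    (y : A) : f (g y) = g (f y) := by
  have hn0 : NeZero n := ⟨by omega⟩
  have h1 : ∀ f : A →+* A, ∃ u : ℕ, f ξ = ξ ^ u := by
    intro f
    have h2 : (f ξ) ^ n = 1 := by rw [← map_pow, hξ.pow_eq_one, map_one]
    obtain ⟨t, -, ht⟩ := hξ.eq_pow_of_pow_eq_one h2
    exact ⟨t, ht.symm⟩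
  obtain ⟨u, hu⟩ := h1 f
  obtain ⟨v, hv⟩ := h1 g
  refine bc_ext ξ hgen (f.comp g) (g.comp f) ?_ y
  show f (g ξ) = g (f ξ)
  rw [hu, hv, map_pow, map_pow, hu, hv, ← pow_mul, ← pow_mul, mul_comm]

/-- (i): `(σ y)^q ≡ y^(q^2)` modulo `q` -/
private theorem bc_q2 {A : Type} [Field A] [NumberField A] (n : ℕ) (hn : 1 ≤ n) (ξ : A)
    (hξ : IsPrimitiveRoot ξ n) (hgen : IntermediateField.adjoin ℚ {ξ} = ⊤) (q c : ℕ)
    (hq : q.Prime) (hc : ξ ^ (c * q) = ξ ^ (q * q)) (σ : A →+* A) (hσ : σ ξ = ξ ^ c) (a : 𝓞 A) :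
    ∃ w : 𝓞 A, RingOfIntegers.mapRingHom σ a ^ q = (a ^ q) ^ q + (q : 𝓞 A) * w := by
  have hn0 : NeZero n := ⟨by omega⟩
  have hcyc : IsCyclotomicExtension {n} ℚ A := by
    have h := hξ.intermediateField_adjoin_isCyclotomicExtension ℚ
    rw [hgen] at h
    exact IsCyclotomicExtension.equiv (h := h) {n} ℚ _ IntermediateField.topEquiv
  have ha : a ∈ Algebra.adjoin ℤ ({hξ.toInteger} : Set (𝓞 A)) := by
    rw [IsCyclotomicExtension.Rat.adjoin_singleton_eq_top hξ]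
    exact Algebra.mem_top
  set s : 𝓞 A →+* 𝓞 A := RingOfIntegers.mapRingHom σ with hs
  by_cases hu : IsUnit (q : 𝓞 A)
  · obtain ⟨u, hu⟩ := hu
    refine ⟨(u⁻¹ : (𝓞 A)ˣ) * (s a ^ q - (a ^ q) ^ q), ?_⟩
    rw [← hu, ← mul_assoc, Units.mul_inv, one_mul]
    ring
  set R := 𝓞 A ⧸ Ideal.span {(q : 𝓞 A)} with hR
  have hnt : Nontrivial R := by
    rw [hR, Ideal.Quotient.nontrivial_iff]
    intro h
    exact hu (Ideal.span_singleton_eq_top.1 h)
  have hq0 : (q : R) = 0 := by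
    have h1 : Ideal.Quotient.mk (Ideal.span {(q : 𝓞 A)}) (q : 𝓞 A) = 0 :=
      Ideal.Quotient.eq_zero_iff_mem.2 (Ideal.mem_span_singleton_self _)
    rw [map_natCast] at h1
    exact h1
  have hch : CharP R q := by
    have h1 := CharP.ringChar_of_prime_eq_zero hq hq0
    exact (ringChar.eq_iff).1 h1
  have hfact : Fact q.Prime := ⟨hq⟩
  have key : ∀ b ∈ Algebra.adjoin ℤ ({hξ.toInteger} : Set (𝓞 A)),
      ((frobenius R q).comp ((Ideal.Quotient.mk (Ideal.span {(q : 𝓞 A)})).comp s)) b =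
      ((frobenius R q).comp ((frobenius R q).comp
        (Ideal.Quotient.mk (Ideal.span {(q : 𝓞 A)})))) b := by
    intro b hb
    induction hb using Algebra.adjoin_induction with
    | mem x hx =>
      rw [Set.mem_singleton_iff] at hx
      rw [hx]
      have h1 : s hξ.toInteger = hξ.toInteger ^ c := by
        apply RingOfIntegers.coe_injective
        rw [map_pow]
        exact hσ
      have h2 : hξ.toInteger ^ (c * q) = hξ.toInteger ^ (q * q) := by
        apply RingOfIntegers.coe_injective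
        rw [map_pow, map_pow]
        exact hc
      simp only [RingHom.comp_apply, frobenius_def]
      rw [h1, ← map_pow, ← map_pow, ← map_pow, ← pow_mul, ← pow_mul, h2]
    | algebraMap r =>
      simp only [eq_intCast, map_intCast]
    | add x y _ _ hx hy => rw [map_add, map_add, hx, hy]
    | mul x y _ _ hx hy => rw [map_mul, map_mul, hx, hy]
  have h1 := key a ha
  simp only [RingHom.comp_apply, frobenius_def] at h1
  have h2 : Ideal.Quotient.mk (Ideal.span {(q : 𝓞 A)}) (s a ^ q) =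
      Ideal.Quotient.mk (Ideal.span {(q : 𝓞 A)}) ((a ^ q) ^ q) := by
    rw [map_pow, map_pow, map_pow]
    exact h1
  rw [Ideal.Quotient.eq, Ideal.mem_span_singleton] at h2
  replace h1 := h2
  obtain ⟨w, hw⟩ := h1
  exact ⟨w, by rw [← hw]; ring⟩

/-- (iii): radical elements of the fixed field are divisible by `q` -/
private theorem bc_rad {A' A : Type} [Field A'] [NumberField A'] [Field A] [NumberField A]
    (i : A' →+* A) (q : ℕ) (hq : q.Prime) (φ : A' →+* A') (hφ : Frob A' q φ) (c : 𝓞 A')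
    (N : ℕ) (w : 𝓞 A) (hw : (i (c : A')) ^ N = (q : A) * (w : A)) :
    ∃ w' : 𝓞 A', c = (q : 𝓞 A') * w' := by
  have hq0 : (q : A') ≠ 0 := by exact_mod_cast hq.ne_zero
  have hq0A : (q : A) ≠ 0 := by exact_mod_cast hq.ne_zero
  -- `c^(q^k) = φ^k c` modulo `q`
  have h1 : ∀ k : ℕ, ∃ e : 𝓞 A', ((φ^[k]) (c : A')) = (c : A') ^ (q ^ k) + q * (e : A') := by
    intro k
    induction k with
    | zero => exact ⟨0, by simp⟩
    | succ k ih =>
      obtain ⟨e, he⟩ := ih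
      obtain ⟨d, hd⟩ := hφ (c ^ (q ^ k))
      rw [Function.iterate_succ_apply', he, map_add, map_mul, map_natCast]
      have h2 : ((c ^ (q ^ k) : 𝓞 A') : A') = (c : A') ^ (q ^ k) := by simp
      rw [h2] at hd
      refine ⟨d + RingOfIntegers.mapRingHom φ e, ?_⟩
      have h3 : ((d + RingOfIntegers.mapRingHom φ e : 𝓞 A') : A') = (d : A') + φ (e : A') := rfl
      rw [h3, hd, ← pow_mul, ← pow_succ]
      ring
  obtain ⟨k, hk⟩ : ∃ k, N ≤ q ^ k := ⟨N, (Nat.lt_pow_self hq.one_lt).le⟩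
  obtain ⟨e, he⟩ := h1 k
  -- `φ^k (c / q)` is integral
  have h2 : IsIntegral ℤ ((φ^[k]) ((c : A') / q)) := by
    have h3 : (φ^[k]) ((c : A') / q) = (c : A') ^ (q ^ k) / q + e := by
      have h4 : (φ^[k]) ((c : A') / q) = (φ^[k]) (c : A') / q := by
        have h5 : ∀ k (y z : A'), (φ^[k]) (y / z) = (φ^[k]) y / (φ^[k]) z := by
          intro k y z
          rw [← RingHom.coe_pow, map_div₀]
        have h6 : ∀ k, (φ^[k]) (q : A') = q := by
          intro k
          induction k with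
          | zero => rfl
          | succ k ih => rw [Function.iterate_succ_apply', ih, map_natCast]
        rw [h5, h6]
      rw [h4, he]
      field_simp
    rw [h3]
    refine IsIntegral.add ?_ e.2
    have h7 : IsIntegral ℤ (i ((c : A') ^ (q ^ k) / q)) := by
      have h8 : i ((c : A') ^ (q ^ k) / q) = (i (c : A')) ^ (q ^ k - N) * (w : A) := by
        rw [map_div₀, map_natCast, map_pow, div_eq_iff hq0A]
        have h9 : (i (c : A')) ^ (q ^ k) = (i (c : A')) ^ (q ^ k - N) * (i (c : A')) ^ N := by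
          rw [← pow_add, Nat.sub_add_cancel hk]
        rw [h9, hw]
        ring
      rw [h8]
      refine IsIntegral.mul (IsIntegral.pow ?_ _) w.2
      exact c.2.map i.toIntAlgHom
    exact (isIntegral_algHom_iff i.toIntAlgHom i.injective).1 h7
  have h3 : ∀ k (y : A'), IsIntegral ℤ ((φ^[k]) y) → IsIntegral ℤ y := by
    intro k
    induction k with
    | zero => exact fun y hy => hy
    | succ k ih =>
      intro y hy
      rw [Function.iterate_succ_apply] at hy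
      exact (isIntegral_algHom_iff φ.toIntAlgHom φ.injective).1 (ih _ hy)
  have h4 := h3 k _ h2
  obtain ⟨u, hu⟩ : ∃ u : 𝓞 A', algebraMap (𝓞 A') A' u = (c : A') / q :=
    ⟨⟨(c : A') / q, h4⟩, rfl⟩
  refine ⟨u, ?_⟩
  apply RingOfIntegers.coe_injective
  rw [map_mul, map_natCast, hu]
  field_simp

open Polynomial in
/-- (ii), (iv): a nilpotent element modulo `q` of order `j` under `s` -/
private theorem bc_nil {O : Type} [CommRing O] [IsDomain O] (s : O →+* O) (I J : Ideal O)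
    (hI : ∀ y ∈ I, s y ∈ I) (hfix : ∀ y, s y = y → y ∈ I → y ∈ J) (j : ℕ) (hj : 1 ≤ j) (w : O)
    (hw : w ∈ I) (hsw : (s^[j]) w = w) : w ^ j ∈ J := by
  set a : ℕ → O := fun k => (s^[k]) w with ha
  have haI : ∀ k, a k ∈ I := by
    intro k
    induction k with
    | zero => exact hw
    | succ k ih =>
      show (s^[k + 1]) w ∈ I
      rw [Function.iterate_succ_apply']
      exact hI _ ih
  set P : O[X] := ∏ k ∈ Finset.range j, (X - C (a k)) with hP
  have hmonic : P.Monic := monic_prod_of_monic _ _ fun k _ => monic_X_sub_C _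
  have hdeg : P.natDegree = j := by
    rw [hP, natDegree_prod_of_monic _ _ fun k _ => monic_X_sub_C _]
    simp
  have hPs : P.map s = P := by
    have h1 : P.map s = ∏ k ∈ Finset.range j, (X - C (a (k + 1))) := by
      rw [hP, Polynomial.map_prod]
      refine Finset.prod_congr rfl fun k _ => ?_
      rw [Polynomial.map_sub, map_X, map_C]
      show X - C (s ((s^[k]) w)) = X - C ((s^[k + 1]) w)
      rw [Function.iterate_succ_apply']
    have h2 := Finset.prod_range_succ (fun k => (X - C (a k) : O[X])) j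
    have h3 := Finset.prod_range_succ' (fun k => (X - C (a k) : O[X])) j
    have h4 : a j = a 0 := hsw
    rw [h2, h4] at h3
    rw [h1]
    exact (mul_right_cancel₀ (X_sub_C_ne_zero _) h3).symm
  have hcoeff : ∀ i, s (P.coeff i) = P.coeff i := by
    intro i
    have h1 := congrArg (fun f => f.coeff i) hPs
    simp only [coeff_map] at h1
    exact h1
  have hPI : P.map (Ideal.Quotient.mk I) = X ^ j := by
    rw [hP, Polynomial.map_prod]
    have h1 : ∀ k ∈ Finset.range j, (X - C (a k)).map (Ideal.Quotient.mk I) = X := by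
      intro k _
      rw [Polynomial.map_sub, map_X, map_C, Ideal.Quotient.eq_zero_iff_mem.2 (haI k), C_0, sub_zero]
    rw [Finset.prod_congr rfl h1, Finset.prod_const, Finset.card_range]
  have hcI : ∀ i < j, P.coeff i ∈ J := by
    intro i hi
    refine hfix _ (hcoeff i) ?_
    rw [← Ideal.Quotient.eq_zero_iff_mem, ← coeff_map, hPI, coeff_X_pow, if_neg hi.ne]
  have hPJ : P.map (Ideal.Quotient.mk J) = X ^ j := by
    ext i
    rw [coeff_map, coeff_X_pow]
    rcases lt_trichotomy i j with h1 | h1 | h1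
    · rw [if_neg h1.ne, Ideal.Quotient.eq_zero_iff_mem]
      exact hcI i h1
    · rw [if_pos h1, h1]
      have h2 : P.coeff j = 1 := by
        rw [← hdeg]
        exact hmonic
      rw [h2, map_one]
    · rw [if_neg h1.ne', coeff_eq_zero_of_natDegree_lt (by rw [hdeg]; exact h1), map_zero]
  have h0 : P.eval w = 0 := by
    rw [hP, eval_prod]
    refine Finset.prod_eq_zero (Finset.mem_range.2 (by omega : 0 < j)) ?_
    rw [eval_sub, eval_X, eval_C]
    exact sub_self _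
  have h1 := congrArg (Ideal.Quotient.mk J) h0
  rw [map_zero, ← Polynomial.eval₂_hom, ← Polynomial.eval_map, hPJ, eval_pow, eval_X,
    ← map_pow] at h1
  exact Ideal.Quotient.eq_zero_iff_mem.1 h1

end Abs

variable {Ω : Type} [Field Ω] [CharZero Ω] {b m n : ℕ} {ξ x : Ω}

private theorem exists_res (F A : IntermediateField ℚ Ω) (hAF : A ≤ F) (t : F →+* F)
    (ht : ∀ y : F, (y : Ω) ∈ A → ((t y : F) : Ω) ∈ A) :
    ∃ r : A →+* A, ∀ (a : A) (y : F), (y : Ω) = a → ((r a : A) : Ω) = (t y : F) := by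
  refine ⟨RingHom.codRestrict ((algebraMap F Ω).comp
    (t.comp (IntermediateField.inclusion hAF).toRingHom)) A (fun a => ht _ a.2), ?_⟩
  intro a y hy
  have h1 : y = IntermediateField.inclusion hAF a := Subtype.ext hy
  rw [h1]
  rfl

/-- the restriction to `ℚ(ξ)` -/
private theorem exists_resA (t : FF ξ ![x] ≃+* FF ξ ![x])
    (ht : ∀ y : FF ξ ![x], (y : Ω) ∈ AA ξ → ((t y : FF ξ ![x]) : Ω) ∈ AA ξ) :
    ∃ r : AA ξ →+* AA ξ, ∀ (a : AA ξ) (y : FF ξ ![x]), (y : Ω) = a →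
      ((r a : AA ξ) : Ω) = (t y : FF ξ ![x]) :=
  exists_res (FF ξ ![x]) (AA ξ) (AA_le ξ ![x]) (t : FF ξ ![x] →+* FF ξ ![x]) ht

private theorem bc_mapA {q : ℕ} {s : FF ξ ![x] ≃+* FF ξ ![x]} (hs : IsGen n q ξ x s) (k : ℕ)
    (y : FF ξ ![x]) (hy : (y : Ω) ∈ AA ξ) :
    (((s ^ k : FF ξ ![x] ≃+* FF ξ ![x]) y : FF ξ ![x]) : Ω) ∈ AA ξ := by
  induction k generalizing y with
  | zero => exact hy
  | succ k ih =>
    rw [pow_succ]
    exact ih _ (hs.mapA y hy)

private theorem bc_prim (h : DatG b m n ξ x) : IsPrimitiveRoot (ξA ξ) n :=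
  IsPrimitiveRoot.of_map_of_injective (f := (AA ξ).val) h.prim (AA ξ).val.injective

/-- `σ` maps `B` into itself -/
private theorem bc_mem (h : DatG b m n ξ x) (𝒲 : Finset ℕ) (s : ℕ → (FF ξ ![x] ≃+* FF ξ ![x]))
    (hs : ∀ q ∈ 𝒲, IsGen n q ξ x (s q)) (j : ℕ → ℕ) (σ : AA ξ →+* AA ξ) (a : AA ξ)
    (ha : (a : Ω) ∈ BB ξ x 𝒲 (fun q => s q ^ j q)) :
    ((σ a : AA ξ) : Ω) ∈ BB ξ x 𝒲 (fun q => s q ^ j q) := by
  refine ⟨(σ a).2, fun q hq y' hy' => ?_⟩
  obtain ⟨r, hr⟩ := exists_resA (s q ^ j q) (fun y hy => bc_mapA (hs q hq) (j q) y hy)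
  have h2 := bc_comm n h.hn (ξA ξ) (bc_prim h) (adjoin_ξA ξ) r σ a
  have h3 : r a = a := by
    apply Subtype.ext
    rw [hr a ⟨a, AA_le ξ ![x] a.2⟩ rfl]
    exact congrArg Subtype.val (ha.2 q hq ⟨a, AA_le ξ ![x] a.2⟩ rfl)
  rw [h3] at h2
  apply Subtype.ext
  rw [← hr (σ a) y' hy', h2]
  exact hy'.symm

/-- the general form -/
private theorem bc_core (A A' B : IntermediateField ℚ Ω) [NumberField A] [NumberField A']
    (hBA : B ≤ A) (hA'A : A' ≤ A) (n : ℕ) (hn : 1 ≤ n) (η : A) (hη : IsPrimitiveRoot η n)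
    (hgen : IntermediateField.adjoin ℚ {η} = ⊤) (q c : ℕ) (hq : q.Prime)
    (hc : η ^ (c * q) = η ^ (q * q)) (σ : A →+* A) (hσ : σ η = η ^ c)
    (hσB : ∀ a : A, (a : Ω) ∈ B → ((σ a : A) : Ω) ∈ B) (r : A →+* A) (j : ℕ) (hj : 1 ≤ j)
    (hrB : ∀ a : A, (a : Ω) ∈ B → (r^[j]) a = a) (hrA : ∀ a : A, r a = a → (a : Ω) ∈ A')
    (φ : A' →+* A') (hφ : Frob A' q φ) :
    ∃ σB : B →+* B, FrobE B q j σB := by
  obtain ⟨σB, hσB'⟩ := exists_res A B hBA σ hσB
  refine ⟨σB, j, hj, le_refl _, fun y hy => ?_⟩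
  have hyA : IsIntegral ℤ (⟨y, hBA y.2⟩ : A) := by
    have h1 : IsIntegral ℤ (y : Ω) := hy.map (B.val.restrictScalars ℤ)
    exact (isIntegral_algHom_iff (A.val.restrictScalars ℤ) A.val.injective).1 h1
  obtain ⟨a, ha⟩ : ∃ a : 𝓞 A, algebraMap (𝓞 A) A a = ⟨y, hBA y.2⟩ := ⟨⟨⟨y, hBA y.2⟩, hyA⟩, rfl⟩
  set J : Ideal (𝓞 A) := Ideal.span {(q : 𝓞 A)} with hJ
  set s : 𝓞 A →+* 𝓞 A := RingOfIntegers.mapRingHom r with hs
  set w : 𝓞 A := RingOfIntegers.mapRingHom σ a - a ^ q with hw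
  have hwq : w ^ q ∈ J := by
    obtain ⟨v, hv⟩ := bc_q2 n hn η hη hgen q c hq hc σ hσ a
    obtain ⟨e, he⟩ := exists_add_pow_prime_eq hq w (a ^ q)
    rw [hJ, Ideal.mem_span_singleton]
    have h1 : w + a ^ q = RingOfIntegers.mapRingHom σ a := by rw [hw]; ring
    rw [h1, hv] at he
    exact ⟨v - w * a ^ q * e, by linear_combination -he⟩
  have hmem : w ^ j ∈ J := by
    refine bc_nil s J.radical J ?_ ?_ j hj w ⟨q, hwq⟩ ?_
    · rintro z ⟨N, hN⟩
      refine ⟨N, ?_⟩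
      rw [hJ, Ideal.mem_span_singleton] at hN ⊢
      obtain ⟨v, hv⟩ := hN
      exact ⟨s v, by rw [← map_pow, hv, map_mul, map_natCast]⟩
    · rintro z hz ⟨N, hN⟩
      rw [hJ, Ideal.mem_span_singleton] at hN
      obtain ⟨v, hv⟩ := hN
      have h1 : r (algebraMap (𝓞 A) A z) = algebraMap (𝓞 A) A z := by
        have h2 := congrArg (algebraMap (𝓞 A) A) hz
        exact h2
      have h2 := hrA _ h1
      have h3 : IsIntegral ℤ (⟨((algebraMap (𝓞 A) A z : A) : Ω), h2⟩ : A') := by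
        have h4 : IsIntegral ℤ ((algebraMap (𝓞 A) A z : A) : Ω) :=
          (z.2 : IsIntegral ℤ (algebraMap (𝓞 A) A z)).map (A.val.restrictScalars ℤ)
        exact (isIntegral_algHom_iff (A'.val.restrictScalars ℤ) A'.val.injective).1 h4
      obtain ⟨w', hw'⟩ := bc_rad (IntermediateField.inclusion hA'A).toRingHom q hq φ hφ
        (⟨⟨((algebraMap (𝓞 A) A z : A) : Ω), h2⟩, h3⟩ : 𝓞 A') N v (by
          have h5 := congrArg (algebraMap (𝓞 A) A) hv
          rw [map_pow, map_mul, map_natCast] at h5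
          exact h5)
      rw [hJ, Ideal.mem_span_singleton]
      refine ⟨RingOfIntegers.mapRingHom (IntermediateField.inclusion hA'A).toRingHom w', ?_⟩
      apply RingOfIntegers.coe_injective
      have h6 := congrArg (fun u : 𝓞 A' =>
        (IntermediateField.inclusion hA'A).toRingHom (algebraMap (𝓞 A') A' u)) hw'
      simp only [map_mul, map_natCast] at h6
      rw [map_mul, map_natCast]
      exact h6
    · have h1 : ∀ (k : ℕ) (z : 𝓞 A), algebraMap (𝓞 A) A ((s^[k]) z) =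
          (r^[k]) (algebraMap (𝓞 A) A z) := by
        intro k
        induction k with
        | zero => exact fun z => rfl
        | succ k ih =>
          intro z
          rw [Function.iterate_succ_apply, Function.iterate_succ_apply, ih]
          rfl
      apply RingOfIntegers.coe_injective
      rw [h1]
      refine hrB _ ?_
      have h2 : algebraMap (𝓞 A) A w = σ ⟨y, hBA y.2⟩ - ⟨y, hBA y.2⟩ ^ q := by
        rw [hw, map_sub, map_pow, ha, ← ha]
        rfl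
      rw [h2]
      exact sub_mem (hσB _ y.2) (pow_mem y.2 q)
  rw [hJ, Ideal.mem_span_singleton] at hmem
  obtain ⟨v, hv⟩ := hmem
  have hq0 : (q : Ω) ≠ 0 := by exact_mod_cast hq.ne_zero
  have hq0B : (q : B) ≠ 0 := by exact_mod_cast hq.ne_zero
  have hvΩ : (((σB y - y ^ q : B) : Ω)) ^ j = (q : Ω) * ((algebraMap (𝓞 A) A v : A) : Ω) := by
    have h1 := congrArg (fun u : 𝓞 A => ((algebraMap (𝓞 A) A u : A) : Ω)) hv
    have h2 : ((algebraMap (𝓞 A) A w : A) : Ω) = ((σB y - y ^ q : B) : Ω) := by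
      have h3 : ((σB y : B) : Ω) = ((σ ⟨y, hBA y.2⟩ : A) : Ω) := hσB' y ⟨y, hBA y.2⟩ rfl
      have h4 : algebraMap (𝓞 A) A w = σ ⟨y, hBA y.2⟩ - ⟨y, hBA y.2⟩ ^ q := by
        rw [hw, map_sub, map_pow, ha, ← ha]
        rfl
      rw [h4]
      show ((σ ⟨y, hBA y.2⟩ : A) : Ω) - (y : Ω) ^ q = ((σB y : B) : Ω) - (y : Ω) ^ q
      rw [h3]
    rw [← h2]
    simp only [map_pow, map_mul, map_natCast] at h1
    exact_mod_cast h1
  refine ⟨(σB y - y ^ q) ^ j / (q : B), ?_, by field_simp⟩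
  have h1 : IsIntegral ℤ (((σB y - y ^ q) ^ j / (q : B) : B) : Ω) := by
    have h2 : (((σB y - y ^ q) ^ j / (q : B) : B) : Ω) = ((algebraMap (𝓞 A) A v : A) : Ω) := by
      have h3 : (((σB y - y ^ q) ^ j / (q : B) : B) : Ω) =
          (((σB y - y ^ q : B) : Ω)) ^ j / (q : Ω) := by
        push_cast
        rfl
      rw [h3, hvΩ]
      field_simp
    rw [h2]
    exact (v.2 : IsIntegral ℤ (algebraMap (𝓞 A) A v)).map (A.val.restrictScalars ℤ)
  exact (isIntegral_algHom_iff (B.val.restrictScalars ℤ) B.val.injective).1 h1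

private theorem bc_arith (n q : ℕ) (hq : q.Prime) (hqn : q ∣ n)
    (hqn2 : ¬ q ^ 2 ∣ n) :
    ¬ q ∣ n / q ∧ ∃ c : ℕ, c.Coprime n ∧ c * q ≡ q * q [MOD n] := by
  obtain ⟨n', hn'⟩ := hqn
  have hdiv : n / q = n' := by rw [hn', Nat.mul_div_cancel_left _ hq.pos]
  have hqn' : ¬ q ∣ n' := by
    intro h1
    apply hqn2
    rw [hn', pow_two]
    exact mul_dvd_mul_left q h1
  have hcop' : Nat.Coprime q n' := (Nat.Prime.coprime_iff_not_dvd hq).2 hqn'
  obtain ⟨c, hc1, hc2⟩ := Nat.chineseRemainder hcop'.symm q 1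
  refine ⟨by rw [hdiv]; exact hqn', c, ?_, ?_⟩
  · rw [hn']
    refine Nat.Coprime.mul_right ?_ ?_
    · have h1 := hc2.gcd_eq
      show Nat.gcd c q = 1
      rw [h1, Nat.gcd_one_left]
    · have h1 := hc1.gcd_eq
      show Nat.gcd c n' = 1
      rw [h1]
      exact hcop'
  · rw [hn', mul_comm q n']
    exact Nat.ModEq.mul_right' q hc1

theorem frob_B2 (h : DatG b m n ξ x) (𝒲 : Finset ℕ) (s : ℕ → (FF ξ ![x] ≃+* FF ξ ![x]))
    (hs : ∀ q ∈ 𝒲, IsGen n q ξ x (s q)) (j : ℕ → ℕ) (q : ℕ) (hq : q.Prime) (hq𝒲 : q ∈ 𝒲)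
    (hqn : q ∣ n) (hqn2 : ¬ q ^ 2 ∣ n) (hj : 1 ≤ j q) :
    ∃ σ : BB ξ x 𝒲 (fun q => s q ^ j q) →+* BB ξ x 𝒲 (fun q => s q ^ j q),
      FrobE (BB ξ x 𝒲 fun q => s q ^ j q) q (j q) σ := by
  have hnfA := h.nf_A
  obtain ⟨hqn', c, hcop, hcq⟩ := bc_arith n q hq hqn hqn2
  have h' := h.pow_q q hqn hq.one_le
  have hnfA' := h'.nf_A
  obtain ⟨σ, hσ⟩ := bc_hom n h.hn (ξA ξ) (bc_prim h) (adjoin_ξA ξ) c hcop
  obtain ⟨φ, hφ, -⟩ := frob_cyc (A := AA (ξ ^ q)) (n / q) h'.hn (ξA (ξ ^ q)) (bc_prim h')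
    (adjoin_ξA (ξ ^ q)) q hq hqn'
  obtain ⟨r, hr⟩ := exists_resA (s q) (fun y hy => (hs q hq𝒲).mapA y hy)
  have hA'A : AA (ξ ^ q) ≤ AA ξ := by
    have h1 : AA (ξ ^ q) = IntermediateField.adjoin ℚ {ξ ^ q} := rfl
    rw [h1, IntermediateField.adjoin_le_iff, Set.singleton_subset_iff]
    exact pow_mem (ξA ξ).2 q
  have hrit : ∀ (k : ℕ) (a : AA ξ) (y : FF ξ ![x]), (y : Ω) = a →
      (((r^[k]) a : AA ξ) : Ω) = ((s q ^ k : FF ξ ![x] ≃+* FF ξ ![x]) y : FF ξ ![x]) := by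
    intro k
    induction k with
    | zero => exact fun a y hy => hy.symm
    | succ k ih =>
      intro a y hy
      rw [Function.iterate_succ_apply, pow_succ]
      exact ih (r a) (s q y) (hr a y hy).symm
  refine bc_core (AA ξ) (AA (ξ ^ q)) (BB ξ x 𝒲 (fun q => s q ^ j q)) (BB_le ξ x 𝒲 _) hA'A n h.hn
    (ξA ξ) (bc_prim h) (adjoin_ξA ξ) q c hq (pow_eq_pow_of_modEq hcq (bc_prim h).pow_eq_one) σ hσ
    (fun a ha => bc_mem h 𝒲 s hs j σ a ha) r (j q) hj ?_ ?_ φ hφ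
  · intro a ha
    apply Subtype.ext
    rw [hrit (j q) a ⟨a, AA_le ξ ![x] a.2⟩ rfl]
    exact congrArg Subtype.val (ha.2 q hq𝒲 ⟨a, AA_le ξ ![x] a.2⟩ rfl)
  · intro a ha
    refine (hs q hq𝒲).fixA ⟨a, AA_le ξ ![x] a.2⟩ a.2 ?_
    apply Subtype.ext
    rw [← hr a ⟨a, AA_le ξ ![x] a.2⟩ rfl, ha]

end Pool.Agent.H36.LI
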