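import Pool.Agent.H36.LF.VdB

/-!
# THEOREM L, version 5 (MP_187c26_nt): ramified descent, the height inequality for `K` classes

This is `desc_height2` (`Pool/Agent/H36/LF/VdB.lean`) for `K` powers of `s`. MODEL: the proof there (copy and change; `arch`, `core2`, `ex_roots`, `scaleV`, `loc_desc`).
PROOF. `f := minpoly F α`, `d := natDegree f`, `g := minpoly F (α^q)`, `natDegree g = d` (`hfull`). `f_i := f^(s^i)` (coefficients mapped by `s^i`), roots `a_(i,1), …, a_(i,d)` in `Ω`, `i < K`. `g = ∏_j (X - a_(0,j)^q)`: the numbers `a_(0,j)^q` are the conjugates of `α^q`, pairwise different because `natDegree g = d` (Galois automorphisms: `τ ↦ τ α^q`;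
or: the monic polynomial `∏_j (X - a_(0,j)^q)` has coefficients in `F` and is a power of `g`), and `g^(s^i) = ∏_j (X - a_(i,j)^q)` (extend `s^i` to `Ω`: `a_(i,j) = σ_i(a_(0,j))` for one extension `σ_i : Ω → Ω` of `s^i`, up to the order; so define `a_(i,j) := σ_i(a_(0,j))`). Suppose `g^(s^j) ≠ g` for all `1 ≤ j < K`; then `g^(s^i)`, `i < K`,
are pairwise different monic irreducible polynomials, so the `K d` numbers `v_(i,j) := a_(i,j)^q` are pairwise different: `Δ := det (vandermonde v) ≠ 0`. For `i < i'`: `f_(i')` is `f_i` mapped by `s^(i'-i)`, which satisfies the congruence `hs` too (induction, `s^k` permutes the integers), so `loc_desc` gives for every root `β` of `f_(i')`: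
`∏_j w(β^q - a_(i,j)^q) ≤ w(q) max(1, w β)^(q d) ∏_j max(1, w a_(i,j))^q`. As in `core2`: `w(Δ) ≤ w(q)^(d K (K - 1)/2) ∏ max(1, w a)^(q (K d - 1))`, archimedean `≤ (K d)^(K d) ∏ max(1, |a|)^(q (K d - 1))`; product formula: `d (K (K - 1)/2) log q ≤ K d log (K d) + q (K d) (K d) h`, i.e. `(K - 1) log q ≤ 2 log (K d) + 2 q K d h`: contradiction to `hh`.
-/

set_option autoImplicit false

open NumberField IntermediateField Polynomial

namespace Pool.Agent.H36.LI

open Pool.Agent.H36.LF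

/-- the archimedean bound -/
private theorem arch {n : ℕ} (v : Fin n → ℂ) :
    ‖(Matrix.vandermonde v).det‖ ≤ (n : ℝ) ^ n * ∏ x, max 1 ‖v x‖ ^ (n - 1) := by
  classical
  rw [Matrix.det_apply']
  refine (norm_sum_le _ _).trans ?_
  have h1 : ∀ π ∈ (Finset.univ : Finset (Equiv.Perm (Fin n))),
      ‖(((Equiv.Perm.sign π : ℤˣ) : ℤ) : ℂ) * ∏ i, Matrix.vandermonde v (π i) i‖ ≤
        ∏ x, max 1 ‖v x‖ ^ (n - 1) := by
    intro π _
    have h2 : ‖(((Equiv.Perm.sign π : ℤˣ) : ℤ) : ℂ)‖ = 1 := by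
      rcases Int.units_eq_one_or (Equiv.Perm.sign π) with h | h <;> rw [h] <;> simp
    rw [norm_mul, h2, one_mul, norm_prod, ← Equiv.prod_comp π (fun x => max 1 ‖v x‖ ^ (n - 1))]
    refine Finset.prod_le_prod (fun i _ => norm_nonneg _) fun i _ => ?_
    rw [Matrix.vandermonde_apply, norm_pow]
    have h3 : ‖v (π i)‖ ^ (i : ℕ) ≤ max 1 ‖v (π i)‖ ^ (i : ℕ) :=
      pow_le_pow_left₀ (norm_nonneg _) (le_max_right _ _) _
    exact h3.trans (pow_le_pow_right₀ (le_max_left _ _) (by omega))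
  refine (Finset.sum_le_card_nsmul _ _ _ h1).trans ?_
  rw [Finset.card_univ, Fintype.card_perm, Fintype.card_fin, nsmul_eq_mul]
  refine mul_le_mul_of_nonneg_right ?_ (Finset.prod_nonneg fun x _ => by positivity)
  exact_mod_cast Nat.factorial_le_pow n

private theorem offd {n : ℕ} (g : Fin n → ℝ) :
    ∏ x, ∏ y ∈ {x}ᶜ, (g y * g x) = (∏ x, g x) ^ (2 * (n - 1)) := by
  classical
  have h1 : ∏ x : Fin n, ∏ y ∈ ({x}ᶜ : Finset (Fin n)), g x = (∏ x, g x) ^ (n - 1) := by
    rw [← Finset.prod_pow]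
    refine Finset.prod_congr rfl fun i _ => ?_
    rw [Finset.prod_const, Finset.card_compl, Fintype.card_fin, Finset.card_singleton]
  have h2 : ∏ x : Fin n, ∏ y ∈ ({x}ᶜ : Finset (Fin n)), g y = ∏ x : Fin n, ∏ y ∈ ({x}ᶜ : Finset (Fin n)), g x := by
    refine Finset.prod_comm' fun x y => ?_
    simp only [Finset.mem_univ, Finset.mem_compl, Finset.mem_singleton, true_and, and_true]
    exact ⟨fun h h' => h h'.symm, fun h h' => h h'.symm⟩
  have h3 : ∏ x : Fin n, ∏ y ∈ ({x}ᶜ : Finset (Fin n)), (g y * g x) =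
      (∏ x : Fin n, ∏ y ∈ ({x}ᶜ : Finset (Fin n)), g y) * ∏ x : Fin n, ∏ y ∈ ({x}ᶜ : Finset (Fin n)), g x := by
    rw [← Finset.prod_mul_distrib]
    exact Finset.prod_congr rfl fun x _ => Finset.prod_mul_distrib
  rw [h3, h2, h1, ← pow_add]
  congr 1
  omega

private theorem blocksK {K d : ℕ} (W : Fin K × Fin d → Fin K × Fin d → ℝ) (hW0 : ∀ x y, 0 ≤ W x y)
    (hsym : ∀ x y, W x y = W y x) (A : Fin K → Fin d → ℝ) (hA : ∀ i j, 0 ≤ A i j) (κ : ℝ) (_hκ : 0 ≤ κ)
    (hAA : ∀ i j j', W (i, j) (i, j') ≤ A i j * A i j')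
    (hAB : ∀ i i', i < i' → ∀ j', ∏ j, W (i', j') (i, j) ≤ κ * A i' j' ^ d * ∏ j, A i j) :
    ∏ x, ∏ y ∈ ({x}ᶜ : Finset (Fin K × Fin d)), W y x ≤
      κ ^ (d * (K * (K - 1))) * (∏ i, ∏ j, A i j) ^ (2 * (K * d - 1)) := by
  classical
  obtain ⟨P, hP⟩ : ∃ P : Fin K → ℝ, P = fun i => ∏ j, A i j := ⟨_, rfl⟩
  have hPi : ∀ i, ∏ j, A i j = P i := fun i => by rw [hP]
  have hP0 : ∀ i, 0 ≤ P i := fun i => by
    rw [← hPi]
    exact Finset.prod_nonneg fun j _ => hA i j
  have hQ : ∀ i i', i < i' → ∏ j', ∏ j, W (i', j') (i, j) ≤ κ ^ d * (P i * P i') ^ d := by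
    intro i i' hii
    have e1 : ∏ j', (κ * A i' j' ^ d * P i) = κ ^ d * (P i * P i') ^ d := by
      rw [Finset.prod_mul_distrib, Finset.prod_mul_distrib, Finset.prod_const, Finset.prod_const,
        Finset.card_univ, Fintype.card_fin, Finset.prod_pow, hPi, mul_pow]
      ring
    rw [← e1]
    refine Finset.prod_le_prod (fun j' _ => Finset.prod_nonneg fun j _ => hW0 _ _) fun j' _ => ?_
    rw [← hPi i]
    exact hAB i i' hii j'
  have hQ2 : ∀ i i', i' ≠ i → ∏ j, ∏ j', W (i', j') (i, j) ≤ κ ^ d * (P i' * P i) ^ d := by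
    intro i i' hii
    rcases lt_or_gt_of_ne hii with h | h
    · have h1 := hQ i' i h
      refine le_trans (le_of_eq ?_) h1
      exact Finset.prod_congr rfl fun j _ => Finset.prod_congr rfl fun j' _ => hsym _ _
    · have h1 := hQ i i' h
      rw [mul_comm (P i) (P i')] at h1
      refine le_trans (le_of_eq ?_) h1
      exact Finset.prod_comm
  have hsplit : ∀ i j, ∏ y ∈ ({(i, j)}ᶜ : Finset (Fin K × Fin d)), W y (i, j) =
      (∏ j' ∈ ({j}ᶜ : Finset (Fin d)), W (i, j') (i, j)) *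
        ∏ i' ∈ ({i}ᶜ : Finset (Fin K)), ∏ j', W (i', j') (i, j) := by
    intro i j
    have e1 : ∏ y ∈ ({(i, j)}ᶜ : Finset (Fin K × Fin d)), W y (i, j) =
        ∏ y : Fin K × Fin d, if y = (i, j) then 1 else W y (i, j) := by
      rw [Finset.prod_ite, Finset.prod_const_one, one_mul]
      refine Finset.prod_congr ?_ fun _ _ => rfl
      ext y
      simp
    rw [e1, Fintype.prod_prod_type, Fintype.prod_eq_mul_prod_compl i]
    congr 1
    · rw [Fintype.prod_eq_mul_prod_compl j, if_pos rfl, one_mul]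
      refine Finset.prod_congr rfl fun j' hj' => ?_
      rw [Finset.mem_compl, Finset.mem_singleton] at hj'
      rw [if_neg fun h => hj' (Prod.mk.inj h).2]
    · refine Finset.prod_congr rfl fun i' hi' => Finset.prod_congr rfl fun j' _ => ?_
      rw [Finset.mem_compl, Finset.mem_singleton] at hi'
      rw [if_neg fun h => hi' (Prod.mk.inj h).1]
  have e0 : ∏ x, ∏ y ∈ ({x}ᶜ : Finset (Fin K × Fin d)), W y x =
      (∏ i, ∏ j, ∏ j' ∈ ({j}ᶜ : Finset (Fin d)), W (i, j') (i, j)) *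
        ∏ i, ∏ i' ∈ ({i}ᶜ : Finset (Fin K)), ∏ j, ∏ j', W (i', j') (i, j) := by
    rw [Fintype.prod_prod_type, ← Finset.prod_mul_distrib]
    refine Finset.prod_congr rfl fun i _ => ?_
    rw [Finset.prod_congr rfl fun j _ => hsplit i j, Finset.prod_mul_distrib]
    congr 1
    exact Finset.prod_comm
  have e1 : ∏ i, ∏ j, ∏ j' ∈ ({j}ᶜ : Finset (Fin d)), W (i, j') (i, j) ≤ (∏ i, P i) ^ (2 * (d - 1)) := by
    rw [← Finset.prod_pow]
    refine Finset.prod_le_prod (fun i _ => Finset.prod_nonneg fun j _ => Finset.prod_nonneg fun j' _ => hW0 _ _)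
      fun i _ => ?_
    rw [← hPi i, ← offd]
    exact Finset.prod_le_prod (fun j _ => Finset.prod_nonneg fun j' _ => hW0 _ _) fun j _ =>
      Finset.prod_le_prod (fun j' _ => hW0 _ _) fun j' _ => hAA i j' j
  have e2 : ∏ i, ∏ i' ∈ ({i}ᶜ : Finset (Fin K)), ∏ j, ∏ j', W (i', j') (i, j) ≤
      κ ^ (d * (K * (K - 1))) * (∏ i, P i) ^ (2 * (K - 1) * d) := by
    have h1 : ∏ i : Fin K, ∏ i' ∈ ({i}ᶜ : Finset (Fin K)), (κ ^ d * (P i' * P i) ^ d) =
        κ ^ (d * (K * (K - 1))) * (∏ i, P i) ^ (2 * (K - 1) * d) := by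
      have h2 : ∀ i : Fin K, ∏ i' ∈ ({i}ᶜ : Finset (Fin K)), (κ ^ d * (P i' * P i) ^ d) =
          (κ ^ d) ^ (K - 1) * (∏ i' ∈ ({i}ᶜ : Finset (Fin K)), (P i' * P i)) ^ d := by
        intro i
        rw [Finset.prod_mul_distrib, Finset.prod_const, Finset.card_compl, Fintype.card_fin,
          Finset.card_singleton, Finset.prod_pow]
      rw [Finset.prod_congr rfl fun i _ => h2 i, Finset.prod_mul_distrib, Finset.prod_const,
        Finset.card_univ, Fintype.card_fin, Finset.prod_pow, offd, ← pow_mul, ← pow_mul, ← pow_mul]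
      congr 2
      ring
    rw [← h1]
    refine Finset.prod_le_prod (fun i _ => Finset.prod_nonneg fun i' _ => Finset.prod_nonneg fun j _ =>
      Finset.prod_nonneg fun j' _ => hW0 _ _) fun i _ => ?_
    refine Finset.prod_le_prod (fun i' _ => Finset.prod_nonneg fun j _ =>
      Finset.prod_nonneg fun j' _ => hW0 _ _) fun i' hi' => ?_
    rw [Finset.mem_compl, Finset.mem_singleton] at hi'
    exact hQ2 i i' hi'
  have n0 : 0 ≤ ∏ i, P i := Finset.prod_nonneg fun i _ => hP0 i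
  have n2 : 0 ≤ ∏ i, ∏ i' ∈ ({i}ᶜ : Finset (Fin K)), ∏ j, ∏ j', W (i', j') (i, j) :=
    Finset.prod_nonneg fun i _ => Finset.prod_nonneg fun i' _ => Finset.prod_nonneg fun j _ =>
      Finset.prod_nonneg fun j' _ => hW0 _ _
  rw [e0, Finset.prod_congr rfl fun i _ => hPi i]
  refine (mul_le_mul e1 e2 n2 (by positivity)).trans (le_of_eq ?_)
  rcases Nat.eq_zero_or_pos d with hd | hd
  · subst hd
    simp
  rcases Nat.eq_zero_or_pos K with hK | hK
  · subst hK
    simp
  · have e5 : 2 * (K * d - 1) = 2 * (d - 1) + 2 * (K - 1) * d := by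
      obtain ⟨c, rfl⟩ : ∃ c, d = c + 1 := ⟨d - 1, by omega⟩
      obtain ⟨k, rfl⟩ : ∃ k, K = k + 1 := ⟨K - 1, by omega⟩
      have h1 : (k + 1) * (c + 1) - 1 = k * (c + 1) + c := by
        have : (k + 1) * (c + 1) = k * (c + 1) + c + 1 := by ring
        omega
      rw [h1, Nat.add_sub_cancel, Nat.add_sub_cancel]
      ring
    rw [e5, pow_add (∏ i, P i)]
    ring

private theorem h1_eq {N : Type} [Field N] [NumberField N] (x : N) :
    Height.mulHeight₁ x = (∏ σ : N →+* ℂ, max 1 ‖σ x‖) * ∏ᶠ w : FinitePlace N, max 1 (w x) := by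
  classical
  have h1 : (∏ t : N →+* ℂ, max 1 ‖t x‖) = ∏ w : InfinitePlace N, max (w x) 1 ^ w.mult := by
    rw [← Finset.prod_fiberwise Finset.univ InfinitePlace.mk (fun φ : N →+* ℂ => max 1 ‖φ x‖)]
    refine Finset.prod_congr rfl fun w _ => ?_
    have h2 : ∀ φ ∈ Finset.univ.filter (fun φ : N →+* ℂ => InfinitePlace.mk φ = w),
        max 1 ‖φ x‖ = max (w x) 1 := by
      intro φ hφ
      rw [← (Finset.mem_filter.mp hφ).2, InfinitePlace.apply, max_comm]
    rw [Finset.prod_congr rfl h2, Finset.prod_const, InfinitePlace.card_filter_mk_eq]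
  rw [NumberField.mulHeight₁_eq, h1]
  congr 1
  exact finprod_congr fun w => max_comm _ _

private theorem sup_w {N : Type} [Field N] [NumberField N] (x : N) (hx : x ≠ 0) :
    ∃ T : Finset (FinitePlace N), ∀ w ∉ T, w x = 1 := by
  have h : (Function.mulSupport fun w : FinitePlace N => w x).Finite :=
    FinitePlace.hasFiniteMulSupport hx
  refine ⟨h.toFinset, fun w hw => ?_⟩
  by_contra hne
  exact hw (h.mem_toFinset.2 hne)

private theorem sup_m {N : Type} [Field N] [NumberField N] (x : N) :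
    ∃ T : Finset (FinitePlace N), ∀ w ∉ T, max 1 (w x) = 1 := by
  by_cases hx : x = 0
  · refine ⟨∅, fun w _ => ?_⟩
    rw [hx, map_zero]
    exact max_eq_left zero_le_one
  · obtain ⟨T, hT⟩ := sup_w x hx
    exact ⟨T, fun w hw => by rw [hT w hw, max_self]⟩

private theorem max_pow' (t : ℝ) (ht : 0 ≤ t) (q : ℕ) : max 1 (t ^ q) = max 1 t ^ q := by
  rcases le_total 1 t with h | h
  · rw [max_eq_right h, max_eq_right (one_le_pow₀ h)]
  · rw [max_eq_left h, max_eq_left (pow_le_one₀ ht h), one_pow]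

private theorem w_sub {N : Type} [Field N] [NumberField N] (w : FinitePlace N) (x y : N) :
    w (x - y) ≤ max (w x) (w y) := by
  have h1 := FinitePlace.add_le w x (-y)
  have h2 : w (-y) = w y := AbsoluteValue.map_neg w.1 y
  rwa [← sub_eq_add_neg, h2] at h1

private theorem w_sub_pow {N : Type} [Field N] [NumberField N] (w : FinitePlace N) (x y : N)
    (q : ℕ) : w (x ^ q - y ^ q) ≤ max 1 (w x) ^ q * max 1 (w y) ^ q := by
  have hx : w x ^ q ≤ max 1 (w x) ^ q :=
    pow_le_pow_left₀ (apply_nonneg w _) (le_max_right _ _) q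
  have hy : w y ^ q ≤ max 1 (w y) ^ q :=
    pow_le_pow_left₀ (apply_nonneg w _) (le_max_right _ _) q
  have hx1 : 1 ≤ max 1 (w x) ^ q := one_le_pow₀ (le_max_left _ _)
  have hy1 : 1 ≤ max 1 (w y) ^ q := one_le_pow₀ (le_max_left _ _)
  refine (w_sub w _ _).trans (max_le ?_ ?_)
  · rw [map_pow]
    nlinarith
  · rw [map_pow]
    nlinarith

private theorem coreK {N : Type} [Field N] [NumberField N] (q : ℕ) (hq : q.Prime) (d K : ℕ)
    (a : Fin K → Fin d → N)
    (hinj : ∀ i j i' j', a i j ^ q = a i' j' ^ q → i = i' ∧ j = j')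
    (hloc : ∀ (w : FinitePlace N) i i', i < i' → ∀ j', ∏ j, w (a i' j' ^ q - a i j ^ q) ≤
      w (q : N) * max 1 (w (a i' j')) ^ (q * d) * ∏ j, max 1 (w (a i j)) ^ q) :
    (q : ℝ) ^ (d * (K * (K - 1)) * Module.finrank ℚ N) ≤
      ((K * d : ℕ) : ℝ) ^ (2 * (K * d) * Module.finrank ℚ N) *
      (∏ i, ∏ j, Height.mulHeight₁ (a i j)) ^ (2 * (q * (K * d - 1))) := by
  classical
  obtain ⟨e, he⟩ : ∃ e : Fin K × Fin d ≃ Fin (K * d), e = finProdFinEquiv := ⟨_, rfl⟩
  clear he
  obtain ⟨v, hv⟩ : ∃ v : Fin (K * d) → N, v = fun x => a (e.symm x).1 (e.symm x).2 ^ q := ⟨_, rfl⟩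
  have hve : ∀ x : Fin K × Fin d, v (e x) = a x.1 x.2 ^ q := fun x => by
    rw [hv]
    simp only [Equiv.symm_apply_apply]
  have hvinj : Function.Injective v := by
    intro x y hxy
    obtain ⟨x, rfl⟩ := e.surjective x
    obtain ⟨y, rfl⟩ := e.surjective y
    rw [hve, hve] at hxy
    obtain ⟨h1, h2⟩ := hinj _ _ _ _ hxy
    rw [Prod.ext h1 h2]
  obtain ⟨Δ, hΔ⟩ : ∃ Δ : N, Δ = (Matrix.vandermonde v).det := ⟨_, rfl⟩
  have hΔ0 : Δ ≠ 0 := by
    rw [hΔ]
    exact Matrix.det_vandermonde_ne_zero_iff.2 hvinj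
  have hqN : (q : N) ≠ 0 := Nat.cast_ne_zero.2 hq.ne_zero
  have hw0 : ∀ (w : FinitePlace N) (x : N), 0 ≤ w x := fun w x => apply_nonneg w x
  have hm1 : ∀ t : ℝ, 1 ≤ max 1 t := fun t => le_max_left _ _
  have hm0 : ∀ t : ℝ, 0 ≤ max 1 t := fun t => zero_le_one.trans (hm1 t)
  have hneg : ∀ (w : FinitePlace N) (x y : N), w (x - y) = w (y - x) := fun w x y =>
    AbsoluteValue.map_sub w.1 x y
  -- finite places
  have hfin : ∀ w : FinitePlace N, w Δ ^ 2 ≤ w (q : N) ^ (d * (K * (K - 1))) *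
      (∏ i, ∏ j, max 1 (w (a i j))) ^ (2 * (q * (K * d - 1))) := by
    intro w
    have h1 : w Δ ^ 2 = ∏ x, ∏ y ∈ ({x}ᶜ : Finset (Fin (K * d))), w (v y - v x) := by
      rw [← Finset.prod_prod_Ioi_mul_eq_prod_prod_off_diag (fun y x => w (v y - v x)), hΔ,
        Matrix.det_vandermonde, map_prod, sq, ← Finset.prod_mul_distrib]
      refine Finset.prod_congr rfl fun x _ => ?_
      rw [map_prod, ← Finset.prod_mul_distrib]
      refine Finset.prod_congr rfl fun y _ => ?_
      rw [hneg w (v x) (v y)]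
    have h2 := blocksK (fun y x : Fin K × Fin d => w (a y.1 y.2 ^ q - a x.1 x.2 ^ q)) (fun _ _ => hw0 _ _)
      (fun x y => hneg w _ _)
      (fun i j => max 1 (w (a i j)) ^ q) (fun _ _ => pow_nonneg (hm0 _) q) (w (q : N)) (hw0 _ _)
      (fun i j j' => w_sub_pow w _ _ q)
      (fun i i' hii j' => by
        have h3 := hloc w i i' hii j'
        rw [pow_mul] at h3
        exact h3)
    have h3 : ∏ x, ∏ y ∈ ({x}ᶜ : Finset (Fin (K * d))), w (v y - v x) =
        ∏ x, ∏ y ∈ ({x}ᶜ : Finset (Fin K × Fin d)), w (a y.1 y.2 ^ q - a x.1 x.2 ^ q) := by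
      rw [← Equiv.prod_comp e]
      refine Finset.prod_congr rfl fun x _ => ?_
      have h4 : ({e x}ᶜ : Finset (Fin (K * d))) = ({x}ᶜ : Finset (Fin K × Fin d)).map e.toEmbedding := by
        ext y
        rw [Finset.mem_map]
        constructor
        · intro hy
          refine ⟨e.symm y, ?_, by simp⟩
          rw [Finset.mem_compl, Finset.mem_singleton] at hy ⊢
          rintro rfl
          simp at hy
        · rintro ⟨z, hz, rfl⟩
          rw [Finset.mem_compl, Finset.mem_singleton] at hz ⊢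
          intro h
          exact hz (e.injective h)
      rw [h4, Finset.prod_map]
      refine Finset.prod_congr rfl fun y _ => ?_
      rw [hve]
      change w (v (e y) - _) = _
      rw [hve]
    rw [h1, h3]
    refine h2.trans (le_of_eq ?_)
    rw [Finset.prod_congr rfl fun i _ => Finset.prod_pow _ _ _, Finset.prod_pow, ← pow_mul]
    congr 2
    ring
  -- embeddings
  have harch : ∀ σ : N →+* ℂ, ‖σ Δ‖ ≤ ((K * d : ℕ) : ℝ) ^ (K * d) *
      (∏ i, ∏ j, max 1 ‖σ (a i j)‖) ^ (q * (K * d - 1)) := by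
    intro σ
    have h1 : σ Δ = (Matrix.vandermonde fun x => σ (v x)).det := by
      rw [hΔ, RingHom.map_det]
      congr 1
      ext x y
      rw [RingHom.mapMatrix_apply, Matrix.map_apply, Matrix.vandermonde_apply,
        Matrix.vandermonde_apply, map_pow]
    rw [h1]
    refine (arch _).trans (le_of_eq ?_)
    congr 1
    rw [← Equiv.prod_comp e, Fintype.prod_prod_type, ← Finset.prod_pow]
    refine Finset.prod_congr rfl fun i _ => ?_
    rw [← Finset.prod_pow]
    refine Finset.prod_congr rfl fun j _ => ?_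
    rw [hve, map_pow, norm_pow, max_pow' _ (norm_nonneg _), ← pow_mul]
  -- a common finite set of places
  obtain ⟨T1, hT1⟩ := sup_w Δ hΔ0
  obtain ⟨T2, hT2⟩ := sup_w (q : N) hqN
  choose T3 hT3 using fun i => fun j => sup_m (a i j)
  obtain ⟨S, hS⟩ : ∃ S : Finset (FinitePlace N), S = T1 ∪ T2 ∪
    Finset.univ.biUnion fun x : Fin K × Fin d => T3 x.1 x.2 := ⟨_, rfl⟩
  have hS1 : ∀ w ∉ S, w ∉ T1 ∧ w ∉ T2 ∧ (∀ i j, w ∉ T3 i j) := by
    intro w hw
    rw [hS] at hw
    simp only [Finset.mem_union, Finset.mem_biUnion, Finset.mem_univ, true_and, not_or,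
      not_exists] at hw
    exact ⟨hw.1.1, hw.1.2, fun i j => hw.2 (i, j)⟩
  have hfp : ∀ g : FinitePlace N → ℝ, (∀ w ∉ S, g w = 1) → ∏ᶠ w, g w = ∏ w ∈ S, g w := by
    intro g hg
    refine finprod_eq_prod_of_mulSupport_subset g fun w hw => ?_
    by_contra hne
    exact hw (hg w hne)
  obtain ⟨D, hD⟩ : ∃ D : ℕ, D = Module.finrank ℚ N := ⟨_, rfl⟩
  have hcard : (Finset.univ : Finset (N →+* ℂ)).card = D := by
    rw [Finset.card_univ, hD]
    exact NumberField.Embeddings.card N ℂ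
  have hpf := Pool.Agent.H72.BE.prod_formula Δ hΔ0
  rw [hfp _ fun w hw => hT1 w (hS1 w hw).1] at hpf
  have hpq := Pool.Agent.H72.BE.prod_formula (q : N) hqN
  rw [hfp _ fun w hw => hT2 w (hS1 w hw).2.1] at hpq
  have hqσ : ∏ σ : N →+* ℂ, ‖σ (q : N)‖ = (q : ℝ) ^ D := by
    rw [← hcard, ← Finset.prod_const]
    refine Finset.prod_congr rfl fun σ _ => ?_
    rw [map_natCast, Complex.norm_natCast]
  rw [hqσ] at hpq
  have hHa : ∀ i j, Height.mulHeight₁ (a i j) =
      (∏ σ : N →+* ℂ, max 1 ‖σ (a i j)‖) * ∏ w ∈ S, max 1 (w (a i j)) := by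
    intro i j
    rw [h1_eq, hfp _ fun w hw => hT3 i j w ((hS1 w hw).2.2 i j)]
  obtain ⟨E, hE⟩ : ∃ E : ℕ, E = q * (K * d - 1) := ⟨_, rfl⟩
  obtain ⟨G, hG⟩ : ∃ G : ℕ, G = d * (K * (K - 1)) := ⟨_, rfl⟩
  obtain ⟨Z, hZ⟩ : ∃ Z : ℝ, Z = ((K * d : ℕ) : ℝ) := ⟨_, rfl⟩
  have hZ0 : 0 ≤ Z := by rw [hZ]; positivity
  rw [← hE, ← hG] at hfin
  rw [← hE, ← hZ] at harch
  rw [← hE, ← hG, ← hZ, ← hD]
  have k1 : (∏ σ : N →+* ℂ, ‖σ Δ‖) ^ 2 ≤ Z ^ (2 * (K * d) * D) *
      (∏ i, ∏ j, ∏ σ : N →+* ℂ, max 1 ‖σ (a i j)‖) ^ (2 * E) := by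
    have h1 : ∏ σ : N →+* ℂ, ‖σ Δ‖ ≤ Z ^ (K * d * D) *
        (∏ i, ∏ j, ∏ σ : N →+* ℂ, max 1 ‖σ (a i j)‖) ^ E := by
      refine (Finset.prod_le_prod (fun σ _ => norm_nonneg _) fun σ _ => harch σ).trans (le_of_eq ?_)
      rw [Finset.prod_mul_distrib, Finset.prod_const, hcard, ← pow_mul, Finset.prod_pow,
        Finset.prod_comm (s := Finset.univ (α := N →+* ℂ)),
        Finset.prod_congr rfl fun i _ => Finset.prod_comm (s := Finset.univ (α := N →+* ℂ))]
    calc (∏ σ : N →+* ℂ, ‖σ Δ‖) ^ 2 ≤ (Z ^ (K * d * D) *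
        (∏ i, ∏ j, ∏ σ : N →+* ℂ, max 1 ‖σ (a i j)‖) ^ E) ^ 2 :=
          pow_le_pow_left₀ (Finset.prod_nonneg fun σ _ => norm_nonneg _) h1 2
      _ = _ := by
        rw [mul_pow, ← pow_mul, ← pow_mul]
        congr 2
        · ring
        · ring
  have k2 : (∏ w ∈ S, w Δ) ^ 2 ≤ (∏ w ∈ S, w (q : N)) ^ G *
      (∏ i, ∏ j, ∏ w ∈ S, max 1 (w (a i j))) ^ (2 * E) := by
    rw [← Finset.prod_pow]
    refine (Finset.prod_le_prod (fun w _ => by positivity) fun w _ => hfin w).trans (le_of_eq ?_)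
    rw [Finset.prod_mul_distrib, Finset.prod_pow, Finset.prod_pow, Finset.prod_comm (s := S),
      Finset.prod_congr rfl fun i _ => Finset.prod_comm (s := S)]
  have k3 : (1 : ℝ) ≤ (Z ^ (2 * (K * d) * D) *
      (∏ i, ∏ j, ∏ σ : N →+* ℂ, max 1 ‖σ (a i j)‖) ^ (2 * E)) *
      ((∏ w ∈ S, w (q : N)) ^ G * (∏ i, ∏ j, ∏ w ∈ S, max 1 (w (a i j))) ^ (2 * E)) := by
    have h1 : (∏ σ : N →+* ℂ, ‖σ Δ‖) ^ 2 * (∏ w ∈ S, w Δ) ^ 2 = 1 := by
      rw [← mul_pow, hpf, one_pow]
    refine le_trans (le_of_eq h1.symm)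
      (mul_le_mul k1 k2 (pow_nonneg (Finset.prod_nonneg fun w _ => hw0 _ _) _) ?_)
    refine mul_nonneg (by positivity) (pow_nonneg ?_ _)
    exact Finset.prod_nonneg fun i _ => Finset.prod_nonneg fun j _ =>
      Finset.prod_nonneg fun σ _ => hm0 _
  have k4 : (Z ^ (2 * (K * d) * D) *
      (∏ i, ∏ j, ∏ σ : N →+* ℂ, max 1 ‖σ (a i j)‖) ^ (2 * E)) *
      ((∏ w ∈ S, w (q : N)) ^ G * (∏ i, ∏ j, ∏ w ∈ S, max 1 (w (a i j))) ^ (2 * E)) *
        (q : ℝ) ^ (G * D) =
      Z ^ (2 * (K * d) * D) * (∏ i, ∏ j, Height.mulHeight₁ (a i j)) ^ (2 * E) := by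
    have e1 : (∏ i, ∏ j, Height.mulHeight₁ (a i j)) =
        (∏ i, ∏ j, ∏ σ : N →+* ℂ, max 1 ‖σ (a i j)‖) * ∏ i, ∏ j, ∏ w ∈ S, max 1 (w (a i j)) := by
      rw [← Finset.prod_mul_distrib]
      refine Finset.prod_congr rfl fun i _ => ?_
      rw [← Finset.prod_mul_distrib]
      exact Finset.prod_congr rfl fun j _ => hHa i j
    have e3 : (∏ w ∈ S, w (q : N)) ^ G * (q : ℝ) ^ (G * D) = 1 := by
      rw [mul_comm G D, pow_mul, ← mul_pow, mul_comm, hpq, one_pow]
    rw [e1, mul_pow]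
    calc _ = ((∏ w ∈ S, w (q : N)) ^ G * (q : ℝ) ^ (G * D)) *
          (Z ^ (2 * (K * d) * D) *
            ((∏ i, ∏ j, ∏ σ : N →+* ℂ, max 1 ‖σ (a i j)‖) ^ (2 * E) *
              (∏ i, ∏ j, ∏ w ∈ S, max 1 (w (a i j))) ^ (2 * E))) := by ring
      _ = _ := by rw [e3, one_mul]
  rw [← k4]
  exact le_mul_of_one_le_left (by positivity) k3

private theorem conj_h {F Ω : Type} [Field F] [NumberField F] [Field Ω] [CharZero Ω]
    [Algebra F Ω] (τ : F →+* F) (α γ : Ω) (hα : IsIntegral ℚ α)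
    (h : aeval γ ((minpoly F α).map τ) = 0) : absLogHeight₁ γ = absLogHeight₁ α := by
  have h1 : minpoly F α ∣ (minpoly ℚ α).map (algebraMap ℚ F) := by
    apply minpoly.dvd
    rw [aeval_map_algebraMap, minpoly.aeval]
  have h2 : aeval γ (minpoly ℚ α) = 0 := by
    obtain ⟨r, hr⟩ := h1
    have h4 : ((minpoly ℚ α).map (algebraMap ℚ F)).map τ = (minpoly ℚ α).map (algebraMap ℚ F) := by
      rw [Polynomial.map_map]
      congr 1
      exact Subsingleton.elim _ _
    have h3 : aeval γ ((minpoly ℚ α).map (algebraMap ℚ F)) = 0 := by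
      rw [← h4, hr, Polynomial.map_mul, map_mul, h, zero_mul]
    rwa [aeval_map_algebraMap] at h3
  have h3 : minpoly ℚ γ = minpoly ℚ α :=
    (minpoly.eq_of_irreducible_of_monic (minpoly.irreducible hα) h2 (minpoly.monic hα)).symm
  have h4 : IsIntegral ℚ γ := ⟨minpoly ℚ α, minpoly.monic hα, by rwa [aeval_def] at h2⟩
  exact Pool.Agent.H4.RR.absLogHeight_eq_of_minpoly_eq Ω γ α h4 h3

private theorem ex_roots {F Ω : Type} [Field F] [Field Ω] [IsAlgClosed Ω] [Algebra F Ω] (f : F[X])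
    (hf : f.Monic) (d : ℕ) (hd : f.natDegree = d) :
    ∃ a : Fin d → Ω, ∏ j, (X - C (a j)) = f.map (algebraMap F Ω) := by
  have hs : (f.map (algebraMap F Ω)).Splits := IsAlgClosed.splits _
  have h1 := hs.eq_prod_roots_of_monic (hf.map _)
  have h2 := hs.natDegree_eq_card_roots
  rw [hf.natDegree_map, hd] at h2
  obtain ⟨L, hL⟩ : ∃ L : List Ω, (L : Multiset Ω) = (f.map (algebraMap F Ω)).roots :=
    Quot.exists_rep _
  rw [← hL] at h1 h2
  rw [Multiset.coe_card] at h2
  subst h2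
  refine ⟨fun j => L.get j, ?_⟩
  rw [h1, Multiset.map_coe, Multiset.prod_coe, ← List.prod_ofFn]
  congr 1
  have h3 : (fun j : Fin L.length => X - C (L.get j)) = (fun x => X - C x) ∘ L.get := rfl
  rw [h3, ← List.map_ofFn, List.ofFn_get]

/-- the local inequality for the roots of a polynomial over `F` -/
private theorem loc_all {F N : Type} [Field F] [NumberField F] [Field N] [NumberField N] [Algebra F N]
    (q : ℕ) (hq : q.Prime) (ζ : F) (hζ : IsPrimitiveRoot ζ q) (s : F ≃+* F)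
    (hs : ∀ y : 𝓞 F, ∃ c : 𝓞 F, s (y : F) ^ q - (y : F) ^ q = q * (c : F)) (f : F[X]) (hmon : f.Monic)
    (d : ℕ) (hd : f.natDegree = d) (a : Fin d → N) (ha : ∏ j, (X - C (a j)) = f.map (algebraMap F N))
    (b : N) (hb : aeval b (f.map (s : F →+* F)) = 0) (w : FinitePlace N) :
    ∏ j, w (b ^ q - a j ^ q) ≤ w (q : N) * max 1 (w b) ^ (q * d) * ∏ j, max 1 (w (a j)) ^ q := by
  classical
  have hlast : f.coeff d = 1 := by
    rw [← hd]
    exact hmon
  obtain ⟨lam, V, hlam, hV, hcop⟩ := Pool.Agent.H69.BE.scaleV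
    (fun i : Fin (d + 1) => f.coeff i) ⟨Fin.last d, by rw [Fin.val_last, hlast]; exact one_ne_zero⟩ q hq
  have hsum : ∀ (g : F[X]) (x : N), g.natDegree < d + 1 →
      aeval x g = ∑ i : Fin (d + 1), algebraMap F N (g.coeff i) * x ^ (i : ℕ) := by
    intro g x hg
    rw [aeval_eq_sum_range' hg, Finset.sum_range]
    refine Finset.sum_congr rfl fun i _ => ?_
    rw [Algebra.smul_def]
  set ι : 𝓞 F →+* 𝓞 N := algebraMap (𝓞 F) (𝓞 N) with hι
  have hιN : ∀ x : 𝓞 F, ((ι x : 𝓞 N) : N) = algebraMap F N (x : F) := fun x => rfl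
  have hle1 : ∀ (w : FinitePlace N) (x : 𝓞 N), w (x : N) ≤ 1 := by
    intro w x
    have h := FinitePlace.norm_le_one N w.maximalIdeal x
    rw [FinitePlace.norm_embedding_eq] at h
    exact h
  have hlt1 : ∀ (w : FinitePlace N) (x : 𝓞 N), w (x : N) < 1 ↔ x ∈ w.maximalIdeal.asIdeal := by
    intro w x
    have h := FinitePlace.norm_lt_one_iff_mem N w.maximalIdeal x
    rw [FinitePlace.norm_embedding_eq] at h
    exact h
  refine loc_desc w q hq d (algebraMap F N lam)
    (fun h => hlam ((map_eq_zero (algebraMap F N)).1 h))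
    (fun i => algebraMap F N (f.coeff i)) (fun i => algebraMap F N (V i : F))
    (fun i => algebraMap F N (s (V i : F)))
    (fun i => by rw [hV, map_mul])
    (fun i => by
      rw [← hιN]
      exact hle1 w _)
    ?_ ?_ b ?_ a ?_ (algebraMap F N ζ) (hζ.map_of_injective (algebraMap F N).injective)
  · intro hwq
    by_contra hno
    push Not at hno
    have h1 : ∀ i, ι (V i) ∈ w.maximalIdeal.asIdeal := by
      intro i
      rw [← hlt1, hιN]
      refine lt_of_le_of_ne ?_ (hno i)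
      rw [← hιN]
      exact hle1 w _
    have h2 : ι (q : 𝓞 F) ∈ w.maximalIdeal.asIdeal := by
      rw [← hlt1, hιN]
      have h3 : algebraMap F N (((q : 𝓞 F)) : F) = (q : N) := by
        have h4 : (((q : 𝓞 F)) : F) = (q : F) := map_natCast (algebraMap (𝓞 F) F) q
        rw [h4, map_natCast]
      rw [h3]
      exact hwq
    obtain ⟨x, hx, y, hy, hxy⟩ := Ideal.isCoprime_iff_exists.1 hcop
    have h3 : Ideal.span {(q : 𝓞 F)} ≤ w.maximalIdeal.asIdeal.comap ι := by
      rw [Ideal.span_singleton_le_iff_mem]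
      exact h2
    have h4 : Ideal.span (Set.range V) ≤ w.maximalIdeal.asIdeal.comap ι := by
      rw [Ideal.span_le]
      rintro _ ⟨i, rfl⟩
      exact h1 i
    have h5 : (1 : 𝓞 F) ∈ w.maximalIdeal.asIdeal.comap ι := by
      rw [← hxy]
      exact Ideal.add_mem _ (h3 hx) (h4 hy)
    rw [Ideal.mem_comap, map_one] at h5
    exact w.maximalIdeal.isPrime.ne_top ((Ideal.eq_top_iff_one _).2 h5)
  · intro i
    obtain ⟨c, hc⟩ := hs (V i)
    have h1 : algebraMap F N (s (V i : F)) ^ q - algebraMap F N (V i : F) ^ q =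
        (q : N) * ((ι c : 𝓞 N) : N) := by
      rw [hιN, ← map_pow (algebraMap F N), ← map_pow (algebraMap F N), ← map_sub, hc, map_mul,
        map_natCast]
    rw [h1, map_mul]
    exact mul_le_of_le_one_right (apply_nonneg w _) (hle1 w _)
  · have h1 : ∀ i : Fin (d + 1), algebraMap F N (s (V i : F)) * b ^ (i : ℕ) =
        algebraMap F N (s lam) * (algebraMap F N ((f.map (s : F →+* F)).coeff i) * b ^ (i : ℕ)) := by
      intro i
      rw [hV, map_mul, map_mul, coeff_map, mul_assoc]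
      rfl
    rw [Finset.sum_congr rfl fun i _ => h1 i, ← Finset.mul_sum, ← hsum (f.map (s : F →+* F)) b
      (by rw [hmon.natDegree_map]; omega), hb, mul_zero]
  · rw [ha]
    conv_lhs => rw [as_sum_range_C_mul_X_pow' (f.map (algebraMap F N))
      (show (f.map (algebraMap F N)).natDegree < d + 1 by rw [hmon.natDegree_map, hd]; omega)]
    rw [Finset.sum_range]
    refine Finset.sum_congr rfl fun i _ => ?_
    rw [coeff_map]

/-- the congruence for the powers of `s` -/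
private theorem pow_hs {F : Type} [Field F] [NumberField F] (q : ℕ) (s : F ≃+* F)
    (hs : ∀ y : 𝓞 F, ∃ c : 𝓞 F, s (y : F) ^ q - (y : F) ^ q = q * (c : F)) (k : ℕ) (y : 𝓞 F) :
    ∃ c : 𝓞 F, (s ^ k : F ≃+* F) (y : F) ^ q - (y : F) ^ q = q * (c : F) := by
  induction k generalizing y with
  | zero =>
    refine ⟨0, ?_⟩
    rw [pow_zero, RingAut.one_apply, sub_self]
    simp
  | succ k ih =>
    obtain ⟨c, hc⟩ := ih (RingOfIntegers.mapRingEquiv s y)
    obtain ⟨c', hc'⟩ := hs y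
    refine ⟨c + c', ?_⟩
    have h1 : ((RingOfIntegers.mapRingEquiv s y : 𝓞 F) : F) = s (y : F) := rfl
    rw [h1] at hc
    have h2 : ((c + c' : 𝓞 F) : F) = (c : F) + (c' : F) := map_add (algebraMap (𝓞 F) F) c c'
    rw [pow_succ, RingAut.mul_apply, h2, mul_add, ← hc, ← hc']
    ring

/-- composition of powers on polynomials -/
private theorem map_pow_add {F : Type} [Field F] (s : F ≃+* F) (f : F[X]) (i k : ℕ) :
    (f.map ((s ^ i : F ≃+* F) : F →+* F)).map ((s ^ k : F ≃+* F) : F →+* F) =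
      f.map ((s ^ (k + i) : F ≃+* F) : F →+* F) := by
  rw [Polynomial.map_map]
  congr 1
  ext x
  change (s ^ k : F ≃+* F) ((s ^ i : F ≃+* F) x) = (s ^ (k + i) : F ≃+* F) x
  rw [pow_add, RingAut.mul_apply]

/-- full degree of the `q`-th power: the generator is a polynomial in its power -/
private theorem full_poly {F Ω : Type} [Field F] [Field Ω] [Algebra F Ω] (q : ℕ) (α : Ω)
    (hα : IsIntegral F α) (h : (minpoly F (α ^ q)).natDegree = (minpoly F α).natDegree) :
    ∃ P : F[X], aeval (α ^ q) P = α := by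
  have hα' : IsIntegral F (α ^ q) := hα.pow q
  have h1 : F⟮α ^ q⟯ ≤ F⟮α⟯ := by
    rw [IntermediateField.adjoin_simple_le_iff]
    exact pow_mem (IntermediateField.mem_adjoin_simple_self F α) q
  have h2 : Module.finrank F F⟮α ^ q⟯ = Module.finrank F F⟮α⟯ := by
    rw [IntermediateField.adjoin.finrank hα', IntermediateField.adjoin.finrank hα, h]
  have : FiniteDimensional F F⟮α⟯ := IntermediateField.adjoin.finiteDimensional hα
  have h3 : F⟮α ^ q⟯ = F⟮α⟯ := IntermediateField.eq_of_le_of_finrank_eq h1 h2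
  have h4 : α ∈ F⟮α ^ q⟯ := by
    rw [h3]
    exact IntermediateField.mem_adjoin_simple_self F α
  rw [← IntermediateField.mem_toSubalgebra, IntermediateField.adjoin_simple_toSubalgebra_of_isAlgebraic hα'.isAlgebraic,
    Algebra.adjoin_singleton_eq_range_aeval] at h4
  obtain ⟨P, hP⟩ := h4
  exact ⟨P, hP⟩

theorem desc_heightK {F Ω : Type} [Field F] [NumberField F] [Field Ω] [CharZero Ω]
    [IsAlgClosed Ω] [Algebra F Ω] (q : ℕ) (hq : q.Prime) (hq2 : 3 ≤ q) (ζ : F)
    (hζ : IsPrimitiveRoot ζ q) (s : F ≃+* F)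
    (hs : ∀ y : 𝓞 F, ∃ c : 𝓞 F, s (y : F) ^ q - (y : F) ^ q = q * (c : F)) (α : Ω)
    (hα : IsIntegral ℚ α) (d : ℕ) (hd : (minpoly F α).natDegree = d)
    (hfull : (minpoly F (α ^ q)).natDegree = d) (K : ℕ) (hK : 2 ≤ K)
    (hh : 2 * q * K * d * absLogHeight₁ α + 2 * Real.log (K * d) < (K - 1 : ℕ) * Real.log q) :
    ∃ j : ℕ, 1 ≤ j ∧ j < K ∧
      (minpoly F (α ^ q)).map ((s ^ j : F ≃+* F) : F →+* F) = minpoly F (α ^ q) := by
  classical
  by_contra hcon
  push Not at hcon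
  obtain ⟨f, hf⟩ : ∃ f : F[X], f = minpoly F α := ⟨_, rfl⟩
  obtain ⟨g, hg⟩ : ∃ g : F[X], g = minpoly F (α ^ q) := ⟨_, rfl⟩
  rw [← hg] at hcon
  have hintF : IsIntegral F α := hα.tower_top
  have hintF' : IsIntegral F (α ^ q) := hintF.pow q
  have hmon : f.Monic := by rw [hf]; exact minpoly.monic hintF
  have hirr : Irreducible f := by rw [hf]; exact minpoly.irreducible hintF
  have hgmon : g.Monic := by rw [hg]; exact minpoly.monic hintF'
  have hgirr : Irreducible g := by rw [hg]; exact minpoly.irreducible hintF'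
  have hd1 : 1 ≤ d := by
    rw [← hd]
    exact minpoly.natDegree_pos hintF
  obtain ⟨P, hP⟩ := full_poly q α hintF (by rw [hfull, hd])
  obtain ⟨ff, hff⟩ : ∃ ff : ℕ → F[X], ff = fun i => f.map ((s ^ i : F ≃+* F) : F →+* F) := ⟨_, rfl⟩
  obtain ⟨gg, hgg⟩ : ∃ gg : ℕ → F[X], gg = fun i => g.map ((s ^ i : F ≃+* F) : F →+* F) := ⟨_, rfl⟩
  have hffi : ∀ i, ff i = f.map ((s ^ i : F ≃+* F) : F →+* F) := fun i => by rw [hff]
  have hggi : ∀ i, gg i = g.map ((s ^ i : F ≃+* F) : F →+* F) := fun i => by rw [hgg]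
  have hfm : ∀ i, (ff i).Monic := fun i => by rw [hffi]; exact hmon.map _
  have hgm : ∀ i, (gg i).Monic := fun i => by rw [hggi]; exact hgmon.map _
  have hfd : ∀ i, (ff i).natDegree = d := fun i => by rw [hffi, hmon.natDegree_map, hf, hd]
  have hirrm : ∀ (p : F[X]) (i : ℕ), Irreducible p → Irreducible (p.map ((s ^ i : F ≃+* F) : F →+* F)) := by
    intro p i hp
    have h1 : Irreducible (Polynomial.mapEquiv (s ^ i : F ≃+* F) p) := (MulEquiv.irreducible_iff _).2 hp
    rw [Polynomial.mapEquiv_apply] at h1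
    exact h1
  have hfi : ∀ i, Irreducible (ff i) := fun i => by rw [hffi]; exact hirrm f i hirr
  have hgi : ∀ i, Irreducible (gg i) := fun i => by rw [hggi]; exact hirrm g i hgirr
  choose a ha using fun i : Fin K => ex_roots (Ω := Ω) (ff i) (hfm i) d (hfd i)
  have haroot : ∀ i j, aeval (a i j) (ff i) = 0 := by
    intro i j
    rw [aeval_def, ← eval_map, ← ha, eval_prod]
    exact Finset.prod_eq_zero (Finset.mem_univ j) (by simp)
  have hainj : ∀ i, Function.Injective (a i) := by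
    intro i
    have h1 : ((ff i).map (algebraMap F Ω)).Separable := (hfi i).separable.map
    rw [← ha] at h1
    exact separable_prod_X_sub_C_iff.1 h1
  -- the powers are roots of `gg i`
  have hgroot : ∀ i j, aeval (a i j ^ q) (gg i) = 0 := by
    intro i j
    have h1 : f ∣ g.comp (X ^ q) := by
      rw [hf]
      refine minpoly.dvd F α ?_
      rw [aeval_comp, map_pow, aeval_X, hg]
      exact minpoly.aeval F (α ^ q)
    obtain ⟨R, hR⟩ := h1
    have h2 := congrArg (Polynomial.map ((s ^ (i : ℕ) : F ≃+* F) : F →+* F)) hR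
    rw [Polynomial.map_comp, Polynomial.map_mul, Polynomial.map_pow, map_X, ← hggi, ← hffi] at h2
    have h3 := congrArg (aeval (a i j)) h2
    rw [aeval_comp, map_mul, haroot, zero_mul, map_pow, aeval_X] at h3
    exact h3
  -- and determine the roots of `ff i`
  have hdet : ∀ i j, aeval (a i j ^ q) (P.map ((s ^ (i : ℕ) : F ≃+* F) : F →+* F)) = a i j := by
    intro i j
    have h1 : f ∣ P.comp (X ^ q) - X := by
      rw [hf]
      refine minpoly.dvd F α ?_
      rw [map_sub, aeval_comp, map_pow, aeval_X, hP, sub_self]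
    obtain ⟨R, hR⟩ := h1
    have h2 := congrArg (Polynomial.map ((s ^ (i : ℕ) : F ≃+* F) : F →+* F)) hR
    rw [Polynomial.map_sub, Polynomial.map_comp, Polynomial.map_mul, Polynomial.map_pow, map_X, ← hffi] at h2
    have h3 := congrArg (aeval (a i j)) h2
    rw [map_sub, aeval_comp, map_mul, haroot, zero_mul, map_pow, aeval_X, sub_eq_zero] at h3
    exact h3
  have hggne : ∀ i k : ℕ, i < k → k < K → gg i ≠ gg k := by
    intro i k hik hkK h
    obtain ⟨l, rfl⟩ : ∃ l, k = i + l := ⟨k - i, by omega⟩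
    apply hcon l (by omega) (by omega)
    rw [hggi, hggi, ← map_pow_add s g l i] at h
    exact (Polynomial.map_injective _ (RingHom.injective _) h).symm
  have hroot2 : ∀ (i k : Fin K) (x : Ω), i < k → aeval x (gg i) = 0 → aeval x (gg k) = 0 → False := by
    intro i k x hik h1 h2
    apply hggne i k hik k.2
    rw [minpoly.eq_of_irreducible_of_monic (hgi i) h1 (hgm i), minpoly.eq_of_irreducible_of_monic (hgi k) h2 (hgm k)]
  have hinjq : ∀ i j i' j', a i j ^ q = a i' j' ^ q → i = i' ∧ j = j' := by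
    intro i j i' j' h
    have hii : i = i' := by
      rcases lt_trichotomy i i' with h1 | h1 | h1
      · exact (hroot2 i i' _ h1 (hgroot i j) (by rw [h]; exact hgroot i' j')).elim
      · exact h1
      · exact (hroot2 i' i _ h1 (hgroot i' j') (by rw [← h]; exact hgroot i j)).elim
    subst hii
    refine ⟨rfl, hainj i ?_⟩
    rw [← hdet i j, h, hdet i j']
  have hha : ∀ i j, absLogHeight₁ (a i j) = absLogHeight₁ α := by
    intro i j
    refine conj_h ((s ^ (i : ℕ) : F ≃+* F) : F →+* F) α (a i j) hα ?_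
    rw [← hf, ← hffi]
    exact haroot i j
  -- the field
  obtain ⟨S, hS⟩ : ∃ S : Set Ω, S = Set.range fun x : Fin K × Fin d => a x.1 x.2 := ⟨_, rfl⟩
  have hfin : S.Finite := by
    rw [hS]
    exact Set.finite_range _
  have : Finite S := hfin
  obtain ⟨N, hN⟩ : ∃ N, N = IntermediateField.adjoin F S := ⟨_, rfl⟩
  have hfd : FiniteDimensional F N := by
    rw [hN]
    refine IntermediateField.finiteDimensional_adjoin fun x hx => ?_
    rw [hS] at hx
    obtain ⟨⟨i, j⟩, rfl⟩ := hx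
    exact ⟨ff i, hfm i, by have := haroot i j; rwa [aeval_def] at this⟩
  have hfdQ : FiniteDimensional ℚ N := FiniteDimensional.trans ℚ F N
  have hnf : NumberField N := {}
  have hmem : ∀ i j, a i j ∈ N := by
    intro i j
    rw [hN]
    refine IntermediateField.subset_adjoin F S ?_
    rw [hS]
    exact ⟨(i, j), rfl⟩
  let a' : Fin K → Fin d → N := fun i j => ⟨a i j, hmem i j⟩
  have hinj : Function.Injective (algebraMap N Ω) := (algebraMap N Ω).injective
  have ha' : ∀ i j, algebraMap N Ω (a' i j) = a i j := fun i j => rfl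
  have haroot' : ∀ i j, aeval (a' i j) (ff i) = 0 := by
    intro i j
    apply hinj
    rw [map_zero, ← aeval_algebraMap_apply, ha']
    exact haroot i j
  have hprod : ∀ i, ∏ j, (X - C (a' i j)) = (ff i).map (algebraMap F N) := by
    intro i
    apply Polynomial.map_injective (algebraMap N Ω) hinj
    rw [Polynomial.map_prod, Polynomial.map_map, ← IsScalarTower.algebraMap_eq, ← ha i]
    refine Finset.prod_congr rfl fun j _ => ?_
    rw [Polynomial.map_sub, map_X, map_C, ha']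
  have hloc : ∀ (w : FinitePlace N) i i', i < i' → ∀ j', ∏ j, w (a' i' j' ^ q - a' i j ^ q) ≤
      w (q : N) * max 1 (w (a' i' j')) ^ (q * d) * ∏ j, max 1 (w (a' i j)) ^ q := by
    intro w i i' hii j'
    refine loc_all q hq ζ hζ (s ^ ((i' : ℕ) - i) : F ≃+* F) (pow_hs q s hs _) (ff i) (hfm i) d
      (by rw [hffi, hmon.natDegree_map, hf, hd]) (a' i) (hprod i) (a' i' j') ?_ w
    rw [hffi, map_pow_add, Nat.sub_add_cancel hii.le, ← hffi]
    exact haroot' i' j'
  have hinjv : ∀ i j i' j', a' i j ^ q = a' i' j' ^ q → i = i' ∧ j = j' := by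
    intro i j i' j' h
    apply hinjq
    rw [← ha', ← ha', ← map_pow, h, map_pow]
  have hmain := coreK q hq d K a' hinjv hloc
  -- logarithms
  obtain ⟨n, hn⟩ : ∃ n : ℕ, n = Module.finrank ℚ N := ⟨_, rfl⟩
  rw [← hn] at hmain
  have hn0 : 0 < n := by
    rw [hn]
    exact Module.finrank_pos
  have hnR : (0 : ℝ) < n := by exact_mod_cast hn0
  have hdR : (0 : ℝ) < d := by exact_mod_cast hd1
  have hKR : (0 : ℝ) < K := by exact_mod_cast (show 0 < K by omega)
  have hqR : (0 : ℝ) < q := by exact_mod_cast hq.pos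
  obtain ⟨h, hh0⟩ : ∃ h : ℝ, h = absLogHeight₁ α := ⟨_, rfl⟩
  have hHa : ∀ i j, Real.log (Height.mulHeight₁ (a' i j)) = n * h := by
    intro i j
    have h1 := Pool.Agent.H4.RR.absLogHeight_eq N Ω (algebraMap N Ω) (a' i j)
    rw [ha', hha, Height.logHeight₁_eq_log_mulHeight₁, ← hn, ← hh0] at h1
    rw [h1]
    field_simp
  have hposa : ∀ i j, 0 < Height.mulHeight₁ (a' i j) := fun i j => Height.mulHeight₁_pos _
  have hpa1 : ∀ i, 0 < ∏ j, Height.mulHeight₁ (a' i j) := fun i => Finset.prod_pos fun j _ => hposa i j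
  have hpa : 0 < ∏ i, ∏ j, Height.mulHeight₁ (a' i j) := Finset.prod_pos fun i _ => hpa1 i
  have hKd0 : 0 < K * d := Nat.mul_pos (by omega) hd1
  have hKd : (0 : ℝ) < ((K * d : ℕ) : ℝ) := by exact_mod_cast hKd0
  have h0 : 0 ≤ h := by
    have h1 := Height.zero_le_logHeight₁ (a' ⟨0, by omega⟩ ⟨0, hd1⟩)
    rw [Height.logHeight₁_eq_log_mulHeight₁, hHa] at h1
    exact nonneg_of_mul_nonneg_right h1 hnR
  have hlogp : Real.log (∏ i, ∏ j, Height.mulHeight₁ (a' i j)) = K * (d * (n * h)) := by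
    rw [Real.log_prod fun i _ => (hpa1 i).ne']
    have h1 : ∀ i : Fin K, Real.log (∏ j, Height.mulHeight₁ (a' i j)) = d * (n * h) := by
      intro i
      rw [Real.log_prod fun j _ => (hposa i j).ne', Finset.sum_congr rfl fun j _ => hHa i j,
        Finset.sum_const, Finset.card_univ, Fintype.card_fin, nsmul_eq_mul]
    rw [Finset.sum_congr rfl fun i _ => h1 i, Finset.sum_const, Finset.card_univ, Fintype.card_fin,
      nsmul_eq_mul]
  have hlog := Real.log_le_log (by positivity) hmain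
  rw [Real.log_pow, Real.log_mul (by positivity) (by positivity), Real.log_pow, Real.log_pow, hlogp] at hlog
  have hE : ((2 * (q * (K * d - 1)) : ℕ) : ℝ) ≤ 2 * (q * (K * d)) := by
    have h1 : 2 * (q * (K * d - 1)) ≤ 2 * (q * (K * d)) :=
      Nat.mul_le_mul_left _ (Nat.mul_le_mul_left _ (by omega))
    exact_mod_cast h1
  have h5 : ((2 * (q * (K * d - 1)) : ℕ) : ℝ) * (K * (d * (n * h))) ≤
      2 * (q * (K * d)) * (K * (d * (n * h))) :=
    mul_le_mul_of_nonneg_right hE (by positivity)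
  have h6 : ((2 * (K * d) * n : ℕ) : ℝ) = 2 * (K * d) * n := by push_cast; ring
  have h7 : ((d * (K * (K - 1)) * n : ℕ) : ℝ) = d * (K * ((K - 1 : ℕ) : ℝ)) * n := by push_cast; ring
  have h8 : ((K * d : ℕ) : ℝ) = K * d := by push_cast; ring
  rw [h6, h7, h8] at hlog
  rw [← hh0] at hh
  have h3 : (d * K * n : ℝ) * (((K - 1 : ℕ) : ℝ) * Real.log q) ≤
      (d * K * n : ℝ) * (2 * q * K * d * h + 2 * Real.log (K * d)) := by
    nlinarith
  exact absurd (le_of_mul_le_mul_left h3 (by positivity)) (not_le.2 hh)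

end Pool.Agent.H36.LI
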