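import Pool.Agent.H36.LI.AuA
import Pool.Agent.H36.LI.VdK

/-!
# THEOREM L, version 5 (MP_187c26_nt): ramified descent at one prime `q`

Imports may be sorried (`desc_heightK`). MODEL for the extensions to `Ω` and the invariance of minimal polynomials: `desc2G` in `Pool/Agent/H36/LF/GqD.lean` (copy the private lemmas `gqd_hom`, `gqd_aeval`).
PROOF. `F := FF ξ ![x]`, `ζ := ξF^(n/q)` (primitive `q`-th root of unity), `d := natDegree (minpoly F z)`, `K := 2 e + 5`. `frob_congG` (`Pool/Agent/H36/LF/GqC.lean`; `fx`, `fq` of `IsGen`) gives the congruence `hs` of `desc_heightK`. `hh`: `2 log (K d) ≤ 2 log K + 2 e log Z`, `2 q K d h ≤ 2 K Z^12 d h ≤ 2 K / Z ≤ 1`,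
`(K - 1) log q ≥ (2 e + 4) log Z`, and `4 log Z > 2 log K + 1` (`Z ≥ 100 (e + 1) ≥ K`, `2 log Z > 1`). So there is `1 ≤ j < K` with `(minpoly F (z^q)).map (s^j) = minpoly F (z^q)`; `j + 1 < q` (`q ≥ Z ≥ 100 (e + 1)`). Extend `s^j` to a ring homomorphism `σ : Ω → Ω`: `σ(z^q)` is a root of `(minpoly F (z^q)).map (s^j) = minpoly F (z^q)`,
so there is an automorphism `ρ` of `Ω` over `F` with `ρ (σ (z^q)) = z^q`; `τ := ρ ∘ σ` extends `s^j`, `(τ z)^q = z^q`, `z ≠ 0`: `τ z = ζ^k z` for some `k`. `IsGen.coh` for `j` and a `k'` with `q ∣ k + k'`: `i`, `a`, `s^j (ξ^i) = ζ^(k') ξ^i`, so `τ (ξ^i z) = ξ^i z`. The polynomial `(minpoly F (ξ^i z)).map (s^j)` is monic of the same degree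
and has the root `τ (ξ^i z) = ξ^i z`, so it is equal to `minpoly F (ξ^i z)`.
-/

set_option autoImplicit false

open NumberField IntermediateField

namespace Pool.Agent.H36.LI

open Pool.Agent.H36.LF Pool.Agent.H72.BE

private theorem dse_hom {F Ω M : Type} [Field F] [Field Ω] [Field M] [Algebra F Ω]
    [Algebra.IsAlgebraic F Ω] [IsAlgClosed M] (f : F →+* M) :
    ∃ σ : Ω →+* M, ∀ y, σ (algebraMap F Ω y) = f y := by
  let _ : Algebra F M := f.toAlgebra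
  exact ⟨(IsAlgClosed.lift : Ω →ₐ[F] M), fun y => (IsAlgClosed.lift : Ω →ₐ[F] M).commutes y⟩

private theorem dse_aeval {F Ω : Type} [Field F] [Field Ω] [Algebra F Ω] (s : F ≃+* F)
    (σ : Ω →+* Ω) (hσ : ∀ y, σ (algebraMap F Ω y) = algebraMap F Ω (s y))
    (f : Polynomial F) (α : Ω) (hf : Polynomial.aeval α f = 0) :
    Polynomial.aeval (σ α) (f.map (s : F →+* F)) = 0 := by
  rw [Polynomial.aeval_def, Polynomial.eval₂_map]
  have h1 : (algebraMap F Ω).comp (s : F →+* F) = σ.comp (algebraMap F Ω) := by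
    ext y
    exact (hσ y).symm
  rw [h1, ← Polynomial.hom_eval₂, ← Polynomial.aeval_def, hf, map_zero]

private theorem dse_num (e Z q d : ℕ) (t : ℝ) (hZ : 100 * (e + 1) ≤ Z) (hZq : Z ≤ q)
    (hqZ : q ≤ Z ^ 12) (hd1 : 1 ≤ d) (hd : d ≤ Z ^ e) (ht : 0 ≤ t)
    (hh : (Z : ℝ) ^ 13 * (d * t) ≤ 1) :
    2 * q * (2 * e + 5 : ℕ) * d * t + 2 * Real.log ((2 * e + 5 : ℕ) * d) <
      (2 * e + 5 - 1 : ℕ) * Real.log q := by
  have hZ' : (100 : ℝ) * (e + 1) ≤ Z := by exact_mod_cast hZ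
  have he : (0 : ℝ) ≤ e := Nat.cast_nonneg e
  have hZ1 : (100 : ℝ) ≤ Z := by linarith
  have hZ0 : (0 : ℝ) < Z := by linarith
  have hdt : 0 ≤ (d : ℝ) * t := by positivity
  have hK : (((2 * e + 5 : ℕ) : ℝ)) = 2 * e + 5 := by push_cast; ring
  have hK1 : (((2 * e + 5 - 1 : ℕ) : ℝ)) = 2 * e + 4 := by
    have h1 : 2 * e + 5 - 1 = 2 * e + 4 := by omega
    rw [h1]
    push_cast
    ring
  rw [hK, hK1]
  have hqZ' : (q : ℝ) ≤ (Z : ℝ) ^ 12 := by exact_mod_cast hqZ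
  -- the first term
  have h1 : 2 * (q : ℝ) * (2 * e + 5) * d * t ≤ 1 := by
    have a1 : 2 * (q : ℝ) * (2 * e + 5) * d * t = (2 * (2 * e + 5)) * ((q : ℝ) * (d * t)) := by ring
    have a2 : (q : ℝ) * (d * t) ≤ (Z : ℝ) ^ 12 * (d * t) := mul_le_mul_of_nonneg_right hqZ' hdt
    have a3 : (2 * (2 * (e : ℝ) + 5)) * ((Z : ℝ) ^ 12 * (d * t)) ≤ Z * ((Z : ℝ) ^ 12 * (d * t)) := by
      refine mul_le_mul_of_nonneg_right ?_ (by positivity)
      linarith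
    have a4 : (2 * (2 * (e : ℝ) + 5)) * ((q : ℝ) * (d * t)) ≤
        (2 * (2 * (e : ℝ) + 5)) * ((Z : ℝ) ^ 12 * (d * t)) :=
      mul_le_mul_of_nonneg_left a2 (by positivity)
    have a5 : (Z : ℝ) * ((Z : ℝ) ^ 12 * (d * t)) = (Z : ℝ) ^ 13 * (d * t) := by ring
    rw [a1]
    linarith
  have hlZ : 1 < Real.log Z := by
    rw [Real.lt_log_iff_exp_lt hZ0]
    have := Real.exp_one_lt_d9
    linarith
  -- the second term
  have hd0 : (1 : ℝ) ≤ d := by exact_mod_cast hd1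
  have h2 : Real.log ((2 * e + 5) * d) ≤ (e + 1) * Real.log Z := by
    have b1 : ((2 * (e : ℝ) + 5) * d) ≤ (Z : ℝ) ^ (e + 1) := by
      have c1 : (d : ℝ) ≤ (Z : ℝ) ^ e := by exact_mod_cast hd
      have c2 : (2 * (e : ℝ) + 5) ≤ Z := by linarith
      calc ((2 * (e : ℝ) + 5) * d) ≤ Z * (Z : ℝ) ^ e := mul_le_mul c2 c1 (by positivity) hZ0.le
        _ = (Z : ℝ) ^ (e + 1) := by ring
    have b2 := Real.log_le_log (by positivity) b1
    rw [Real.log_pow] at b2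
    push_cast at b2
    exact b2
  have h3 : Real.log Z ≤ Real.log q := Real.log_le_log hZ0 (by exact_mod_cast hZq)
  have h4 : (2 * (e : ℝ) + 4) * Real.log Z ≤ (2 * (e : ℝ) + 4) * Real.log q :=
    mul_le_mul_of_nonneg_left h3 (by positivity)
  nlinarith

private theorem dse_nonneg {E : Type} [Field E] [CharZero E] (a : E) : 0 ≤ absLogHeight₁ a := by
  unfold absLogHeight₁ absMulHeight₁
  refine Real.log_nonneg ?_
  split_ifs with h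
  · have h1 : FiniteDimensional ℚ ℚ⟮a⟯ := adjoin.finiteDimensional h
    have h2 : NumberField ℚ⟮a⟯ := {}
    exact Real.one_le_rpow (Height.one_le_mulHeight₁ (AdjoinSimple.gen ℚ a)) (by positivity)
  · exact le_rfl

variable {Ω : Type} [Field Ω] [CharZero Ω] [Algebra.IsAlgebraic ℚ Ω] [IsAlgClosed Ω]
  {b m n : ℕ} {ξ x : Ω}

theorem desc_q (h : DatG b m n ξ x) (e Z : ℕ) (hZ : 100 * (e + 1) ≤ Z) (q : ℕ) (hq : q.Prime)
    (hZq : Z ≤ q) (hqZ : q ≤ Z ^ 12) (hqn : q ∣ n) (z : Ω) (hz : z ≠ 0)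
    (hd : (minpoly (FF ξ ![x]) z).natDegree ≤ Z ^ e)
    (hfull : (minpoly (FF ξ ![x]) (z ^ q)).natDegree = (minpoly (FF ξ ![x]) z).natDegree)
    (hh : (Z : ℝ) ^ 13 * ((minpoly (FF ξ ![x]) z).natDegree * absLogHeight₁ z) ≤ 1)
    (s : FF ξ ![x] ≃+* FF ξ ![x]) (hs : IsGen n q ξ x s) :
    ∃ j i a : ℕ, 1 ≤ j ∧ j ≤ 2 * e + 4 ∧ n ∣ i * q ^ a ∧
      (minpoly (FF ξ ![x]) (ξ ^ i * z)).map ((s ^ j : FF ξ ![x] ≃+* FF ξ ![x]) : FF ξ ![x] →+* FF ξ ![x]) =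
        minpoly (FF ξ ![x]) (ξ ^ i * z) := by
  have hnf := h.nf_F
  have hq2 : 3 ≤ q := by omega
  have hprim : IsPrimitiveRoot (ξF ξ ![x]) n :=
    IsPrimitiveRoot.of_map_of_injective (f := algebraMap (FF ξ ![x]) Ω) h.prim
      (algebraMap (FF ξ ![x]) Ω).injective
  obtain ⟨ζ, hζe⟩ : ∃ ζ, ζ = ξF ξ ![x] ^ (n / q) := ⟨_, rfl⟩
  have hζ : IsPrimitiveRoot ζ q := by
    rw [hζe]
    refine hprim.pow h.hn ?_
    rw [Nat.div_mul_cancel hqn]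
  have hζΩ : IsPrimitiveRoot (algebraMap (FF ξ ![x]) Ω ζ) q :=
    hζ.map_of_injective (algebraMap (FF ξ ![x]) Ω).injective
  have hfr := frob_congG h q hq hqn s hs.fx hs.fq
  have halg : Algebra.IsAlgebraic (FF ξ ![x]) Ω :=
    Algebra.IsAlgebraic.tower_top (K := ℚ) (FF ξ ![x])
  have hzQ : IsIntegral ℚ z := Algebra.IsIntegral.isIntegral z
  have hzF : IsIntegral (FF ξ ![x]) z := Algebra.IsIntegral.isIntegral z
  have hzqF : IsIntegral (FF ξ ![x]) (z ^ q) := Algebra.IsIntegral.isIntegral (z ^ q)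
  have hd1 : 1 ≤ (minpoly (FF ξ ![x]) z).natDegree := minpoly.natDegree_pos hzF
  obtain ⟨j, hj, hjK, hmap⟩ := desc_heightK q hq hq2 ζ hζ s hfr z hzQ _ rfl hfull (2 * e + 5)
    (by omega) (dse_num e Z q _ _ hZ hZq hqZ hd1 hd (dse_nonneg z) hh)
  have hjq : j + 1 < q := by omega
  obtain ⟨u, hu⟩ : ∃ u : FF ξ ![x] ≃+* FF ξ ![x], u = s ^ j := ⟨_, rfl⟩
  rw [← hu] at hmap
  obtain ⟨σ, hσ⟩ := dse_hom (F := FF ξ ![x]) (Ω := Ω) (M := Ω)
    ((algebraMap (FF ξ ![x]) Ω).comp (u : FF ξ ![x] →+* FF ξ ![x]))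
  have hσ' : ∀ y, σ (algebraMap (FF ξ ![x]) Ω y) = algebraMap (FF ξ ![x]) Ω (u y) := hσ
  have hβ := dse_aeval u σ hσ' (minpoly (FF ξ ![x]) (z ^ q)) (z ^ q) (minpoly.aeval _ _)
  rw [hmap] at hβ
  have hmin : minpoly (FF ξ ![x]) (σ (z ^ q)) = minpoly (FF ξ ![x]) (z ^ q) :=
    (minpoly.eq_of_irreducible_of_monic (minpoly.irreducible hzqF) hβ (minpoly.monic hzqF)).symm
  have hnorm : Normal (FF ξ ![x]) Ω := by
    have : IsAlgClosure (FF ξ ![x]) Ω := ⟨inferInstance, inferInstance⟩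
    exact IsAlgClosure.normal (FF ξ ![x]) Ω
  obtain ⟨τ, hτ⟩ := isConjRoot_iff_exists_algEquiv.1 hmin
  obtain ⟨ρ, hρ⟩ : ∃ ρ : Ω ≃ₐ[FF ξ ![x]] Ω, ρ (σ (z ^ q)) = z ^ q :=
    ⟨τ.symm, by rw [← hτ, AlgEquiv.symm_apply_apply]⟩
  obtain ⟨ω, hω⟩ : ∃ ω : Ω →+* Ω, ω = (ρ : Ω →+* Ω).comp σ := ⟨_, rfl⟩
  have hωF : ∀ y, ω (algebraMap (FF ξ ![x]) Ω y) = algebraMap (FF ξ ![x]) Ω (u y) := by
    intro y
    rw [hω]
    show ρ (σ (algebraMap (FF ξ ![x]) Ω y)) = _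
    rw [hσ', AlgEquiv.commutes]
  have hωz : (ω z) ^ q = z ^ q := by
    rw [← map_pow, hω]
    exact hρ
  have hqne : NeZero q := ⟨hq.ne_zero⟩
  obtain ⟨k, -, hk⟩ := hζΩ.eq_pow_of_pow_eq_one (ξ := ω z / z) (by
    rw [div_pow, hωz, div_self (pow_ne_zero q hz)])
  have hωz2 : ω z = algebraMap (FF ξ ![x]) Ω ζ ^ k * z := by
    rw [hk, div_mul_cancel₀ _ hz]
  obtain ⟨i, a, hia, hcoh⟩ := hs.coh j ((q - 1) * k) hj hjq
  rw [← hu, ← hζe] at hcoh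
  have hη : algebraMap (FF ξ ![x]) Ω (ξF ξ ![x] ^ i) = ξ ^ i := by
    rw [map_pow]
    rfl
  have hωα : ω (ξ ^ i * z) = ξ ^ i * z := by
    rw [map_mul, ← hη, hωF, hcoh, hωz2, map_mul, map_pow, hη]
    have h1 : algebraMap (FF ξ ![x]) Ω ζ ^ ((q - 1) * k) * algebraMap (FF ξ ![x]) Ω ζ ^ k = 1 := by
      rw [← pow_add]
      have h2 : (q - 1) * k + k = q * k := by
        obtain ⟨q', rfl⟩ : ∃ q', q = q' + 1 := ⟨q - 1, by omega⟩
        rw [Nat.add_sub_cancel]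
        ring
      rw [h2, pow_mul, hζΩ.pow_eq_one, one_pow]
    calc algebraMap (FF ξ ![x]) Ω ζ ^ ((q - 1) * k) * ξ ^ i *
        (algebraMap (FF ξ ![x]) Ω ζ ^ k * z) =
        (algebraMap (FF ξ ![x]) Ω ζ ^ ((q - 1) * k) * algebraMap (FF ξ ![x]) Ω ζ ^ k) *
          (ξ ^ i * z) := by ring
      _ = ξ ^ i * z := by rw [h1, one_mul]
  have hα'F : IsIntegral (FF ξ ![x]) (ξ ^ i * z) := Algebra.IsIntegral.isIntegral (ξ ^ i * z)
  refine ⟨j, i, a, hj, by omega, hia, ?_⟩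
  rw [← hu]
  have hfmon : (minpoly (FF ξ ![x]) (ξ ^ i * z)).Monic := minpoly.monic hα'F
  have h1 := dse_aeval u ω hωF (minpoly (FF ξ ![x]) (ξ ^ i * z)) (ξ ^ i * z) (minpoly.aeval _ _)
  rw [hωα] at h1
  have h2 := minpoly.dvd _ _ h1
  have h3 : ((minpoly (FF ξ ![x]) (ξ ^ i * z)).map (u : FF ξ ![x] →+* FF ξ ![x])).natDegree =
      (minpoly (FF ξ ![x]) (ξ ^ i * z)).natDegree := hfmon.natDegree_map _
  exact Polynomial.eq_of_monic_of_dvd_of_natDegree_le hfmon (hfmon.map _) h2 h3.le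

end Pool.Agent.H36.LI
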