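import Pool.Agent.H36.LI.AuA

/-!
# THEOREM L, version 5 (MP_187c26_nt): ramified descent when `q^2 ∣ n`

PROOF. `F := FF ξ ![x]`, `P := minpoly F (ξ^i z)`, `natDegree P = natDegree (minpoly F z)` (`ξ^i ∈ F`, `scaleRoots`). The coefficients of `P` are fixed by `s^j`, so by `s` (`IsGen.sq`), so they lie in `FF (ξ^q) ![x]` (`IsGen.fixed`). `P` has the root `ξ^i z`: MODEL: the end of the proof of `desc2G` in `Pool/Agent/H36/LF/GqD.lean` (`Polynomial.lifts_and_natDegree_eq_and_monic`).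
-/

set_option autoImplicit false

open NumberField IntermediateField

namespace Pool.Agent.H36.LI

open Pool.Agent.H36.LF Pool.Agent.H72.BE

variable {Ω : Type} [Field Ω] [CharZero Ω] [Algebra.IsAlgebraic ℚ Ω] [IsAlgClosed Ω]
  {b m n : ℕ} {ξ x : Ω}

/-- if `q^2 ∣ n` then `ξ^i z` has a degree over `ℚ(ξ^q, x)` which is not larger. MODEL: the end of the proof of `desc2G`. -/
theorem desc_sq (h : DatG b m n ξ x) (q : ℕ) (hqn : q ^ 2 ∣ n) (z : Ω)
    (s : FF ξ ![x] ≃+* FF ξ ![x]) (hs : IsGen n q ξ x s) (j i : ℕ) (hj : 1 ≤ j) (hj2 : j + 1 < q)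
    (hP : (minpoly (FF ξ ![x]) (ξ ^ i * z)).map
      ((s ^ j : FF ξ ![x] ≃+* FF ξ ![x]) : FF ξ ![x] →+* FF ξ ![x]) =
        minpoly (FF ξ ![x]) (ξ ^ i * z)) :
    (minpoly (FF (ξ ^ q) ![x]) (ξ ^ i * z)).natDegree ≤ (minpoly (FF ξ ![x]) z).natDegree := by
  have halg : Algebra.IsAlgebraic (FF ξ ![x]) Ω :=
    Algebra.IsAlgebraic.tower_top (K := ℚ) (FF ξ ![x])
  have hzF : IsIntegral (FF ξ ![x]) z := Algebra.IsIntegral.isIntegral z
  have hα'F : IsIntegral (FF ξ ![x]) (ξ ^ i * z) := Algebra.IsIntegral.isIntegral (ξ ^ i * z)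
  obtain ⟨f, hf⟩ : ∃ f, f = minpoly (FF ξ ![x]) (ξ ^ i * z) := ⟨_, rfl⟩
  rw [← hf] at hP
  have hfmon : f.Monic := by
    rw [hf]
    exact minpoly.monic hα'F
  have hf0 : Polynomial.aeval (ξ ^ i * z) f = 0 := by
    rw [hf]
    exact minpoly.aeval _ _
  have hη : algebraMap (FF ξ ![x]) Ω (ξF ξ ![x] ^ i) = ξ ^ i := by
    rw [map_pow]
    rfl
  have hfd : f.natDegree ≤ (minpoly (FF ξ ![x]) z).natDegree := by
    have h1 : Polynomial.aeval (algebraMap (FF ξ ![x]) Ω (ξF ξ ![x] ^ i) * z)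
        ((minpoly (FF ξ ![x]) z).scaleRoots (ξF ξ ![x] ^ i)) = 0 :=
      Polynomial.scaleRoots_aeval_eq_zero (minpoly.aeval _ _)
    rw [hη] at h1
    have h2 := minpoly.dvd _ _ h1
    rw [← hf] at h2
    have h3 : (minpoly (FF ξ ![x]) z).scaleRoots (ξF ξ ![x] ^ i) ≠ 0 :=
      ((Polynomial.monic_scaleRoots_iff _).2 (minpoly.monic hzF)).ne_zero
    have h4 := Polynomial.natDegree_le_of_dvd h2 h3
    rw [Polynomial.natDegree_scaleRoots] at h4
    exact h4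
  have hcoef : ∀ k, ((f.coeff k : FF ξ ![x]) : Ω) ∈ FF (ξ ^ q) ![x] := by
    intro k
    rw [← hs.fixed]
    refine hs.sq hqn j hj hj2 _ ?_
    have h1 := congrArg (fun p => Polynomial.coeff p k) hP
    simp only [Polynomial.coeff_map] at h1
    exact h1
  have hlift : f.map (algebraMap (FF ξ ![x]) Ω) ∈
      Polynomial.lifts (algebraMap (FF (ξ ^ q) ![x]) Ω) := by
    rw [Polynomial.lifts_iff_coeff_lifts]
    intro k
    rw [Polynomial.coeff_map]
    exact ⟨⟨_, hcoef k⟩, rfl⟩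
  obtain ⟨g, hg1, hg2, hg3⟩ := Polynomial.lifts_and_natDegree_eq_and_monic hlift (hfmon.map _)
  have h1 : Polynomial.aeval (ξ ^ i * z) g = 0 := by
    rw [Polynomial.aeval_def, ← Polynomial.eval_map, hg1, Polynomial.eval_map,
      ← Polynomial.aeval_def]
    exact hf0
  have h2 := Polynomial.natDegree_le_of_dvd (minpoly.dvd _ _ h1) hg3.ne_zero
  rw [hg2, hfmon.natDegree_map] at h2
  exact h2.trans hfd

end Pool.Agent.H36.LI
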