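import Pool.Agent.H36.LH.MnD

/-!
# THEOREM L, version 5 (MP_187c26_nt): minimal conductor

`exists_minN`: `d₀ := natDegree (minpoly (FF ξ ![x]) z)`. `n' :=` the smallest divisor of `n` for which there is `ρ` with `ρ^n = 1` and `natDegree (minpoly (FF (ξ^(n/n')) ![x]) (ρ z)) ≤ d₀` (`n` is one, `ρ = 1`). `≥`: `FF (ξ^(n/n')) ![x] ≤ FF ξ ![x]` and `ρ ∈ FF ξ ![x]` (`ρ` is a power of `ξ`), so the degree of `ρ z` over
`FF ξ ![x]` is `d₀`. If `q ∣ n'` then `n'/q` is not in the set, `(ξ^(n/n'))^q = ξ^(n/(n'/q))`, and `ρ' ρ` is again an `n`-th root of unity. `DatG b m n' ξ' x`: `DatG.pow_q` for `n/n'`.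
-/

set_option autoImplicit false

open NumberField IntermediateField

namespace Pool.Agent.H36.LI

open Pool.Agent.H36.LE Pool.Agent.H36.LF Pool.Agent.H36.LG Pool.Agent.H36.LH Pool.Agent.H72.BE

variable {Ω : Type} [Field Ω] [CharZero Ω] [Algebra.IsAlgebraic ℚ Ω] {b m n : ℕ} {ξ x : Ω}

private theorem mn_int (a : Ω) : IsIntegral ℚ a :=
  (Algebra.IsAlgebraic.isAlgebraic (R := ℚ) a).isIntegral

private theorem mn_mono {F' F : IntermediateField ℚ Ω} (hle : F' ≤ F) (z : Ω) :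
    (minpoly F z).natDegree ≤ (minpoly F' z).natDegree := by
  let _ : Algebra F' F := (IntermediateField.inclusion hle).toRingHom.toAlgebra
  have : IsScalarTower F' F Ω := IsScalarTower.of_algebraMap_eq' rfl
  have hi : IsIntegral F' z := (mn_int z).tower_top
  have h1 := minpoly.dvd_map_of_isScalarTower F' F z
  have h2 := Polynomial.natDegree_le_of_dvd h1 ((minpoly.monic hi).map _).ne_zero
  rwa [(minpoly.monic hi).natDegree_map] at h2

private theorem mn_mul {F : IntermediateField ℚ Ω} {ρ : Ω} (hρ : ρ ∈ F) (h0 : ρ ≠ 0) (z : Ω) :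
    (minpoly F z).natDegree ≤ (minpoly F (ρ * z)).natDegree := by
  have hi : IsIntegral F z := (mn_int z).tower_top
  have hi2 : IsIntegral F (ρ * z) := (mn_int (ρ * z)).tower_top
  rw [← IntermediateField.adjoin.finrank hi, ← IntermediateField.adjoin.finrank hi2]
  have : FiniteDimensional F F⟮ρ * z⟯ := IntermediateField.adjoin.finiteDimensional hi2
  refine IntermediateField.finrank_le_of_le_right ?_
  rw [IntermediateField.adjoin_simple_le_iff]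
  have h1 : (algebraMap F Ω (⟨ρ, hρ⟩ : F))⁻¹ * (ρ * z) = z := by
    change ρ⁻¹ * (ρ * z) = z
    rw [← mul_assoc, inv_mul_cancel₀ h0, one_mul]
  have h2 : (algebraMap F Ω (⟨ρ, hρ⟩ : F))⁻¹ * (ρ * z) ∈ F⟮ρ * z⟯ :=
    mul_mem (inv_mem (IntermediateField.algebraMap_mem _ _))
      (IntermediateField.mem_adjoin_simple_self _ _)
  rwa [h1] at h2

theorem exists_minN (h : DatG b m n ξ x) (z : Ω) :
    ∃ (n' : ℕ) (ξ' ρ : Ω), ξ' ∈ AA ξ ∧ ξ' ^ n = 1 ∧ ρ ^ n = 1 ∧ DatG b m n' ξ' x ∧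
      (minpoly (FF ξ' ![x]) (ρ * z)).natDegree = (minpoly (FF ξ ![x]) z).natDegree ∧
      ∀ q : ℕ, q.Prime → q ∣ n' → ∀ ρ' : Ω, ρ' ^ n' = 1 →
        (minpoly (FF ξ ![x]) z).natDegree < (minpoly (FF (ξ' ^ q) ![x]) (ρ' * (ρ * z))).natDegree := by
  classical
  have hn0 : 0 < n := h.hn
  have hex : ∃ k : ℕ, k ∣ n ∧ ∃ ρ : Ω, ρ ^ n = 1 ∧
      (minpoly (FF (ξ ^ (n / k)) ![x]) (ρ * z)).natDegree ≤ (minpoly (FF ξ ![x]) z).natDegree := by
    refine ⟨n, dvd_rfl, 1, one_pow _, ?_⟩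
    rw [Nat.div_self hn0, pow_one, one_mul]
  obtain ⟨n', hn', hmin⟩ : ∃ n' : ℕ, (n' ∣ n ∧ ∃ ρ : Ω, ρ ^ n = 1 ∧
      (minpoly (FF (ξ ^ (n / n')) ![x]) (ρ * z)).natDegree ≤ (minpoly (FF ξ ![x]) z).natDegree) ∧
      ∀ k < n', ¬ (k ∣ n ∧ ∃ ρ : Ω, ρ ^ n = 1 ∧
      (minpoly (FF (ξ ^ (n / k)) ![x]) (ρ * z)).natDegree ≤ (minpoly (FF ξ ![x]) z).natDegree) :=
    ⟨Nat.find hex, Nat.find_spec hex, fun k hk => Nat.find_min hex hk⟩
  obtain ⟨hdvd, ρ, hρ, hle⟩ := hn'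
  have hn'0 : 0 < n' := Nat.pos_of_dvd_of_pos hdvd hn0
  have he : n / n' ∣ n := Nat.div_dvd_of_dvd hdvd
  have he0 : 1 ≤ n / n' := Nat.div_pos (Nat.le_of_dvd hn0 hdvd) hn'0
  have hAA : ξ ∈ AA ξ := by
    unfold AA
    exact IntermediateField.mem_adjoin_simple_self ℚ ξ
  have hdat := h.pow_q (n / n') he he0
  rw [Nat.div_div_self hdvd hn0.ne'] at hdat
  have hFF : FF (ξ ^ (n / n')) ![x] ≤ FF ξ ![x] := by
    unfold FF
    rw [IntermediateField.adjoin_le_iff]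
    rintro y (hy | hy)
    · rw [Set.mem_singleton_iff] at hy
      rw [hy]
      exact pow_mem (mem_FF_ξ ξ ![x]) _
    · exact IntermediateField.subset_adjoin ℚ _ (Or.inr hy)
  have hρ0 : ρ ≠ 0 := by
    rintro rfl
    rw [zero_pow hn0.ne'] at hρ
    exact zero_ne_one hρ
  have hρF : ρ ∈ FF ξ ![x] := by
    have : NeZero n := ⟨hn0.ne'⟩
    obtain ⟨i, -, hi⟩ := h.prim.eq_pow_of_pow_eq_one hρ
    rw [← hi]
    exact pow_mem (mem_FF_ξ ξ ![x]) _
  refine ⟨n', ξ ^ (n / n'), ρ, pow_mem hAA _, ?_, hρ, hdat, le_antisymm hle ?_, ?_⟩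
  · rw [← pow_mul, mul_comm, pow_mul, h.prim.pow_eq_one, one_pow]
  · exact (mn_mul hρF hρ0 z).trans (mn_mono hFF _)
  · intro q hq hqn ρ' hρ'
    by_contra hcon
    push Not at hcon
    obtain ⟨k, rfl⟩ := hqn
    have hq0 : 0 < q := hq.pos
    have hk0 : 0 < k := Nat.pos_of_ne_zero (by rintro rfl; simp at hn'0)
    have hkn : k ∣ n := (dvd_mul_left k q).trans hdvd
    refine hmin k ?_ ⟨hkn, ρ' * ρ, ?_, ?_⟩
    · have h2 := hq.two_le
      nlinarith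
    · obtain ⟨t, ht⟩ := hdvd
      rw [mul_pow, hρ, mul_one, ht, pow_mul, hρ', one_pow]
    · have h1 : ξ ^ (n / k) = (ξ ^ (n / (q * k))) ^ q := by
        rw [← pow_mul]
        congr 1
        obtain ⟨t, rfl⟩ := hdvd
        rw [Nat.mul_div_cancel_left t hn'0, show q * k * t = k * (t * q) by ring,
          Nat.mul_div_cancel_left _ hk0]
      rw [h1, mul_assoc]
      exact hcon

end Pool.Agent.H36.LI
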