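import Pool.Agent.H36.LH.MnD
import Pool.Agent.H36.LG.MnB

/-!
# THEOREM L, version 5 (MP_187c26_nt): orbits over smaller base fields

`orb_sub`: `B ≤ AA ξ`, `A := AA ξ`, `w := ρ z`, `ρ ∈ A`. `[B(x) : B] = m` (`≤ m` because `x^m = b`, `≥` because `[A(x) : A] = m`: `degG` or `degA` in `Pool/Agent/H36/LG/MnA.lean`, private: copy), `[B(x, w) : B] = m d` and `[A(x, z) : A] = m d`. Let `l` be a prime such that `x, z ∈ A(x^l, z^l)`; `H := B(x^l, w^l)`; the field generated by `A` and `H` is
`A(x^l, z^l) = A(x, z)` (`ρ^l ∈ A`) of degree `m d` over `A`, so `[H : B] ≥ m d = [B(x, w) : B]` (finite; a basis of `H` over `B` generates `A H` over `A`), `H = B(x, w)`. `full_sub`: the same over `B(x)`: `z ∈ A(x)(z^l)` i.e. `A(x, z^l) = A(x, z)` gives `B(x, w^l) = B(x, w)`. (`nd_FF` in `Pool/Agent/H36/LG/MnA.lean`: the degree over `adjoin (AA ξ) {x}` is the one over `FF ξ ![x]`.)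
-/

set_option autoImplicit false

open NumberField IntermediateField

namespace Pool.Agent.H36.LI

open Pool.Agent.H36.LE Pool.Agent.H36.LF Pool.Agent.H36.LG Pool.Agent.H36.LH Pool.Agent.H72.BE

variable {Ω : Type} [Field Ω] [CharZero Ω] [Algebra.IsAlgebraic ℚ Ω] {b m n : ℕ} {ξ x : Ω}

private theorem mis_alg (B : IntermediateField ℚ Ω) (y : Ω) : IsIntegral B y :=
  ((Algebra.IsAlgebraic.isAlgebraic (R := ℚ) y).isIntegral).tower_top

omit [CharZero Ω] [Algebra.IsAlgebraic ℚ Ω] in
private theorem mis_mono {K' K : Type} [Field K'] [Field K] [Algebra K' Ω] [Algebra K Ω] (f : K' →+* K)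
    (hf : ∀ y, algebraMap K Ω (f y) = algebraMap K' Ω y) (z : Ω) (hz : IsIntegral K' z) :
    (minpoly K z).natDegree ≤ (minpoly K' z).natDegree := by
  let _ : Algebra K' K := f.toAlgebra
  have : IsScalarTower K' K Ω := IsScalarTower.of_algebraMap_eq fun y => (hf y).symm
  have h1 := minpoly.dvd_map_of_isScalarTower K' K z
  have h2 := Polynomial.natDegree_le_of_dvd h1 ((minpoly.monic hz).map _).ne_zero
  rwa [(minpoly.monic hz).natDegree_map] at h2

private theorem mis_le (B A : IntermediateField ℚ Ω) (hBA : B ≤ A) (S : Set Ω) [Finite S] :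
    Module.finrank A (IntermediateField.adjoin A S) ≤ Module.finrank B (IntermediateField.adjoin B S) := by
  have hfin : FiniteDimensional B (IntermediateField.adjoin B S) :=
    IntermediateField.finiteDimensional_adjoin fun y _ => mis_alg B y
  let bas := Module.finBasis B (IntermediateField.adjoin B S)
  obtain ⟨T, hT⟩ : ∃ T : Set Ω, T = Set.range (fun i => ((bas i : IntermediateField.adjoin B S) : Ω)) := ⟨_, rfl⟩
  have h1 : ∀ y ∈ IntermediateField.adjoin B S, y ∈ Submodule.span A T := by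
    intro y hy
    have h2 := bas.sum_repr ⟨y, hy⟩
    have h3 := congrArg (fun z : IntermediateField.adjoin B S => (z : Ω)) h2
    have h4 : (∑ i, ((bas.repr ⟨y, hy⟩ i : B) : Ω) * ((bas i : IntermediateField.adjoin B S) : Ω)) = y := by
      refine Eq.trans ?_ h3
      rw [AddSubmonoidClass.coe_finsetSum]
      rfl
    rw [← h4]
    refine Submodule.sum_mem _ fun i _ => ?_
    have h5 : ((bas.repr ⟨y, hy⟩ i : B) : Ω) * ((bas i : IntermediateField.adjoin B S) : Ω) =
        (⟨((bas.repr ⟨y, hy⟩ i : B) : Ω), hBA (bas.repr ⟨y, hy⟩ i).2⟩ : A) •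
          ((bas i : IntermediateField.adjoin B S) : Ω) := rfl
    rw [h5]
    refine Submodule.smul_mem _ _ (Submodule.subset_span ?_)
    rw [hT]
    exact ⟨i, rfl⟩
  have hTf : T.Finite := by
    rw [hT]
    exact Set.finite_range _
  have hsp : FiniteDimensional A (Submodule.span A T) := FiniteDimensional.span_of_finite A hTf
  have h2 : Subalgebra.toSubmodule (IntermediateField.adjoin A S).toSubalgebra ≤ Submodule.span A T := by
    rw [IntermediateField.adjoin_toSubalgebra_of_isAlgebraic fun y _ => (mis_alg A y).isAlgebraic,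
      Algebra.adjoin_eq_span, Submodule.span_le]
    intro y hy
    refine h1 y ?_
    have h3 : Submonoid.closure S ≤ (IntermediateField.adjoin B S).toSubalgebra.toSubmonoid :=
      Submonoid.closure_le.2 (IntermediateField.subset_adjoin B S)
    exact h3 hy
  have h3 : Module.finrank A (Subalgebra.toSubmodule (IntermediateField.adjoin A S).toSubalgebra) ≤
      Module.finrank A (Submodule.span A T) := Submodule.finrank_mono h2
  refine (show Module.finrank A (IntermediateField.adjoin A S) ≤ _ from h3).trans ?_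
  have h4 := finrank_range_le_card (R := A) (fun i => ((bas i : IntermediateField.adjoin B S) : Ω))
  rw [Fintype.card_fin] at h4
  rw [hT]
  exact h4

omit [Algebra.IsAlgebraic ℚ Ω] in
private theorem rs_eq (ξ y : Ω) : (IntermediateField.adjoin (AA ξ) ({y} : Set Ω)).restrictScalars ℚ =
    FF ξ ![y] := by
  refine (IntermediateField.adjoin_adjoin_left ℚ ({ξ} : Set Ω) ({y} : Set Ω)).trans ?_
  unfold FF
  congr 1
  ext w
  simp

omit [Algebra.IsAlgebraic ℚ Ω] in
private theorem degA (h : DatG b m n ξ x) :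
    Module.finrank (AA ξ) (IntermediateField.adjoin (AA ξ) ({x} : Set Ω)) = m := by
  have := h.nf_A
  have := h.nf_F
  have h1 := degG h
  have h2 := Module.finrank_mul_finrank ℚ (AA ξ) (FF ξ ![x])
  have hxi : IsIntegral (AA ξ) x := h.integral_x.tower_top
  have h3 := Module.finrank_mul_finrank ℚ (AA ξ) (IntermediateField.adjoin (AA ξ) ({x} : Set Ω))
  have h4 : Module.finrank ℚ (IntermediateField.adjoin (AA ξ) ({x} : Set Ω)) =
      Module.finrank ℚ (FF ξ ![x]) := by
    have h5 := congrArg (fun K : IntermediateField ℚ Ω => Module.finrank ℚ K) (rs_eq ξ x)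
    exact h5
  rw [h4, ← h2, h1] at h3
  exact Nat.eq_of_mul_eq_mul_left Module.finrank_pos h3

omit [Algebra.IsAlgebraic ℚ Ω] in
private theorem rho_mem (h : DatG b m n ξ x) (ρ : Ω) (hρ : ρ ^ n = 1) : ρ ∈ AA ξ := by
  have hn : NeZero n := ⟨by have := h.hn; omega⟩
  obtain ⟨i, -, hi⟩ := h.prim.eq_pow_of_pow_eq_one hρ
  have h1 : ξ ∈ AA ξ := IntermediateField.mem_adjoin_simple_self ℚ ξ
  rw [← hi]
  exact pow_mem h1 i

theorem full_sub (h : DatG b m n ξ x) (B : IntermediateField ℚ Ω) (hB : B ≤ AA ξ) (z ρ : Ω)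
    (hρ : ρ ^ n = 1)
    (hd : (minpoly (IntermediateField.adjoin B ({x} : Set Ω)) (ρ * z)).natDegree =
      (minpoly (FF ξ ![x]) z).natDegree) (l : ℕ)
    (hz : z ∈ IntermediateField.adjoin (AA ξ) ({x, z ^ l} : Set Ω)) :
    ρ * z ∈ IntermediateField.adjoin B ({x, (ρ * z) ^ l} : Set Ω) := by
  have hn0 : n ≠ 0 := by have := h.hn; omega
  have hρ0 : ρ ≠ 0 := by
    rintro rfl
    rw [zero_pow hn0] at hρ
    exact zero_ne_one hρ
  have hρA : ρ ∈ FF ξ ![x] := AA_le ξ ![x] (rho_mem h ρ hρ)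
  have hρi : ρ⁻¹ ∈ FF ξ ![x] := IntermediateField.inv_mem _ hρA
  have hρl : (ρ⁻¹) ^ l ∈ FF ξ ![x] := pow_mem hρi l
  obtain ⟨w, hw⟩ : ∃ w, w = ρ * z := ⟨_, rfl⟩
  rw [← hw] at hd ⊢
  have hwi : IsIntegral (IntermediateField.adjoin B ({x} : Set Ω)) w := (mis_alg B w).tower_top
  -- `adjoin B {x}` is contained in `FF ξ ![x]`
  have hle : ∀ y ∈ IntermediateField.adjoin B ({x} : Set Ω), y ∈ FF ξ ![x] := by
    intro y hy
    have h1 : y ∈ IntermediateField.adjoin ℚ ((B : Set Ω) ∪ {x}) := by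
      rw [← IntermediateField.restrictScalars_adjoin]
      exact hy
    have h2 : IntermediateField.adjoin ℚ ((B : Set Ω) ∪ {x}) ≤ FF ξ ![x] := by
      rw [IntermediateField.adjoin_le_iff]
      rintro u (hu | hu)
      · exact AA_le ξ ![x] (hB hu)
      · rw [Set.mem_singleton_iff] at hu
        rw [hu]
        exact mem_FF ξ ![x] 0
    exact h2 h1
  let f : IntermediateField.adjoin B ({x} : Set Ω) →+* FF ξ ![x] :=
    { toFun := fun y => ⟨y.1, hle y.1 y.2⟩
      map_one' := rfl
      map_mul' := fun _ _ => rfl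
      map_zero' := rfl
      map_add' := fun _ _ => rfl }
  have hm1 := mis_mono f (fun _ => rfl) (w ^ l) (hwi.pow l)
  -- the degree of `w ^ l` over `FF ξ ![x]`
  have hzF : ∀ y : Ω, IsIntegral (FF ξ ![x]) y := mis_alg _
  have hzm : z ∈ (FF ξ ![x])⟮w ^ l⟯ := by
    have h1 : z ∈ IntermediateField.adjoin ℚ ((AA ξ : Set Ω) ∪ {x, z ^ l}) := by
      rw [← IntermediateField.restrictScalars_adjoin]
      exact hz
    have h2 : IntermediateField.adjoin ℚ ((AA ξ : Set Ω) ∪ {x, z ^ l}) ≤
        ((FF ξ ![x])⟮w ^ l⟯).restrictScalars ℚ := by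
      rw [IntermediateField.adjoin_le_iff]
      rintro u (hu | hu)
      · exact IntermediateField.algebraMap_mem ((FF ξ ![x])⟮w ^ l⟯) (⟨u, AA_le ξ ![x] hu⟩ : FF ξ ![x])
      · rcases hu with hu | hu
        · rw [hu]
          exact IntermediateField.algebraMap_mem ((FF ξ ![x])⟮w ^ l⟯) (⟨x, mem_FF ξ ![x] 0⟩ : FF ξ ![x])
        · rw [Set.mem_singleton_iff] at hu
          have h3 : u = (ρ⁻¹) ^ l * w ^ l := by
            rw [hu, hw, mul_pow, ← mul_assoc, ← mul_pow, inv_mul_cancel₀ hρ0, one_pow, one_mul]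
          rw [h3]
          have h4 : (ρ⁻¹) ^ l ∈ (FF ξ ![x])⟮w ^ l⟯ :=
            IntermediateField.algebraMap_mem ((FF ξ ![x])⟮w ^ l⟯) (⟨(ρ⁻¹) ^ l, hρl⟩ : FF ξ ![x])
          have h5 : w ^ l ∈ (FF ξ ![x])⟮w ^ l⟯ := IntermediateField.mem_adjoin_simple_self _ _
          exact IntermediateField.mul_mem _ h4 h5
    exact h2 h1
  have hd2 : (minpoly (FF ξ ![x]) z).natDegree ≤ (minpoly (FF ξ ![x]) (w ^ l)).natDegree := by
    have hfin : FiniteDimensional (FF ξ ![x]) (FF ξ ![x])⟮w ^ l⟯ :=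
      IntermediateField.adjoin.finiteDimensional (hzF _)
    rw [← IntermediateField.adjoin.finrank (hzF z), ← IntermediateField.adjoin.finrank (hzF (w ^ l))]
    exact IntermediateField.finrank_le_of_le_right (IntermediateField.adjoin_simple_le_iff.2 hzm)
  -- the field of `w` over `B(x)`
  have hfw : FiniteDimensional (IntermediateField.adjoin B ({x} : Set Ω))
      (IntermediateField.adjoin B ({x} : Set Ω))⟮w⟯ := IntermediateField.adjoin.finiteDimensional hwi
  have heq : (IntermediateField.adjoin B ({x} : Set Ω))⟮w ^ l⟯ =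
      (IntermediateField.adjoin B ({x} : Set Ω))⟮w⟯ := by
    refine IntermediateField.eq_of_le_of_finrank_le ?_ ?_
    · rw [IntermediateField.adjoin_simple_le_iff]
      exact pow_mem (IntermediateField.mem_adjoin_simple_self _ _) l
    · rw [IntermediateField.adjoin.finrank hwi, IntermediateField.adjoin.finrank (hwi.pow l), hd]
      exact hd2.trans hm1
  have hwm : w ∈ (IntermediateField.adjoin B ({x} : Set Ω))⟮w ^ l⟯ := by
    rw [heq]
    exact IntermediateField.mem_adjoin_simple_self _ _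
  have h1 : w ∈ (IntermediateField.adjoin (IntermediateField.adjoin B ({x} : Set Ω))
      ({w ^ l} : Set Ω)).restrictScalars B := hwm
  rw [IntermediateField.adjoin_adjoin_left] at h1
  exact h1

theorem orb_sub (h : DatG b m n ξ x) (B : IntermediateField ℚ Ω) (hB : B ≤ AA ξ) (z ρ : Ω)
    (hρ : ρ ^ n = 1)
    (hd : (minpoly (IntermediateField.adjoin B ({x} : Set Ω)) (ρ * z)).natDegree =
      (minpoly (FF ξ ![x]) z).natDegree) (l : ℕ)
    (hx : x ∈ IntermediateField.adjoin (AA ξ) ({x ^ l, z ^ l} : Set Ω))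
    (hz : z ∈ IntermediateField.adjoin (AA ξ) ({x ^ l, z ^ l} : Set Ω)) :
    m * (minpoly (FF ξ ![x]) z).natDegree ≤
      Module.finrank B (IntermediateField.adjoin B ({x ^ l, (ρ * z) ^ l} : Set Ω)) := by
  have hn0 : n ≠ 0 := by have := h.hn; omega
  have hρ0 : ρ ≠ 0 := by
    rintro rfl
    rw [zero_pow hn0] at hρ
    exact zero_ne_one hρ
  have hρA : ρ ∈ AA ξ := rho_mem h ρ hρ
  have hρi : ρ⁻¹ ∈ AA ξ := IntermediateField.inv_mem _ hρA
  have hρl : (ρ⁻¹) ^ l ∈ AA ξ := pow_mem hρi l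
  refine le_trans ?_ (mis_le B (AA ξ) hB ({x ^ l, (ρ * z) ^ l} : Set Ω))
  -- the field generated over `AA ξ`
  have hge : IntermediateField.adjoin (AA ξ) ({x, z} : Set Ω) ≤
      IntermediateField.adjoin (AA ξ) ({x ^ l, (ρ * z) ^ l} : Set Ω) := by
    have h1 : IntermediateField.adjoin (AA ξ) ({x ^ l, z ^ l} : Set Ω) ≤
        IntermediateField.adjoin (AA ξ) ({x ^ l, (ρ * z) ^ l} : Set Ω) := by
      rw [IntermediateField.adjoin_le_iff]
      rintro u (hu | hu)
      · rw [hu]
        exact IntermediateField.subset_adjoin _ _ (Or.inl rfl)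
      · rw [Set.mem_singleton_iff] at hu
        have h3 : u = (ρ⁻¹) ^ l * (ρ * z) ^ l := by
          rw [hu, mul_pow ρ, ← mul_assoc, ← mul_pow, inv_mul_cancel₀ hρ0, one_pow, one_mul]
        rw [h3]
        have h4 : (ρ⁻¹) ^ l ∈ IntermediateField.adjoin (AA ξ) ({x ^ l, (ρ * z) ^ l} : Set Ω) :=
          IntermediateField.algebraMap_mem _ (⟨(ρ⁻¹) ^ l, hρl⟩ : AA ξ)
        have h5 : (ρ * z) ^ l ∈ IntermediateField.adjoin (AA ξ) ({x ^ l, (ρ * z) ^ l} : Set Ω) :=
          IntermediateField.subset_adjoin _ _ (Or.inr rfl)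
        exact IntermediateField.mul_mem _ h4 h5
    rw [IntermediateField.adjoin_le_iff]
    rintro u (hu | hu)
    · rw [hu]
      exact h1 hx
    · rw [Set.mem_singleton_iff] at hu
      rw [hu]
      exact h1 hz
  have hfin : FiniteDimensional (AA ξ)
      (IntermediateField.adjoin (AA ξ) ({x ^ l, (ρ * z) ^ l} : Set Ω)) :=
    IntermediateField.finiteDimensional_adjoin fun y _ => mis_alg _ y
  refine le_trans (le_of_eq ?_) (IntermediateField.finrank_le_of_le_right hge)
  have hzi : IsIntegral (IntermediateField.adjoin (AA ξ) ({x} : Set Ω)) z := (mis_alg (AA ξ) z).tower_top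
  have h4 : Module.finrank (AA ξ) (IntermediateField.adjoin (IntermediateField.adjoin (AA ξ) ({x} : Set Ω))
      ({z} : Set Ω)) = Module.finrank (AA ξ) (IntermediateField.adjoin (AA ξ) ({x, z} : Set Ω)) := by
    have h5 := congrArg (fun K : IntermediateField (AA ξ) Ω => Module.finrank (AA ξ) K)
      (IntermediateField.adjoin_adjoin_left (AA ξ) ({x} : Set Ω) ({z} : Set Ω))
    exact h5
  rw [← h4, ← Module.finrank_mul_finrank (AA ξ) (IntermediateField.adjoin (AA ξ) ({x} : Set Ω)), degA h,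
    IntermediateField.adjoin.finrank hzi, nd_FF]

end Pool.Agent.H36.LI
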