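import Pool.Agent.H36.LI.BfB
import Pool.Agent.H36.LI.BfC
import Pool.Agent.H36.LI.DsE
import Pool.Agent.H36.LI.DsF
import Pool.Agent.H36.LI.MiN
import Pool.Agent.H36.LI.MiS

/-!
# THEOREM L, version 5 (MP_187c26_nt): the base field `B`

PROOF of `exists_B`. Imports may be sorried (`exists_minN`, `full_sub`, `exists_gen`, `desc_q`, `desc_sq`, `deg_BB`, `nf_BB`, `frob_B1`, `frob_B2`). `exists_minN`: `n'`, `ξ'`, `ρ`; `z' := ρ z`, `d := natDegree (minpoly (FF ξ ![x]) z) = natDegree (minpoly (FF ξ' ![x]) z')`, `h(z') = h(z)` (`height_root` in `Pool/Agent/H36/LF/DsA.lean`). `F' := FF ξ' ![x]`.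
`full_sub` for `B := AA ξ'` (`AA ξ' ≤ AA ξ`; the degree over `adjoin (AA ξ') {x}` is that over `FF ξ' ![x]`: `nd_FF`): `z' ∈ adjoin (AA ξ') {x, z'^q}` for all primes `q`, so `natDegree (minpoly F' (z'^q)) = d` (`adjoin (AA ξ') {x, z'^q} = adjoin (AA ξ') {x, z'}`; both have the degree `m` times the degree over `adjoin (AA ξ') {x}`).
`𝒲` := the primes `q ∈ [Z, Z^12]` with `q ∣ n'`. For `q ∈ 𝒲`: `s q` of `exists_gen`, `desc_q` for `z'`: `j q ≤ 2 e + 4`, `i q`, `a q` (choose). `q^2 ∤ n'`: otherwise `desc_sq` gives `natDegree (minpoly (FF (ξ'^q) ![x]) (ξ'^i z')) ≤ d`, contradiction to `exists_minN` with `ρ' = ξ'^i`.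
`B := BB ξ' x 𝒲 (fun q => s q ^ j q)`, `ρ_B := ξ'^(∑ i q) ρ`, `deg_BB`. `σ q`: `frob_B1` if `q ∤ n'`, `frob_B2` if `q ∈ 𝒲` (`FrobE.mono`), arbitrary (identity) for the other `q`. `ρ_B^n = 1` (`exists_minN` gives `ξ'^n = 1`, `ρ^n = 1`).
-/

set_option autoImplicit false

open NumberField IntermediateField

namespace Pool.Agent.H36.LI

open Pool.Agent.H36.LE Pool.Agent.H36.LF Pool.Agent.H36.LG Pool.Agent.H36.LH Pool.Agent.H72.BE

variable {Ω : Type} [Field Ω] [CharZero Ω] [Algebra.IsAlgebraic ℚ Ω] [IsAlgClosed Ω]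
  {b m n : ℕ} {ξ x : Ω}

omit [IsAlgClosed Ω] in
/-- the height does not change -/
private theorem bfd_root (η α : Ω) (k : ℕ) (hk : 1 ≤ k) (hη : η ^ k = 1) :
    absLogHeight₁ (η * α) = absLogHeight₁ α := by
  have h1 : (η * α) ^ k = α ^ k := by rw [mul_pow, hη, one_mul]
  have h2 := Pool.Agent.H4.RR.absLogHeight_pow Ω (η * α) (Algebra.IsIntegral.isIntegral _) k
  have h3 := Pool.Agent.H4.RR.absLogHeight_pow Ω α (Algebra.IsIntegral.isIntegral _) k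
  rw [h1, h3] at h2
  have hk0 : (k : ℝ) ≠ 0 := by
    have : k ≠ 0 := by omega
    exact_mod_cast this
  exact (mul_left_cancel₀ hk0 h2).symm

omit [IsAlgClosed Ω] in
/-- the degree of `w^q` over `A(x)` -/
private theorem bfd_full (A : IntermediateField ℚ Ω) (x w : Ω) (q : ℕ)
    (h : w ∈ IntermediateField.adjoin A ({x, w ^ q} : Set Ω)) :
    (minpoly (IntermediateField.adjoin A ({x} : Set Ω)) (w ^ q)).natDegree =
      (minpoly (IntermediateField.adjoin A ({x} : Set Ω)) w).natDegree := by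
  have hw : IsIntegral (IntermediateField.adjoin A ({x} : Set Ω)) w :=
    (Algebra.IsIntegral.isIntegral (R := ℚ) w).tower_top
  have h1 : A⟮x⟯⟮w ^ q⟯ = A⟮x⟯⟮w⟯ := by
    apply le_antisymm
    · rw [IntermediateField.adjoin_simple_le_iff]
      exact pow_mem (IntermediateField.mem_adjoin_simple_self _ _) q
    · rw [IntermediateField.adjoin_simple_le_iff]
      have h2 : A⟮x⟯⟮w ^ q⟯.restrictScalars A = IntermediateField.adjoin A ({x, w ^ q} : Set Ω) :=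
        IntermediateField.adjoin_simple_adjoin_simple _ _ _
      rw [← h2, IntermediateField.mem_restrictScalars] at h
      exact h
  rw [← IntermediateField.adjoin.finrank (hw.pow q), ← IntermediateField.adjoin.finrank hw, h1]

theorem exists_B (h : DatG b m n ξ x) (e Z : ℕ) (hZ : 100 * (e + 1) ≤ Z) (z : Ω) (hz : z ≠ 0)
    (hd : (minpoly (FF ξ ![x]) z).natDegree ≤ Z ^ e)
    (hfull : ∀ q : ℕ, q.Prime → z ∈ IntermediateField.adjoin (AA ξ) ({x, z ^ q} : Set Ω))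
    (hh : (Z : ℝ) ^ 13 * ((minpoly (FF ξ ![x]) z).natDegree * absLogHeight₁ z) ≤ 1) :
    ∃ (B : IntermediateField ℚ Ω) (_ : NumberField B) (ρ : Ω) (σ : ℕ → (B →+* B)),
      B ≤ AA ξ ∧ ρ ^ n = 1 ∧
      (minpoly (IntermediateField.adjoin B ({x} : Set Ω)) (ρ * z)).natDegree =
        (minpoly (FF ξ ![x]) z).natDegree ∧
      ∀ q : ℕ, q.Prime → Z ≤ q → q ≤ Z ^ 12 → FrobE B q (2 * e + 5) (σ q) := by
  classical
  obtain ⟨n', ξ', ρ, hξA, hξn, hρn, hD', hdeg, hmin⟩ := exists_minN h z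
  have hn1 := h.hn
  have hρ0 : ρ ≠ 0 := by
    rintro rfl
    rw [zero_pow (by omega)] at hρn
    exact zero_ne_one hρn
  have hz'0 : ρ * z ≠ 0 := mul_ne_zero hρ0 hz
  have hht : absLogHeight₁ (ρ * z) = absLogHeight₁ z := bfd_root ρ z n h.hn hρn
  have hAle : AA ξ' ≤ AA ξ := by
    unfold AA
    rw [IntermediateField.adjoin_simple_le_iff]
    exact hξA
  have hfull' : ∀ q : ℕ, q.Prime → (minpoly (FF ξ' ![x]) ((ρ * z) ^ q)).natDegree =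
      (minpoly (FF ξ' ![x]) (ρ * z)).natDegree := by
    intro q hq
    have h1 := full_sub h (AA ξ') hAle z ρ hρn (by rw [nd_FF]; exact hdeg) q (hfull q hq)
    have h2 := bfd_full (AA ξ') x (ρ * z) q h1
    rwa [nd_FF, nd_FF] at h2
  have hd' : (minpoly (FF ξ' ![x]) (ρ * z)).natDegree ≤ Z ^ e := by
    rw [hdeg]
    exact hd
  have hh' : (Z : ℝ) ^ 13 * ((minpoly (FF ξ' ![x]) (ρ * z)).natDegree * absLogHeight₁ (ρ * z)) ≤
      1 := by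
    rw [hdeg, hht]
    exact hh
  obtain ⟨𝒲, h𝒲⟩ : ∃ 𝒲 : Finset ℕ, ∀ q, q ∈ 𝒲 ↔ (q.Prime ∧ Z ≤ q ∧ q ≤ Z ^ 12 ∧ q ∣ n') := by
    refine ⟨(Finset.Icc Z (Z ^ 12)).filter fun q => q.Prime ∧ q ∣ n', fun q => ?_⟩
    rw [Finset.mem_filter, Finset.mem_Icc]
    tauto
  have hex : ∀ q : ℕ, ∃ (s : FF ξ' ![x] ≃+* FF ξ' ![x]) (j i a : ℕ), q ∈ 𝒲 →
      IsGen n' q ξ' x s ∧ 1 ≤ j ∧ j ≤ 2 * e + 4 ∧ n' ∣ i * q ^ a ∧
      (minpoly (FF ξ' ![x]) (ξ' ^ i * (ρ * z))).map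
        ((s ^ j : FF ξ' ![x] ≃+* FF ξ' ![x]) : FF ξ' ![x] →+* FF ξ' ![x]) =
          minpoly (FF ξ' ![x]) (ξ' ^ i * (ρ * z)) := by
    intro q
    by_cases hq : q ∈ 𝒲
    · obtain ⟨hqp, hZq, hqZ, hqn⟩ := (h𝒲 q).1 hq
      obtain ⟨s, hs⟩ := exists_gen hD' q hqp (by omega) hqn
      obtain ⟨j, i, a, h1, h2, h3, h4⟩ := desc_q hD' e Z hZ q hqp hZq hqZ hqn (ρ * z) hz'0 hd'
        (hfull' q hqp) hh' s hs
      exact ⟨s, j, i, a, fun _ => ⟨hs, h1, h2, h3, h4⟩⟩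
    · exact ⟨RingEquiv.refl _, 0, 0, 0, fun h1 => absurd h1 hq⟩
  choose s j i a hs using hex
  have hsq : ∀ q ∈ 𝒲, ¬ q ^ 2 ∣ n' := by
    intro q hq hq2
    obtain ⟨hqp, hZq, hqZ, hqn⟩ := (h𝒲 q).1 hq
    obtain ⟨h1, h2, h3, h4, h5⟩ := hs q hq
    have h6 := desc_sq hD' q hq2 (ρ * z) (s q) h1 (j q) (i q) h2 (by omega) h5
    have h7 := hmin q hqp hqn (ξ' ^ i q) (by
      rw [← pow_mul, mul_comm, pow_mul, hD'.prim.pow_eq_one, one_pow])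
    rw [hdeg] at h6
    omega
  have hgen : ∀ q ∈ 𝒲, IsGen n' q ξ' x (s q) := fun q hq => (hs q hq).1
  have hdegB := deg_BB hD' (ρ * z) hz'0 𝒲 (fun q hq => ((h𝒲 q).1 hq).1) s hgen j i a
    (fun q hq => (hs q hq).2.2.2.1) (fun q hq => (hs q hq).2.2.2.2)
  have hσ : ∀ q : ℕ, ∃ σ : BB ξ' x 𝒲 (fun q => s q ^ j q) →+* BB ξ' x 𝒲 (fun q => s q ^ j q),
      q.Prime → Z ≤ q → q ≤ Z ^ 12 → FrobE (BB ξ' x 𝒲 fun q => s q ^ j q) q (2 * e + 5) σ := by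
    intro q
    by_cases hq : q.Prime ∧ Z ≤ q ∧ q ≤ Z ^ 12
    · by_cases hqn : q ∣ n'
      · have hq𝒲 : q ∈ 𝒲 := (h𝒲 q).2 ⟨hq.1, hq.2.1, hq.2.2, hqn⟩
        obtain ⟨σ, h1⟩ := frob_B2 hD' 𝒲 s hgen j q hq.1 hq𝒲 hqn (hsq q hq𝒲) (hs q hq𝒲).2.1
        exact ⟨σ, fun _ _ _ => h1.mono (by have := (hs q hq𝒲).2.2.1; omega)⟩
      · obtain ⟨σ, h1⟩ := frob_B1 hD' 𝒲 s hgen j q hq.1 hqn
        exact ⟨σ, fun _ _ _ => h1.mono (by omega)⟩
    · exact ⟨RingHom.id _, fun h1 h2 h3 => absurd ⟨h1, h2, h3⟩ hq⟩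
  choose σ hσ using hσ
  refine ⟨BB ξ' x 𝒲 (fun q => s q ^ j q), nf_BB hD' 𝒲 _, ξ' ^ (∑ q ∈ 𝒲, i q) * ρ, σ,
    (BB_le _ _ _ _).trans hAle, ?_, ?_, hσ⟩
  · rw [mul_pow, hρn, mul_one, ← pow_mul, mul_comm, pow_mul, hξn, one_pow]
  · rw [mul_assoc, hdegB, hdeg]

end Pool.Agent.H36.LI
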