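import Pool.Agent.H36.LH.MnD

/-!
# THEOREM L, version 5 (MP_187c26_nt): a good pair, with orbits over the field of `x`

`exists_good2`: the proof of `exists_good` (`Pool/Agent/H36/LH/MnD.lean`, copy the file) with one more conclusion: for every prime `q`, `z ∈ adjoin (AA ξ) {x^s, z^q}`: in the notation of the header there: `z₀ ∈ adjoin (AA ξ) {x'^q, z₀^q}` (`exists_minC`), `x'^q` is a power of `x''`, `z₀^q = z^q (x''^q)^i`, `z = z₀ x''^(-i)`.
-/

set_option autoImplicit false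

open NumberField IntermediateField

namespace Pool.Agent.H36.LI

open Pool.Agent.H36.LE Pool.Agent.H36.LF Pool.Agent.H36.LG Pool.Agent.H36.LH Pool.Agent.H72.BE

variable {Ω : Type} [Field Ω] [CharZero Ω] [Algebra.IsAlgebraic ℚ Ω] {b m n : ℕ} {ξ x : Ω}

omit [Algebra.IsAlgebraic ℚ Ω] in
private theorem mig_dat (h : DatG b m n ξ x) (r : ℕ) (hr : r ∣ m) :
    DatG b (m / r) n ξ (x ^ r) := by
  obtain ⟨s, rfl⟩ := hr
  have hm1 := h.hm
  have hr0 : 0 < r := Nat.pos_of_ne_zero (by rintro rfl; simp at hm1)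
  have hs0 : 0 < s := Nat.pos_of_ne_zero (by rintro rfl; simp at hm1)
  rw [Nat.mul_div_cancel_left s hr0]
  have hpow : (x ^ r) ^ s = (b : Ω) := by rw [← pow_mul]; exact h.pow
  refine ⟨h.two, hs0, h.hn, ?_, h.prim, hpow, ?_⟩
  · refine Nat.Coprime.coprime_dvd_right ?_ h.cop
    rw [mul_assoc]
    exact dvd_mul_left _ _
  · have hxi : IsIntegral ℚ x := h.integral_x.tower_top
    have hyi : IsIntegral ℚ (x ^ r) := hxi.pow r
    have hF0 : FiniteDimensional ℚ ℚ⟮x ^ r⟯ := IntermediateField.adjoin.finiteDimensional hyi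
    have h1 : Module.finrank ℚ ℚ⟮x ^ r⟯ ≤ s := by
      rw [IntermediateField.adjoin.finrank hyi]
      have h2 : minpoly ℚ (x ^ r) ∣ Polynomial.X ^ s - Polynomial.C (b : ℚ) :=
        minpoly.dvd ℚ _ (by simp [hpow])
      have h3 := Polynomial.natDegree_le_of_dvd h2 (Polynomial.X_pow_sub_C_ne_zero hs0 _)
      rwa [Polynomial.natDegree_X_pow_sub_C] at h3
    have hxF : IsIntegral ℚ⟮x ^ r⟯ x := hxi.tower_top
    have h4 : (minpoly ℚ⟮x ^ r⟯ x).natDegree ≤ r := by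
      have h5 : minpoly ℚ⟮x ^ r⟯ x ∣ Polynomial.X ^ r -
          Polynomial.C (IntermediateField.AdjoinSimple.gen ℚ (x ^ r)) :=
        minpoly.dvd _ _ (by simp [IntermediateField.AdjoinSimple.algebraMap_gen])
      have h6 := Polynomial.natDegree_le_of_dvd h5 (Polynomial.X_pow_sub_C_ne_zero hr0 _)
      rwa [Polynomial.natDegree_X_pow_sub_C] at h6
    have hF1 : FiniteDimensional ℚ⟮x ^ r⟯ (ℚ⟮x ^ r⟯)⟮x⟯ :=
      IntermediateField.adjoin.finiteDimensional hxF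
    have hF2 : FiniteDimensional ℚ (ℚ⟮x ^ r⟯)⟮x⟯ := FiniteDimensional.trans ℚ ℚ⟮x ^ r⟯ _
    have h7 : Module.finrank ℚ ℚ⟮x ^ r⟯ * Module.finrank ℚ⟮x ^ r⟯ (ℚ⟮x ^ r⟯)⟮x⟯ =
        Module.finrank ℚ (ℚ⟮x ^ r⟯)⟮x⟯ := Module.finrank_mul_finrank _ _ _
    rw [IntermediateField.adjoin.finrank hxF] at h7
    have h8 : Module.finrank ℚ ℚ⟮x⟯ ≤ Module.finrank ℚ (ℚ⟮x ^ r⟯)⟮x⟯ := by
      have h9 : ℚ⟮x⟯ ≤ ((ℚ⟮x ^ r⟯)⟮x⟯).restrictScalars ℚ := by
        rw [IntermediateField.adjoin_simple_le_iff]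
        exact IntermediateField.mem_adjoin_simple_self _ x
      have : FiniteDimensional ℚ (((ℚ⟮x ^ r⟯)⟮x⟯).restrictScalars ℚ) := hF2
      exact IntermediateField.finrank_le_of_le_right h9
    rw [h.deg, ← h7] at h8
    have h10 : r * s ≤ r * Module.finrank ℚ ℚ⟮x ^ r⟯ := by
      refine h8.trans ?_
      rw [mul_comm r]
      exact Nat.mul_le_mul_left _ h4
    have h11 := Nat.le_of_mul_le_mul_left h10 hr0
    omega

private theorem mig_int (a : Ω) : IsIntegral ℚ a :=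
  (Algebra.IsAlgebraic.isAlgebraic (R := ℚ) a).isIntegral

private theorem mig_map (τ : Ω →+* Ω) (a : Ω) : absLogHeight₁ (τ a) = absLogHeight₁ a := by
  have ha := mig_int a
  have : FiniteDimensional ℚ ℚ⟮a⟯ := adjoin.finiteDimensional ha
  have : NumberField ℚ⟮a⟯ := {}
  have h1 := Pool.Agent.H4.RR.absLogHeight_eq ℚ⟮a⟯ Ω (ℚ⟮a⟯.val : ℚ⟮a⟯ →+* Ω)
    (AdjoinSimple.gen ℚ a)
  have h2 := Pool.Agent.H4.RR.absLogHeight_eq ℚ⟮a⟯ Ω (τ.comp (ℚ⟮a⟯.val : ℚ⟮a⟯ →+* Ω))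
    (AdjoinSimple.gen ℚ a)
  have h3 : (ℚ⟮a⟯.val : ℚ⟮a⟯ →+* Ω) (AdjoinSimple.gen ℚ a) = a := rfl
  have h4 : (τ.comp (ℚ⟮a⟯.val : ℚ⟮a⟯ →+* Ω)) (AdjoinSimple.gen ℚ a) = τ a := rfl
  rw [h3] at h1
  rw [h4] at h2
  rw [h1, h2]

omit [Algebra.IsAlgebraic ℚ Ω] in
private theorem mig_hb (b : ℕ) (hb : 2 ≤ b) : absLogHeight₁ ((b : Ω)) = Real.log b := by
  have h1 := Pool.Agent.H4.RR.absLogHeight_eq ℚ Ω (algebraMap ℚ Ω) (b : ℚ)
  rw [Module.finrank_self, Nat.cast_one, div_one] at h1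
  have h2 : Height.logHeight₁ (b : ℚ) = Real.log b := by
    rw [Rat.logHeight₁_eq_log_max]
    have h3 : max ((b : ℚ).num.natAbs) (b : ℚ).den = b := by
      rw [Rat.num_natCast, Rat.den_natCast, Int.natAbs_natCast]
      omega
    rw [h3]
  rw [h2] at h1
  rw [← h1, map_natCast]

private theorem mig_mono {F' F : IntermediateField ℚ Ω} (hle : F' ≤ F) (z : Ω) :
    (minpoly F z).natDegree ≤ (minpoly F' z).natDegree := by
  let _ : Algebra F' F := (IntermediateField.inclusion hle).toRingHom.toAlgebra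
  have : IsScalarTower F' F Ω := IsScalarTower.of_algebraMap_eq' rfl
  have hi : IsIntegral F' z := (mig_int z).tower_top
  have h1 := minpoly.dvd_map_of_isScalarTower F' F z
  have h2 := Polynomial.natDegree_le_of_dvd h1 ((minpoly.monic hi).map _).ne_zero
  rwa [(minpoly.monic hi).natDegree_map] at h2

/-- The choice of the divisor `s` and of the set of bad primes. -/
private theorem mig_split (r Q₀ Q J : ℕ) (hr : 1 ≤ r) (_ : 1 ≤ Q₀) :
    ∃ (s r' : ℕ) (ℬ : Finset ℕ), r = s * r' ∧ 1 ≤ s ∧ 1 ≤ r' ∧ ℬ.card ≤ J ∧ (s = 1 ∨ Q₀ ^ J ≤ r') ∧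
      ∀ q : ℕ, q.Prime → Q₀ < q → q ≤ Q → q ∉ ℬ → ¬ q ∣ r' := by
  classical
  obtain ⟨W, hW⟩ : ∃ W : Finset ℕ, W = (Finset.Icc 1 Q).filter fun q => q.Prime ∧ Q₀ < q ∧ q ∣ r :=
    ⟨_, rfl⟩
  by_cases hc : W.card ≤ J
  · refine ⟨1, r, W, (one_mul r).symm, le_rfl, hr, hc, Or.inl rfl, ?_⟩
    intro q hq h1 h2 h3 h4
    apply h3
    rw [hW, Finset.mem_filter, Finset.mem_Icc]
    exact ⟨⟨hq.one_lt.le, h2⟩, hq, h1, h4⟩
  · push Not at hc
    obtain ⟨ℬ, hBW, hBc⟩ := Finset.exists_subset_card_eq hc.le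
    have hBp : ∀ q ∈ ℬ, q.Prime ∧ Q₀ < q ∧ q ∣ r := by
      intro q hq
      have h1 := hBW hq
      rw [hW, Finset.mem_filter] at h1
      exact h1.2
    have hdvd : ∏ q ∈ ℬ, q ∣ r :=
      Finset.prod_primes_dvd r (fun q hq => (hBp q hq).1.prime) fun q hq => (hBp q hq).2.2
    obtain ⟨s, hs⟩ := hdvd
    have hs0 : 1 ≤ s := by
      rcases Nat.eq_zero_or_pos s with h | h
      · rw [h, mul_zero] at hs
        omega
      · exact h
    have hp0 : 1 ≤ ∏ q ∈ ℬ, q := Finset.prod_pos fun q hq => (hBp q hq).1.pos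
    refine ⟨s, ∏ q ∈ ℬ, q, ℬ, by rw [mul_comm]; exact hs, hs0, hp0, hBc.le, Or.inr ?_, ?_⟩
    · rw [← hBc]
      exact Finset.pow_card_le_prod ℬ (fun q => q) Q₀ fun q hq => (hBp q hq).2.1.le
    · intro q hq h1 h2 h3 h4
      obtain ⟨q', hq', hqq⟩ := (Prime.dvd_finsetProd_iff hq.prime _).1 h4
      rw [Nat.prime_dvd_prime_iff_eq hq (hBp q' hq').1] at hqq
      exact h3 (hqq ▸ hq')

omit [CharZero Ω] [Algebra.IsAlgebraic ℚ Ω] in
/-- Bezout. -/
private theorem mig_bez {A : Type} [Field A] [Algebra A Ω] (H : IntermediateField A Ω) (y : Ω) (hy : y ≠ 0)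
    (q r : ℕ) (hqr : Nat.Coprime q r) (h1 : y ^ q ∈ H) (h2 : y ^ r ∈ H) : y ∈ H := by
  have h3 : (q : ℤ) * Nat.gcdA q r + r * Nat.gcdB q r = 1 := by
    have h4 := Nat.gcd_eq_gcd_ab q r
    rw [hqr.gcd_eq_one] at h4
    exact_mod_cast h4.symm
  have h5 : y = (y ^ q) ^ Nat.gcdA q r * (y ^ r) ^ Nat.gcdB q r := by
    rw [← zpow_natCast, ← zpow_natCast, ← zpow_mul, ← zpow_mul, ← zpow_add₀ hy, h3, zpow_one]
  rw [h5]
  exact mul_mem (zpow_mem h1 _) (zpow_mem h2 _)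

theorem exists_good2 [IsAlgClosed Ω] (h : DatG b m n ξ x) (α : Ω) (hα : α ≠ 0) (Q₀ Q J : ℕ)
    (hQ₀ : 1 ≤ Q₀) :
    ∃ (s u : ℕ) (z : Ω) (ℬ : Finset ℕ), s ∣ m ∧ z ≠ 0 ∧ 1 ≤ u ∧ DatG b (m / s) n ξ (x ^ s) ∧
      (∀ k : ℕ, 1 ≤ k → ∀ j : ℤ, z ^ k = (b : Ω) ^ j →
        ∃ k' : ℕ, 1 ≤ k' ∧ ∃ j' : ℤ, α ^ k' = (b : Ω) ^ j') ∧
      (minpoly (FF ξ ![x ^ s]) z).natDegree * u ≤ (minpoly (FF ξ ![x]) α).natDegree ∧
      absLogHeight₁ z ≤ u * absLogHeight₁ α + Real.log b / (Q₀ : ℝ) ^ J ∧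
      ℬ.card ≤ J ∧ (∀ q : ℕ, q.Prime → Q₀ < q → q ≤ Q → q ∉ ℬ →
        x ^ s ∈ IntermediateField.adjoin (AA ξ) ({(x ^ s) ^ q, z ^ q} : Set Ω) ∧
        z ∈ IntermediateField.adjoin (AA ξ) ({(x ^ s) ^ q, z ^ q} : Set Ω)) ∧
      ∀ q : ℕ, q.Prime → z ∈ IntermediateField.adjoin (AA ξ) ({x ^ s, z ^ q} : Set Ω) := by
  obtain ⟨r, u, z₀, hrm, hz₀, hu, ⟨M, k, τ, hM, hrel⟩, hdr, hdeg, horb⟩ := exists_minC h α hα
  have hm1 := h.hm
  have hb2 := h.two
  have hr1 : 1 ≤ r := Nat.pos_of_dvd_of_pos hrm hm1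
  have hb0 : (b : Ω) ≠ 0 := Nat.cast_ne_zero.2 (by omega)
  have hx0 : x ≠ 0 := by
    rintro rfl
    have h2 := h.pow
    rw [zero_pow (by omega)] at h2
    exact hb0 h2.symm
  obtain ⟨s, r', ℬ, hrs, hs1, hr'1, hcard, hsr, hbad⟩ := mig_split r Q₀ Q J hr1 hQ₀
  have hsm : s ∣ m := (Dvd.intro r' hrs.symm).trans hrm
  have hs0 : (0 : ℤ) < s := by exact_mod_cast hs1
  obtain ⟨y, hy⟩ : ∃ y, y = x ^ s := ⟨_, rfl⟩
  have hy0 : y ≠ 0 := by rw [hy]; exact pow_ne_zero _ hx0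
  have hyr : y ^ r' = x ^ r := by rw [hy, ← pow_mul, ← hrs]
  -- the division with remainder
  obtain ⟨i, ρ, hki, hρs⟩ : ∃ (i : ℤ) (ρ : ℕ), k = s * i + ρ ∧ ρ < s := by
    have h1 : 0 ≤ k % (s : ℤ) := Int.emod_nonneg _ hs0.ne'
    have h2 : k % (s : ℤ) < s := Int.emod_lt_of_pos _ hs0
    obtain ⟨ρ, hρ⟩ := Int.eq_ofNat_of_zero_le h1
    refine ⟨k / s, ρ, ?_, ?_⟩
    · rw [← hρ]
      exact (Int.mul_ediv_add_emod k s).symm
    · have h3 : (ρ : ℤ) < s := by rw [← hρ]; exact h2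
      exact_mod_cast h3
  obtain ⟨z, hz⟩ : ∃ z, z = z₀ * y ^ (-i) := ⟨_, rfl⟩
  have hz0 : z ≠ 0 := by rw [hz]; exact mul_ne_zero hz₀ (zpow_ne_zero _ hy0)
  have hz₀z : z₀ = z * y ^ i := by
    rw [hz, mul_assoc, ← zpow_add₀ hy0, neg_add_cancel, zpow_zero, mul_one]
  -- the relation of `z`
  have hzM : z ^ M = x ^ (ρ * M) * (τ α) ^ (u * M) := by
    rw [hz, mul_pow, hrel, hy, ← zpow_natCast x s, ← zpow_mul, ← zpow_natCast (x ^ _) M, ← zpow_mul,
      mul_right_comm, ← zpow_add₀ hx0, ← zpow_natCast x (ρ * M)]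
    congr 2
    rw [hki]
    push_cast
    ring
  have hxm := h.pow
  refine ⟨s, u, z, ℬ, hsm, hz0, hu, mig_dat h s hsm, ?_, ?_, ?_, hcard, ?_, ?_⟩
  · intro k' hk' j hj
    refine ⟨u * M * (k' * m), ?_, j * (M * m) - ρ * M * k', ?_⟩
    · exact Nat.mul_pos (Nat.mul_pos hu hM) (Nat.mul_pos hk' hm1)
    · apply τ.injective
      rw [map_pow, map_zpow₀, map_natCast]
      have h1 : (z ^ M) ^ (k' * m) = (b : Ω) ^ (j * (M * m)) := by
        rw [← pow_mul]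
        have h2 : M * (k' * m) = k' * (M * m) := by ring
        rw [h2, pow_mul, hj, ← zpow_natCast, ← zpow_mul]
        push_cast
        rfl
      have h3 : (x ^ (ρ * M)) ^ (k' * m) = (b : Ω) ^ (ρ * M * k') := by
        rw [← hxm, ← pow_mul, ← pow_mul]
        congr 1
        ring
      rw [hzM, mul_pow, h3, ← pow_mul] at h1
      rw [zpow_sub₀ hb0, ← h1]
      have h4 : (b : Ω) ^ ((ρ : ℤ) * M * k') = (b : Ω) ^ (ρ * M * k') := by
        rw [← zpow_natCast]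
        push_cast
        rfl
      rw [h4, mul_div_cancel_left₀ _ (pow_ne_zero _ hb0)]
  · refine le_trans (Nat.mul_le_mul_right u ?_) hdeg
    have h1 : FF ξ ![x ^ r] ≤ FF ξ ![y] := by
      unfold FF
      rw [IntermediateField.adjoin_le_iff]
      rintro w (hw | ⟨l, rfl⟩)
      · exact IntermediateField.subset_adjoin ℚ _ (Or.inl hw)
      · have h2 : y ∈ IntermediateField.adjoin ℚ ({ξ} ∪ Set.range ![y]) :=
          IntermediateField.subset_adjoin ℚ _ (Or.inr ⟨0, rfl⟩)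
        obtain rfl : l = 0 := Subsingleton.elim _ _
        show x ^ r ∈ _
        rw [← hyr]
        exact pow_mem h2 r'
    have h2 := mig_mono h1 z₀
    have h3 := nd_round (ξ := ξ) hy0 z₀ (-i)
    rw [← hz] at h3
    rw [← hy]
    exact h3.trans h2
  · -- the height
    have hh0 : 0 ≤ absLogHeight₁ α := by
      have h1 := Pool.Agent.H4.RR.absLogHeight_pow Ω α (mig_int α) 0
      by_cases hx : IsIntegral ℚ α
      · have h1 : FiniteDimensional ℚ (IntermediateField.adjoin ℚ {α}) :=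
          IntermediateField.adjoin.finiteDimensional hx
        have h2 : NumberField (IntermediateField.adjoin ℚ {α}) := {}
        have h3 := Pool.Agent.H4.RR.absLogHeight_eq (IntermediateField.adjoin ℚ {α}) Ω
          (IntermediateField.val (IntermediateField.adjoin ℚ {α})).toRingHom
          (IntermediateField.AdjoinSimple.gen ℚ α)
        have h4 : (IntermediateField.val (IntermediateField.adjoin ℚ {α})).toRingHom
          (IntermediateField.AdjoinSimple.gen ℚ α) = α := rfl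
        rw [h4] at h3
        rw [h3]
        exact div_nonneg (Height.zero_le_logHeight₁ _) (Nat.cast_nonneg _)
      · exact absurd (mig_int α) hx
    have hlb : 0 ≤ Real.log b := Real.log_nonneg (by exact_mod_cast (by omega : 1 ≤ b))
    have hm0 : (0 : ℝ) < m := by exact_mod_cast hm1
    have hM0 : (0 : ℝ) < M := by exact_mod_cast hM
    have hhx : absLogHeight₁ x = Real.log b / m := by
      have h1 := Pool.Agent.H4.RR.absLogHeight_pow Ω x (mig_int x) m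
      rw [hxm, mig_hb b hb2] at h1
      rw [h1]
      field_simp
    have h1 := Pool.Agent.H4.RR.absLogHeight_mul_le Ω (x ^ (ρ * M)) ((τ α) ^ (u * M)) (mig_int _) (mig_int _)
    rw [← hzM, Pool.Agent.H4.RR.absLogHeight_pow Ω _ (mig_int _), Pool.Agent.H4.RR.absLogHeight_pow Ω _ (mig_int _),
      Pool.Agent.H4.RR.absLogHeight_pow Ω _ (mig_int _), mig_map, hhx] at h1
    push_cast at h1
    have h2 : (M : ℝ) * absLogHeight₁ z ≤ M * (u * absLogHeight₁ α + ρ * (Real.log b / m)) := by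
      linarith
    have h3 := le_of_mul_le_mul_left h2 hM0
    refine h3.trans (add_le_add le_rfl ?_)
    have hQ0 : (0 : ℝ) < (Q₀ : ℝ) ^ J := pow_pos (by exact_mod_cast hQ₀) _
    rcases hsr with h4 | h4
    · have h5 : ρ = 0 := by omega
      rw [h5, Nat.cast_zero, zero_mul]
      positivity
    · have h5 : (ρ : ℝ) / m ≤ 1 / (Q₀ : ℝ) ^ J := by
        rw [div_le_div_iff₀ hm0 hQ0]
        have h6 : ρ * Q₀ ^ J ≤ m := by
          calc ρ * Q₀ ^ J ≤ s * r' := Nat.mul_le_mul hρs.le h4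
            _ = r := hrs.symm
            _ ≤ m := Nat.le_of_dvd hm1 hrm
        have h7 : (ρ : ℝ) * (Q₀ : ℝ) ^ J ≤ m := by exact_mod_cast h6
        linarith
      calc (ρ : ℝ) * (Real.log b / m) = ρ / m * Real.log b := by ring
        _ ≤ 1 / (Q₀ : ℝ) ^ J * Real.log b := mul_le_mul_of_nonneg_right h5 hlb
        _ = Real.log b / (Q₀ : ℝ) ^ J := by ring
  · intro q hq h1 h2 h3
    have hqr : ¬ q ∣ r' := hbad q hq h1 h2 h3
    have hcop : Nat.Coprime q r' := (Nat.Prime.coprime_iff_not_dvd hq).2 hqr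
    rw [← hy]
    obtain ⟨H, hH⟩ : ∃ H, H = IntermediateField.adjoin (AA ξ) ({y ^ q, z ^ q} : Set Ω) := ⟨_, rfl⟩
    rw [← hH]
    have hyq : y ^ q ∈ H := by
      rw [hH]
      exact IntermediateField.subset_adjoin _ _ (by simp)
    have hzq : z ^ q ∈ H := by
      rw [hH]
      exact IntermediateField.subset_adjoin _ _ (by simp)
    have hxrq : (x ^ r) ^ q ∈ H := by
      rw [← hyr, ← pow_mul, mul_comm, pow_mul]
      exact pow_mem hyq r'
    have hz₀q : z₀ ^ q ∈ H := by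
      rw [hz₀z, mul_pow]
      have h4 : (y ^ i) ^ q = (y ^ q) ^ i := by
        rw [← zpow_natCast (y ^ i), ← zpow_mul, ← zpow_natCast y q, ← zpow_mul, mul_comm i]
      rw [h4]
      exact mul_mem hzq (zpow_mem hyq i)
    have hle : IntermediateField.adjoin (AA ξ) ({(x ^ r) ^ q, z₀ ^ q} : Set Ω) ≤ H := by
      rw [IntermediateField.adjoin_le_iff]
      intro w hw
      rcases hw with rfl | hw
      · exact hxrq
      · rw [Set.mem_singleton_iff] at hw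
        rw [hw]
        exact hz₀q
    obtain ⟨h5, h6⟩ := horb q hq
    have h7 : y ^ r' ∈ H := by
      rw [hyr]
      exact hle h5
    have h8 : y ∈ H := mig_bez H y hy0 q r' hcop hyq h7
    refine ⟨h8, ?_⟩
    rw [hz]
    exact mul_mem (hle h6) (zpow_mem h8 _)
  · intro q hq
    rw [← hy]
    obtain ⟨H, hH⟩ : ∃ H, H = IntermediateField.adjoin (AA ξ) ({y, z ^ q} : Set Ω) := ⟨_, rfl⟩
    rw [← hH]
    have hyH : y ∈ H := by
      rw [hH]
      exact IntermediateField.subset_adjoin _ _ (by simp)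
    have hzq : z ^ q ∈ H := by
      rw [hH]
      exact IntermediateField.subset_adjoin _ _ (by simp)
    have hxrq : (x ^ r) ^ q ∈ H := by
      rw [← hyr]
      exact pow_mem (pow_mem hyH r') q
    have hz₀q : z₀ ^ q ∈ H := by
      rw [hz₀z, mul_pow]
      exact mul_mem hzq (pow_mem (zpow_mem hyH i) q)
    have hle : IntermediateField.adjoin (AA ξ) ({(x ^ r) ^ q, z₀ ^ q} : Set Ω) ≤ H := by
      rw [IntermediateField.adjoin_le_iff]
      intro w hw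
      rcases hw with rfl | hw
      · exact hxrq
      · rw [Set.mem_singleton_iff] at hw
        rw [hw]
        exact hz₀q
    obtain ⟨_, h6⟩ := horb q hq
    rw [hz]
    exact mul_mem (hle h6) (zpow_mem hyH _)

end Pool.Agent.H36.LI
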