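import Pool.Agent.H36.LI.FcE
import Pool.Agent.H36.LI.BfD
import Pool.Agent.H36.LI.MiG
import Pool.Agent.H36.LI.RdB
import Pool.Agent.H36.LI.MiS
import Pool.Agent.H36.LH.FdC

/-!
# THEOREM L, version 5 (MP_187c26_nt), the theorem in `Ω` (algebraic closure of `ℚ`)

MODEL: `thmL_eps0` in `Pool/Agent/H36/LH/FdC.lean`. Imports may be sorried (`thmLE`, `exists_good2`, `exists_B`, `rdB_over`, `orb_sub`, `exp_div`).
PROOF. Suppose `Z^33 (d h(α)) ≤ 1`, `d := natDegree (minpoly (FF ξ ![x]) α)`. `exists_good2` with `Q₀ := Z^11`, `Q := Z^12`, `J := e + 3`: `s`, `u`, `z`, `ℬ`; `x' := x^s`, `m' := m/s`, `d' := natDegree (minpoly (FF ξ ![x']) z)`, `d' u ≤ d`, `d' ≤ Z^e`; as in the model `Z^32 (d' h(z)) ≤ 1`, so `Z^13 (d' h(z)) ≤ 1`. `exp_div`: `Ex x' δ`.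
`exists_B` for `x'`, `z`: `B`, `ρ`, `σ`. `w := ρ z`, `h(w) = h(z)` (`height_root`), `w^k = b^j` implies `z^(k n) = b^(j n)`. `rdB_over` for `w`: `E`, `x_E`, `a`, `f`, `RdA B b m' d' (log δ) x_E`, `Mx B x_E δ`. Orbits: `q` prime, `Z^11 < q ≤ Z^12`, `q ∉ ℬ`: `orb_sub` gives `m' d' ≤ [B(x'^q, w^q) : B]`, and `f` maps
`adjoin B {x_E^q, a^q}` onto `adjoin B {x'^q, w^q}` (`IntermediateField.adjoin_map`, see `orb_map` in `Pool/Agent/H36/LG/MnB.lean`: copy for `B`). `thmLE` (`A := B`): `1 < Z^32 (d' h(a))`, `h(a) = h(w)`: contradiction. Constant: `K ≥ 100` and the `K` of `thmLE`, `1 + log b`.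
-/

set_option autoImplicit false

open Polynomial NumberField IntermediateField

namespace Pool.Agent.H36.LI

open Pool.Agent.H36.LE Pool.Agent.H36.LF Pool.Agent.H36.LG Pool.Agent.H36.LH Pool.Agent.H72.BE

private theorem fde_nn {Ω : Type} [Field Ω] [CharZero Ω] (x : Ω) : 0 ≤ absLogHeight₁ x := by
  unfold absLogHeight₁
  refine Real.log_nonneg ?_
  unfold absMulHeight₁
  split_ifs with hx
  · have : FiniteDimensional ℚ ℚ⟮x⟯ := adjoin.finiteDimensional hx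
    have : NumberField ℚ⟮x⟯ := {}
    exact Real.one_le_rpow (Height.one_le_mulHeight₁ _) (by positivity)
  · exact le_rfl

private theorem fde_height (E Ω : Type) [Field E] [NumberField E] [Field Ω] [CharZero Ω] (f : E →+* Ω) (a : E) :
    absLogHeight₁ (f a) = absLogHeight₁ a := by
  have h1 := Pool.Agent.H4.RR.absLogHeight_eq E Ω f a
  have h2 := Pool.Agent.H4.RR.absLogHeight_eq E E (RingHom.id E) a
  rw [RingHom.id_apply] at h2
  rw [h1, h2]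

/-- the end of the proof -/
private theorem fde_num (Z e d d' u : ℕ) (h hz lb : ℝ) (hZ : 1 ≤ Z) (hlb : 0 ≤ lb)
    (hZb : 1 + lb ≤ (Z : ℝ)) (hdu : d' * u ≤ d) (hd' : d' ≤ Z ^ e) (hh0 : 0 ≤ h)
    (hhz : hz ≤ u * h + lb / ((Z ^ 11 : ℕ) : ℝ) ^ (e + 3)) (hc : (Z : ℝ) ^ 33 * (d * h) ≤ 1) :
    (Z : ℝ) ^ 32 * (d' * hz) ≤ 1 := by
  have hZR : (1 : ℝ) ≤ Z := by exact_mod_cast hZ
  have hZ0 : (0 : ℝ) < Z := by linarith
  have hduR : (d' : ℝ) * u ≤ d := by exact_mod_cast hdu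
  have hdR : (d' : ℝ) ≤ (Z : ℝ) ^ e := by exact_mod_cast hd'
  have h0 : (0 : ℝ) ≤ d' := Nat.cast_nonneg _
  have hP : ((Z ^ 11 : ℕ) : ℝ) ^ (e + 3) = (Z : ℝ) ^ (11 * e + 33) := by
    push_cast
    rw [← pow_mul]
    congr 1
  rw [hP] at hhz
  have hPpos : (0 : ℝ) < (Z : ℝ) ^ (11 * e + 33) := by positivity
  have h1 : (Z : ℝ) ^ 33 * (d' * (lb / (Z : ℝ) ^ (11 * e + 33))) ≤ lb := by
    have h2 : (Z : ℝ) ^ 33 * d' ≤ (Z : ℝ) ^ (11 * e + 33) := by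
      calc (Z : ℝ) ^ 33 * d' ≤ (Z : ℝ) ^ 33 * (Z : ℝ) ^ e :=
            mul_le_mul_of_nonneg_left hdR (by positivity)
        _ = (Z : ℝ) ^ (33 + e) := by rw [pow_add]
        _ ≤ (Z : ℝ) ^ (11 * e + 33) := pow_le_pow_right₀ hZR (by omega)
    have h3 : (Z : ℝ) ^ 33 * (d' * (lb / (Z : ℝ) ^ (11 * e + 33))) =
        ((Z : ℝ) ^ 33 * d') * lb / (Z : ℝ) ^ (11 * e + 33) := by ring
    rw [h3, div_le_iff₀ hPpos, mul_comm lb]
    exact mul_le_mul_of_nonneg_right h2 hlb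
  have h2 : (Z : ℝ) ^ 33 * (d' * (u * h)) ≤ 1 := by
    refine le_trans ?_ hc
    refine mul_le_mul_of_nonneg_left ?_ (by positivity)
    rw [← mul_assoc]
    exact mul_le_mul_of_nonneg_right hduR hh0
  have h3 : (Z : ℝ) ^ 33 * (d' * hz) ≤ (Z : ℝ) ^ 33 * (d' * (u * h + lb / (Z : ℝ) ^ (11 * e + 33))) :=
    mul_le_mul_of_nonneg_left (mul_le_mul_of_nonneg_left hhz h0) (by positivity)
  have h4 : (Z : ℝ) ^ 33 * (d' * (u * h + lb / (Z : ℝ) ^ (11 * e + 33))) =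
      (Z : ℝ) ^ 33 * (d' * (u * h)) + (Z : ℝ) ^ 33 * (d' * (lb / (Z : ℝ) ^ (11 * e + 33))) := by ring
  have h5 : ((Z : ℝ) ^ 32 * (d' * hz)) * Z ≤ 1 * Z := by
    have h6 : ((Z : ℝ) ^ 32 * (d' * hz)) * Z = (Z : ℝ) ^ 33 * (d' * hz) := by ring
    rw [h6]
    linarith
  exact le_of_mul_le_mul_right h5 hZ0

private theorem fde_orb {Ω : Type} [Field Ω] [CharZero Ω] (B : IntermediateField ℚ Ω) {E : Type}
    [Field E] [Algebra B E] (f : E →ₐ[B] Ω) (u v : E) :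
    Module.finrank B (IntermediateField.adjoin B ({u, v} : Set E)) =
      Module.finrank B (IntermediateField.adjoin B ({f u, f v} : Set Ω)) := by
  have h1 : (IntermediateField.adjoin B ({u, v} : Set E)).map f =
      IntermediateField.adjoin B ({f u, f v} : Set Ω) := by
    rw [IntermediateField.adjoin_map, Set.image_pair]
  rw [← h1]
  exact (IntermediateField.equivMap
    (IntermediateField.adjoin B ({u, v} : Set E)) f).toLinearEquiv.finrank_eq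

theorem thmL_dob0 (b : ℕ) (hb : 2 ≤ b) (δ₀ : ℕ) : ∃ K : ℕ, ∀ e Z : ℕ, K * (e + 1) ^ 9 ≤ Z →
    ∀ (Ω : Type) [Field Ω] [CharZero Ω] [Algebra.IsAlgebraic ℚ Ω] [IsAlgClosed Ω]
      (m n δ : ℕ) (ξ x α : Ω), DatG b m n ξ x → 1 ≤ δ → δ ≤ δ₀ → Ex x δ →
      (minpoly (FF ξ ![x]) α).natDegree ≤ Z ^ e → α ≠ 0 →
      (∀ k : ℕ, 1 ≤ k → ∀ j : ℤ, α ^ k ≠ (b : Ω) ^ j) →
      1 < (Z : ℝ) ^ 33 * ((minpoly (FF ξ ![x]) α).natDegree * absLogHeight₁ α) := by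
  obtain ⟨K₁, hL⟩ := thmLE b hb δ₀
  refine ⟨K₁ + 100 + ⌈1 + Real.log b⌉₊, ?_⟩
  intro e Z hZ Ω _ _ _ _ m n δ ξ x α hD hδ hδ₀ hE hd hα0 hα
  by_contra hcon
  push Not at hcon
  have he1 : e + 1 ≤ (e + 1) ^ 9 := Nat.le_self_pow (by norm_num) _
  have hZK : K₁ * (e + 1) ^ 9 ≤ Z := by nlinarith
  have hZ100 : 100 * (e + 1) ≤ Z := by
    nlinarith [Nat.zero_le (K₁ * (e + 1) ^ 9), Nat.zero_le (⌈1 + Real.log b⌉₊ * (e + 1) ^ 9)]
  have hZc : ⌈1 + Real.log b⌉₊ ≤ Z := by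
    have h1 : 1 ≤ (e + 1) ^ 9 := Nat.one_le_pow _ _ (by omega)
    nlinarith [Nat.zero_le (K₁ * (e + 1) ^ 9), Nat.zero_le (100 * (e + 1) ^ 9),
      Nat.le_mul_of_pos_right ⌈1 + Real.log b⌉₊ h1]
  have hZ1 : 1 ≤ Z := by omega
  have hlb : 0 ≤ Real.log b := Real.log_nonneg (by exact_mod_cast (by omega : 1 ≤ b))
  have hZb : 1 + Real.log b ≤ (Z : ℝ) := by
    refine (Nat.le_ceil _).trans ?_
    exact_mod_cast hZc
  obtain ⟨s, u, z, ℬ, hs, hz0, hu, hD', hrel, hdeg, hhz, hℬ, horb, hfull⟩ :=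
    exists_good2 hD α hα0 (Z ^ 11) (Z ^ 12) (e + 3) (Nat.one_le_pow _ _ hZ1)
  have hE' : Ex (x ^ s) δ := exp_div b m s δ (by omega) hD.hm x hD.pow hD.deg hs hE
  have hd'd : (minpoly (FF ξ ![x ^ s]) z).natDegree ≤ Z ^ e :=
    (Nat.le_mul_of_pos_right _ hu).trans (hdeg.trans hd)
  have h3 := fde_num Z e _ _ u (absLogHeight₁ α) (absLogHeight₁ z) (Real.log b) hZ1 hlb hZb hdeg hd'd
    (fde_nn α) hhz hcon
  have hZR : (1 : ℝ) ≤ Z := by exact_mod_cast hZ1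
  have h13 : (Z : ℝ) ^ 13 * ((minpoly (FF ξ ![x ^ s]) z).natDegree * absLogHeight₁ z) ≤ 1 := by
    refine le_trans ?_ h3
    exact mul_le_mul_of_nonneg_right (pow_le_pow_right₀ hZR (by norm_num))
      (mul_nonneg (Nat.cast_nonneg _) (fde_nn z))
  obtain ⟨B, i1, ρ, σ, hBA, hρ, hBd, hσ⟩ := exists_B hD' e Z hZ100 z hz0 hd'd hfull h13
  have hn0 : 0 < n := hD.hn
  have hρ0 : ρ ≠ 0 := by
    rintro rfl
    rw [zero_pow hn0.ne'] at hρ
    exact zero_ne_one hρ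
  obtain ⟨E, _, _, _, x', a, f, hfx, hfa, hRd, hMx⟩ := rdB_over hD' B hBA δ hδ hE' (ρ * z)
  rw [hBd] at hRd
  have h1 := hL e Z hZK B E (m / s) _ δ x' a σ ℬ hδ hδ₀ hRd hMx hσ hℬ
    (fun q hq h2 h3 h4 => by
      obtain ⟨h5, h6⟩ := horb q hq h2 h3 h4
      have h7 := orb_sub hD' B hBA z ρ hρ hBd q h5 h6
      rw [fde_orb B f, map_pow, map_pow, hfx, hfa]
      exact h7) hd'd
    (by
      rintro rfl
      rw [map_zero] at hfa
      exact mul_ne_zero hρ0 hz0 hfa.symm)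
    (fun k hk j h2 => by
      have h3 := congrArg f h2
      rw [map_pow, map_zpow₀, map_natCast, hfa, mul_pow] at h3
      have h4 : z ^ (k * n) = (b : Ω) ^ (j * (n : ℤ)) := by
        have h5 : (ρ ^ k * z ^ k) ^ n = ((b : Ω) ^ j) ^ n := congrArg (fun y : Ω => y ^ n) h3
        rw [mul_pow, ← pow_mul, mul_comm k n, pow_mul, hρ, one_pow, one_mul, ← zpow_natCast ((b : Ω) ^ j),
          ← zpow_mul] at h5
        rw [← h5, pow_mul]
      obtain ⟨k', hk', j', h5⟩ := hrel (k * n) (Nat.mul_pos hk hn0) _ h4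
      exact hα k' hk' j' h5)
  have h2 : absLogHeight₁ a = absLogHeight₁ z := by
    rw [← fde_height E Ω (f : E →+* Ω) a]
    exact (congrArg absLogHeight₁ hfa).trans (height_root ρ z n hn0 hρ)
  rw [h2] at h1
  linarith

end Pool.Agent.H36.LI
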