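import Pool.Agent.H36.LF.GqC

/-!
# THEOREM L, version 5 (MP_187c26_nt): the automorphisms over `ℚ(ξ^q, x)`

MODEL: `exists_sG` in `Pool/Agent/H36/LF/GqC.lean` (the generator `s` of `Gal(F / FF (ξ^q) ![x])`, `F = FF ξ ![x]`, with its private lemmas `gal_oneG`, `gal_cycG`, `gal_absG`; copy). `q ≥ 3` divides `n`, `ζ := ξ^(n/q)`, `q^k` the exact power of `q` in `n`. `s ξ = ξ^t` with `t` prime to `n`, `t ≡ 1` mod `n/q` (`s` fixes `ξ^q`; `ξ^(qt) = ξ^q`).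
If `k ≥ 2`: `q ∣ n/q`, `s ζ = ζ`, the group has order `q` and `s ξ = ξ ζ^u`, `q ∤ u`; if `k = 1` the group is isomorphic to `(ℤ/q)^*` (acting on `ζ`: `s ζ = ζ^t`, `t` a primitive root mod `q`), of order `q - 1`.
(1) `s (xF i) = xF i`, `s (ξF^q) = ξF^q`. (2) fixed elements: `hs1` of `exists_sG`.
(3) for `1 ≤ j`, `j + 1 < q` and every `k'` there is `i` with `n ∣ i q^a` for some `a` (so `ξ^i` is a root of unity of `q`-power order) and `s^j (ξ^i) = ζ^(k') ξ^i`: take `i = (n/q^k) i'`; `s^j` acts on `ξ^(n/q^k)`, a primitive root of unity `η` of order `q^k`: for `k ≥ 2`: `s^j η = η ζ^(u')` with `q ∤ u'` (`u' ≡` unit times `j`), solve `u' i' ≡ k'` mod `q`; for `k = 1`: `η` is a power of `ζ`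
prime to `q`, `s^j ζ = ζ^(t^j)`, `t^j ≢ 1` mod `q` (primitive root, `0 < j < q - 1`): `ζ^((t^j - 1) i') = ζ^(k')`. (4) `q^2 ∣ n`, `1 ≤ j`, `j + 1 < q`: `s^j y = y` implies `s y = y` (order `q` prime: `s` is a power of `s^j`). (5) `y ∈ A = AA ξ`, `s y = y`: by (2) `y ∈ FF (ξ^q) ![x] ⊓ AA ξ`, and this is `AA (ξ^q)`: let `A₀ := AA (ξ^q)`, `F₀ := FF (ξ^q) ![x]`;
`[F₀ : A₀] = m = [F : AA ξ]` (`degG`, `DatG.pow_q`), `A₀(y) ⊆ F₀`, `x` generates `F₀` over `A₀(y)` and `F` over `AA ξ ⊇ A₀(y)`, so `m = [F : AA ξ] ≤ [F₀ : A₀(y)] = m / [A₀(y) : A₀]`, `y ∈ A₀`.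
(6) cross: `q' ≠ q` prime, `n ∣ i q'^a`: `q ∣ i` (`q ∣ n`, `q ∤ q'^a`), so `ξ^i` is a power of `ξ^q`, fixed by `s`. (7) `s` maps `AA ξ` into itself (`s ξ = ξ^t`).
-/

set_option autoImplicit false

open NumberField IntermediateField

namespace Pool.Agent.H36.LI

open Pool.Agent.H36.LF Pool.Agent.H72.BE

variable {Ω : Type} [Field Ω] [CharZero Ω] {b m n : ℕ} {ξ x : Ω}

private theorem ga_top (h : DatG b m n ξ x) : Algebra.adjoin (AA ξ) {xF ξ ![x] 0} = ⊤ := by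
  have halg : IsIntegral (AA ξ) x := h.integral_x.tower_top
  have h1 : ∀ y ∈ FF ξ ![x], y ∈ IntermediateField.adjoin (AA ξ) {x} := by
    intro y hy
    have h2 : IntermediateField.adjoin ℚ ({ξ} ∪ Set.range ![x]) ≤
        (IntermediateField.adjoin (AA ξ) {x}).restrictScalars ℚ := by
      rw [IntermediateField.adjoin_le_iff]
      rintro z (hz | ⟨i, rfl⟩)
      · rw [Set.mem_singleton_iff] at hz
        rw [hz]
        exact (IntermediateField.adjoin (AA ξ) {x}).algebraMap_mem (ξA ξ)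
      · rw [Subsingleton.elim i 0]
        exact IntermediateField.mem_adjoin_simple_self _ x
    exact h2 hy
  rw [Algebra.eq_top_iff]
  intro y
  have h3 := h1 y y.2
  rw [← IntermediateField.mem_toSubalgebra,
    IntermediateField.adjoin_simple_toSubalgebra_of_isAlgebraic halg.isAlgebraic] at h3
  have h4 : (Algebra.adjoin (AA ξ) {xF ξ ![x] 0}).map
      (IsScalarTower.toAlgHom (AA ξ) (FF ξ ![x]) Ω) =
      Algebra.adjoin (AA ξ) {x} := by
    rw [AlgHom.map_adjoin, Set.image_singleton]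
    rfl
  rw [← h4] at h3
  obtain ⟨z, hz, hzy⟩ := h3
  have h5 : z = y := Subtype.ext hzy
  rw [← h5]
  exact hz

private theorem ga_one {K L : Type} [Field K] [Field L] [Algebra K L] {ξ : L}
    (htop : Algebra.adjoin K {ξ} = ⊤) (s : L ≃ₐ[K] L) (hs : s ξ = ξ) : s = 1 := by
  have h1 : (s : L →ₐ[K] L) = AlgHom.id K L :=
    AlgHom.ext_of_adjoin_eq_top htop fun y hy => by
      rw [Set.mem_singleton_iff] at hy
      rw [hy]
      exact hs
  ext y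
  exact DFunLike.congr_fun h1 y

private theorem ga_cyc {K L : Type} [Field K] [Field L] [Algebra K L] [FiniteDimensional K L]
    {n q : ℕ} (hn : 1 ≤ n)
    {ξ : L} (hξ : IsPrimitiveRoot ξ n) (hq : q.Prime) (hqn : q ∣ n) {a : K}
    (ha : algebraMap K L a = ξ ^ q) (htop : Algebra.adjoin K {ξ} = ⊤) :
    IsCyclic (L ≃ₐ[K] L) := by
  have : NeZero q := ⟨hq.ne_zero⟩
  have hξ0 : ξ ≠ 0 := hξ.ne_zero (by omega)
  have hζ : IsPrimitiveRoot (ξ ^ (n / q)) q := by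
    refine hξ.pow hn ?_
    rw [Nat.div_mul_cancel hqn]
  by_cases hA : q ∣ n / q
  · -- case A
    have hfix : ∀ (s : L ≃ₐ[K] L) (z : L), z ^ q = 1 → s z = z := by
      intro s z hz
      obtain ⟨i, -, rfl⟩ := hζ.eq_pow_of_pow_eq_one hz
      have h1 : ξ ^ (n / q) = algebraMap K L (a ^ (n / q / q)) := by
        rw [map_pow, ha, ← pow_mul, Nat.mul_div_cancel' hA]
      rw [h1, ← map_pow, AlgEquiv.commutes]
    have hr : ∀ s : L ≃ₐ[K] L, (s ξ / ξ) ^ q = 1 := by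
      intro s
      have h1 : s (ξ ^ q) = ξ ^ q := by rw [← ha, AlgEquiv.commutes]
      rw [div_pow, ← map_pow, h1, div_self (pow_ne_zero _ hξ0)]
    let f : (L ≃ₐ[K] L) →* L :=
      { toFun := fun s => s ξ / ξ
        map_one' := by
          show ξ / ξ = 1
          exact div_self hξ0
        map_mul' := fun s t => by
          show s (t ξ) / ξ = s ξ / ξ * (t ξ / ξ)
          have h1 := hfix s _ (hr t)
          rw [map_div₀] at h1
          have hs0 : s ξ ≠ 0 := (map_ne_zero s).2 hξ0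
          rw [div_eq_iff hs0] at h1
          rw [h1]
          field_simp }
    refine isCyclic_of_injective_ringHom f fun s t hst => ?_
    have h1 : s ξ / ξ = t ξ / ξ := hst
    have h2 : s ξ = t ξ := by
      field_simp at h1
      exact h1
    have h3 : t⁻¹ * s = 1 := ga_one htop _ (by
      show t.symm (s ξ) = ξ
      rw [h2, AlgEquiv.symm_apply_apply])
    exact (inv_mul_eq_one.1 h3).symm
  · -- case B
    have : Fact q.Prime := ⟨hq⟩
    have hcop : Nat.Coprime q (n / q) := (Nat.Prime.coprime_iff_not_dvd hq).2 hA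
    let f : (L ≃ₐ[K] L) →* ZMod q := (Units.coeHom (ZMod q)).comp (hζ.autToPow K)
    refine isCyclic_of_injective_ringHom f ?_
    refine Function.Injective.comp (g := fun u : (ZMod q)ˣ => (u : ZMod q)) Units.val_injective ?_
    rw [injective_iff_map_eq_one]
    intro s hs
    have h1 : s (ξ ^ (n / q)) = ξ ^ (n / q) := by
      rw [← hζ.autToPow_spec K s, hs]
      rw [Units.val_one, ZMod.val_one, pow_one]
    refine ga_one htop s ?_
    have h2 : s (ξ ^ q) = ξ ^ q := by rw [← ha, AlgEquiv.commutes]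
    -- (s ξ / ξ) ^ q = 1, (s ξ / ξ) ^ (n/q) = 1
    have h3 : (s ξ / ξ) ^ q = 1 := by
      rw [div_pow, ← map_pow, h2, div_self (pow_ne_zero _ hξ0)]
    have h4 : (s ξ / ξ) ^ (n / q) = 1 := by
      rw [div_pow, ← map_pow, h1, div_self (pow_ne_zero _ hξ0)]
    have h5 : s ξ / ξ = 1 := by
      have h6 := Nat.dvd_gcd (orderOf_dvd_of_pow_eq_one h3) (orderOf_dvd_of_pow_eq_one h4)
      rw [hcop.gcd_eq_one, Nat.dvd_one, orderOf_eq_one_iff] at h6
      exact h6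
    exact (div_eq_one_iff_eq hξ0).1 h5

private theorem ga_ring {K L : Type} [Field K] [Field L] [Algebra K L] (s : L ≃ₐ[K] L) (j : ℕ) (y : L) :
    ((s.toRingEquiv : L ≃+* L) ^ j : L ≃+* L) y = (s ^ j) y := by
  induction j generalizing y with
  | zero => rfl
  | succ j ih =>
    rw [pow_succ, pow_succ]
    show ((s.toRingEquiv : L ≃+* L) ^ j : L ≃+* L) (s y) = (s ^ j) (s y)
    exact ih (s y)

private theorem ga_fixpow {K L : Type} [Field K] [Field L] [Algebra K L] (s : L ≃ₐ[K] L) (y : L) (hy : s y = y)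
    (u : ℕ) : (s ^ u) y = y := by
  induction u with
  | zero => rfl
  | succ u ih =>
    rw [pow_succ]
    show (s ^ u) (s y) = y
    rw [hy, ih]

private theorem ga_A {K L : Type} [Field K] [Field L] [Algebra K L] {n q : ℕ}
    (hn : 1 ≤ n) {ξ : L} (hξ : IsPrimitiveRoot ξ n) (hq : q.Prime) (hqn : q ∣ n) {a : K}
    (ha : algebraMap K L a = ξ ^ q) (htop : Algebra.adjoin K {ξ} = ⊤) (hA : q ∣ n / q)
    (s : L ≃ₐ[K] L) (hs1 : s ξ ≠ ξ) :
    (∀ j k : ℕ, 1 ≤ j → j + 1 < q → ∃ i a : ℕ, n ∣ i * q ^ a ∧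
      (s ^ j) (ξ ^ i) = (ξ ^ (n / q)) ^ k * ξ ^ i) ∧
    (∀ j : ℕ, 1 ≤ j → j + 1 < q → ∀ y : L, (s ^ j) y = y → s y = y) := by
  have : Fact q.Prime := ⟨hq⟩
  have : NeZero q := ⟨hq.ne_zero⟩
  have hξ0 : ξ ≠ 0 := hξ.ne_zero (by omega)
  have hζ : IsPrimitiveRoot (ξ ^ (n / q)) q := by
    refine hξ.pow hn ?_
    rw [Nat.div_mul_cancel hqn]
  have h1 : s (ξ ^ q) = ξ ^ q := by rw [← ha, AlgEquiv.commutes]
  have h2 : (s ξ / ξ) ^ q = 1 := by
    rw [div_pow, ← map_pow, h1, div_self (pow_ne_zero _ hξ0)]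
  obtain ⟨c, -, hc2⟩ := hζ.eq_pow_of_pow_eq_one h2
  have h3 : s ξ = (ξ ^ (n / q)) ^ c * ξ := by
    rw [hc2, div_mul_cancel₀ _ hξ0]
  have hc0 : (c : ZMod q) ≠ 0 := by
    intro h0
    rw [ZMod.natCast_eq_zero_iff] at h0
    obtain ⟨t, rfl⟩ := h0
    rw [pow_mul, hζ.pow_eq_one, one_pow, one_mul] at h3
    exact hs1 h3
  have hfix : s (ξ ^ (n / q)) = ξ ^ (n / q) := by
    have h4 : ξ ^ (n / q) = algebraMap K L (a ^ (n / q / q)) := by
      rw [map_pow, ha, ← pow_mul, Nat.mul_div_cancel' hA]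
    rw [h4, AlgEquiv.commutes]
  have hj : ∀ j : ℕ, (s ^ j) ξ = (ξ ^ (n / q)) ^ (c * j) * ξ := by
    intro j
    induction j with
    | zero =>
      rw [mul_zero, pow_zero, pow_zero, one_mul]
      rfl
    | succ j ih =>
      rw [pow_succ']
      show s ((s ^ j) ξ) = _
      rw [ih, map_mul, map_pow, hfix, h3, ← mul_assoc, ← pow_add]
      rfl
  have hjz : ∀ j : ℕ, 1 ≤ j → j + 1 < q → (j : ZMod q) ≠ 0 := by
    intro j hj1 hj2
    rw [Ne, ZMod.natCast_eq_zero_iff]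
    intro hd
    have := Nat.le_of_dvd (by omega) hd
    omega
  constructor
  · intro j k hj1 hj2
    obtain ⟨v, M, hM, hnM⟩ := Nat.exists_eq_pow_mul_and_not_dvd (by omega : n ≠ 0) q hq.ne_one
    have hM0 : (M : ZMod q) ≠ 0 := by rwa [Ne, ZMod.natCast_eq_zero_iff]
    obtain ⟨i', hi'⟩ : ∃ i' : ℕ, (i' : ZMod q) = ((c : ZMod q) * j * M)⁻¹ * k :=
      ⟨(((c : ZMod q) * j * M)⁻¹ * k).val, ZMod.natCast_zmod_val _⟩
    refine ⟨M * i', v, ⟨i', ?_⟩, ?_⟩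
    · rw [hnM]
      ring
    · rw [map_pow, hj j, mul_pow, ← pow_mul]
      have h4 : c * j * (M * i') ≡ k [MOD q] := by
        rw [← ZMod.natCast_eq_natCast_iff]
        push_cast
        rw [hi', ← mul_assoc, ← mul_assoc, mul_inv_cancel₀ (mul_ne_zero (mul_ne_zero hc0 (hjz j hj1 hj2)) hM0),
          one_mul]
      rw [pow_eq_pow_of_modEq h4 hζ.pow_eq_one]
  · intro j hj1 hj2 y hy
    have hsq : s ^ q = 1 := ga_one htop _ (by
      rw [hj q, mul_comm c q, pow_mul, hζ.pow_eq_one, one_pow, one_mul])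
    obtain ⟨u, hu⟩ : ∃ u : ℕ, (u : ZMod q) = (j : ZMod q)⁻¹ :=
      ⟨((j : ZMod q)⁻¹).val, ZMod.natCast_zmod_val _⟩
    have h4 : j * u ≡ 1 [MOD q] := by
      rw [← ZMod.natCast_eq_natCast_iff]
      push_cast
      rw [hu, mul_inv_cancel₀ (hjz j hj1 hj2)]
    have h5 : s ^ (j * u) = s := by
      rw [pow_eq_pow_of_modEq h4 hsq, pow_one]
    have h6 := ga_fixpow (s ^ j) y hy u
    rw [← pow_mul, h5] at h6
    exact h6

private theorem ga_B {K L : Type} [Field K] [Field L] [Algebra K L] {n q : ℕ}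
    (hn : 1 ≤ n) {ξ : L} (hξ : IsPrimitiveRoot ξ n) (hq : q.Prime) (hqn : q ∣ n) {a : K}
    (ha : algebraMap K L a = ξ ^ q) (htop : Algebra.adjoin K {ξ} = ⊤) (hB : ¬ q ∣ n / q)
    (s : L ≃ₐ[K] L) (hs : ∀ j : ℕ, 1 ≤ j → j + 1 < q → s ^ j ≠ 1) :
    ∀ j k : ℕ, 1 ≤ j → j + 1 < q → ∃ i a : ℕ, n ∣ i * q ^ a ∧
      (s ^ j) (ξ ^ i) = (ξ ^ (n / q)) ^ k * ξ ^ i := by
  have : Fact q.Prime := ⟨hq⟩
  have : NeZero q := ⟨hq.ne_zero⟩
  have hξ0 : ξ ≠ 0 := hξ.ne_zero (by omega)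
  have hcop : Nat.Coprime q (n / q) := (Nat.Prime.coprime_iff_not_dvd hq).2 hB
  have hζ : IsPrimitiveRoot (ξ ^ (n / q)) q := by
    refine hξ.pow hn ?_
    rw [Nat.div_mul_cancel hqn]
  intro j k hj1 hj2
  have hne : (s ^ j) (ξ ^ (n / q)) ≠ ξ ^ (n / q) := by
    intro h1
    apply hs j hj1 hj2
    refine ga_one htop _ ?_
    have h2 : (s ^ j) (ξ ^ q) = ξ ^ q := by rw [← ha, AlgEquiv.commutes]
    have h3 : ((s ^ j) ξ / ξ) ^ q = 1 := by
      rw [div_pow, ← map_pow, h2, div_self (pow_ne_zero _ hξ0)]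
    have h4 : ((s ^ j) ξ / ξ) ^ (n / q) = 1 := by
      rw [div_pow, ← map_pow, h1, div_self (pow_ne_zero _ hξ0)]
    have h5 : (s ^ j) ξ / ξ = 1 := by
      have h6 := Nat.dvd_gcd (orderOf_dvd_of_pow_eq_one h3) (orderOf_dvd_of_pow_eq_one h4)
      rw [hcop.gcd_eq_one, Nat.dvd_one, orderOf_eq_one_iff] at h6
      exact h6
    exact (div_eq_one_iff_eq hξ0).1 h5
  have h2 : ((s ^ j) (ξ ^ (n / q))) ^ q = 1 := by rw [← map_pow, hζ.pow_eq_one, map_one]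
  obtain ⟨T, -, hT⟩ := hζ.eq_pow_of_pow_eq_one h2
  have hT0 : (T : ZMod q) - 1 ≠ 0 := by
    intro h0
    have h3 : T ≡ 1 [MOD q] := by
      rw [← ZMod.natCast_eq_natCast_iff]
      push_cast
      linear_combination h0
    apply hne
    rw [← hT, pow_eq_pow_of_modEq h3 hζ.pow_eq_one, pow_one]
  obtain ⟨i', hi'⟩ : ∃ i' : ℕ, (i' : ZMod q) = ((T : ZMod q) - 1)⁻¹ * k :=
    ⟨(((T : ZMod q) - 1)⁻¹ * k).val, ZMod.natCast_zmod_val _⟩
  refine ⟨n / q * i', 1, ⟨i', ?_⟩, ?_⟩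
  · have h3 := Nat.div_mul_cancel hqn
    calc n / q * i' * q ^ 1 = (n / q * q) * i' := by ring
      _ = n * i' := by rw [h3]
  · have h4 : T * i' ≡ k + i' [MOD q] := by
      rw [← ZMod.natCast_eq_natCast_iff]
      push_cast
      have h5 : ((T : ZMod q) - 1) * i' = k := by
        rw [hi', ← mul_assoc, mul_inv_cancel₀ hT0, one_mul]
      linear_combination h5
    rw [pow_mul ξ (n / q) i', map_pow, ← hT, ← pow_mul, ← pow_add]
    exact pow_eq_pow_of_modEq h4 hζ.pow_eq_one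

private theorem ga_abs {K L : Type} [Field K] [Field L] [Algebra K L] [CharZero K] {n q : ℕ}
    (hn : 1 ≤ n) {ξ : L} (hξ : IsPrimitiveRoot ξ n) (hq : q.Prime) (hqn : q ∣ n) {a : K}
    (ha : algebraMap K L a = ξ ^ q) (htop : Algebra.adjoin K {ξ} = ⊤)
    (hne : ξ ∉ Set.range (algebraMap K L)) (hfr : ¬ q ∣ n / q → Module.finrank K L = q - 1) :
    ∃ s : L ≃ₐ[K] L, (∀ y, s y = y ↔ y ∈ Set.range (algebraMap K L)) ∧
      (∀ j k : ℕ, 1 ≤ j → j + 1 < q → ∃ i a : ℕ, n ∣ i * q ^ a ∧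
        (s ^ j) (ξ ^ i) = (ξ ^ (n / q)) ^ k * ξ ^ i) ∧
      (q ∣ n / q → ∀ j : ℕ, 1 ≤ j → j + 1 < q → ∀ y : L, (s ^ j) y = y → s y = y) := by
  have : NeZero n := ⟨by omega⟩
  have : NeZero q := ⟨hq.ne_zero⟩
  have : Fact q.Prime := ⟨hq⟩
  have hc : IsCyclotomicExtension {n} K L := by
    rw [IsCyclotomicExtension.iff_adjoin_eq_top]
    refine ⟨fun r hr _ => ?_, ?_⟩
    · rw [Set.mem_singleton_iff] at hr
      rw [hr]
      exact ⟨ξ, hξ⟩
    · rw [eq_top_iff, ← htop]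
      refine Algebra.adjoin_mono ?_
      rw [Set.singleton_subset_iff]
      exact ⟨n, rfl, by omega, hξ.pow_eq_one⟩
  have : FiniteDimensional K L := IsCyclotomicExtension.finiteDimensional {n} K L
  have : IsGalois K L := IsCyclotomicExtension.isGalois {n} K L
  obtain ⟨s, hs⟩ := (ga_cyc hn hξ hq hqn ha htop).exists_generator
  have hfix : ∀ y, s y = y ↔ y ∈ Set.range (algebraMap K L) := by
    intro y
    refine ⟨fun hy => ?_, fun ⟨z, hz⟩ => by rw [← hz, AlgEquiv.commutes]⟩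
    rw [IsGalois.mem_range_algebraMap_iff_fixed]
    intro f
    have h1 : s ∈ MulAction.stabilizer (L ≃ₐ[K] L) y := hy
    have h2 : f ∈ MulAction.stabilizer (L ≃ₐ[K] L) y :=
      (Subgroup.zpowers_le.2 h1) (hs f)
    exact h2
  have hs1 : s ξ ≠ ξ := fun h => hne ((hfix ξ).1 h)
  refine ⟨s, hfix, ?_, fun hA => (ga_A hn hξ hq hqn ha htop hA s hs1).2⟩
  by_cases hA : q ∣ n / q
  · exact (ga_A hn hξ hq hqn ha htop hA s hs1).1
  · refine ga_B hn hξ hq hqn ha htop hA s fun j hj1 hj2 h1 => ?_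
    have h2 : orderOf s = q - 1 := by
      rw [orderOf_eq_card_of_forall_mem_zpowers hs, IsGalois.card_aut_eq_finrank, hfr hA]
    have h3 := Nat.le_of_dvd (by omega) (orderOf_dvd_of_pow_eq_one h1)
    omega

/-- The intersection of `ℚ(ξ)` and `ℚ(ξ^q, x)`. -/
private theorem ga_int (h : DatG b m n ξ x) (q : ℕ) (y : Ω) (hyA : y ∈ AA ξ)
    (hyF : y ∈ FF (ξ ^ q) ![x]) : y ∈ AA (ξ ^ q) := by
  have hnA : NumberField (AA ξ) := h.nf_A
  have hnF : NumberField (FF ξ ![x]) := h.nf_F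
  have hA0 : IsIntegral (AA (ξ ^ q)) x := h.integral_x.tower_top
  have hx1 : y ∈ IntermediateField.adjoin (AA (ξ ^ q)) {x} := by
    have h2 : IntermediateField.adjoin ℚ ({ξ ^ q} ∪ Set.range ![x]) ≤
        (IntermediateField.adjoin (AA (ξ ^ q)) {x}).restrictScalars ℚ := by
      rw [IntermediateField.adjoin_le_iff]
      rintro z (hz | ⟨i, rfl⟩)
      · rw [Set.mem_singleton_iff] at hz
        rw [hz]
        exact (IntermediateField.adjoin (AA (ξ ^ q)) {x}).algebraMap_mem (ξA (ξ ^ q))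
      · rw [Subsingleton.elim i 0]
        exact IntermediateField.mem_adjoin_simple_self _ x
    exact h2 hyF
  rw [← IntermediateField.mem_toSubalgebra,
    IntermediateField.adjoin_simple_toSubalgebra_of_isAlgebraic hA0.isAlgebraic,
    Algebra.adjoin_singleton_eq_range_aeval] at hx1
  obtain ⟨g, hg⟩ := hx1
  have hg' : Polynomial.aeval x g = y := hg
  obtain ⟨P, hP⟩ : ∃ P : Polynomial (AA (ξ ^ q)), P = Polynomial.X ^ m - Polynomial.C (b : AA (ξ ^ q)) :=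
    ⟨_, rfl⟩
  have hm := h.hm
  have hPm : P.Monic := by
    rw [hP]
    exact Polynomial.monic_X_pow_sub_C _ (by omega)
  have hPd : P.degree = m := by
    rw [hP]
    exact Polynomial.degree_X_pow_sub_C (by omega) _
  have hP0 : Polynomial.aeval x P = 0 := by
    rw [hP, map_sub, map_pow, Polynomial.aeval_X, Polynomial.aeval_C, map_natCast, h.pow, sub_self]
  obtain ⟨f, hf⟩ : ∃ f, f = g %ₘ P := ⟨_, rfl⟩
  have hf1 : Polynomial.aeval x f = y := by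
    rw [hf, ← hg', Polynomial.modByMonic_eq_sub_mul_div g P, map_sub, map_mul, hP0, zero_mul, sub_zero]
  have hf2 : f.degree < m := by
    rw [hf, ← hPd]
    exact Polynomial.degree_modByMonic_lt g hPm
  have hle : AA (ξ ^ q) ≤ AA ξ := by
    have h1 : ξ ∈ AA ξ := (ξA ξ).2
    unfold AA at h1 ⊢
    rw [IntermediateField.adjoin_le_iff, Set.singleton_subset_iff]
    exact pow_mem h1 q
  obtain ⟨ι, hι⟩ : ∃ ι : AA (ξ ^ q) →+* AA ξ, ∀ z, ((ι z : AA ξ) : Ω) = z :=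
    ⟨(IntermediateField.inclusion hle).toRingHom, fun z => rfl⟩
  have hcomp : (algebraMap (AA ξ) Ω).comp ι = algebraMap (AA (ξ ^ q)) Ω := by
    ext z
    exact hι z
  obtain ⟨f', hf'⟩ : ∃ f' : Polynomial (AA ξ), f' = f.map ι - Polynomial.C ⟨y, hyA⟩ := ⟨_, rfl⟩
  have h1 : Polynomial.aeval x f' = 0 := by
    rw [hf', map_sub, Polynomial.aeval_def, Polynomial.eval₂_map, hcomp, ← Polynomial.aeval_def, hf1,
      Polynomial.aeval_C]
    exact sub_self y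
  have h2 : Polynomial.aeval (xF ξ ![x] 0) f' = 0 := by
    apply (algebraMap (FF ξ ![x]) Ω).injective
    rw [map_zero, ← Polynomial.aeval_algebraMap_apply]
    exact h1
  have hint : IsIntegral (AA ξ) (xF ξ ![x] 0) := by
    have h3 : IsIntegral (AA ξ) x := h.integral_x.tower_top
    exact (isIntegral_algebraMap_iff (algebraMap (FF ξ ![x]) Ω).injective).1 h3
  have hdeg : (minpoly (AA ξ) (xF ξ ![x] 0)).natDegree = m := by
    obtain ⟨pb, hpb⟩ : ∃ pb : PowerBasis (AA ξ) (FF ξ ![x]), pb.gen = xF ξ ![x] 0 :=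
      ⟨PowerBasis.ofAdjoinEqTop hint (ga_top h), PowerBasis.ofAdjoinEqTop_gen hint (ga_top h)⟩
    rw [← hpb, pb.natDegree_minpoly, ← pb.finrank, degG h]
  have h3 : f' = 0 := by
    by_contra hne
    have h4 := minpoly.degree_le_of_ne_zero (AA ξ) (xF ξ ![x] 0) hne h2
    rw [Polynomial.degree_eq_natDegree (minpoly.ne_zero hint), hdeg] at h4
    have h5 : f'.degree < m := by
      rw [hf']
      refine lt_of_le_of_lt (Polynomial.degree_sub_le _ _) (max_lt ?_ ?_)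
      · exact lt_of_le_of_lt Polynomial.degree_map_le hf2
      · refine lt_of_le_of_lt Polynomial.degree_C_le ?_
        exact_mod_cast hm
    exact absurd h4 (not_le.2 h5)
  have h4 : f.map ι = Polynomial.C ⟨y, hyA⟩ := by
    rw [hf'] at h3
    exact sub_eq_zero.1 h3
  have h5 := congrArg (fun p : Polynomial (AA ξ) => ((p.coeff 0 : AA ξ) : Ω)) h4
  have h6 : ((ι (f.coeff 0) : AA ξ) : Ω) = y := by
    have h7 : (f.map ι).coeff 0 = ι (f.coeff 0) := Polynomial.coeff_map _ _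
    have h8 : (Polynomial.C (⟨y, hyA⟩ : AA ξ)).coeff 0 = ⟨y, hyA⟩ := Polynomial.coeff_C_zero
    have h9 : (((f.map ι).coeff 0 : AA ξ) : Ω) = ((Polynomial.C (⟨y, hyA⟩ : AA ξ)).coeff 0 : AA ξ) := h5
    rw [h7, h8] at h9
    exact h9
  rw [hι] at h6
  rw [← h6]
  exact (f.coeff 0).2

private theorem ga_phi (h : DatG b m n ξ x) : Module.finrank ℚ (FF ξ ![x]) = n.totient * m := by
  have hnA : NumberField (AA ξ) := h.nf_A
  have hnF : NumberField (FF ξ ![x]) := h.nf_F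
  have h1 : Module.finrank ℚ (AA ξ) = n.totient := by
    have h2 : IsIntegral ℚ ξ := h.integral_ξ.tower_top
    have h3 : Module.finrank ℚ (AA ξ) = (minpoly ℚ ξ).natDegree := IntermediateField.adjoin.finrank h2
    rw [h3, ← Polynomial.cyclotomic_eq_minpoly_rat h.prim h.hn, Polynomial.natDegree_cyclotomic]
  rw [← Module.finrank_mul_finrank ℚ (AA ξ) (FF ξ ![x]), degG h, h1]

private theorem ga_tot (h : DatG b m n ξ x) (q : ℕ) (hq : q.Prime) (hqn : q ∣ n) :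
    (q ∣ n / q → Module.finrank ℚ (FF ξ ![x]) = q * Module.finrank ℚ (FF (ξ ^ q) ![x])) ∧
    (¬ q ∣ n / q → Module.finrank ℚ (FF ξ ![x]) = (q - 1) * Module.finrank ℚ (FF (ξ ^ q) ![x])) := by
  rw [ga_phi h, ga_phi (h.pow_q q hqn hq.one_le)]
  have h1 : n = q * (n / q) := (Nat.mul_div_cancel' hqn).symm
  constructor
  · intro hA
    have h2 := Nat.totient_mul_of_prime_of_dvd hq hA
    rw [← h1] at h2
    rw [h2, mul_assoc]
  · intro hA
    have h2 := Nat.totient_mul_of_prime_of_not_dvd hq hA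
    rw [← h1] at h2
    rw [h2, mul_assoc]

private theorem ga_pos (h : DatG b m n ξ x) : 0 < Module.finrank ℚ (FF ξ ![x]) := by
  rw [ga_phi h]
  have h1 := h.hn
  have h2 := h.hm
  exact Nat.mul_pos (Nat.totient_pos.2 h1) h2

private theorem ga_notmem (h : DatG b m n ξ x) (q : ℕ) (hq : q.Prime) (hq2 : 3 ≤ q) (hqn : q ∣ n) :
    ξ ∉ FF (ξ ^ q) ![x] := by
  intro hξ
  have h1 : FF ξ ![x] = FF (ξ ^ q) ![x] :=
    le_antisymm (FF_mono (ξ ^ q) ξ ![x] hξ) (FF_mono ξ (ξ ^ q) ![x] (pow_mem (mem_FF_ξ ξ ![x]) q))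
  have h2 : Module.finrank ℚ (FF ξ ![x]) = Module.finrank ℚ (FF (ξ ^ q) ![x]) := by rw [h1]
  have h3 := ga_pos (h.pow_q q hqn hq.one_le)
  obtain ⟨h4, h5⟩ := ga_tot h q hq hqn
  by_cases hA : q ∣ n / q
  · have h6 := h4 hA
    rw [h2] at h6
    nlinarith
  · have h6 := h5 hA
    rw [h2] at h6
    have h7 : 2 ≤ q - 1 := by omega
    nlinarith

private theorem ga_mapA (s : FF ξ ![x] ≃+* FF ξ ![x]) (hs : ((s (ξF ξ ![x]) : FF ξ ![x]) : Ω) ∈ AA ξ)
    (y : FF ξ ![x]) (hy : (y : Ω) ∈ AA ξ) : ((s y : FF ξ ![x]) : Ω) ∈ AA ξ := by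
  have key : ∀ z ∈ IntermediateField.adjoin ℚ {ξ}, ∀ hz : z ∈ FF ξ ![x],
      ((s ⟨z, hz⟩ : FF ξ ![x]) : Ω) ∈ AA ξ := by
    intro z hz
    induction hz using IntermediateField.adjoin_induction with
    | mem z hz =>
      intro hz'
      rw [Set.mem_singleton_iff] at hz
      subst hz
      exact hs
    | algebraMap r =>
      intro hz'
      have h1 : (⟨algebraMap ℚ Ω r, hz'⟩ : FF ξ ![x]) = algebraMap ℚ (FF ξ ![x]) r := rfl
      rw [h1]
      have h2 : s (algebraMap ℚ (FF ξ ![x]) r) = algebraMap ℚ (FF ξ ![x]) r := by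
        have h3 := RingHom.ext_iff.1 (RingHom.ext_rat ((s : FF ξ ![x] →+* FF ξ ![x]).comp
          (algebraMap ℚ (FF ξ ![x]))) (algebraMap ℚ (FF ξ ![x]))) r
        exact h3
      rw [h2]
      exact (AA ξ).algebraMap_mem r
    | add u v hu hv h1 h2 =>
      intro hz'
      have hu' : u ∈ FF ξ ![x] := AA_le ξ ![x] hu
      have hv' : v ∈ FF ξ ![x] := AA_le ξ ![x] hv
      have h3 : (⟨u + v, hz'⟩ : FF ξ ![x]) = ⟨u, hu'⟩ + ⟨v, hv'⟩ := rfl
      rw [h3, map_add]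
      exact add_mem (h1 hu') (h2 hv')
    | inv u hu h1 =>
      intro hz'
      have hu' : u ∈ FF ξ ![x] := AA_le ξ ![x] hu
      have h3 : (⟨u⁻¹, hz'⟩ : FF ξ ![x]) = (⟨u, hu'⟩ : FF ξ ![x])⁻¹ := rfl
      rw [h3, map_inv₀]
      exact inv_mem (h1 hu')
    | mul u v hu hv h1 h2 =>
      intro hz'
      have hu' : u ∈ FF ξ ![x] := AA_le ξ ![x] hu
      have hv' : v ∈ FF ξ ![x] := AA_le ξ ![x] hv
      have h3 : (⟨u * v, hz'⟩ : FF ξ ![x]) = ⟨u, hu'⟩ * ⟨v, hv'⟩ := rfl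
      rw [h3, map_mul]
      exact mul_mem (h1 hu') (h2 hv')
  exact key y hy y.2

private theorem ga_main (h : DatG b m n ξ x) (q : ℕ) (hq : q.Prime) (hq2 : 3 ≤ q) (hqn : q ∣ n) :
    ∃ s : FF ξ ![x] ≃+* FF ξ ![x], (∀ y : FF ξ ![x], s y = y ↔ (y : Ω) ∈ FF (ξ ^ q) ![x]) ∧
      (∀ j k : ℕ, 1 ≤ j → j + 1 < q → ∃ i a : ℕ, n ∣ i * q ^ a ∧
        (s ^ j : FF ξ ![x] ≃+* FF ξ ![x]) (ξF ξ ![x] ^ i) =
          (ξF ξ ![x] ^ (n / q)) ^ k * ξF ξ ![x] ^ i) ∧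
      (q ∣ n / q → ∀ j : ℕ, 1 ≤ j → j + 1 < q → ∀ y : FF ξ ![x],
        (s ^ j : FF ξ ![x] ≃+* FF ξ ![x]) y = y → s y = y) := by
  have hle : FF (ξ ^ q) ![x] ≤ FF ξ ![x] := FF_mono ξ (ξ ^ q) ![x] (pow_mem (mem_FF_ξ ξ ![x]) q)
  let alg : Algebra (FF (ξ ^ q) ![x]) (FF ξ ![x]) :=
    (IntermediateField.inclusion hle).toRingHom.toAlgebra
  have tow : IsScalarTower (FF (ξ ^ q) ![x]) (FF ξ ![x]) Ω := IsScalarTower.of_algebraMap_eq' rfl
  have tow2 : IsScalarTower ℚ (FF (ξ ^ q) ![x]) (FF ξ ![x]) :=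
    IsScalarTower.of_algebraMap_eq' (RingHom.ext_rat _ _)
  have hnF : NumberField (FF ξ ![x]) := h.nf_F
  have hnF0 : NumberField (FF (ξ ^ q) ![x]) := (h.pow_q q hqn hq.one_le).nf_F
  have htop : Algebra.adjoin (FF (ξ ^ q) ![x]) {ξF ξ ![x]} = ⊤ := by
    have halg : IsIntegral (FF (ξ ^ q) ![x]) ξ := h.integral_ξ.tower_top
    have h1 : ∀ y ∈ FF ξ ![x], y ∈ IntermediateField.adjoin (FF (ξ ^ q) ![x]) {ξ} := by
      intro y hy
      have h2 : IntermediateField.adjoin ℚ ({ξ} ∪ Set.range ![x]) ≤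
          (IntermediateField.adjoin (FF (ξ ^ q) ![x]) {ξ}).restrictScalars ℚ := by
        rw [IntermediateField.adjoin_le_iff]
        rintro z (hz | ⟨i, rfl⟩)
        · rw [Set.mem_singleton_iff] at hz
          rw [hz]
          exact IntermediateField.mem_adjoin_simple_self _ ξ
        · exact (IntermediateField.adjoin (FF (ξ ^ q) ![x]) {ξ}).algebraMap_mem
            ⟨(![x] : Fin 1 → Ω) i, mem_FF (ξ ^ q) ![x] i⟩
      exact h2 hy
    rw [Algebra.eq_top_iff]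
    intro y
    have h3 := h1 y y.2
    rw [← IntermediateField.mem_toSubalgebra,
      IntermediateField.adjoin_simple_toSubalgebra_of_isAlgebraic halg.isAlgebraic] at h3
    have h4 : (Algebra.adjoin (FF (ξ ^ q) ![x]) {ξF ξ ![x]}).map
        (IsScalarTower.toAlgHom (FF (ξ ^ q) ![x]) (FF ξ ![x]) Ω) =
        Algebra.adjoin (FF (ξ ^ q) ![x]) {ξ} := by
      rw [AlgHom.map_adjoin, Set.image_singleton]
      rfl
    rw [← h4] at h3
    obtain ⟨z, hz, hzy⟩ := h3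
    have h5 : z = y := Subtype.ext hzy
    rw [← h5]
    exact hz
  have hξF : IsPrimitiveRoot (ξF ξ ![x]) n :=
    IsPrimitiveRoot.of_map_of_injective (f := (FF ξ ![x]).val) h.prim (FF ξ ![x]).val.injective
  have hfr : ¬ q ∣ n / q → Module.finrank (FF (ξ ^ q) ![x]) (FF ξ ![x]) = q - 1 := by
    intro hA
    have h1 := (ga_tot h q hq hqn).2 hA
    rw [← Module.finrank_mul_finrank ℚ (FF (ξ ^ q) ![x]) (FF ξ ![x]), mul_comm] at h1
    exact Nat.eq_of_mul_eq_mul_right (ga_pos (h.pow_q q hqn hq.one_le)) h1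
  obtain ⟨s, hs, hk, hl⟩ := ga_abs h.hn hξF hq hqn
    (a := (⟨ξ ^ q, mem_FF_ξ _ ![x]⟩ : FF (ξ ^ q) ![x])) (Subtype.ext rfl) htop
    (fun ⟨z, hz⟩ => ga_notmem h q hq hq2 hqn (by
      have h1 : (z : Ω) = ξ := congrArg Subtype.val hz
      have h2 := z.2
      rwa [h1] at h2)) hfr
  refine ⟨s.toRingEquiv, fun y => (hs y).trans ⟨fun ⟨z, hz⟩ => by
    rw [← hz]
    exact z.2, fun hy => ⟨⟨y, hy⟩, rfl⟩⟩, ?_, ?_⟩
  · intro j k hj1 hj2
    obtain ⟨i, a, h1, h2⟩ := hk j k hj1 hj2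
    exact ⟨i, a, h1, by rw [ga_ring]; exact h2⟩
  · intro hA j hj1 hj2 y hy
    rw [ga_ring] at hy
    exact hl hA j hj1 hj2 y hy

/-- The properties of the generator `s` of the Galois group of `ℚ(ξ, x)` over `ℚ(ξ^q, x)`. -/
structure IsGen (n q : ℕ) (ξ x : Ω) (s : FF ξ ![x] ≃+* FF ξ ![x]) : Prop where
  fx : ∀ i, s (xF ξ ![x] i) = xF ξ ![x] i
  fq : s (ξF ξ ![x] ^ q) = ξF ξ ![x] ^ q
  fixed : ∀ y : FF ξ ![x], s y = y ↔ (y : Ω) ∈ FF (ξ ^ q) ![x]
  coh : ∀ j k : ℕ, 1 ≤ j → j + 1 < q → ∃ i a : ℕ, n ∣ i * q ^ a ∧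
    (s ^ j : FF ξ ![x] ≃+* FF ξ ![x]) (ξF ξ ![x] ^ i) =
      (ξF ξ ![x] ^ (n / q)) ^ k * ξF ξ ![x] ^ i
  sq : q ^ 2 ∣ n → ∀ j : ℕ, 1 ≤ j → j + 1 < q → ∀ y : FF ξ ![x],
    (s ^ j : FF ξ ![x] ≃+* FF ξ ![x]) y = y → s y = y
  fixA : ∀ y : FF ξ ![x], (y : Ω) ∈ AA ξ → s y = y → (y : Ω) ∈ AA (ξ ^ q)
  cross : ∀ q' i a : ℕ, q'.Prime → q' ≠ q → n ∣ i * q' ^ a →
    s (ξF ξ ![x] ^ i) = ξF ξ ![x] ^ i
  mapA : ∀ y : FF ξ ![x], (y : Ω) ∈ AA ξ → ((s y : FF ξ ![x]) : Ω) ∈ AA ξ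

theorem exists_gen (h : DatG b m n ξ x) (q : ℕ) (hq : q.Prime) (hq2 : 3 ≤ q) (hqn : q ∣ n) :
    ∃ s : FF ξ ![x] ≃+* FF ξ ![x], IsGen n q ξ x s := by
  obtain ⟨s, h1, h2, h3⟩ := ga_main h q hq hq2 hqn
  have hfq : s (ξF ξ ![x] ^ q) = ξF ξ ![x] ^ q := (h1 _).2 (mem_FF_ξ (ξ ^ q) ![x])
  refine ⟨s, fun i => (h1 _).2 (mem_FF (ξ ^ q) ![x] i), hfq, h1, h2, ?_, ?_, ?_, ?_⟩
  · intro hn2
    refine h3 ?_
    obtain ⟨c, hc⟩ := hn2
    refine ⟨c, ?_⟩
    rw [hc, pow_two, mul_assoc]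
    exact Nat.mul_div_cancel_left _ hq.pos
  · intro y hyA hy
    exact ga_int h q y hyA ((h1 y).1 hy)
  · intro q' i a hq' hne hd
    have h4 : q ∣ i * q' ^ a := hqn.trans hd
    have h5 : q ∣ i := by
      rcases (Nat.Prime.dvd_mul hq).1 h4 with h6 | h6
      · exact h6
      · exact absurd ((Nat.prime_dvd_prime_iff_eq hq hq').1 (hq.dvd_of_dvd_pow h6)).symm hne
    obtain ⟨c, rfl⟩ := h5
    rw [pow_mul, map_pow, hfq]
  · intro y hy
    refine ga_mapA s ?_ y hy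
    have hξF : IsPrimitiveRoot (ξF ξ ![x]) n :=
      IsPrimitiveRoot.of_map_of_injective (f := (FF ξ ![x]).val) h.prim (FF ξ ![x]).val.injective
    have hn0 : NeZero n := ⟨by have := h.hn; omega⟩
    have h4 : (s (ξF ξ ![x])) ^ n = 1 := by rw [← map_pow, hξF.pow_eq_one, map_one]
    obtain ⟨t, -, ht⟩ := hξF.eq_pow_of_pow_eq_one h4
    rw [← ht]
    exact pow_mem (ξA ξ).2 t

end Pool.Agent.H36.LI
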