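import Pool.Agent.H36.LI.AuA

/-!
# THEOREM L, version 5 (MP_187c26_nt): the field `B` fixed by powers of the generators

`BB ξ x 𝒲 t`: the elements of `AA ξ` fixed by all `t q`, `q ∈ 𝒲` (`t q = (s q)^(j q)`).
`deg_BB`. PROOF. `F := FF ξ ![x]`, `I := ∑ i q`, `w := ξ^I z`. For `q ∈ 𝒲`: `w = ξ^(I - i q) (ξ^(i q) z)` and `ξ^(I - i q) = ∏_(q' ≠ q) ξ^(i q')` is fixed by `s q`, so by `t q` (`IsGen.cross`). So the minimal polynomial `P` of `w` over `F` (the monic multiple of `P_q(ξ^(-(I - i q)) Y)`, `P_q` the one of `ξ^(i q) z`: `scaleRoots`; or: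
`P.map (t q)` is monic irreducible and has the root `w`) is invariant under `t q`: extend `t q` to `τ : Ω → Ω`; `τ (ξ^(i q) z)` is a root of `P_q.map (t q) = P_q`, change `τ` by an automorphism over `F` such that `τ (ξ^(i q) z) = ξ^(i q) z` (see `desc2G` in `Pool/Agent/H36/LF/GqD.lean`), then `τ w = w`.
The coefficients `c` of `P` are fixed by all `t q`. `c = ∑_(i < m) a_i x^i` with unique `a_i ∈ AA ξ` (`[F : AA ξ] = m`, `x^m = b`: `degG`), `t q` fixes `x` and maps `AA ξ` into itself, so `t q a_i = a_i`, `a_i ∈ B := BB ξ x 𝒲 t`, `c ∈ B(x)`. So the degree of `w` over `B(x)` is at most `natDegree P = natDegree (minpoly F z)` (`ξ^I ∈ F`),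
and at least this because `B(x) ≤ F`. `nf_BB`: `B ≤ AA ξ` is finite over `ℚ`.
-/

set_option autoImplicit false

open NumberField IntermediateField

namespace Pool.Agent.H36.LI

open Pool.Agent.H36.LF Pool.Agent.H72.BE

variable {Ω : Type} [Field Ω] [CharZero Ω] {b m n : ℕ} {ξ x : Ω}

/-- The elements of `ℚ(ξ)` fixed by all `t q`, `q ∈ 𝒲`. -/
def BB (ξ x : Ω) (𝒲 : Finset ℕ) (t : ℕ → (FF ξ ![x] ≃+* FF ξ ![x])) : IntermediateField ℚ Ω where
  carrier := {y | y ∈ AA ξ ∧ ∀ q ∈ 𝒲, ∀ y' : FF ξ ![x], (y' : Ω) = y → t q y' = y'}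
  mul_mem' := by
    rintro y w ⟨hy, hy'⟩ ⟨hw, hw'⟩
    refine ⟨mul_mem hy hw, fun q hq v hv => ?_⟩
    have h1 : v = (⟨y, AA_le ξ ![x] hy⟩ : FF ξ ![x]) * ⟨w, AA_le ξ ![x] hw⟩ := Subtype.ext hv
    rw [h1, map_mul, hy' q hq _ rfl, hw' q hq _ rfl]
  add_mem' := by
    rintro y w ⟨hy, hy'⟩ ⟨hw, hw'⟩
    refine ⟨add_mem hy hw, fun q hq v hv => ?_⟩
    have h1 : v = (⟨y, AA_le ξ ![x] hy⟩ : FF ξ ![x]) + ⟨w, AA_le ξ ![x] hw⟩ := Subtype.ext hv
    rw [h1, map_add, hy' q hq _ rfl, hw' q hq _ rfl]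
  algebraMap_mem' := by
    intro r
    refine ⟨(AA ξ).algebraMap_mem r, fun q hq v hv => ?_⟩
    have h1 : v = algebraMap ℚ (FF ξ ![x]) r := Subtype.ext hv
    rw [h1]
    have h2 := congrArg (fun f : ℚ →+* FF ξ ![x] => f r)
      (Subsingleton.elim (((t q : FF ξ ![x] ≃+* FF ξ ![x]) : FF ξ ![x] →+* FF ξ ![x]).comp
        (algebraMap ℚ (FF ξ ![x]))) (algebraMap ℚ (FF ξ ![x])))
    exact h2
  inv_mem' := by
    rintro y ⟨hy, hy'⟩
    refine ⟨inv_mem hy, fun q hq v hv => ?_⟩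
    have h1 : v = (⟨y, AA_le ξ ![x] hy⟩ : FF ξ ![x])⁻¹ := Subtype.ext hv
    rw [h1, map_inv₀, hy' q hq _ rfl]

theorem BB_le (ξ x : Ω) (𝒲 : Finset ℕ) (t : ℕ → (FF ξ ![x] ≃+* FF ξ ![x])) :
    BB ξ x 𝒲 t ≤ AA ξ := fun _ h => h.1

theorem nf_BB (h : DatG b m n ξ x) (𝒲 : Finset ℕ) (t : ℕ → (FF ξ ![x] ≃+* FF ξ ![x])) :
    NumberField (BB ξ x 𝒲 t) := by
  have h1 : FiniteDimensional ℚ (AA ξ) := h.fin_A
  have h2 : FiniteDimensional ℚ (BB ξ x 𝒲 t) :=
    FiniteDimensional.of_injective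
      (IntermediateField.inclusion (BB_le ξ x 𝒲 t)).toLinearMap
      (IntermediateField.inclusion (BB_le ξ x 𝒲 t)).injective
  exact {}

private theorem bb_hom {F Ω M : Type} [Field F] [Field Ω] [Field M] [Algebra F Ω]
    [Algebra.IsAlgebraic F Ω] [IsAlgClosed M] (f : F →+* M) :
    ∃ σ : Ω →+* M, ∀ y, σ (algebraMap F Ω y) = f y := by
  let _ : Algebra F M := f.toAlgebra
  exact ⟨(IsAlgClosed.lift : Ω →ₐ[F] M), fun y => (IsAlgClosed.lift : Ω →ₐ[F] M).commutes y⟩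

private theorem bb_aeval {F Ω : Type} [Field F] [Field Ω] [Algebra F Ω] (s : F ≃+* F)
    (σ : Ω →+* Ω) (hσ : ∀ y, σ (algebraMap F Ω y) = algebraMap F Ω (s y))
    (f : Polynomial F) (α : Ω) (hf : Polynomial.aeval α f = 0) :
    Polynomial.aeval (σ α) (f.map (s : F →+* F)) = 0 := by
  rw [Polynomial.aeval_def, Polynomial.eval₂_map]
  have h1 : (algebraMap F Ω).comp (s : F →+* F) = σ.comp (algebraMap F Ω) := by
    ext y
    exact (hσ y).symm
  rw [h1, ← Polynomial.hom_eval₂, ← Polynomial.aeval_def, hf, map_zero]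

/-- the degree over a field which contains the coefficients of the minimal polynomial -/
private theorem bb_lift {K L Ω : Type} [Field K] [Field L] [Field Ω] [Algebra K Ω] [Algebra L Ω]
    (w : Ω) (hw : IsIntegral K w)
    (hc : ∀ k, algebraMap K Ω ((minpoly K w).coeff k) ∈ Set.range (algebraMap L Ω)) :
    (minpoly L w).natDegree ≤ (minpoly K w).natDegree := by
  have hfmon := minpoly.monic hw
  have hlift : (minpoly K w).map (algebraMap K Ω) ∈ Polynomial.lifts (algebraMap L Ω) := by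
    rw [Polynomial.lifts_iff_coeff_lifts]
    intro k
    rw [Polynomial.coeff_map]
    exact hc k
  obtain ⟨g, hg1, hg2, hg3⟩ := Polynomial.lifts_and_natDegree_eq_and_monic hlift (hfmon.map _)
  have h1 : Polynomial.aeval w g = 0 := by
    rw [Polynomial.aeval_def, ← Polynomial.eval_map, hg1, Polynomial.eval_map,
      ← Polynomial.aeval_def]
    exact minpoly.aeval _ _
  have h2 := Polynomial.natDegree_le_of_dvd (minpoly.dvd _ _ h1) hg3.ne_zero
  rw [hg2, hfmon.natDegree_map] at h2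
  exact h2

/-- multiplication by an element of the field -/
private theorem bb_scale {F Ω : Type} [Field F] [Field Ω] [Algebra F Ω] [Algebra.IsAlgebraic F Ω]
    (z : Ω) (r : F) (hr : r ≠ 0) :
    (minpoly F (algebraMap F Ω r * z)).natDegree = (minpoly F z).natDegree := by
  have key : ∀ (u : F) (y : Ω),
      (minpoly F (algebraMap F Ω u * y)).natDegree ≤ (minpoly F y).natDegree := by
    intro u y
    have hy : IsIntegral F y := Algebra.IsIntegral.isIntegral y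
    have h1 : Polynomial.aeval (algebraMap F Ω u * y) ((minpoly F y).scaleRoots u) = 0 :=
      Polynomial.scaleRoots_aeval_eq_zero (minpoly.aeval _ _)
    have h3 : (minpoly F y).scaleRoots u ≠ 0 :=
      ((Polynomial.monic_scaleRoots_iff u).2 (minpoly.monic hy)).ne_zero
    have h4 := Polynomial.natDegree_le_of_dvd (minpoly.dvd _ _ h1) h3
    rwa [Polynomial.natDegree_scaleRoots] at h4
  refine le_antisymm (key r z) ?_
  have h1 := key r⁻¹ (algebraMap F Ω r * z)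
  rwa [← mul_assoc, ← map_mul, inv_mul_cancel₀ hr, map_one, one_mul] at h1

/-- the automorphism fixes the minimal polynomial of a multiple of `r` by a fixed element -/
private theorem bb_inv {F Ω : Type} [Field F] [Field Ω] [Algebra F Ω] [Algebra.IsAlgebraic F Ω]
    [IsAlgClosed Ω] (τ : F ≃+* F) (r : Ω) (u : F) (hu : τ u = u)
    (hr : (minpoly F r).map (τ : F →+* F) = minpoly F r) :
    (minpoly F (algebraMap F Ω u * r)).map (τ : F →+* F) = minpoly F (algebraMap F Ω u * r) := by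
  have hrF : IsIntegral F r := Algebra.IsIntegral.isIntegral r
  obtain ⟨σ, hσ⟩ := bb_hom (F := F) (Ω := Ω) (M := Ω) ((algebraMap F Ω).comp (τ : F →+* F))
  have hσ' : ∀ y, σ (algebraMap F Ω y) = algebraMap F Ω (τ y) := hσ
  have hβ := bb_aeval τ σ hσ' (minpoly F r) r (minpoly.aeval _ _)
  rw [hr] at hβ
  have hmin : minpoly F (σ r) = minpoly F r :=
    (minpoly.eq_of_irreducible_of_monic (minpoly.irreducible hrF) hβ (minpoly.monic hrF)).symm
  have hnorm : Normal F Ω := by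
    have : IsAlgClosure F Ω := ⟨inferInstance, inferInstance⟩
    exact IsAlgClosure.normal F Ω
  obtain ⟨ρ', hρ'⟩ := isConjRoot_iff_exists_algEquiv.1 hmin
  obtain ⟨ρ, hρ⟩ : ∃ ρ : Ω ≃ₐ[F] Ω, ρ (σ r) = r :=
    ⟨ρ'.symm, by rw [← hρ', AlgEquiv.symm_apply_apply]⟩
  set ω : Ω →+* Ω := (ρ : Ω →+* Ω).comp σ with hω
  have hωF : ∀ y, ω (algebraMap F Ω y) = algebraMap F Ω (τ y) := by
    intro y
    show ρ (σ (algebraMap F Ω y)) = _
    rw [hσ', AlgEquiv.commutes]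
  have hωw : ω (algebraMap F Ω u * r) = algebraMap F Ω u * r := by
    rw [map_mul, hωF, hu]
    congr 1
  have hwF : IsIntegral F (algebraMap F Ω u * r) := Algebra.IsIntegral.isIntegral _
  have hfmon := minpoly.monic hwF
  have h1 := bb_aeval τ ω hωF _ _ (minpoly.aeval F (algebraMap F Ω u * r))
  rw [hωw] at h1
  exact Polynomial.eq_of_monic_of_dvd_of_natDegree_le hfmon (hfmon.map _) (minpoly.dvd _ _ h1)
    (hfmon.natDegree_map _).le

private theorem bb_top (h : DatG b m n ξ x) : Algebra.adjoin (AA ξ) {xF ξ ![x] 0} = ⊤ := by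
  have halg : IsIntegral (AA ξ) x := h.integral_x.tower_top
  have h1 : ∀ y ∈ FF ξ ![x], y ∈ IntermediateField.adjoin (AA ξ) {x} := by
    intro y hy
    have h2 : IntermediateField.adjoin ℚ ({ξ} ∪ Set.range ![x]) ≤
        (IntermediateField.adjoin (AA ξ) {x}).restrictScalars ℚ := by
      rw [IntermediateField.adjoin_le_iff]
      rintro z (hz | ⟨i, rfl⟩)
      · rw [Set.mem_singleton_iff] at hz
        rw [hz]
        exact (IntermediateField.adjoin (AA ξ) {x}).algebraMap_mem (ξA ξ)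
      · rw [Subsingleton.elim i 0]
        exact IntermediateField.mem_adjoin_simple_self _ x
    exact h2 hy
  rw [Algebra.eq_top_iff]
  intro y
  have h3 := h1 y y.2
  rw [← IntermediateField.mem_toSubalgebra,
    IntermediateField.adjoin_simple_toSubalgebra_of_isAlgebraic halg.isAlgebraic] at h3
  have h4 : (Algebra.adjoin (AA ξ) {xF ξ ![x] 0}).map
      (IsScalarTower.toAlgHom (AA ξ) (FF ξ ![x]) Ω) =
      Algebra.adjoin (AA ξ) {x} := by
    rw [AlgHom.map_adjoin, Set.image_singleton]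
    rfl
  rw [← h4] at h3
  obtain ⟨z, hz, hzy⟩ := h3
  have h5 : z = y := Subtype.ext hzy
  rw [← h5]
  exact hz

/-- an element fixed by all `t q` is in `B(x)` -/
private theorem bb_mem (h : DatG b m n ξ x) (𝒲 : Finset ℕ)
    (t : ℕ → (FF ξ ![x] ≃+* FF ξ ![x])) (hx : ∀ q ∈ 𝒲, t q (xF ξ ![x] 0) = xF ξ ![x] 0)
    (hA : ∀ q ∈ 𝒲, ∀ y : FF ξ ![x], (y : Ω) ∈ AA ξ → ((t q y : FF ξ ![x]) : Ω) ∈ AA ξ)
    (c : FF ξ ![x]) (hc : ∀ q ∈ 𝒲, t q c = c) :
    (c : Ω) ∈ IntermediateField.adjoin (BB ξ x 𝒲 t) ({x} : Set Ω) := by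
  have hxF : IsIntegral (AA ξ) (xF ξ ![x] 0) :=
    (isIntegral_algebraMap_iff (algebraMap (FF ξ ![x]) Ω).injective).1
      (h.integral_x.tower_top : IsIntegral (AA ξ) x)
  obtain ⟨pb, hpb⟩ : ∃ pb : PowerBasis (AA ξ) (FF ξ ![x]), pb.gen = xF ξ ![x] 0 :=
    ⟨PowerBasis.ofAdjoinEqTop hxF (bb_top h), PowerBasis.ofAdjoinEqTop_gen hxF (bb_top h)⟩
  have hsum : ∑ i, pb.basis.repr c i • pb.basis i = c := pb.basis.sum_repr c
  -- the coefficients are in `B`
  have hB : ∀ i, ((pb.basis.repr c i : AA ξ) : Ω) ∈ BB ξ x 𝒲 t := by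
    intro i
    refine ⟨(pb.basis.repr c i).2, fun q hq y' hy' => ?_⟩
    have hcoe : ∀ a : AA ξ, ∃ a' : AA ξ,
        t q (algebraMap (AA ξ) (FF ξ ![x]) a) = algebraMap (AA ξ) (FF ξ ![x]) a' :=
      fun a => ⟨⟨_, hA q hq (algebraMap (AA ξ) (FF ξ ![x]) a) a.2⟩, rfl⟩
    choose f hf using hcoe
    have h1 : t q c = ∑ i, f (pb.basis.repr c i) • pb.basis i := by
      conv_lhs => rw [← hsum]
      rw [map_sum]
      refine Finset.sum_congr rfl fun k _ => ?_
      rw [Algebra.smul_def, Algebra.smul_def, map_mul, hf, PowerBasis.basis_eq_pow, hpb, map_pow,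
        hx q hq]
    rw [hc q hq] at h1
    have h2 : pb.basis.repr c i = f (pb.basis.repr c i) := by
      conv_lhs => rw [h1]
      rw [pb.basis.repr_sum_self]
    have h3 : y' = algebraMap (AA ξ) (FF ξ ![x]) (pb.basis.repr c i) := Subtype.ext hy'
    rw [h3, hf, ← h2]
  have h1 : (c : Ω) = ∑ i, ((pb.basis.repr c i : AA ξ) : Ω) * x ^ (i : ℕ) := by
    conv_lhs => rw [← hsum]
    rw [← IntermediateField.coe_val, map_sum]
    refine Finset.sum_congr rfl fun k _ => ?_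
    rw [Algebra.smul_def, map_mul, PowerBasis.basis_eq_pow, hpb, map_pow]
    rfl
  rw [h1]
  refine sum_mem fun i _ => mul_mem ?_ (pow_mem (IntermediateField.mem_adjoin_simple_self _ x) _)
  exact (IntermediateField.adjoin (BB ξ x 𝒲 t) ({x} : Set Ω)).algebraMap_mem ⟨_, hB i⟩

theorem deg_BB [Algebra.IsAlgebraic ℚ Ω] [IsAlgClosed Ω] (h : DatG b m n ξ x) (z : Ω)
    (hz : z ≠ 0) (𝒲 : Finset ℕ) (h𝒲 : ∀ q ∈ 𝒲, q.Prime)
    (s : ℕ → (FF ξ ![x] ≃+* FF ξ ![x])) (hs : ∀ q ∈ 𝒲, IsGen n q ξ x (s q)) (j i a : ℕ → ℕ)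
    (hi : ∀ q ∈ 𝒲, n ∣ i q * q ^ a q)
    (hP : ∀ q ∈ 𝒲, (minpoly (FF ξ ![x]) (ξ ^ i q * z)).map
      ((s q ^ j q : FF ξ ![x] ≃+* FF ξ ![x]) : FF ξ ![x] →+* FF ξ ![x]) =
        minpoly (FF ξ ![x]) (ξ ^ i q * z)) :
    (minpoly (IntermediateField.adjoin (BB ξ x 𝒲 fun q => s q ^ j q) ({x} : Set Ω))
      (ξ ^ (∑ q ∈ 𝒲, i q) * z)).natDegree = (minpoly (FF ξ ![x]) z).natDegree := by
  have halg : Algebra.IsAlgebraic (FF ξ ![x]) Ω :=
    Algebra.IsAlgebraic.tower_top (K := ℚ) (FF ξ ![x])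
  have hξ0 : ξ ≠ 0 := h.prim.ne_zero (by have := h.hn; omega)
  have hξF0 : ξF ξ ![x] ≠ 0 := fun h0 => hξ0 (congrArg Subtype.val h0)
  set w : Ω := ξ ^ (∑ q ∈ 𝒲, i q) * z with hw
  have hw1 : w = algebraMap (FF ξ ![x]) Ω (ξF ξ ![x] ^ (∑ q ∈ 𝒲, i q)) * z := rfl
  have hdeg : (minpoly (FF ξ ![x]) w).natDegree = (minpoly (FF ξ ![x]) z).natDegree := by
    rw [hw1]
    exact bb_scale z _ (pow_ne_zero _ hξF0)
  -- the iterates of the generators
  have hfix : ∀ q ∈ 𝒲, ∀ (k : ℕ) (y : FF ξ ![x]), s q y = y →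
      (s q ^ k : FF ξ ![x] ≃+* FF ξ ![x]) y = y := by
    intro q _ k y hy
    induction k with
    | zero => rfl
    | succ k ih =>
      rw [pow_succ]
      show (s q ^ k : FF ξ ![x] ≃+* FF ξ ![x]) (s q y) = y
      rw [hy, ih]
  have hmapA : ∀ q ∈ 𝒲, ∀ (k : ℕ) (y : FF ξ ![x]), (y : Ω) ∈ AA ξ →
      (((s q ^ k : FF ξ ![x] ≃+* FF ξ ![x]) y : FF ξ ![x]) : Ω) ∈ AA ξ := by
    intro q hq k
    induction k with
    | zero => exact fun y hy => hy
    | succ k ih =>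
      intro y hy
      rw [pow_succ]
      exact ih _ ((hs q hq).mapA y hy)
  -- the minimal polynomial is fixed
  have hfixP : ∀ q ∈ 𝒲, (minpoly (FF ξ ![x]) w).map
      ((s q ^ j q : FF ξ ![x] ≃+* FF ξ ![x]) : FF ξ ![x] →+* FF ξ ![x]) =
        minpoly (FF ξ ![x]) w := by
    intro q hq
    have h1 : w = algebraMap (FF ξ ![x]) Ω (ξF ξ ![x] ^ (∑ q' ∈ 𝒲.erase q, i q')) *
        (ξ ^ i q * z) := by
      have h2 : algebraMap (FF ξ ![x]) Ω (ξF ξ ![x] ^ (∑ q' ∈ 𝒲.erase q, i q')) =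
          ξ ^ (∑ q' ∈ 𝒲.erase q, i q') := rfl
      rw [h2, hw, ← Finset.add_sum_erase 𝒲 i hq, pow_add]
      ring
    rw [h1]
    refine bb_inv _ _ _ (hfix q hq _ _ ?_) (hP q hq)
    rw [← Finset.prod_pow_eq_pow_sum, map_prod]
    refine Finset.prod_congr rfl fun q' hq' => ?_
    exact (hs q hq).cross q' (i q') (a q') (h𝒲 q' (Finset.mem_of_mem_erase hq'))
      (Finset.ne_of_mem_erase hq') (hi q' (Finset.mem_of_mem_erase hq'))
  have hcoef : ∀ k, ((minpoly (FF ξ ![x]) w).coeff k : Ω) ∈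
      IntermediateField.adjoin (BB ξ x 𝒲 fun q => s q ^ j q) ({x} : Set Ω) := by
    intro k
    refine bb_mem h 𝒲 _ (fun q hq => hfix q hq _ _ ((hs q hq).fx 0))
      (fun q hq => hmapA q hq _) _ fun q hq => ?_
    have h1 := congrArg (fun p => Polynomial.coeff p k) (hfixP q hq)
    rw [Polynomial.coeff_map] at h1
    exact h1
  have hwQ : IsIntegral ℚ w := Algebra.IsIntegral.isIntegral w
  have halgB : Algebra.IsAlgebraic (BB ξ x 𝒲 fun q => s q ^ j q) Ω :=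
    Algebra.IsAlgebraic.tower_top (K := ℚ) _
  have halgBx : Algebra.IsAlgebraic
      (IntermediateField.adjoin (BB ξ x 𝒲 fun q => s q ^ j q) ({x} : Set Ω)) Ω :=
    Algebra.IsAlgebraic.tower_top (K := BB ξ x 𝒲 fun q => s q ^ j q) _
  have hBx : ∀ y ∈ IntermediateField.adjoin (BB ξ x 𝒲 fun q => s q ^ j q) ({x} : Set Ω),
      y ∈ FF ξ ![x] := by
    intro y hy
    have h2 : IntermediateField.adjoin (BB ξ x 𝒲 fun q => s q ^ j q) ({x} : Set Ω) ≤
        IntermediateField.extendScalars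
          ((BB_le ξ x 𝒲 fun q => s q ^ j q).trans (AA_le ξ ![x])) := by
      rw [IntermediateField.adjoin_le_iff, Set.singleton_subset_iff]
      exact mem_FF ξ ![x] 0
    exact h2 hy
  rw [← hdeg]
  refine le_antisymm ?_ ?_
  · refine bb_lift w (Algebra.IsIntegral.isIntegral w) fun k => ?_
    exact ⟨⟨_, hcoef k⟩, rfl⟩
  · refine bb_lift w (Algebra.IsIntegral.isIntegral w) fun k => ?_
    exact ⟨⟨_, hBx _ (SetLike.coe_mem _)⟩, rfl⟩

end Pool.Agent.H36.LI
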