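import Pool.Agent.H36.LI.BfA
import Pool.Agent.H36.LI.Df
import Pool.Agent.H72.BE.Fro

/-!
# THEOREM L, version 5 (MP_187c26_nt): Frobenius lifts on `B`

`A := AA ξ`, `𝓞 A = ℤ[ξ]` (`IsCyclotomicExtension.Rat.isIntegralClosure_adjoin_singleton`, see `Pool/Agent/H72/BE/Fro.lean`), for every `c` prime to `n` there is `σ_c : A →+* A` with `σ_c ξ = ξ^c` (the cyclotomic polynomial is irreducible; see `frob_cyc` there). `t q` maps `A` into itself (`IsGen.mapA`) and `t q ξ = ξ^(c')`, so `t q` and `σ_c` commute on `A` (both are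
determined by the image of `ξ`), and `σ_c` maps `B := BB ξ x 𝒲 t` into itself. Elements of `B` which are integral and divisible by `q` in the integers of `A` are divisible by `q` in the integers of `B` (`w := y / q ∈ B`).
`frob_B1` (`q ∤ n`): the Frobenius lift `σ` of `frob_cyc` (`Frob (AA ξ) q σ`, `σ ξ = ξ^q`), restricted to `B`: exponent `e = 1`.
`frob_B2` (`q ∈ 𝒲`, `q ∣ n`, `q^2 ∤ n`): `σ := σ_c` with `c ≡ q` mod `n/q`, `c ≡ 1` mod `q` (`c` is prime to `n`). (i) `(σ y - y^q)^q ∈ q 𝓞 A` for `y ∈ 𝓞 A`: `ξ = ξ₁ ξ₂`, `ξ₁` of order `n/q`, `ξ₂` of order `q`; `y = ∑ c_k ξ^k`, `y^q ≡ ∑ c_k ξ₁^(kq)`, `σ y = ∑ c_k ξ₁^(kq) ξ₂^k`, so `(σ y)^q ≡ ∑ c_k ξ₁^(k q^2) ≡ (y^q)^q` mod `q`, and `(u - v)^q ≡ u^q - v^q`.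
(ii) Let `w ∈ B` be integral with `w^q ∈ q 𝓞 A`. `s := s q`, `j := j q`, `s^j w = w`. `Π := ∏_(k < j) (X - s^k w) = X^j + c_1 X^(j-1) + … + c_j`; `s` permutes the factors cyclically, so `s c_k = c_k`, `c_k ∈ AA (ξ^q)` (`IsGen.fixA`). Every `c_k` is a sum of products of elements `s^k w` whose `q`-th powers are in `q 𝓞`: `c_k^(q N) ∈ q 𝓞 A` for some `N`
(nilpotent in the ring `𝓞 A / q`: sums and products of nilpotent elements; `IsNilpotent`). (iii) `c ∈ AA (ξ^q)` integral and nilpotent modulo `q` implies `c ∈ q 𝓞`: the Frobenius lift `φ` on `AA (ξ^q)` (`frob_cyc`, `q ∤ n/q`): `c^(q^k) ≡ φ^k(c)` mod `q` in the integers of `AA (ξ^q)`, for large `k` the left side is `0` modulo `q`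
(in `𝓞 A`, hence in the integers of `AA (ξ^q)`), `φ` is bijective on the integers, so `c ∈ q 𝓞`. (iv) `w^j = - ∑ c_k w^(j-k) ∈ q 𝓞 A`. With `w := σ y - y^q ∈ B`: exponent `e = j`.
-/

set_option autoImplicit false

open NumberField IntermediateField

namespace Pool.Agent.H36.LI

open Pool.Agent.H36.LF Pool.Agent.H72.BE

variable {Ω : Type} [Field Ω] [CharZero Ω] {b m n : ℕ} {ξ x : Ω}

private theorem bfb_adj_aux (ξ : Ω) (i : Algebra ℚ (AA ξ)) :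
    @IntermediateField.adjoin ℚ _ (AA ξ) _ i {ξA ξ} = ⊤ := by
  have h : i = (AA ξ).algebra' := Subsingleton.elim _ _
  subst h
  exact adjoin_ξA ξ

/-- powers of `s` map `ℚ(ξ)` into itself -/
private theorem bfb_pow {s : FF ξ ![x] ≃+* FF ξ ![x]}
    (hs : ∀ y : FF ξ ![x], (y : Ω) ∈ AA ξ → ((s y : FF ξ ![x]) : Ω) ∈ AA ξ) (j : ℕ) :
    ∀ y : FF ξ ![x], (y : Ω) ∈ AA ξ →
      (((s ^ j : FF ξ ![x] ≃+* FF ξ ![x]) y : FF ξ ![x]) : Ω) ∈ AA ξ := by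
  induction j with
  | zero =>
    intro y hy
    rw [pow_zero]
    exact hy
  | succ j ih =>
    intro y hy
    rw [pow_succ]
    exact ih (s y) (hs y hy)

/-- the restriction of a homomorphism to a subfield -/
private def bfb_res {K L : IntermediateField ℚ Ω} (hle : K ≤ L) (f : L →+* L)
    (hf : ∀ y : L, (y : Ω) ∈ K → ((f y : L) : Ω) ∈ K) : K →+* K where
  toFun a := ⟨((f ⟨(a : Ω), hle a.2⟩ : L) : Ω), hf _ a.2⟩
  map_one' := by
    have h1 : (⟨((1 : K) : Ω), hle (1 : K).2⟩ : L) = 1 := Subtype.ext rfl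
    refine Subtype.ext ?_
    change ((f (⟨((1 : K) : Ω), hle (1 : K).2⟩ : L) : L) : Ω) = 1
    rw [h1, map_one]
    rfl
  map_zero' := by
    have h1 : (⟨((0 : K) : Ω), hle (0 : K).2⟩ : L) = 0 := Subtype.ext rfl
    refine Subtype.ext ?_
    change ((f (⟨((0 : K) : Ω), hle (0 : K).2⟩ : L) : L) : Ω) = 0
    rw [h1, map_zero]
    rfl
  map_mul' a c := by
    have h1 : (⟨((a * c : K) : Ω), hle (a * c : K).2⟩ : L) =
        ⟨(a : Ω), hle a.2⟩ * ⟨(c : Ω), hle c.2⟩ := Subtype.ext rfl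
    refine Subtype.ext ?_
    change ((f (⟨((a * c : K) : Ω), hle (a * c : K).2⟩ : L) : L) : Ω) =
      ((f ⟨(a : Ω), hle a.2⟩ : L) : Ω) * ((f ⟨(c : Ω), hle c.2⟩ : L) : Ω)
    rw [h1, map_mul]
    rfl
  map_add' a c := by
    have h1 : (⟨((a + c : K) : Ω), hle (a + c : K).2⟩ : L) =
        ⟨(a : Ω), hle a.2⟩ + ⟨(c : Ω), hle c.2⟩ := Subtype.ext rfl
    refine Subtype.ext ?_
    change ((f (⟨((a + c : K) : Ω), hle (a + c : K).2⟩ : L) : L) : Ω) =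
      ((f ⟨(a : Ω), hle a.2⟩ : L) : Ω) + ((f ⟨(c : Ω), hle c.2⟩ : L) : Ω)
    rw [h1, map_add]
    rfl

private theorem bfb_res_coe {K L : IntermediateField ℚ Ω} (hle : K ≤ L) (f : L →+* L)
    (hf : ∀ y : L, (y : Ω) ∈ K → ((f y : L) : Ω) ∈ K) (a : K) :
    ((bfb_res hle f hf a : K) : Ω) = ((f ⟨(a : Ω), hle a.2⟩ : L) : Ω) := rfl

private theorem bfb_ext {f g : AA ξ →+* AA ξ} (h : f (ξA ξ) = g (ξA ξ)) (a : AA ξ) :
    f a = g a := by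
  obtain ⟨a, ha⟩ := a
  refine IntermediateField.adjoin_induction ℚ
    (p := fun y _ => ∀ hy : y ∈ AA ξ, f (⟨y, hy⟩ : AA ξ) = g (⟨y, hy⟩ : AA ξ)) ?_ ?_ ?_ ?_ ?_ ha ha
  · intro y hy hy'
    rw [Set.mem_singleton_iff] at hy
    subst hy
    exact h
  · intro r hr
    have h1 : (⟨algebraMap ℚ Ω r, hr⟩ : AA ξ) = algebraMap ℚ (AA ξ) r := Subtype.ext rfl
    rw [h1, RingHom.map_rat_algebraMap, RingHom.map_rat_algebraMap]
  · intro y z hy hz h1 h2 hyz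
    have h3 : (⟨y + z, hyz⟩ : AA ξ) = (⟨y, hy⟩ : AA ξ) + (⟨z, hz⟩ : AA ξ) := Subtype.ext rfl
    have h4 := h1 hy
    have h5 := h2 hz
    rw [h3, map_add, map_add]
    exact congrArg₂ (fun u v : AA ξ => u + v) h4 h5
  · intro y hy h1 hy'
    have h3 : (⟨y⁻¹, hy'⟩ : AA ξ) = (⟨y, hy⟩ : AA ξ)⁻¹ := Subtype.ext rfl
    have h4 := h1 hy
    rw [h3, map_inv₀, map_inv₀]
    exact congrArg (fun u : AA ξ => u⁻¹) h4
  · intro y z hy hz h1 h2 hyz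
    have h3 : (⟨y * z, hyz⟩ : AA ξ) = (⟨y, hy⟩ : AA ξ) * (⟨z, hz⟩ : AA ξ) := Subtype.ext rfl
    have h4 := h1 hy
    have h5 := h2 hz
    rw [h3, map_mul, map_mul]
    exact congrArg₂ (fun u v : AA ξ => u * v) h4 h5

private theorem bfb_comm (hn : 1 ≤ n) (hξ : IsPrimitiveRoot (ξA ξ) n) (σ τ : AA ξ →+* AA ξ)
    (a : AA ξ) : σ (τ a) = τ (σ a) := by
  have hn0 : NeZero n := ⟨by omega⟩
  have key : ∀ f : AA ξ →+* AA ξ, ∃ c : ℕ, f (ξA ξ) = ξA ξ ^ c := by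
    intro f
    have h1 : f (ξA ξ) ^ n = 1 := by
      rw [← map_pow, hξ.pow_eq_one, map_one]
    obtain ⟨c, _, hc⟩ := hξ.eq_pow_of_pow_eq_one h1
    exact ⟨c, hc.symm⟩
  obtain ⟨c, hc⟩ := key σ
  obtain ⟨d, hd⟩ := key τ
  refine bfb_ext (f := σ.comp τ) (g := τ.comp σ) ?_ a
  rw [RingHom.comp_apply, RingHom.comp_apply, hc, hd, map_pow, map_pow, hc, hd, ← pow_mul,
    ← pow_mul, mul_comm]

/-- a Frobenius lift preserving a subfield restricts to a Frobenius lift -/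
private theorem bfb_frob {K L : IntermediateField ℚ Ω} [NumberField L] (hle : K ≤ L) {q : ℕ}
    (hq : q ≠ 0) (σ : L →+* L) (hσ : Frob L q σ)
    (hf : ∀ y : L, (y : Ω) ∈ K → ((σ y : L) : Ω) ∈ K) : FrobE K q 1 (bfb_res hle σ hf) := by
  refine ⟨1, le_rfl, le_rfl, fun y hy => ?_⟩
  have hy' : IsIntegral ℤ (⟨(y : Ω), hle y.2⟩ : L) :=
    (isIntegral_algebraMap_iff (algebraMap L Ω).injective).1
      ((isIntegral_algebraMap_iff (algebraMap K Ω).injective).2 hy)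
  obtain ⟨c, hc⟩ := hσ ⟨_, hy'⟩
  have hq0 : (q : Ω) ≠ 0 := Nat.cast_ne_zero.2 hq
  have hc1 : σ (⟨(y : Ω), hle y.2⟩ : L) = (⟨(y : Ω), hle y.2⟩ : L) ^ q + q * (c : L) := hc
  have hc' : ((σ ⟨(y : Ω), hle y.2⟩ : L) : Ω) = (y : Ω) ^ q + q * ((c : L) : Ω) := by
    rw [hc1]
    push_cast
    rfl
  have hmem : ((c : L) : Ω) ∈ K := by
    have h1 : ((c : L) : Ω) = ((((bfb_res hle σ hf y - y ^ q) / (q : K) : K)) : Ω) := by
      push_cast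
      rw [bfb_res_coe, hc', add_sub_cancel_left, mul_div_cancel_left₀ _ hq0]
    rw [h1]
    exact SetLike.coe_mem _
  refine ⟨⟨((c : L) : Ω), hmem⟩, ?_, ?_⟩
  · refine (isIntegral_algebraMap_iff (algebraMap K Ω).injective).1 ?_
    exact (isIntegral_algebraMap_iff (algebraMap L Ω).injective).2 (RingOfIntegers.isIntegral_coe c)
  · rw [pow_one]
    refine Subtype.ext ?_
    push_cast
    rw [bfb_res_coe, hc', add_sub_cancel_left]

theorem frob_B1 (h : DatG b m n ξ x) (𝒲 : Finset ℕ) (s : ℕ → (FF ξ ![x] ≃+* FF ξ ![x]))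
    (hs : ∀ q ∈ 𝒲, IsGen n q ξ x (s q)) (j : ℕ → ℕ) (q : ℕ) (hq : q.Prime) (hqn : ¬ q ∣ n) :
    ∃ σ : BB ξ x 𝒲 (fun q => s q ^ j q) →+* BB ξ x 𝒲 (fun q => s q ^ j q),
      FrobE (BB ξ x 𝒲 fun q => s q ^ j q) q 1 σ := by
  have i1 : NumberField (AA ξ) := h.nf_A
  have hξ : IsPrimitiveRoot (ξA ξ) n :=
    IsPrimitiveRoot.of_map_of_injective (f := (AA ξ).val) h.prim (AA ξ).val.injective
  obtain ⟨σ, hσ, _⟩ := frob_cyc n h.hn (ξA ξ) hξ (bfb_adj_aux ξ _) q hq hqn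
  have hle := BB_le ξ x 𝒲 (fun q => s q ^ j q)
  refine ⟨bfb_res hle σ fun y hy => ⟨(σ y).2, fun q' hq' v hv => ?_⟩,
    bfb_frob hle hq.ne_zero σ hσ _⟩
  let f : FF ξ ![x] →+* FF ξ ![x] :=
    ((s q' ^ j q' : FF ξ ![x] ≃+* FF ξ ![x]) : FF ξ ![x] →+* FF ξ ![x])
  have hf : ∀ y : FF ξ ![x], (y : Ω) ∈ AA ξ → ((f y : FF ξ ![x]) : Ω) ∈ AA ξ :=
    bfb_pow (hs q' hq').mapA (j q')
  have h1 := bfb_comm h.hn hξ σ (bfb_res (AA_le ξ ![x]) f hf) y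
  have h2 : bfb_res (AA_le ξ ![x]) f hf y = y := by
    refine Subtype.ext ?_
    rw [bfb_res_coe]
    exact congrArg Subtype.val (hy.2 q' hq' ⟨(y : Ω), AA_le ξ ![x] y.2⟩ rfl)
  rw [h2] at h1
  have h3 : v = ⟨((σ y : AA ξ) : Ω), AA_le ξ ![x] (σ y).2⟩ := Subtype.ext hv
  rw [h3]
  refine Subtype.ext ?_
  have h4 := congrArg Subtype.val h1
  have h5 := bfb_res_coe (AA_le ξ ![x]) f hf (σ y)
  exact (h4.trans h5).symm

end Pool.Agent.H36.LI
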