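import Pool.Agent.H36.LI.Df
import Pool.Agent.H36.LH.JeA
import Pool.Agent.H36.LF.VdA
import Pool.Agent.H36.LE.NmF

/-!
# THEOREM L, version 5 (MP_187c26_nt): extrapolation with a ramified Frobenius lift

MODEL: `jet_ext` in `Pool/Agent/H36/LH/JeA.lean` and `jet_int` in `Pool/Agent/H36/LH/JiA.lean` (work with the places `v` of `M`, `t : E → M`). Statement: `bzA σ x a n L (g q) c = q^T y` with `y ∈ LK a (g q (L - 1))`, so for every finite place `v` of `M`: `v(t bzA) ≤ v(q)^T max(1, v(t a))^(g q (L - 1))`, where `y := bzA / q^T`.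
PROOF. If the prime `ℓ` below `v` is not `q` then `v(q) = 1` and this is `ev_int0A` (the value is in `LK`). Let `v(q) < 1`, `e ≤ E` the exponent in `FrobE`, `ρ := v(q)^(1/e)` (real power), so `v(q) ≤ ρ`. `jet_dec` (`Pool/Agent/H36/LH/JsB.lean`) for `p := q`, `T := E T`, `i := E T`: `δ^N pg = ∑_(j < E T) tb^j F^(E T - j) H_j + tb^(E T) R`. Let `Φ(P) := P^σ(x^q, a^q)` (ring homomorphism, `aevalAeval` of the polynomial with the coefficients `σ(..)`).
`v(t Φ(P)) ≤ max(1, v(t a))^(q natDegree P)` for `P` with coefficients `PI q` (`x` is integral). `Φ(tb) = b^q - b`, `v ≤ v(q) ≤ ρ` (Fermat). `Φ(F) = ∑ (σ(f_ij) - f_ij^q) x^(qi) a^(qj) + ∑ f_ij^q x^(qi) a^(qj)`; `v(t(σ f - f^q)) ≤ ρ` for `f` with `PI q` (`FrobE`: its power `e` is `≤ v(q)`; for `PI q`: `s f` integral, `q ∤ s`, `s^q ≡ s` mod `q`);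
`∑ f_ij^q x^(qi) a^(qj) = F(x, a)^q + q (..) = q (..)`: `npow` in `Pool/Agent/H36/LF/VdA.lean` gives `v ≤ v(q) max(1, v(t a))^(q natDegree F)`. So `v(t Φ(F)) ≤ ρ max(1, v(t a))^(q natDegree F)` and every term of `δ^N Φ(pg) = δ^N bzA ..` is `≤ ρ^(E T) max(..)^(g q (L - 1)) ≤ v(q)^T max(..)^..` (`ρ^(E T) ≤ ρ^(e T) = v(q)^T`). `v(δ) = 1` as `q ∤ δ`.
-/

set_option autoImplicit false

open Polynomial NumberField IntermediateField
open scoped Polynomial.Bivariate

namespace Pool.Agent.H36.LI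

open Pool.Agent.H36.LE Pool.Agent.H36.LF Pool.Agent.H36.LH

private theorem com {q : ℕ} (hq : q.Prime) (B : ℕ → ℕ → Prop)
    (h1 : ∀ j, ∃ s, ¬ q ∣ s ∧ B j s) (h2 : ∀ j s r, B j s → B j (r * s)) (t : Finset ℕ) :
    ∃ s, ¬ q ∣ s ∧ ∀ j ∈ t, B j s := by
  classical
  induction t using Finset.induction_on with
  | empty =>
    refine ⟨1, fun h => hq.one_lt.ne' (Nat.dvd_one.1 h), fun j hj => ?_⟩
    exact absurd hj (Finset.notMem_empty j)
  | insert j t hj ih =>
    obtain ⟨s, hs, h⟩ := ih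
    obtain ⟨r, hr, h'⟩ := h1 j
    refine ⟨s * r, fun h3 => ?_, fun i hi => ?_⟩
    · rcases (hq.dvd_mul).1 h3 with h4 | h4
      · exact hs h4
      · exact hr h4
    · rcases Finset.mem_insert.1 hi with hi | hi
      · rw [hi]
        exact h2 _ _ _ h'
      · rw [mul_comm]
        exact h2 _ _ _ (h i hi)

private theorem int_nat {K : Type} [Field K] (s : ℕ) : IsIntegral ℤ (s : K) := by
  have h := isIntegral_algebraMap (R := ℤ) (A := K) (x := (s : ℤ))
  simpa using h

private theorem int_mul {K : Type} [Field K] {y : K} (s r : ℕ) (h : IsIntegral ℤ ((s : K) * y)) :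
    IsIntegral ℤ (((r * s : ℕ) : K) * y) := by
  have h1 := (int_nat (K := K) r).mul h
  rwa [← mul_assoc, ← Nat.cast_mul] at h1

private theorem den {A : Type} [Field A] {q : ℕ} (hq : q.Prime) (P : A[X][Y]) (hP : PP q P) :
    ∃ s : ℕ, ¬ q ∣ s ∧ ∀ i j, IsIntegral ℤ ((s : A) * (P.coeff j).coeff i) := by
  have h1 : ∀ j, ∃ s : ℕ, ¬ q ∣ s ∧ ∀ i, IsIntegral ℤ ((s : A) * (P.coeff j).coeff i) := by
    intro j
    obtain ⟨s, hs, h⟩ := com hq (fun i s => IsIntegral ℤ ((s : A) * (P.coeff j).coeff i))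
      (fun i => hP i j) (fun i s r h => int_mul s r h) (P.coeff j).support
    refine ⟨s, hs, fun i => ?_⟩
    by_cases hi : i ∈ (P.coeff j).support
    · exact h i hi
    · rw [notMem_support_iff.1 hi, mul_zero]
      exact isIntegral_zero
  obtain ⟨s, hs, h⟩ := com hq (fun j s => ∀ i, IsIntegral ℤ ((s : A) * (P.coeff j).coeff i)) h1
    (fun j s r h i => int_mul s r (h i)) P.support
  refine ⟨s, hs, fun i j => ?_⟩
  by_cases hj : j ∈ P.support
  · exact h j hj i
  · rw [notMem_support_iff.1 hj, coeff_zero, mul_zero]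
    exact isIntegral_zero

variable {A E : Type} [Field A] [NumberField A] [Field E] [NumberField E] [Algebra A E]

private theorem av (x a : E) (P : A[X][Y]) : aevalAeval (R := A) x a P =
    (P.map ((aeval x : A[X] →ₐ[A] E) : A[X] →+* E)).eval a := by
  induction P using Polynomial.induction_on' with
  | add P Q hP hQ => rw [map_add, hP, hQ, Polynomial.map_add, eval_add]
  | monomial n q =>
    rw [← C_mul_X_pow_eq_monomial, map_mul, map_pow, aevalAeval_C, aevalAeval_Y]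
    simp

private theorem evs (σ : A →+* A) (u w : E) (P : A[X][Y]) (n L : ℕ) (hL : P.natDegree < L)
    (hn : ∀ j, (P.coeff j).natDegree < n) :
    aevalAeval (R := A) u w (tw σ P) = ∑ p : Fin n × Fin L,
      algebraMap A E (σ ((P.coeff p.2).coeff p.1)) * (u ^ (p.1 : ℕ) * w ^ (p.2 : ℕ)) := by
  have h1 : ∀ v : A[X], v.natDegree < n →
      (((aeval u : A[X] →ₐ[A] E) : A[X] →+* E).comp (mapRingHom σ)) v =
      ∑ i ∈ Finset.range n, algebraMap A E (σ (v.coeff i)) * u ^ i := by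
    intro v hv
    have h2 : (((aeval u : A[X] →ₐ[A] E) : A[X] →+* E).comp (mapRingHom σ)) v =
        eval₂ ((algebraMap A E).comp σ) u v := by
      rw [RingHom.comp_apply, coe_mapRingHom]
      change aeval u (v.map σ) = _
      rw [aeval_def, eval₂_map]
    rw [h2, eval₂_eq_sum_range' _ hv]
    rfl
  rw [av]
  unfold tw
  rw [coe_mapRingHom, Polynomial.map_map, eval_map, eval₂_eq_sum_range' _ hL,
    Fintype.sum_prod_type, Finset.sum_comm]
  have h3 : ∀ f : ℕ → ℕ → E, ∑ j : Fin L, ∑ i : Fin n, f i j =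
      ∑ j ∈ Finset.range L, ∑ i ∈ Finset.range n, f i j := by
    intro f
    rw [← Fin.sum_univ_eq_sum_range (fun j => ∑ i ∈ Finset.range n, f i j) L]
    refine Finset.sum_congr rfl fun j _ => ?_
    exact Fin.sum_univ_eq_sum_range (fun i => f i j) n
  rw [h3 (fun i j => algebraMap A E (σ ((P.coeff j).coeff i)) * (u ^ i * w ^ j))]
  refine Finset.sum_congr rfl fun j _ => ?_
  rw [h1 _ (hn j), Finset.sum_mul]
  refine Finset.sum_congr rfl fun i _ => ?_
  ring

private theorem red {q : ℕ} (hq : q.Prime) (x a : E) (P : A[X][Y]) (hP : PP q P) :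
    ∃ (s n' : ℕ) (c' : Fin n' × Fin (P.natDegree + 1) → A), ¬ q ∣ s ∧
      c' ∈ ZA A n' (P.natDegree + 1) ∧
      ∀ (σ : A →+* A) (γ : ℕ), (s : E) * aevalAeval (R := A) (x ^ γ) (a ^ γ) (tw σ P) =
        bzA σ x a n' (P.natDegree + 1) γ c' := by
  obtain ⟨s, hs, h⟩ := den hq P hP
  obtain ⟨n', hn'⟩ : ∃ n', ∀ j, (P.coeff j).natDegree < n' := by
    refine ⟨P.support.sup (fun j => (P.coeff j).natDegree) + 1, fun j => ?_⟩
    by_cases hj : j ∈ P.support
    · exact Nat.lt_succ_of_le (Finset.le_sup (f := fun j => (P.coeff j).natDegree) hj)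
    · rw [notMem_support_iff.1 hj, natDegree_zero]
      exact Nat.succ_pos _
  refine ⟨s, n', fun p => (s : A) * (P.coeff p.2).coeff p.1, hs, fun p => h _ _, fun σ γ => ?_⟩
  rw [bzA_apply, evs σ (x ^ γ) (a ^ γ) P n' (P.natDegree + 1) (Nat.lt_succ_self _) hn',
    Finset.mul_sum]
  refine Finset.sum_congr rfl fun p _ => ?_
  rw [map_mul, map_mul, map_natCast, map_natCast, ← pow_mul, ← pow_mul, mul_assoc]

private theorem lkp {q : ℕ} (hq : q.Prime) (σ : A →+* A) (x a : E) (hx : IsIntegral ℤ x)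
    (P : A[X][Y]) (hP : PP q P) : ∃ s : ℕ, ¬ q ∣ s ∧
      (s : E) * aevalAeval (R := A) (x ^ q) (a ^ q) (tw σ P) ∈ LK a (q * P.natDegree) := by
  obtain ⟨s, n', c', hs, hc, h⟩ := red hq x a P hP
  refine ⟨s, hs, ?_⟩
  rw [h]
  have h1 := ev_int0A σ x a hx n' (P.natDegree + 1) q c' hc
  rwa [Nat.add_sub_cancel] at h1

private theorem v_intg {M : Type} [Field M] [NumberField M] (v : FinitePlace M) {z : M}
    (hz : IsIntegral ℤ z) : v z ≤ 1 := by
  have h2 := FinitePlace.norm_le_one M v.maximalIdeal (⟨z, hz⟩ : 𝓞 M)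
  rw [FinitePlace.norm_embedding_eq] at h2
  exact h2

private theorem v_sum {M : Type} [Field M] [NumberField M] (v : FinitePlace M) {κ : Type}
    (s : Finset κ) (f : κ → M) (B : ℝ) (hB : 0 ≤ B) (h : ∀ i ∈ s, v (f i) ≤ B) :
    v (∑ i ∈ s, f i) ≤ B := by
  classical
  induction s using Finset.induction_on with
  | empty =>
    rw [Finset.sum_empty, map_zero]
    exact hB
  | insert i s hi ih =>
    rw [Finset.sum_insert hi]
    exact (FinitePlace.add_le v _ _).trans (max_le (h i (Finset.mem_insert_self _ _))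
      (ih fun j hj => h j (Finset.mem_insert_of_mem hj)))

private theorem v_neg {M : Type} [Field M] [NumberField M] (v : FinitePlace M) (z : M) :
    v (-z) = v z := by
  have h1 : v (-1 : M) = 1 := by
    have h2 : v (-1 : M) * v (-1 : M) = 1 := by
      rw [← map_mul, neg_one_mul, neg_neg, map_one]
    nlinarith [apply_nonneg v (-1 : M)]
  rw [← neg_one_mul, map_mul, h1, one_mul]

/-- The value of a semilinear evaluation of a relation at a place above `q`. -/
private theorem val_rel {M : Type} [Field M] [NumberField M] (v : FinitePlace M) (t : E →+* M)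
    {q : ℕ} (hq : q.Prime) (σ : A →+* A) (e : ℕ) (he : 1 ≤ e)
    (hσ : ∀ y : A, IsIntegral ℤ y → ∃ w : A, IsIntegral ℤ w ∧ (σ y - y ^ q) ^ e = (q : A) * w)
    (ρ : ℝ) (hρ0 : 0 ≤ ρ) (hρ : ρ ^ e = v (q : M)) (hρq : v (q : M) ≤ ρ)
    (x a : E) (hx : IsIntegral ℤ x) (n L : ℕ) (c : Fin n × Fin L → A) (hc : c ∈ ZA A n L)
    (h0 : bzA (RingHom.id A) x a n L 1 c = 0) :
    v (t (bzA σ x a n L q c)) ≤ ρ * max 1 (v (t a)) ^ (q * (L - 1)) := by
  have hm : ∀ p : Fin n × Fin L, v (t (x ^ (p.1 : ℕ) * a ^ (p.2 : ℕ))) ≤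
      max 1 (v (t a)) ^ (L - 1) := by
    intro p
    have h1 : v (t x) ≤ 1 := v_intg v (IsIntegral.map t.toIntAlgHom hx)
    rw [map_mul, map_mul, map_pow, map_pow, map_pow, map_pow]
    have h2 : (p.2 : ℕ) ≤ L - 1 := by
      have := p.2.2
      omega
    calc v (t x) ^ (p.1 : ℕ) * v (t a) ^ (p.2 : ℕ) ≤ 1 * max 1 (v (t a)) ^ (p.2 : ℕ) :=
          mul_le_mul (pow_le_one₀ (apply_nonneg v _) h1)
            (pow_le_pow_left₀ (apply_nonneg v _) (le_max_right _ _) _)
            (pow_nonneg (apply_nonneg v _) _) zero_le_one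
      _ ≤ max 1 (v (t a)) ^ (L - 1) := by
          rw [one_mul]
          exact pow_le_pow_right₀ (le_max_left _ _) h2
  have hB0 : (0 : ℝ) ≤ max 1 (v (t a)) ^ (L - 1) := by positivity
  have hBq : (max 1 (v (t a)) ^ (L - 1)) ^ q = max 1 (v (t a)) ^ (q * (L - 1)) := by
    rw [← pow_mul, mul_comm]
  have hint : ∀ y : A, IsIntegral ℤ y → v (t (algebraMap A E y)) ≤ 1 := fun y hy =>
    v_intg v (IsIntegral.map (t.comp (algebraMap A E)).toIntAlgHom hy)
  -- the second sum
  have h2 := npow v q hq Finset.univ (fun p : Fin n × Fin L =>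
    t (algebraMap A E (c p) * (x ^ (p.1 : ℕ) * a ^ (p.2 : ℕ)))) (max 1 (v (t a)) ^ (L - 1)) hB0 (by
      intro p _
      rw [map_mul, map_mul]
      calc v (t (algebraMap A E (c p))) * v (t (x ^ (p.1 : ℕ) * a ^ (p.2 : ℕ))) ≤
          1 * max 1 (v (t a)) ^ (L - 1) :=
            mul_le_mul (hint _ (hc p)) (hm p) (apply_nonneg v _) zero_le_one
        _ = _ := one_mul _)
  have h3 : ∑ p : Fin n × Fin L, t (algebraMap A E (c p) * (x ^ (p.1 : ℕ) * a ^ (p.2 : ℕ))) = 0 := by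
    rw [← map_sum]
    rw [bzA_apply] at h0
    simp only [RingHom.id_apply, one_mul] at h0
    rw [h0, map_zero]
  rw [h3, zero_pow hq.ne_zero, zero_sub, v_neg, hBq] at h2
  have h4 : t (bzA σ x a n L q c) = ∑ p : Fin n × Fin L,
      t (algebraMap A E (σ (c p) - c p ^ q) * (x ^ (p.1 : ℕ) * a ^ (p.2 : ℕ)) ^ q) +
      ∑ p : Fin n × Fin L, t (algebraMap A E (c p) * (x ^ (p.1 : ℕ) * a ^ (p.2 : ℕ))) ^ q := by
    rw [bzA_apply, map_sum, ← Finset.sum_add_distrib]
    refine Finset.sum_congr rfl fun p _ => ?_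
    rw [← map_pow, ← map_add]
    congr 1
    rw [map_sub, map_pow, mul_pow, mul_pow, ← pow_mul, ← pow_mul, mul_comm (p.1 : ℕ) q,
      mul_comm (p.2 : ℕ) q]
    ring
  rw [h4]
  refine (FinitePlace.add_le v _ _).trans (max_le ?_ ?_)
  · refine v_sum v _ _ _ (by positivity) fun p _ => ?_
    rw [map_mul, map_mul, map_pow, map_pow]
    have h5 : v (t (algebraMap A E (σ (c p) - c p ^ q))) ≤ ρ := by
      obtain ⟨w, hw, hw2⟩ := hσ (c p) (hc p)
      refine le_of_pow_le_pow_left₀ (n := e) (by omega) hρ0 ?_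
      rw [← map_pow, ← map_pow, ← map_pow, hw2, map_mul, map_mul, map_mul, map_natCast,
        map_natCast, hρ]
      calc v (q : M) * v (t (algebraMap A E w)) ≤ v (q : M) * 1 :=
            mul_le_mul_of_nonneg_left (hint w hw) (apply_nonneg v _)
        _ = _ := mul_one _
    rw [← hBq]
    exact mul_le_mul h5 (pow_le_pow_left₀ (apply_nonneg v _) (hm p) q)
      (pow_nonneg (apply_nonneg v _) _) hρ0
  · refine h2.trans (mul_le_mul_of_nonneg_right hρq (by positivity))

private theorem pg_ev (σ : A →+* A) (x a : E) (n L g q : ℕ) (c : Fin n × Fin L → A) :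
    aevalAeval (R := A) (x ^ q) (a ^ q) (tw σ (pg n L g c)) = bzA σ x a n L (g * q) c := by
  rw [bzA_apply]
  unfold pg tw
  rw [map_sum, map_sum]
  refine Finset.sum_congr rfl fun p _ => ?_
  rw [coe_mapRingHom, map_monomial, coe_mapRingHom, map_monomial, av, map_monomial,
    eval_monomial]
  change aeval (x ^ q) (monomial (g * (p.1 : ℕ)) (σ (c p))) * _ = _
  rw [aeval_monomial, ← pow_mul, ← pow_mul, mul_assoc]
  congr 3 <;> ring

private theorem tb_ev {b m d : ℕ} {ι : ℝ} {x : E} (hx : RdA A b m d ι x) (σ : A →+* A) (a : E)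
    (q : ℕ) (hq : q.Prime) : ∃ β : ℤ,
      aevalAeval (R := A) (x ^ q) (a ^ q) (tw σ (tb A b m)) = (q : E) * (β : E) := by
  have h1 : ((b : ℤ) : ZMod q) ^ q = ((b : ℤ) : ZMod q) := by
    have : Fact q.Prime := ⟨hq⟩
    exact ZMod.pow_card _
  have h2 : (q : ℤ) ∣ (b : ℤ) ^ q - b := by
    rw [← ZMod.intCast_zmod_eq_zero_iff_dvd]
    push_cast
    push_cast at h1
    rw [h1, sub_self]
  obtain ⟨β, hβ⟩ := h2
  refine ⟨β, ?_⟩
  have h3 : aevalAeval (R := A) (x ^ q) (a ^ q) (tw σ (tb A b m)) = (b : E) ^ q - b := by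
    unfold tb tw
    rw [coe_mapRingHom, map_C, coe_mapRingHom, Polynomial.map_sub, Polynomial.map_pow, map_X, map_C,
      map_natCast, aevalAeval_C, map_sub, map_pow, aeval_X, aeval_C, map_natCast, ← pow_mul,
      mul_comm, pow_mul, hx.pow]
  rw [h3]
  exact_mod_cast congrArg (fun z : ℤ => (z : E)) hβ

theorem jet_extE {A E : Type} [Field A] [NumberField A] [Field E] [NumberField E] [Algebra A E]
    {b m d : ℕ} {ι : ℝ} {x : E} (hx : RdA A b m d ι x) (δ : ℕ) (hδ : 1 ≤ δ)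
    (hM : Mx A x δ) (a : E) (ha : a ≠ 0) (n L g T q E₀ : ℕ) (hq : q.Prime) (hqδ : ¬ q ∣ δ)
    (σ : A →+* A) (hσ : FrobE A q E₀ σ)
    (c : Fin n × Fin L → A) (hc : c ∈ ZA A n L) (hJ : c ∈ JT A x a m n L g (E₀ * T)) :
    ∃ y ∈ LK a (g * q * (L - 1)), bzA σ x a n L (g * q) c = (q ^ T) • y := by
  have hm : m ≠ 0 := by have := hx.m1; omega
  have hxi : IsIntegral ℤ x := by
    refine ⟨X ^ m - C (b : ℤ), monic_X_pow_sub_C _ hm, ?_⟩
    rw [eval₂_sub, eval₂_X_pow, eval₂_C, hx.pow]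
    simp
  obtain ⟨e, he1, heE, hσe⟩ := hσ
  obtain ⟨N, F, R, H, -, hF, hR, hH, hF0, hRd, hHd, hid⟩ := jet_dec hx δ hδ hM a ha q hq n L g
    (E₀ * T) (E₀ * T) le_rfl c hc (fun i' k _ h => hJ i' k h)
  obtain ⟨β, hβ⟩ := tb_ev hx σ a q hq
  obtain ⟨Φ, hΦ⟩ : ∃ Φ : A[X][Y] →+* E, ∀ P, Φ P = aevalAeval (R := A) (x ^ q) (a ^ q) (tw σ P) :=
    ⟨((aevalAeval (R := A) (x ^ q) (a ^ q) : A[X][Y] →ₐ[A] E) : A[X][Y] →+* E).comp (tw σ),
      fun _ => rfl⟩
  rw [← hΦ] at hβ
  have hqE : (q : E) ≠ 0 := Nat.cast_ne_zero.2 hq.ne_zero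
  refine ⟨((q : E) ^ T)⁻¹ * bzA σ x a n L (g * q) c, ?_, ?_⟩
  swap
  · rw [nsmul_eq_mul, Nat.cast_pow, ← mul_assoc, mul_inv_cancel₀ (pow_ne_zero _ hqE), one_mul]
  intro M _ _ t v
  have hbz := ev_int0A σ x a hxi n L (g * q) c hc M t v
  obtain ⟨ℓ, hℓ, hℓ1⟩ := exists_prime_below v
  have hqM : (q : M) ≠ 0 := Nat.cast_ne_zero.2 hq.ne_zero
  have hqv : 0 < v (q : M) := by
    rcases (apply_nonneg v (q : M)).lt_or_eq with h | h
    · exact h
    · exact absurd ((map_eq_zero v).1 h.symm) hqM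
  have hint1 : ∀ z : ℤ, v (z : M) ≤ 1 := fun z =>
    v_intg v (by simpa using isIntegral_algebraMap (R := ℤ) (A := M) (x := z))
  have key : v (t (bzA σ x a n L (g * q) c)) ≤
      v (q : M) ^ T * max 1 (v (t a)) ^ (g * q * (L - 1)) := by
    by_cases hℓq : (ℓ : ℤ) ∣ q
    swap
    · have h1 := hℓ1 q hℓq
      rw [Int.cast_natCast] at h1
      rw [h1, one_pow, one_mul]
      exact hbz
    have hℓe : ℓ = q := (Nat.prime_dvd_prime_iff_eq hℓ hq).1 (Int.natCast_dvd_natCast.1 hℓq)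
    rw [hℓe] at hℓ1
    have hs1 : ∀ s : ℕ, ¬ q ∣ s → v (t (s : E)) = 1 := fun s hs => by
      have h1 := hℓ1 (s : ℤ) (fun h => hs (Int.natCast_dvd_natCast.1 h))
      rw [map_natCast]
      rwa [Int.cast_natCast] at h1
    obtain ⟨ρ, hρ0, hρ⟩ : ∃ ρ : ℝ, 0 ≤ ρ ∧ ρ ^ e = v (q : M) :=
      ⟨v (q : M) ^ ((e : ℝ)⁻¹), by positivity, Real.rpow_inv_natCast_pow hqv.le (by omega)⟩
    have hq1 : v (q : M) ≤ 1 := by
      have := hint1 (q : ℤ)
      rwa [Int.cast_natCast] at this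
    have hρ1 : ρ ≤ 1 := by
      by_contra hcon
      push Not at hcon
      have := one_lt_pow₀ hcon (n := e) (by omega)
      rw [hρ] at this
      exact absurd this (not_lt.2 hq1)
    have hρq : v (q : M) ≤ ρ := by
      rw [← hρ]
      exact pow_le_of_le_one hρ0 hρ1 (by omega)
    obtain ⟨mx, hmx⟩ : ∃ mx : ℝ, mx = max 1 (v (t a)) := ⟨_, rfl⟩
    have hmx1 : 1 ≤ mx := by rw [hmx]; exact le_max_left _ _
    have hmx0 : 0 ≤ mx := le_trans zero_le_one hmx1
    -- the values of `Φ`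
    have hPv : ∀ P : A[X][Y], PP q P → v (t (Φ P)) ≤ mx ^ (q * P.natDegree) := by
      intro P hP
      obtain ⟨s, hs, hz⟩ := lkp hq σ x a hxi P hP
      rw [← hΦ] at hz
      have h1 := hz M t v
      rwa [map_mul, map_mul, hs1 s hs, one_mul, ← hmx] at h1
    have hFv : v (t (Φ F)) ≤ ρ * mx ^ (q * F.natDegree) := by
      obtain ⟨s, n', c', hs, hc', h⟩ := red hq x a F hF
      have h1 : bzA (RingHom.id A) x a n' (F.natDegree + 1) 1 c' = 0 := by
        rw [← h, pow_one, pow_one]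
        have h2 : tw (RingHom.id A) F = F := by
          unfold tw
          rw [mapRingHom_id, mapRingHom_id]
          rfl
        rw [h2, hF0, mul_zero]
      have h3 := val_rel v t hq σ e he1 hσe ρ hρ0 hρ hρq x a hxi n' (F.natDegree + 1) c' hc' h1
      rw [← h, ← hΦ, map_mul, map_mul, hs1 s hs, one_mul, ← hmx, Nat.add_sub_cancel] at h3
      exact h3
    have hTv : v (t (Φ (tb A b m))) ≤ ρ := by
      rw [hβ, map_mul, map_mul, map_natCast, map_intCast]
      calc v (q : M) * v (β : M) ≤ v (q : M) * 1 :=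
            mul_le_mul_of_nonneg_left (hint1 β) (apply_nonneg v _)
        _ ≤ ρ := by rw [mul_one]; exact hρq
    have hδv : v (t ((δ : E) ^ N * bzA σ x a n L (g * q) c)) =
        v (t (bzA σ x a n L (g * q) c)) := by
      rw [map_mul, map_mul, map_pow, map_pow, hs1 δ hqδ, one_pow, one_mul]
    rw [← hδv, ← hmx]
    have h1 := congrArg Φ hid
    rw [map_mul, map_pow, map_natCast, map_add, map_sum, hΦ (pg n L g c), pg_ev] at h1
    have hρT : ρ ^ (E₀ * T) ≤ v (q : M) ^ T := by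
      rw [← hρ, ← pow_mul]
      exact pow_le_pow_of_le_one hρ0 hρ1 (Nat.mul_le_mul_right _ heE)
    rw [h1, map_add, map_sum]
    have hBnn : 0 ≤ v (q : M) ^ T * mx ^ (g * q * (L - 1)) := by positivity
    refine (FinitePlace.add_le v _ _).trans (max_le (v_sum v _ _ _ hBnn fun j hj => ?_) ?_)
    · rw [Finset.mem_range] at hj
      rw [map_mul Φ, map_mul Φ, map_pow Φ, map_pow Φ, map_mul t, map_mul t, map_pow t, map_pow t,
        map_mul v, map_mul v, map_pow v, map_pow v]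
      rcases hHd j hj with h2 | h2
      · rw [h2, map_zero, map_zero, map_zero, mul_zero, mul_zero]
        exact hBnn
      · have h3 : q * ((E₀ * T - j) * F.natDegree + (H j).natDegree) ≤ g * q * (L - 1) := by
          calc q * ((E₀ * T - j) * F.natDegree + (H j).natDegree) ≤ q * (g * (L - 1)) :=
                Nat.mul_le_mul_left q h2
            _ = g * q * (L - 1) := by ring
        rw [← mul_assoc]
        calc v (t (Φ (tb A b m))) ^ j * v (t (Φ F)) ^ (E₀ * T - j) * v (t (Φ (H j)))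
            ≤ ρ ^ j * (ρ * mx ^ (q * F.natDegree)) ^ (E₀ * T - j) * mx ^ (q * (H j).natDegree) := by
              refine mul_le_mul (mul_le_mul (pow_le_pow_left₀ (apply_nonneg v _) hTv j)
                (pow_le_pow_left₀ (apply_nonneg v _) hFv _) (pow_nonneg (apply_nonneg v _) _)
                (pow_nonneg hρ0 _)) (hPv _ (hH j)) (apply_nonneg v _) (by positivity)
          _ = ρ ^ (E₀ * T) * mx ^ (q * ((E₀ * T - j) * F.natDegree + (H j).natDegree)) := by
              have h4 : ρ ^ (E₀ * T) = ρ ^ j * ρ ^ (E₀ * T - j) := by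
                rw [← pow_add]
                congr 1
                omega
              rw [h4, mul_pow, ← pow_mul, mul_add, pow_add]
              have h5 : q * F.natDegree * (E₀ * T - j) = q * ((E₀ * T - j) * F.natDegree) := by ring
              rw [h5]
              ring
          _ ≤ v (q : M) ^ T * mx ^ (g * q * (L - 1)) :=
              mul_le_mul hρT (pow_le_pow_right₀ hmx1 h3) (by positivity) (by positivity)
    · rw [map_mul Φ, map_pow Φ, map_mul t, map_pow t, map_mul v, map_pow v]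
      calc v (t (Φ (tb A b m))) ^ (E₀ * T) * v (t (Φ R))
          ≤ ρ ^ (E₀ * T) * mx ^ (q * R.natDegree) :=
            mul_le_mul (pow_le_pow_left₀ (apply_nonneg v _) hTv _) (hPv R hR) (apply_nonneg v _)
              (by positivity)
        _ ≤ v (q : M) ^ T * mx ^ (g * q * (L - 1)) := by
            refine mul_le_mul hρT (pow_le_pow_right₀ hmx1 ?_) (by positivity) (by positivity)
            calc q * R.natDegree ≤ q * (g * (L - 1)) := Nat.mul_le_mul_left q hRd
              _ = g * q * (L - 1) := by ring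
  rw [map_mul, map_mul, map_inv₀, map_pow, map_natCast, map_inv₀, map_pow]
  have h6 : (0 : ℝ) < v (q : M) ^ T := pow_pos hqv T
  rw [inv_mul_le_iff₀ h6]
  exact key

end Pool.Agent.H36.LI
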