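import Pool.Agent.H36.LI.CorE
import Pool.Agent.H36.LH.LhD

/-!
# THEOREM L, version 5 (MP_187c26_nt): dimension one over `A` (case of full orbits), explicit constants

MODEL: `lehD0` in `Pool/Agent/H36/LH/LhD.lean` (copy and change: `corE1` in the place of `corT1`, `FrobE`, the parameters are polynomials in `e`). Imports may be sorried (`corE1`).
PARAMETERS. `E₀ := 2 e + 5`, `T₁ := e + 3`, `T := E₀ T₁` (`≤ 15 (e + 1)^2`), `C := T (e + 3)` (`≤ 45 (e + 1)^3`), `(C + 1) T (T + 1) ≤ K (e + 1)^7`; `L := Z D`, `n := 1`, `g := 1`, `b = m = δ = 1`, `ι = 0`, `Z ≥ K (e + 1)^9` (in particular `Z > (C + 1) T (T + 1)`, `log Z ≥ 4`, the constant of `many_primes`).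
The inequality: `log (L D)/2 + 1 ≤ (e + 2) log Z`, `T log (g L) ≤ T (e + 1) log Z`; `(e + 2) + T (e + 1) + C (e + 2) ≤ C (e + 3) = C T₁` because `C = T (e + 3) ≥ T (e + 1) + 2 T ≥ T (e + 1) + (e + 2)`; `log q ≥ log Z` (`q ≥ Z^2/4 ≥ Z`).
`sig_bij` (`σ q` is bijective) holds for every ring endomorphism of a number field.
-/

set_option autoImplicit false

open Polynomial NumberField IntermediateField
open scoped Polynomial.Bivariate

namespace Pool.Agent.H36.LI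

open Pool.Agent.H36.LE Pool.Agent.H36.LF Pool.Agent.H36.LH

/-- constants in the first variable -/
private theorem eval_map_CA {A E : Type} [Field A] [Field E] [Algebra A E] (x y : E) (p : A[X]) :
    aevalAeval x y (p.map C) = aeval y p := by
  induction p using Polynomial.induction_on' with
  | add p q hp hq => rw [Polynomial.map_add, map_add, map_add, hp, hq]
  | monomial n r =>
    rw [Polynomial.map_monomial, ← C_mul_X_pow_eq_monomial, ← C_mul_X_pow_eq_monomial, map_mul, map_mul,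
      map_pow, map_pow, aevalAeval_C, aevalAeval_Y, aeval_C, aeval_C, aeval_X]

private theorem of_BSA {A : Type} [Field A] {P : A[X][Y]} {L : ℕ} (hP : P ∈ BS A 1 L) :
    ∃ p : A[X], P = p.map C ∧ p.degree < L := by
  refine ⟨P.map (evalRingHom 0), ?_, ?_⟩
  · ext j : 1
    rw [coeff_map, coeff_map]
    have h1 := hP.2 j
    have h2 : P.coeff j = C ((P.coeff j).coeff 0) := by
      refine eq_C_of_degree_le_zero ?_
      by_contra hcon
      push Not at hcon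
      have h3 : (1 : WithBot ℕ) ≤ (P.coeff j).degree := by
        have h4 : ((0 : ℕ) : WithBot ℕ) < (P.coeff j).degree := by exact_mod_cast hcon
        have h5 := Nat.WithBot.add_one_le_of_lt h4
        simpa using h5
      have h6 : (P.coeff j).degree < 1 := by exact_mod_cast h1
      exact absurd h6 (not_lt.2 h3)
    rw [h2, coe_evalRingHom, eval_C]
  · exact (degree_map_le).trans_lt hP.1

private theorem tw_map_C {A : Type} [Field A] (τ : A →+* A) (p : A[X]) :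
    tw τ (p.map C) = (p.map τ).map C := by
  unfold tw
  rw [coe_mapRingHom, Polynomial.map_map, Polynomial.map_map]
  congr 1
  ext r : 1
  simp

/-- the twisted minimal polynomials -/
private noncomputable def gq {A Ω : Type} [Field A] [Field Ω] [Algebra A Ω] (τ : A ≃+* A) (γ : Ω) : A[X] :=
  (minpoly A γ).map (τ.symm : A →+* A)

private theorem gq_monic {A Ω : Type} [Field A] [Field Ω] [Algebra A Ω] (τ : A ≃+* A) {γ : Ω}
    (hγ : IsIntegral A γ) : (gq τ γ).Monic := (minpoly.monic hγ).map _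

private theorem gq_irr {A Ω : Type} [Field A] [Field Ω] [Algebra A Ω] (τ : A ≃+* A) {γ : Ω}
    (hγ : IsIntegral A γ) : Irreducible (gq τ γ) := by
  have h : gq τ γ = Polynomial.mapEquiv τ.symm (minpoly A γ) := rfl
  rw [h, MulEquiv.irreducible_iff]
  exact minpoly.irreducible hγ

private theorem gq_deg {A Ω : Type} [Field A] [Field Ω] [Algebra A Ω] (τ : A ≃+* A) (γ : Ω) :
    (gq τ γ).natDegree = (minpoly A γ).natDegree := natDegree_map _

private theorem gq_dvd {A Ω : Type} [Field A] [Field Ω] [Algebra A Ω] (τ : A ≃+* A) (γ : Ω) (p : A[X])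
    (h : aeval γ (p.map (τ : A →+* A)) = 0) : gq τ γ ∣ p := by
  obtain ⟨r, hr⟩ := minpoly.dvd A γ h
  refine ⟨r.map (τ.symm : A →+* A), ?_⟩
  have h2 := congrArg (Polynomial.map (τ.symm : A →+* A)) hr
  rw [Polynomial.map_map, Polynomial.map_mul] at h2
  rw [gq, ← h2]
  have h3 : (τ.symm : A →+* A).comp (τ : A →+* A) = RingHom.id A := by
    ext r
    simp
  rw [h3, Polynomial.map_id]

private theorem gq_minpoly {A Ω Ω' : Type} [Field A] [NumberField A] [Field Ω] [CharZero Ω] [Algebra A Ω]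
    [Field Ω'] [CharZero Ω'] [Algebra A Ω'] (τ : A ≃+* A) (γ : Ω) (hγ : IsIntegral ℚ γ) (δ : Ω')
    (h : aeval δ (gq τ γ) = 0) : minpoly ℚ δ = minpoly ℚ γ := by
  have h1 : gq τ γ ∣ (minpoly ℚ γ).map (algebraMap ℚ A) := by
    have h2 : minpoly A γ ∣ (minpoly ℚ γ).map (algebraMap ℚ A) := minpoly.dvd_map_of_isScalarTower ℚ A γ
    have h3 := Polynomial.map_dvd (τ.symm : A →+* A) h2
    rw [Polynomial.map_map] at h3
    have h4 : (τ.symm : A →+* A).comp (algebraMap ℚ A) = algebraMap ℚ A := Subsingleton.elim _ _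
    rw [h4] at h3
    exact h3
  have h5 : aeval δ ((minpoly ℚ γ).map (algebraMap ℚ A)) = 0 := by
    obtain ⟨r, hr⟩ := h1
    rw [hr, map_mul, h, zero_mul]
  rw [aeval_map_algebraMap] at h5
  exact (minpoly.eq_of_irreducible_of_monic (minpoly.irreducible hγ) h5 (minpoly.monic hγ)).symm


private theorem mx_one (A E : Type) [Field A] [NumberField A] [Field E] [NumberField E] [Algebra A E] :
    Mx A (1 : E) 1 := by
  intro y hy hyi
  rw [IntermediateField.adjoin_one, IntermediateField.mem_bot] at hy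
  obtain ⟨r, rfl⟩ := hy
  have hr : IsIntegral ℤ r := (isIntegral_algebraMap_iff (algebraMap A E).injective).1 hyi
  refine ⟨C r, fun i => ?_, ?_⟩
  · rw [coeff_C]
    split_ifs
    · exact hr
    · exact isIntegral_zero
  · rw [aeval_C]
    simp

private theorem lg (e Z D q T T₁ C : ℕ) (hZ : 3 ≤ Z) (hD1 : 1 ≤ D) (hD : D ≤ Z ^ e) (hq : Z ≤ q)
    (hT1 : T₁ = e + 3) (hC : C = T * (e + 3)) (hT : e + 2 ≤ 2 * T) :
    (2 * Real.log (1 : ℕ) + 0 + Real.log (((Z * D : ℕ) : ℝ) * (D : ℝ)) / 2 +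
      ((T : ℕ) : ℝ) * Real.log (((1 : ℕ) : ℝ) * ((Z * D : ℕ) : ℝ)) +
      ((T * (T + 1) : ℕ) : ℝ) * Real.log (1 : ℕ) + 1) +
      ((C : ℕ) : ℝ) * (2 * Real.log (1 : ℕ) + 0 +
        Real.log (((Z * D : ℕ) : ℝ) * (D : ℝ)) / 2 + 1) ≤
      ((C * T₁ : ℕ) : ℝ) * Real.log q := by
  have hZ0 : (0 : ℝ) < Z := by
    have : 0 < Z := by omega
    exact_mod_cast this
  have hD0 : (0 : ℝ) < D := by exact_mod_cast hD1
  have h1 : 1 ≤ Real.log Z := by
    have h2 : Real.log 3 ≤ Real.log Z := Real.log_le_log (by norm_num) (by exact_mod_cast hZ)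
    have h3 : 1 < Real.log 3 := by
      rw [Real.lt_log_iff_exp_lt (by norm_num)]
      exact Real.exp_one_lt_d9.trans (by norm_num)
    linarith
  have h2 : Real.log D ≤ e * Real.log Z := by
    rw [← Real.log_pow]
    exact Real.log_le_log hD0 (by exact_mod_cast hD)
  have h3 : Real.log Z ≤ Real.log q := Real.log_le_log hZ0 (by exact_mod_cast hq)
  have h4 : Real.log (((Z * D : ℕ) : ℝ) * (D : ℝ)) = Real.log Z + 2 * Real.log D := by
    rw [Nat.cast_mul, Real.log_mul (by positivity) hD0.ne', Real.log_mul hZ0.ne' hD0.ne']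
    ring
  have h5 : Real.log (((1 : ℕ) : ℝ) * ((Z * D : ℕ) : ℝ)) = Real.log Z + Real.log D := by
    rw [Nat.cast_one, one_mul, Nat.cast_mul, Real.log_mul hZ0.ne' hD0.ne']
  rw [h4, h5, Nat.cast_one, Real.log_one]
  have he : (0 : ℝ) ≤ e := Nat.cast_nonneg e
  obtain ⟨l, hl⟩ : ∃ l, l = Real.log Z := ⟨_, rfl⟩
  obtain ⟨u, hu⟩ : ∃ u, u = Real.log D := ⟨_, rfl⟩
  rw [← hl] at h1 h2 h3 ⊢
  rw [← hu] at h2 ⊢
  have hT0 : (0 : ℝ) ≤ T := Nat.cast_nonneg T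
  have hC0 : (0 : ℝ) ≤ C := Nat.cast_nonneg C
  have hCr : (C : ℝ) = T * (e + 3) := by
    rw [hC]
    push_cast
    ring
  have hT1r : (T₁ : ℝ) = e + 3 := by
    rw [hT1]
    push_cast
    ring
  have hTr : (e : ℝ) + 2 ≤ 2 * T := by exact_mod_cast hT
  have h6 : (T : ℝ) * (l + u) ≤ T * ((e + 1) * l) :=
    mul_le_mul_of_nonneg_left (by linarith) hT0
  have h7 : (l + 2 * u) / 2 + 1 ≤ (e + 2) * l := by nlinarith
  have h8 : (C : ℝ) * ((l + 2 * u) / 2 + 1) ≤ C * ((e + 2) * l) :=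
    mul_le_mul_of_nonneg_left h7 hC0
  have h9 : (C : ℝ) * (e + 3) * l ≤ (C : ℝ) * (e + 3) * Real.log q :=
    mul_le_mul_of_nonneg_left h3 (by positivity)
  have h10 : ((e : ℝ) + 2 + T * (e + 1)) * l ≤ (C : ℝ) * l := by
    refine mul_le_mul_of_nonneg_right ?_ (by linarith)
    rw [hCr]
    nlinarith
  push_cast
  rw [hT1r]
  linarith

private theorem cst (e : ℕ) : ((2 * e + 5) * (e + 3) * (e + 3) + 1) *
    ((2 * e + 5) * (e + 3) * ((2 * e + 5) * (e + 3) + 1)) ≤ 11040 * (e + 1) ^ 7 := by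
  have h1 : (2 * e + 5) * (e + 3) ≤ 15 * (e + 1) ^ 2 := by nlinarith
  have h2 : (2 * e + 5) * (e + 3) * (e + 3) + 1 ≤ 46 * (e + 1) ^ 3 := by nlinarith
  have h3 : (2 * e + 5) * (e + 3) + 1 ≤ 16 * (e + 1) ^ 2 := by nlinarith
  calc _ ≤ (46 * (e + 1) ^ 3) * ((15 * (e + 1) ^ 2) * (16 * (e + 1) ^ 2)) :=
        Nat.mul_le_mul h2 (Nat.mul_le_mul h1 h3)
    _ = _ := by ring

theorem lehE0 : ∃ K : ℕ, ∀ e Z : ℕ, K * (e + 1) ^ 9 ≤ Z → ∀ (A Ω : Type) [Field A]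
    [NumberField A] [Field Ω] [CharZero Ω] [Algebra A Ω] (σ : ℕ → (A →+* A)) (κ : Ω),
    IsIntegral A κ → κ ≠ 0 →
    (∀ q : ℕ, q.Prime → Z ≤ q → q ≤ Z ^ 2 → FrobE A q (2 * e + 5) (σ q)) →
    Module.finrank A A⟮κ⟯ ≤ Z ^ e →
    (∀ q : ℕ, q.Prime → Z ≤ q → q ≤ Z ^ 2 → κ ∈ A⟮κ ^ q⟯) →
    (Z : ℝ) ^ 3 * (Module.finrank A A⟮κ⟯ * absLogHeight₁ κ) ≤ 1 →
    ∃ k : ℕ, 1 ≤ k ∧ κ ^ k = 1 := by
  classical
  obtain ⟨T₀, hT₀⟩ := many_primes
  refine ⟨T₀ + 4 + 11041, ?_⟩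
  intro e Z hZ' A Ω _ _ _ _ _ σ κ hκ h0 hFr hDZ horb hh
  have hZ : T₀ + 4 + ((2 * e + 5) * (e + 3) * (e + 3) + 1) *
      ((2 * e + 5) * (e + 3) * ((2 * e + 5) * (e + 3) + 1)) < Z := by
    have h1 := cst e
    have h2 : (e + 1) ^ 7 ≤ (e + 1) ^ 9 := Nat.pow_le_pow_right (by omega) (by norm_num)
    have h3 : 1 ≤ (e + 1) ^ 9 := Nat.one_le_pow _ _ (by omega)
    have h4 : (T₀ + 4 + 11041) * (e + 1) ^ 9 = (T₀ + 4) * (e + 1) ^ 9 + 11041 * (e + 1) ^ 9 := by ring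
    have h5 : (T₀ + 4) * 1 ≤ (T₀ + 4) * (e + 1) ^ 9 := Nat.mul_le_mul_left _ h3
    omega
  by_contra hcon
  push Not at hcon
  have h1 : ∀ k : ℕ, 1 ≤ k → κ ^ k ≠ 1 := hcon
  obtain ⟨D, hD⟩ : ∃ D, D = Module.finrank A A⟮κ⟯ := ⟨_, rfl⟩
  rw [← hD] at hDZ hh
  have hfd : FiniteDimensional A A⟮κ⟯ := adjoin.finiteDimensional hκ
  have hfq : FiniteDimensional ℚ A⟮κ⟯ := Module.Finite.trans A A⟮κ⟯
  have hnf : NumberField A⟮κ⟯ := {}
  obtain ⟨a, ha⟩ : ∃ a : A⟮κ⟯, a = AdjoinSimple.gen A κ := ⟨_, rfl⟩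
  have haκ : algebraMap A⟮κ⟯ Ω a = κ := by
    rw [ha]
    rfl
  have hD1 : 1 ≤ D := by
    rw [hD]
    exact Module.finrank_pos
  have ha0 : a ≠ 0 := by
    rintro rfl
    rw [map_zero] at haκ
    exact h0 haκ.symm
  have ha1 : ∀ n : ℕ, 1 ≤ n → a ^ n ≠ 1 := by
    intro n hn h
    apply h1 n hn
    rw [← haκ, ← map_pow, h, map_one]
  have hha : absLogHeight₁ a = absLogHeight₁ κ := by
    have e1 := Pool.Agent.H4.RR.absLogHeight_eq A⟮κ⟯ A⟮κ⟯ (RingHom.id _) a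
    have e2 := Pool.Agent.H4.RR.absLogHeight_eq A⟮κ⟯ Ω (algebraMap A⟮κ⟯ Ω) a
    rw [haκ] at e2
    rw [e2, ← e1]
    rfl
  have hpos : 0 < absLogHeight₁ κ := by
    rw [← hha]
    exact Pool.Agent.H72.PL.height_pos a ha0 ha1
  obtain ⟨𝒬, h𝒬d⟩ : ∃ 𝒬 : Finset ℕ,
      𝒬 = (Finset.Icc 1 (Z ^ 2)).filter fun p => p.Prime ∧ Z ^ 2 < 4 * p := ⟨_, rfl⟩
  have hZ4 : 4 ≤ Z := by omega
  have h𝒬 : ∀ q ∈ 𝒬, q.Prime ∧ Z ≤ q ∧ q ≤ Z ^ 2 := by
    intro q hq
    rw [h𝒬d, Finset.mem_filter, Finset.mem_Icc] at hq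
    refine ⟨hq.2.1, ?_, hq.1.2⟩
    have h2 : Z * 4 ≤ Z ^ 2 := by
      rw [pow_two]
      exact Nat.mul_le_mul_left Z hZ4
    omega
  have hcard : Z < 𝒬.card := by
    have h2 := hT₀ (Z ^ 2) (by
      have h3 : Z * 1 ≤ Z ^ 2 := by
        rw [pow_two]
        exact Nat.mul_le_mul_left Z (by omega)
      omega)
    rw [← h𝒬d] at h2
    have h3 : Z ^ 4 < (Z ^ 2) ^ 3 := by
      rw [← pow_mul]
      exact Nat.pow_lt_pow_right (by omega) (by norm_num)
    exact lt_of_pow_lt_pow_left' 4 (h3.trans_le h2)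
  have hfin : ∀ q ∈ 𝒬, Module.finrank A A⟮κ ^ q⟯ = D := by
    intro q hq
    obtain ⟨h2, h3, h4⟩ := h𝒬 q hq
    have h5 : A⟮κ ^ q⟯ = A⟮κ⟯ := by
      refine le_antisymm ?_ ?_
      · rw [adjoin_simple_le_iff]
        exact pow_mem (mem_adjoin_simple_self A κ) q
      · rw [adjoin_simple_le_iff]
        exact horb q h2 h3 h4
    rw [h5, hD]
  obtain ⟨V, hVs, hVd⟩ := corE1 (rdA_one A A⟮κ⟯) le_rfl 1 le_rfl (mx_one A A⟮κ⟯) σ a ha0 1 (Z * D) 1
    (2 * e + 5) (e + 3) ((2 * e + 5) * (e + 3) * (e + 3)) le_rfl (Nat.mul_pos (by omega) hD1) le_rfl (by omega)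
    (by omega) (by simp) 𝒬 (by
      intro q hq
      obtain ⟨h2, h3, h4⟩ := h𝒬 q hq
      refine ⟨h2, fun h => h2.one_lt.ne' (Nat.dvd_one.1 h), hFr q h2 h3 h4, by simp, ?_, ?_⟩
      · rw [← hD]
        exact lg e Z D q ((2 * e + 5) * (e + 3)) (e + 3) ((2 * e + 5) * (e + 3) * (e + 3)) (by omega) hD1 hDZ h3
          rfl rfl (by nlinarith)
      · rw [hha]
        have h5 : ((1 : ℕ) : ℝ) * q * ((Z * D : ℕ) : ℝ) * absLogHeight₁ κ ≤
            (Z : ℝ) ^ 3 * (D * absLogHeight₁ κ) := by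
          have h6 : (q : ℝ) ≤ (Z : ℝ) ^ 2 := by exact_mod_cast h4
          have h7 : 0 ≤ (Z : ℝ) * D * absLogHeight₁ κ := by positivity
          have h8 := mul_le_mul_of_nonneg_right h6 h7
          push_cast
          calc 1 * (q : ℝ) * (Z * D) * absLogHeight₁ κ = q * (Z * D * absLogHeight₁ κ) := by ring
            _ ≤ (Z : ℝ) ^ 2 * (Z * D * absLogHeight₁ κ) := h8
            _ = _ := by ring
        exact h5.trans hh)
  rw [one_mul, one_mul, ← hD] at hVd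
  have hVne : V ≠ ⊥ := by
    intro h
    rw [h, finrank_bot, Nat.sub_zero] at hVd
    have h2 : ((2 * e + 5) * (e + 3) * (e + 3) + 1) * ((2 * e + 5) * (e + 3) * ((2 * e + 5) * (e + 3) + 1) * D) =
        (((2 * e + 5) * (e + 3) * (e + 3) + 1) * ((2 * e + 5) * (e + 3) * ((2 * e + 5) * (e + 3) + 1))) * D := by
      ring
    rw [h2] at hVd
    have h3 := Nat.le_of_mul_le_mul_right hVd hD1
    omega
  obtain ⟨P, hPV, hP0⟩ := (Submodule.ne_bot_iff V).1 hVne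
  obtain ⟨hP1, hP2, hP3⟩ := hVs hPV
  obtain ⟨p, rfl, hpd⟩ := of_BSA hP1
  have hp : p ≠ 0 := by
    rintro rfl
    rw [Polynomial.map_zero] at hP0
    exact hP0 rfl
  have hκQ : IsIntegral ℚ κ := isIntegral_trans κ hκ
  obtain ⟨τ, hτ⟩ : ∃ τ : ℕ → (A ≃+* A), ∀ q, (τ q : A →+* A) = σ q := by
    refine ⟨fun q => RingEquiv.ofBijective (σ q) (sig_bij (σ q)), fun q => ?_⟩
    ext x
    rfl
  have hint : ∀ q : ℕ, IsIntegral A (κ ^ q) := fun q => hκ.pow q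
  have hp1 : ∀ q ∈ 𝒬, aeval (κ ^ q) (p.map (τ q : A →+* A)) = 0 := by
    intro q hq
    have h2 : aeval (a ^ q) (p.map (τ q : A →+* A)) = 0 := by
      have h3 := hP3 q hq
      rw [tw_map_C, eval_map_CA, one_mul] at h3
      rw [hτ]
      exact h3
    have h3 := congrArg (algebraMap A⟮κ⟯ Ω) h2
    rw [map_zero, ← aeval_algebraMap_apply, map_pow, haκ] at h3
    exact h3
  have hd : ∏ q ∈ 𝒬, gq (τ q) (κ ^ q) ∣ p := by
    refine Finset.prod_dvd_of_coprime ?_ fun q hq => gq_dvd _ _ _ (hp1 q hq)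
    intro q hq q' hq' hne
    have hi := gq_irr (τ q) (hint q)
    have hi' := gq_irr (τ q') (hint q')
    refine (hi.coprime_iff_not_dvd).2 fun h3 => hne ?_
    have h4 : gq (τ q) (κ ^ q) = gq (τ q') (κ ^ q') :=
      eq_of_monic_of_associated (gq_monic _ (hint q)) (gq_monic _ (hint q'))
        (hi.associated_of_dvd hi' h3)
    obtain ⟨δ, hδ⟩ := IsAlgClosed.exists_aeval_eq_zero (AlgebraicClosure A) (gq (τ q) (κ ^ q))
      hi.degree_pos.ne'
    have h5 := gq_minpoly (τ q) (κ ^ q) (hκQ.pow q) δ hδ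
    rw [h4] at hδ
    have h6 := gq_minpoly (τ q') (κ ^ q') (hκQ.pow q') δ hδ
    have h2 := Pool.Agent.H4.RR.absLogHeight_eq_of_minpoly_eq Ω _ _ (hκQ.pow q) (h5.symm.trans h6)
    rw [Pool.Agent.H4.RR.absLogHeight_pow Ω κ hκQ, Pool.Agent.H4.RR.absLogHeight_pow Ω κ hκQ] at h2
    have h3 := mul_right_cancel₀ hpos.ne' h2
    exact_mod_cast h3
  have hdeg : (∏ q ∈ 𝒬, gq (τ q) (κ ^ q)).natDegree = 𝒬.card * D := by
    rw [natDegree_prod_of_monic _ _ fun q _ => gq_monic _ (hint q)]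
    have h2 : ∀ q ∈ 𝒬, (gq (τ q) (κ ^ q)).natDegree = D := by
      intro q hq
      rw [gq_deg, ← adjoin.finrank (hint q)]
      exact hfin q hq
    rw [Finset.sum_congr rfl h2, Finset.sum_const, smul_eq_mul]
  have h2 := natDegree_le_of_dvd hd hp
  rw [hdeg] at h2
  rw [degree_eq_natDegree hp] at hpd
  have h3 : p.natDegree < Z * D := by exact_mod_cast hpd
  have h4 : Z * D ≤ 𝒬.card * D := Nat.mul_le_mul_right D hcard.le
  omega

end Pool.Agent.H36.LI
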